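import Pool.Agent.KS6_3.RW.Helper156.RWF.D0

namespace Pool.Agent.Helper156.RWF.J12439

open Pool.Agent.Helper156.RWF
open Filter Topology


section
variable {p : ℕ} [Fact p.Prime]
variable {A : Type} [NormedRing A] [NormedAlgebra ℚ_[p] A] [IsUltrametricDist A] [NormOneClass A]
  [FiniteDimensional ℚ_[p] A]

theorem norm_inv_fact (n : ℕ) (hn : 1 ≤ n) :
    ‖((n.factorial : ℚ_[p])⁻¹)‖ ≤ (p : ℝ) ^ (n - 1) := by
  have hp : p.Prime := Fact.out
  have h1 : ‖(n.factorial : ℚ_[p])‖ = (p:ℝ) ^ (-(padicValNat p n.factorial : ℤ)) := by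
    rw [Padic.norm_eq_zpow_neg_valuation (by exact_mod_cast n.factorial_ne_zero),
      Padic.valuation_natCast]
  have h2 : padicValNat p n.factorial ≤ n - 1 := by
    have h3 := sub_one_mul_padicValNat_factorial_lt_of_ne_zero (p := p) (n := n) (by omega)
    have h4 : 1 ≤ p - 1 := by
      have := hp.two_le
      omega
    have h5 : padicValNat p n.factorial ≤ (p - 1) * padicValNat p n.factorial :=
      Nat.le_mul_of_pos_left _ h4
    omega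
  rw [norm_inv, h1, zpow_neg, inv_inv, zpow_natCast]
  exact pow_le_pow_right₀ (by exact_mod_cast hp.one_lt.le) h2

theorem E_term_le (x : A) (hx : ‖x‖ ≤ ((p : ℝ)⁻¹) ^ 2) (n : ℕ) :
    ‖((n.factorial : ℚ_[p])⁻¹) • x ^ n‖ ≤ ((p : ℝ)⁻¹) ^ n := by
  have hp : p.Prime := Fact.out
  have hp0 : (0 : ℝ) < p := by exact_mod_cast hp.pos
  rcases Nat.eq_zero_or_pos n with rfl | hn
  · simp
  · have h1 : ‖x ^ n‖ ≤ (((p : ℝ)⁻¹) ^ 2) ^ n :=
      (norm_pow_le x n).trans (pow_le_pow_left₀ (norm_nonneg _) hx n)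
    calc ‖((n.factorial : ℚ_[p])⁻¹) • x ^ n‖ = ‖((n.factorial : ℚ_[p])⁻¹)‖ * ‖x ^ n‖ :=
          norm_smul _ _
      _ ≤ (p : ℝ) ^ (n - 1) * (((p : ℝ)⁻¹) ^ 2) ^ n :=
          mul_le_mul (norm_inv_fact n hn) h1 (norm_nonneg _) (by positivity)
      _ ≤ (p : ℝ) ^ n * (((p : ℝ)⁻¹) ^ 2) ^ n := by
          apply mul_le_mul_of_nonneg_right _ (by positivity)
          exact pow_le_pow_right₀ (by exact_mod_cast hp.one_lt.le) (by omega)
      _ = ((p : ℝ)⁻¹) ^ n := by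
          rw [← mul_pow]
          congr 1
          field_simp

theorem E_summable (x : A) (hx : ‖x‖ ≤ ((p : ℝ)⁻¹) ^ 2) :
    Summable (fun n : ℕ => ((n.factorial : ℚ_[p])⁻¹) • x ^ n) := by
  have hp : p.Prime := Fact.out
  have hc : CompleteSpace A := FiniteDimensional.complete ℚ_[p] A
  apply Summable.of_norm_bounded (g := fun n : ℕ => ((p : ℝ)⁻¹) ^ n)
  · apply summable_geometric_of_lt_one (by positivity)
    apply inv_lt_one_of_one_lt₀
    exact_mod_cast hp.one_lt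
  · exact fun n => E_term_le x hx n

theorem E_zero : E p (0 : A) = 1 := by
  unfold E
  rw [tsum_eq_single 0]
  · simp
  · intro n hn
    rw [zero_pow hn, smul_zero]

theorem pow_sub_pow_norm (x y : A) (n : ℕ) :
    ‖x ^ (n + 1) - y ^ (n + 1)‖ ≤ ‖x - y‖ * (max ‖x‖ ‖y‖) ^ n := by
  induction n with
  | zero => simp
  | succ n ih =>
    have h1 : x ^ (n + 1 + 1) - y ^ (n + 1 + 1) =
        x ^ (n + 1) * (x - y) + (x ^ (n + 1) - y ^ (n + 1)) * y := by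
      rw [pow_succ x (n + 1), pow_succ y (n + 1), mul_sub, sub_mul]
      abel
    rw [h1]
    refine (IsUltrametricDist.norm_add_le_max _ _).trans (max_le ?_ ?_)
    · calc ‖x ^ (n + 1) * (x - y)‖ ≤ ‖x ^ (n + 1)‖ * ‖x - y‖ := norm_mul_le _ _
        _ ≤ (max ‖x‖ ‖y‖) ^ (n + 1) * ‖x - y‖ := by
            apply mul_le_mul_of_nonneg_right _ (norm_nonneg _)
            exact (norm_pow_le x _).trans
              (pow_le_pow_left₀ (norm_nonneg _) (le_max_left _ _) _)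
        _ = ‖x - y‖ * (max ‖x‖ ‖y‖) ^ (n + 1) := mul_comm _ _
    · calc ‖(x ^ (n + 1) - y ^ (n + 1)) * y‖ ≤ ‖x ^ (n + 1) - y ^ (n + 1)‖ * ‖y‖ :=
            norm_mul_le _ _
        _ ≤ (‖x - y‖ * (max ‖x‖ ‖y‖) ^ n) * max ‖x‖ ‖y‖ :=
            mul_le_mul ih (le_max_right _ _) (norm_nonneg _) (by positivity)
        _ = ‖x - y‖ * (max ‖x‖ ‖y‖) ^ (n + 1) := by rw [pow_succ]; ring

/-- the basic Lipschitz estimate -/
theorem E_sub_est (x y : A) (hx : ‖x‖ ≤ ((p : ℝ)⁻¹) ^ 2) (hy : ‖y‖ ≤ ((p : ℝ)⁻¹) ^ 2) :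
    ‖E p x - E p y - (x - y)‖ ≤ (p : ℝ) * ‖x - y‖ * max ‖x‖ ‖y‖ := by
  have hp : p.Prime := Fact.out
  have hp0 : (0 : ℝ) < p := by exact_mod_cast hp.pos
  have hp1 : (1 : ℝ) ≤ p := by exact_mod_cast hp.one_lt.le
  have hsx := E_summable x hx
  have hsy := E_summable y hy
  have hs1 : HasSum (fun n : ℕ => if n = 1 then x - y else 0) (x - y) := by
    have := hasSum_ite_eq (1 : ℕ) (x - y)
    exact this
  have hsum : HasSum (fun n : ℕ => ((n.factorial : ℚ_[p])⁻¹) • x ^ n -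
      ((n.factorial : ℚ_[p])⁻¹) • y ^ n - (if n = 1 then x - y else 0))
      (E p x - E p y - (x - y)) := (hsx.hasSum.sub hsy.hasSum).sub hs1
  rw [← hsum.tsum_eq]
  have hm : 0 ≤ max ‖x‖ ‖y‖ := le_max_of_le_left (norm_nonneg _)
  have hm1 : (p : ℝ) * max ‖x‖ ‖y‖ ≤ 1 := by
    have h1 : max ‖x‖ ‖y‖ ≤ ((p : ℝ)⁻¹) ^ 2 := max_le hx hy
    calc (p : ℝ) * max ‖x‖ ‖y‖ ≤ (p : ℝ) * ((p : ℝ)⁻¹) ^ 2 :=
          mul_le_mul_of_nonneg_left h1 hp0.le
      _ = (p : ℝ)⁻¹ := by field_simp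
      _ ≤ 1 := inv_le_one_of_one_le₀ hp1
  apply IsUltrametricDist.norm_tsum_le_of_forall_le_of_nonneg (by positivity)
  intro n
  rcases n with _ | _ | n
  · simp
    positivity
  · simp
    positivity
  · rw [if_neg (by omega), sub_zero, ← smul_sub, norm_smul]
    have h1 := norm_inv_fact (p := p) (n + 1 + 1) (by omega)
    have h2 := pow_sub_pow_norm x y (n + 1)
    have h3 : n + 1 + 1 - 1 = n + 1 := by omega
    rw [h3] at h1
    calc ‖(((n + 1 + 1).factorial : ℚ_[p])⁻¹)‖ * ‖x ^ (n + 1 + 1) - y ^ (n + 1 + 1)‖ ≤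
        (p : ℝ) ^ (n + 1) * (‖x - y‖ * (max ‖x‖ ‖y‖) ^ (n + 1)) :=
          mul_le_mul h1 h2 (norm_nonneg _) (by positivity)
      _ = ((p : ℝ) * ‖x - y‖ * max ‖x‖ ‖y‖) * ((p : ℝ) * max ‖x‖ ‖y‖) ^ n := by
          rw [mul_pow]
          ring
      _ ≤ ((p : ℝ) * ‖x - y‖ * max ‖x‖ ‖y‖) * 1 := by
          apply mul_le_mul_of_nonneg_left _ (by positivity)
          exact pow_le_one₀ (by positivity) hm1
      _ = (p : ℝ) * ‖x - y‖ * max ‖x‖ ‖y‖ := mul_one _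

theorem E_isom (x y : A) (hx : ‖x‖ ≤ ((p : ℝ)⁻¹) ^ 2) (hy : ‖y‖ ≤ ((p : ℝ)⁻¹) ^ 2) :
    ‖E p x - E p y‖ = ‖x - y‖ := by
  have hp : p.Prime := Fact.out
  have hp0 : (0 : ℝ) < p := by exact_mod_cast hp.pos
  by_cases hxy : x = y
  · rw [hxy, sub_self, sub_self]
  · have hpos : 0 < ‖x - y‖ := norm_pos_iff.2 (sub_ne_zero.2 hxy)
    have hest := E_sub_est x y hx hy
    have hlt : ‖E p x - E p y - (x - y)‖ < ‖x - y‖ := by
      refine hest.trans_lt ?_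
      have h1 : max ‖x‖ ‖y‖ ≤ ((p : ℝ)⁻¹) ^ 2 := max_le hx hy
      have hinv : (p : ℝ)⁻¹ < 1 := inv_lt_one_of_one_lt₀ (by exact_mod_cast hp.one_lt)
      calc (p : ℝ) * ‖x - y‖ * max ‖x‖ ‖y‖ ≤ (p : ℝ) * ‖x - y‖ * ((p : ℝ)⁻¹) ^ 2 :=
            mul_le_mul_of_nonneg_left h1 (by positivity)
        _ = (p : ℝ)⁻¹ * ‖x - y‖ := by field_simp
        _ < 1 * ‖x - y‖ := mul_lt_mul_of_pos_right hinv hpos
        _ = ‖x - y‖ := one_mul _
    have h2 : E p x - E p y = (x - y) + (E p x - E p y - (x - y)) := by abel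
    rw [h2, IsUltrametricDist.norm_add_eq_max_of_norm_ne_norm hlt.ne']
    exact max_eq_left hlt.le

end

end Pool.Agent.Helper156.RWF.J12439
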