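import Pool.Agent.KS6_3.RW.Helper156.RWF.D0
import Pool.Agent.KS6_3.RW.Helper156.RWF.J12439
import Pool.Agent.KS6_3.RW.Helper156.RWF.J12441

namespace Pool.Agent.Helper156.RWF.J12442

open Pool.Agent.Helper156.RWF Pool.Agent.Helper156.RWF.J12439 Pool.Agent.Helper156.RWF.J12441
open Filter Topology


section
variable {p : ℕ} [Fact p.Prime]
variable {A : Type} [NormedRing A] [NormedAlgebra ℚ_[p] A] [IsUltrametricDist A] [NormOneClass A]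
  [FiniteDimensional ℚ_[p] A]


theorem rwq_P : (1 : ℝ) ≤ (p : ℝ) := by
  exact_mod_cast (Fact.out : p.Prime).one_lt.le

theorem rwq_q (k : ℕ) (hk : 2 ≤ k) : ((p : ℝ)⁻¹) ^ k ≤ ((p : ℝ)⁻¹) ^ 2 := by
  have hP : (1 : ℝ) ≤ (p : ℝ) := rwq_P
  exact pow_le_pow_of_le_one (by positivity) (inv_le_one_of_one_le₀ hP) hk

theorem rwq_le_one (x : A) (hx : ‖x‖ ≤ ((p : ℝ)⁻¹) ^ 2) : ‖x‖ ≤ 1 := by
  have hP : (1 : ℝ) ≤ (p : ℝ) := rwq_P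
  exact hx.trans (pow_le_one₀ (by positivity) (inv_le_one_of_one_le₀ hP))

theorem rwq_P_mul (x : A) (hx : ‖x‖ ≤ ((p : ℝ)⁻¹) ^ 2) : (p : ℝ) * ‖x‖ ≤ 1 := by
  have hP : (1 : ℝ) ≤ (p : ℝ) := rwq_P
  have hP0 : (0 : ℝ) < (p : ℝ) := by linarith
  calc (p : ℝ) * ‖x‖ ≤ (p : ℝ) * ((p : ℝ)⁻¹) ^ 2 := by gcongr
    _ = (p : ℝ)⁻¹ := by field_simp
    _ ≤ 1 := inv_le_one_of_one_le₀ hP

theorem rwq_add (x y : A) (B : ℝ) (hx : ‖x‖ ≤ B) (hy : ‖y‖ ≤ B) : ‖x + y‖ ≤ B :=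
  (IsUltrametricDist.norm_add_le_max x y).trans (max_le hx hy)

theorem rwq_sub (x y : A) (B : ℝ) (hx : ‖x‖ ≤ B) (hy : ‖y‖ ≤ B) : ‖x - y‖ ≤ B := by
  rw [sub_eq_add_neg]
  exact rwq_add x (-y) B hx (by rwa [norm_neg])

theorem rwq_mul (P a b m : ℝ) (hP : 1 ≤ P) (ha : 0 ≤ a) (hb : 0 ≤ b) (hm : a ≤ m) :
    a * b ≤ P * b * m := by
  have h1 : a * b ≤ m * b := mul_le_mul_of_nonneg_right hm hb
  have h2 : 0 ≤ m * b := mul_nonneg (ha.trans hm) hb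
  nlinarith

theorem rwq_E1 (x : A) (hx : ‖x‖ ≤ ((p : ℝ)⁻¹) ^ 2) : ‖E p x - 1‖ = ‖x‖ := by
  have h0 : ‖(0 : A)‖ ≤ ((p : ℝ)⁻¹) ^ 2 := by rw [norm_zero]; positivity
  have := E_isom (p := p) x 0 hx h0
  rwa [E_zero, sub_zero] at this

theorem rwq_E2 (x : A) (hx : ‖x‖ ≤ ((p : ℝ)⁻¹) ^ 2) :
    ‖E p x - 1 - x‖ ≤ (p : ℝ) * ‖x‖ * ‖x‖ := by
  have h0 : ‖(0 : A)‖ ≤ ((p : ℝ)⁻¹) ^ 2 := by rw [norm_zero]; positivity
  have := E_sub_est (p := p) x 0 hx h0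
  rwa [E_zero, sub_zero, norm_zero, max_eq_left (norm_nonneg x)] at this

theorem rwq_E3 (x : A) (hx : ‖x‖ ≤ ((p : ℝ)⁻¹) ^ 2) : ‖E p x‖ ≤ 1 := by
  have h1 : E p x = (E p x - 1) + 1 := by abel
  rw [h1]
  refine rwq_add _ _ _ ?_ (by rw [norm_one])
  rw [rwq_E1 x hx]
  exact rwq_le_one (p := p) x hx

theorem rwq_est1 (x y : A) (hx : ‖x‖ ≤ ((p : ℝ)⁻¹) ^ 2) (hy : ‖y‖ ≤ ((p : ℝ)⁻¹) ^ 2) :
    ‖E p x * E p y - E p (x + y)‖ ≤ (p : ℝ) * ‖y‖ * max ‖x‖ ‖y‖ := by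
  have hP : (1 : ℝ) ≤ (p : ℝ) := rwq_P
  have hxy : ‖x + y‖ ≤ ((p : ℝ)⁻¹) ^ 2 := rwq_add _ _ _ hx hy
  have e1 : E p x * E p y - E p (x + y) =
      (E p x - 1) * (E p y - 1) + (E p y - 1 - y) - (E p (x + y) - E p x - ((x + y) - x)) := by
    noncomm_ring
  rw [e1]
  refine rwq_sub _ _ _ (rwq_add _ _ _ ?_ ?_) ?_
  · refine (norm_mul_le _ _).trans ?_
    rw [rwq_E1 x hx, rwq_E1 y hy]
    exact rwq_mul _ _ _ _ hP (norm_nonneg _) (norm_nonneg _) (le_max_left _ _)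
  · refine (rwq_E2 y hy).trans ?_
    exact mul_le_mul_of_nonneg_left (le_max_right _ _) (by positivity)
  · refine (E_sub_est (x + y) x hxy hx).trans ?_
    rw [add_sub_cancel_left]
    refine mul_le_mul_of_nonneg_left ?_ (by positivity)
    exact max_le (IsUltrametricDist.norm_add_le_max x y) (le_max_left _ _)

theorem rwq_est2 (x y : A) (hx : ‖x‖ ≤ ((p : ℝ)⁻¹) ^ 2) (hy : ‖y‖ ≤ ((p : ℝ)⁻¹) ^ 2) :
    ‖E p x * E p y - E p (x + y)‖ ≤ (p : ℝ) * ‖x‖ * max ‖x‖ ‖y‖ := by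
  have hP : (1 : ℝ) ≤ (p : ℝ) := rwq_P
  have hxy : ‖x + y‖ ≤ ((p : ℝ)⁻¹) ^ 2 := rwq_add _ _ _ hx hy
  have e1 : E p x * E p y - E p (x + y) =
      (E p x - 1) * (E p y - 1) + (E p x - 1 - x) - (E p (x + y) - E p y - ((x + y) - y)) := by
    noncomm_ring
  rw [e1]
  refine rwq_sub _ _ _ (rwq_add _ _ _ ?_ ?_) ?_
  · refine (norm_mul_le _ _).trans ?_
    rw [rwq_E1 x hx, rwq_E1 y hy, mul_comm]
    exact rwq_mul _ _ _ _ hP (norm_nonneg _) (norm_nonneg _) (le_max_right _ _)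
  · refine (rwq_E2 x hx).trans ?_
    exact mul_le_mul_of_nonneg_left (le_max_left _ _) (by positivity)
  · refine (E_sub_est (x + y) y hxy hy).trans ?_
    rw [add_sub_cancel_right]
    refine mul_le_mul_of_nonneg_left ?_ (by positivity)
    exact max_le (IsUltrametricDist.norm_add_le_max x y) (le_max_right _ _)

theorem E_mul_est (x y : A) (hx : ‖x‖ ≤ ((p : ℝ)⁻¹) ^ 2) (hy : ‖y‖ ≤ ((p : ℝ)⁻¹) ^ 2) :
    ‖E p x * E p y - E p (x + y)‖ ≤ (p : ℝ) * ‖x‖ * ‖y‖ ∧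
    ‖E p x * E p y - E p (x + y)‖ ≤ (p : ℝ) * ‖x + y‖ * max ‖x‖ ‖y‖ := by
  have hP : (1 : ℝ) ≤ (p : ℝ) := rwq_P
  constructor
  · rcases le_total ‖x‖ ‖y‖ with h | h
    · have := rwq_est2 x y hx hy
      rwa [max_eq_right h] at this
    · have := rwq_est1 x y hx hy
      rw [max_eq_left h] at this
      linarith
  · have hxy : ‖x + y‖ ≤ ((p : ℝ)⁻¹) ^ 2 := rwq_add _ _ _ hx hy
    have hny : ‖-y‖ ≤ ((p : ℝ)⁻¹) ^ 2 := by rwa [norm_neg]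
    have hneg : E p (-y) * E p y = 1 := by
      have := E_neg (p := p) (-y) hny
      rwa [neg_neg] at this
    have e1 : E p x * E p y - E p (x + y) =
        (E p x - E p (-y)) * (E p y - 1) + (E p x - E p (-y) - (x - -y)) -
          (E p (x + y) - 1 - (x + y)) := by
      have e2 : (E p x - E p (-y)) * (E p y - 1) =
          E p x * E p y - E p (-y) * E p y - E p x + E p (-y) := by noncomm_ring
      rw [e2, hneg]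
      abel
    rw [e1]
    refine rwq_sub _ _ _ (rwq_add _ _ _ ?_ ?_) ?_
    · refine (norm_mul_le _ _).trans ?_
      rw [E_isom x (-y) hx hny, rwq_E1 y hy, sub_neg_eq_add, mul_comm]
      exact rwq_mul _ _ _ _ hP (norm_nonneg _) (norm_nonneg _) (le_max_right _ _)
    · refine (E_sub_est x (-y) hx hny).trans ?_
      rw [sub_neg_eq_add, norm_neg]
    · refine (rwq_E2 (x + y) hxy).trans ?_
      exact mul_le_mul_of_nonneg_left (IsUltrametricDist.norm_add_le_max x y) (by positivity)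

theorem E_mul_log (k : ℕ) (hk : 2 ≤ k) (x y : A) (hx : ‖x‖ ≤ ((p : ℝ)⁻¹) ^ k)
    (hy : ‖y‖ ≤ ((p : ℝ)⁻¹) ^ k) :
    ∃ z : A, ‖z‖ ≤ ((p : ℝ)⁻¹) ^ k ∧ E p z = E p x * E p y ∧
      ‖z - (x + y)‖ ≤ (p : ℝ) * ‖x‖ * ‖y‖ ∧
      ‖z - (x + y)‖ ≤ (p : ℝ) * ‖x + y‖ * max ‖x‖ ‖y‖ := by
  have hq : ((p : ℝ)⁻¹) ^ k ≤ ((p : ℝ)⁻¹) ^ 2 := rwq_q k hk
  have hx2 := hx.trans hq
  have hy2 := hy.trans hq
  have ha : ‖E p x * E p y - 1‖ ≤ ((p : ℝ)⁻¹) ^ k := by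
    have e1 : E p x * E p y - 1 = (E p x - 1) * E p y + (E p y - 1) := by noncomm_ring
    rw [e1]
    refine rwq_add _ _ _ ?_ (by rw [rwq_E1 y hy2]; exact hy)
    refine (norm_mul_le _ _).trans ?_
    rw [rwq_E1 x hx2]
    calc ‖x‖ * ‖E p y‖ ≤ ‖x‖ * 1 := mul_le_mul_of_nonneg_left (rwq_E3 y hy2) (norm_nonneg _)
      _ = ‖x‖ := mul_one _
      _ ≤ _ := hx
  obtain ⟨z, hz, hEz⟩ := E_surj k hk _ ha
  have hxy : ‖x + y‖ ≤ ((p : ℝ)⁻¹) ^ 2 := rwq_add _ _ _ hx2 hy2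
  have h1 : ‖z - (x + y)‖ = ‖E p x * E p y - E p (x + y)‖ := by
    rw [← hEz]
    exact (E_isom z (x + y) (hz.trans hq) hxy).symm
  refine ⟨z, hz, hEz, ?_, ?_⟩
  · rw [h1]
    exact (E_mul_est x y hx2 hy2).1
  · rw [h1]
    exact (E_mul_est x y hx2 hy2).2

theorem E_comm_log (k : ℕ) (hk : 2 ≤ k) (x y : A) (hx : ‖x‖ ≤ ((p : ℝ)⁻¹) ^ k)
    (hy : ‖y‖ ≤ ((p : ℝ)⁻¹) ^ k) :
    ∃ z : A, ‖z‖ ≤ ((p : ℝ)⁻¹) ^ k ∧ E p z = E p x * E p y * E p (-x) * E p (-y) ∧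
      ‖z - (x * y - y * x)‖ ≤ (p : ℝ) * ‖x‖ * ‖y‖ * max ‖x‖ ‖y‖ := by
  have hP : (1 : ℝ) ≤ (p : ℝ) := rwq_P
  have hq : ((p : ℝ)⁻¹) ^ k ≤ ((p : ℝ)⁻¹) ^ 2 := rwq_q k hk
  have hx2 := hx.trans hq
  have hy2 := hy.trans hq
  have hnx : ‖-x‖ ≤ ((p : ℝ)⁻¹) ^ 2 := by rwa [norm_neg]
  have huv : E p x * E p (-x) = 1 := E_neg x hx2
  have hvu : E p (-x) * E p x = 1 := by
    have := E_neg (p := p) (-x) hnx
    rwa [neg_neg] at this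
  have hu1 := rwq_E3 x hx2
  have hv1 := rwq_E3 (-x) hnx
  set u := E p x with hu
  set v := E p (-x) with hv
  have hEy' : E p (u * y * v) = u * E p y * v := E_conj u v y huv hvu hy2
  have hy'n : ‖u * y * v‖ ≤ ‖y‖ := by
    calc ‖u * y * v‖ ≤ ‖u‖ * ‖y‖ * ‖v‖ :=
          (norm_mul_le _ _).trans (mul_le_mul_of_nonneg_right (norm_mul_le _ _) (norm_nonneg _))
      _ ≤ 1 * ‖y‖ * 1 := by gcongr
      _ = ‖y‖ := by ring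
  have hdiff : ‖u * y * v - y - (x * y - y * x)‖ ≤ (p : ℝ) * ‖x‖ * ‖x‖ * ‖y‖ := by
    have e1 : u * y * v - y - (x * y - y * x) =
        (u - 1 - x) * y * v + y * (v - 1 - (-x)) + x * y * (v - 1) := by noncomm_ring
    rw [e1]
    refine rwq_add _ _ _ (rwq_add _ _ _ ?_ ?_) ?_
    · calc ‖(u - 1 - x) * y * v‖ ≤ ‖u - 1 - x‖ * ‖y‖ * ‖v‖ :=
            (norm_mul_le _ _).trans (mul_le_mul_of_nonneg_right (norm_mul_le _ _) (norm_nonneg _))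
        _ ≤ ((p : ℝ) * ‖x‖ * ‖x‖) * ‖y‖ * 1 := by
            gcongr
            exact rwq_E2 x hx2
        _ = _ := by ring
    · calc ‖y * (v - 1 - (-x))‖ ≤ ‖y‖ * ‖v - 1 - (-x)‖ := norm_mul_le _ _
        _ ≤ ‖y‖ * ((p : ℝ) * ‖-x‖ * ‖-x‖) := by
            gcongr
            exact rwq_E2 (-x) hnx
        _ = _ := by rw [norm_neg]; ring
    · calc ‖x * y * (v - 1)‖ ≤ ‖x‖ * ‖y‖ * ‖v - 1‖ :=
            (norm_mul_le _ _).trans (mul_le_mul_of_nonneg_right (norm_mul_le _ _) (norm_nonneg _))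
        _ = 1 * (‖x‖ * ‖x‖ * ‖y‖) := by rw [rwq_E1 (-x) hnx, norm_neg]; ring
        _ ≤ (p : ℝ) * (‖x‖ * ‖x‖ * ‖y‖) := by gcongr
        _ = _ := by ring
  have hpx := rwq_P_mul (p := p) x hx2
  have hxyn : 0 ≤ ‖x‖ * ‖y‖ := by positivity
  have hdiff2 : ‖u * y * v + -y‖ ≤ ‖x‖ * ‖y‖ := by
    have e1 : u * y * v + -y = (u * y * v - y - (x * y - y * x)) + (x * y - y * x) := by abel
    rw [e1]
    refine rwq_add _ _ _ (hdiff.trans ?_) (rwq_sub _ _ _ (norm_mul_le _ _) ?_)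
    · calc (p : ℝ) * ‖x‖ * ‖x‖ * ‖y‖ = ((p : ℝ) * ‖x‖) * (‖x‖ * ‖y‖) := by ring
        _ ≤ 1 * (‖x‖ * ‖y‖) := mul_le_mul_of_nonneg_right hpx hxyn
        _ = _ := one_mul _
    · rw [mul_comm ‖x‖]
      exact norm_mul_le _ _
  obtain ⟨z, hz, hEz, -, hz2⟩ := E_mul_log k hk (u * y * v) (-y) (hy'n.trans hy)
    (by rwa [norm_neg])
  refine ⟨z, hz, ?_, ?_⟩
  · rw [hEz, hEy']
  · have e1 : z - (x * y - y * x) = (z - (u * y * v + -y)) +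
        (u * y * v - y - (x * y - y * x)) := by abel
    rw [e1]
    refine rwq_add _ _ _ (hz2.trans ?_) (hdiff.trans ?_)
    · rw [norm_neg, max_eq_right hy'n]
      calc (p : ℝ) * ‖u * y * v + -y‖ * ‖y‖ ≤ (p : ℝ) * (‖x‖ * ‖y‖) * max ‖x‖ ‖y‖ := by
            gcongr
            exact le_max_right _ _
        _ = _ := by ring
    · calc (p : ℝ) * ‖x‖ * ‖x‖ * ‖y‖ = (p : ℝ) * ‖x‖ * ‖y‖ * ‖x‖ := by ring
        _ ≤ _ := by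
            gcongr
            exact le_max_left _ _

end

end Pool.Agent.Helper156.RWF.J12442
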