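import Pool.Agent.KS6_3.RW.Helper156.RWF.D0
import Pool.Agent.KS6_3.RW.Helper156.RWF.J12439
import Pool.Agent.KS6_3.RW.Helper156.RWF.J12441
import Pool.Agent.KS6_3.RW.Helper156.RWF.J12442

namespace Pool.Agent.Helper156.RWF.J12456

open Pool.Agent.Helper156.RWF Pool.Agent.Helper156.RWF.J12439 Pool.Agent.Helper156.RWF.J12441 Pool.Agent.Helper156.RWF.J12442
open Filter Topology


section
variable {p : ℕ} [Fact p.Prime]
variable {A : Type} [NormedRing A] [NormedAlgebra ℚ_[p] A] [IsUltrametricDist A] [NormOneClass A]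
  [FiniteDimensional ℚ_[p] A]


theorem mem_of_approx235 (G : Set A) (hG : IsCptGrp G) (a : A)
    (h : ∀ ε : ℝ, 0 < ε → ∃ b ∈ G, ‖a - b‖ < ε) : a ∈ G := by
  have hc : IsClosed G := hG.isCompact.isClosed
  rw [← hc.closure_eq, Metric.mem_closure_iff]
  intro ε hε
  obtain ⟨b, hb, hab⟩ := h ε hε
  exact ⟨b, hb, by rw [dist_eq_norm]; exact hab⟩

theorem pow_mem235 (G : Set A) (hG : IsCptGrp G) (a : A) (ha : a ∈ G) (n : ℕ) : a ^ n ∈ G := by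
  induction n with
  | zero => rw [pow_zero]; exact hG.one_mem
  | succ n ih => rw [pow_succ]; exact hG.mul_mem _ ih _ ha

theorem descend235 (G : Set A) (m : ℕ)
    (hroot : ∀ k, m ≤ k → ∀ x : A, ‖x‖ ≤ ((p : ℝ)⁻¹) ^ k →
      E p ((p : ℚ_[p]) • x) ∈ G → E p x ∈ G) (j : ℕ) (z : A) (hz : ‖z‖ ≤ ((p : ℝ)⁻¹) ^ m)
    (h : E p (((p : ℚ_[p]) ^ j) • z) ∈ G) : E p z ∈ G := by
  have hp1 : (1 : ℝ) < p := by exact_mod_cast (Fact.out : p.Prime).one_lt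
  have hc0 : (0 : ℝ) < (p : ℝ)⁻¹ := by positivity
  have hc1 : (p : ℝ)⁻¹ ≤ 1 := inv_le_one_of_one_le₀ hp1.le
  induction j with
  | zero =>
    rw [pow_zero, one_smul] at h
    exact h
  | succ j ih =>
    apply ih
    rw [pow_succ', mul_smul] at h
    refine hroot m le_rfl _ ?_ h
    rw [norm_smul, norm_pow, Padic.norm_p]
    calc ((p : ℝ)⁻¹) ^ j * ‖z‖ ≤ 1 * ‖z‖ :=
          mul_le_mul_of_nonneg_right (pow_le_one₀ hc0.le hc1) (norm_nonneg _)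
      _ ≤ _ := by rw [one_mul]; exact hz

theorem natcast_smul235 (n : ℕ) (x : A) : ((n : ℚ_[p])) • x = n • x :=
  Nat.cast_smul_eq_nsmul ℚ_[p] n x

theorem add_closed (G : Set A) (hG : IsCptGrp G) (m : ℕ) (hm : 2 ≤ m)
    (hroot : ∀ k, m ≤ k → ∀ x : A, ‖x‖ ≤ ((p : ℝ)⁻¹) ^ k →
      E p ((p : ℚ_[p]) • x) ∈ G → E p x ∈ G)
    (x y : A) (hx : ‖x‖ ≤ ((p : ℝ)⁻¹) ^ m) (hy : ‖y‖ ≤ ((p : ℝ)⁻¹) ^ m)
    (hxG : E p x ∈ G) (hyG : E p y ∈ G) : E p (x + y) ∈ G := by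
  have hp1 : (1 : ℝ) < p := by exact_mod_cast (Fact.out : p.Prime).one_lt
  have hp0 : (0 : ℝ) < p := by linarith
  have hc0 : (0 : ℝ) < (p : ℝ)⁻¹ := by positivity
  have hc1 : (p : ℝ)⁻¹ < 1 := inv_lt_one_of_one_lt₀ hp1
  have hcm : ((p : ℝ)⁻¹) ^ m ≤ ((p : ℝ)⁻¹) ^ 2 := pow_le_pow_of_le_one hc0.le hc1.le hm
  have hcm1 : ((p : ℝ)⁻¹) ^ m ≤ 1 := pow_le_one₀ hc0.le hc1.le
  have hxy : ‖x + y‖ ≤ ((p : ℝ)⁻¹) ^ 2 :=
    (IsUltrametricDist.norm_add_le_max x y).trans (max_le (hx.trans hcm) (hy.trans hcm))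
  have hpp : (p : ℚ_[p]) ≠ 0 := by
    exact_mod_cast (Fact.out : p.Prime).ne_zero
  have hmem : ∀ (j : ℕ) (w : A), ‖w‖ ≤ ((p : ℝ)⁻¹) ^ m → E p w ∈ G →
      E p (((p : ℚ_[p]) ^ j) • w) ∈ G := by
    intro j w hw hwG
    have e : ((p : ℚ_[p]) ^ j) • w = (p ^ j) • w := by
      rw [← natcast_smul235 (p := p), Nat.cast_pow]
    rw [e, E_nsmul _ _ (hw.trans hcm)]
    exact pow_mem235 G hG _ hwG _
  have hnorm : ∀ (j : ℕ) (w : A), ‖((p : ℚ_[p]) ^ j) • w‖ = ((p : ℝ)⁻¹) ^ j * ‖w‖ := by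
    intro j w
    rw [norm_smul, norm_pow, Padic.norm_p]
  have key : ∀ j : ℕ, ∃ z : A, ‖z‖ ≤ ((p : ℝ)⁻¹) ^ m ∧ ‖z - (x + y)‖ ≤ p * ((p : ℝ)⁻¹) ^ j ∧
      E p z ∈ G := by
    intro j
    obtain ⟨z, hz, hzE, hz2, _⟩ := E_mul_log (p := p) (m + j) (by omega)
      (((p : ℚ_[p]) ^ j) • x) (((p : ℚ_[p]) ^ j) • y)
      (by
        rw [hnorm, pow_add, mul_comm]
        exact mul_le_mul_of_nonneg_right hx (by positivity))
      (by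
        rw [hnorm, pow_add, mul_comm]
        exact mul_le_mul_of_nonneg_right hy (by positivity))
    have hzG : E p z ∈ G := by
      rw [hzE]
      exact hG.mul_mem _ (hmem j x hx hxG) _ (hmem j y hy hyG)
    have hzz : ((p : ℚ_[p]) ^ j) • (((p : ℚ_[p]) ^ j)⁻¹ • z) = z := by
      rw [smul_smul, mul_inv_cancel₀ (pow_ne_zero _ hpp), one_smul]
    have hn1 : ‖((p : ℚ_[p]) ^ j)⁻¹ • z‖ ≤ ((p : ℝ)⁻¹) ^ m := by
      have h1 := hnorm j (((p : ℚ_[p]) ^ j)⁻¹ • z)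
      rw [hzz] at h1
      rw [h1, pow_add, mul_comm] at hz
      exact le_of_mul_le_mul_right hz (by positivity)
    refine ⟨((p : ℚ_[p]) ^ j)⁻¹ • z, hn1, ?_, ?_⟩
    · have h1 := hnorm j (((p : ℚ_[p]) ^ j)⁻¹ • z - (x + y))
      rw [smul_sub, hzz, smul_add] at h1
      rw [h1, hnorm, hnorm] at hz2
      have h2 : ((p : ℝ)⁻¹) ^ j * ‖((p : ℚ_[p]) ^ j)⁻¹ • z - (x + y)‖
          ≤ ((p : ℝ)⁻¹) ^ j * (p * ((p : ℝ)⁻¹) ^ j * (‖x‖ * ‖y‖)) := by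
        refine hz2.trans (le_of_eq ?_)
        ring
      have h3 := le_of_mul_le_mul_left h2 (by positivity)
      refine h3.trans ?_
      have h4 : ‖x‖ * ‖y‖ ≤ 1 := by
        calc ‖x‖ * ‖y‖ ≤ 1 * 1 :=
              mul_le_mul (hx.trans hcm1) (hy.trans hcm1) (norm_nonneg _) (by norm_num)
          _ = 1 := one_mul 1
      calc (p : ℝ) * ((p : ℝ)⁻¹) ^ j * (‖x‖ * ‖y‖) ≤ p * ((p : ℝ)⁻¹) ^ j * 1 :=
            mul_le_mul_of_nonneg_left h4 (by positivity)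
        _ = _ := mul_one _
    · apply descend235 G m hroot j _ hn1
      rw [hzz]
      exact hzG
  apply mem_of_approx235 G hG
  intro ε hε
  obtain ⟨j, hj⟩ := exists_pow_lt_of_lt_one (show 0 < ε / p by positivity) hc1
  obtain ⟨z, hz1, hz2, hz3⟩ := key j
  refine ⟨E p z, hz3, ?_⟩
  rw [E_isom _ _ hxy (hz1.trans hcm), norm_sub_rev]
  refine lt_of_le_of_lt hz2 ?_
  rw [lt_div_iff₀ hp0] at hj
  linarith

theorem smul_closed (G : Set A) (hG : IsCptGrp G) (t : ℚ_[p]) (ht : ‖t‖ ≤ 1)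
    (x : A) (hx : ‖x‖ ≤ ((p : ℝ)⁻¹) ^ 2) (hxG : E p x ∈ G) : E p (t • x) ∈ G := by
  have hp1 : (1 : ℝ) < p := by exact_mod_cast (Fact.out : p.Prime).one_lt
  have hc0 : (0 : ℝ) < (p : ℝ)⁻¹ := by positivity
  have hc1 : (p : ℝ)⁻¹ < 1 := inv_lt_one_of_one_lt₀ hp1
  have hx1 : ‖x‖ ≤ 1 := hx.trans (pow_le_one₀ hc0.le hc1.le)
  have hsm : ∀ s : ℚ_[p], ‖s‖ ≤ 1 → ‖s • x‖ ≤ ((p : ℝ)⁻¹) ^ 2 := by
    intro s hs
    rw [norm_smul]
    calc ‖s‖ * ‖x‖ ≤ 1 * ‖x‖ := mul_le_mul_of_nonneg_right hs (norm_nonneg _)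
      _ ≤ _ := by rw [one_mul]; exact hx
  apply mem_of_approx235 G hG
  intro ε hε
  obtain ⟨n, hn⟩ := (PadicInt.denseRange_natCast (p := p)).exists_dist_lt (⟨t, ht⟩ : ℤ_[p]) hε
  have hn' : ‖t - (n : ℚ_[p])‖ < ε := by
    rw [dist_eq_norm, PadicInt.norm_def] at hn
    simpa using hn
  have hn1 : ‖(n : ℚ_[p])‖ ≤ 1 := by
    have := PadicInt.norm_le_one (n : ℤ_[p])
    rw [PadicInt.norm_def] at this
    simpa using this
  refine ⟨E p ((n : ℚ_[p]) • x), ?_, ?_⟩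
  · rw [natcast_smul235, E_nsmul _ _ hx]
    exact pow_mem235 G hG _ hxG _
  · rw [E_isom _ _ (hsm t ht) (hsm _ hn1), ← sub_smul, norm_smul]
    calc ‖t - (n : ℚ_[p])‖ * ‖x‖ ≤ ‖t - (n : ℚ_[p])‖ * 1 :=
          mul_le_mul_of_nonneg_left hx1 (norm_nonneg _)
      _ < ε := by rw [mul_one]; exact hn'

end

end Pool.Agent.Helper156.RWF.J12456
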