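import Pool.Agent.KS6_3.RW.Helper156.RWF.D0

namespace Pool.Agent.Helper156.RWF.J12512

open Pool.Agent.Helper156.RWF
open Filter Topology


section
variable {p : ℕ} [Fact p.Prime]
variable {A : Type} [NormedRing A] [NormedAlgebra ℚ_[p] A] [IsUltrametricDist A] [NormOneClass A]
  [FiniteDimensional ℚ_[p] A]

open Polynomial in
/-- a linear map all of whose positive powers have trace zero is nilpotent -/
theorem aic_nilpotent {K V : Type} [Field K] [CharZero K] [AddCommGroup V] [Module K V]
    [FiniteDimensional K V] (c : Module.End K V)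
    (h : ∀ k : ℕ, LinearMap.trace K V (c ^ (k + 1)) = 0) : IsNilpotent c := by
  have hmp : minpoly K c ≠ 0 := minpoly.ne_zero (Algebra.IsIntegral.isIntegral c)
  obtain ⟨r, hr, hnd⟩ := Polynomial.exists_eq_pow_rootMultiplicity_mul_and_not_dvd (minpoly K c) hmp 0
  set m := (minpoly K c).rootMultiplicity 0 with hm
  rw [map_zero, sub_zero] at hr hnd
  have hcop : IsCoprime (X ^ (m + 1) : K[X]) r := by
    apply IsCoprime.pow_left
    exact (Polynomial.irreducible_X.coprime_iff_not_dvd).mpr hnd
  obtain ⟨u, v, huv⟩ := hcop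
  have hq : aeval c (X ^ (m + 1) * r : K[X]) = 0 := by
    have : (X ^ (m + 1) * r : K[X]) = X * minpoly K c := by
      rw [hr]; ring
    rw [this, map_mul, minpoly.aeval, mul_zero]
  obtain ⟨e, he⟩ : ∃ e, e = aeval c (u * X ^ (m + 1)) := ⟨_, rfl⟩
  have he1 : e + aeval c (v * r) = 1 := by
    rw [he, ← map_add, huv, map_one]
  have he2 : e * aeval c (v * r) = 0 := by
    rw [he, ← map_mul]
    have : u * X ^ (m + 1) * (v * r) = u * v * (X ^ (m + 1) * r) := by ring
    rw [this, map_mul, hq, mul_zero]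
  have hid : IsIdempotentElem e := by
    have h1 : e * (e + aeval c (v * r)) = e * 1 := by rw [he1]
    rw [mul_add, he2, add_zero, mul_one] at h1
    exact h1
  have htr : LinearMap.trace K V e = 0 := by
    rw [he, mul_comm, pow_succ, mul_assoc]
    have hgen : ∀ p : K[X], LinearMap.trace K V (aeval c (X * p)) = 0 := by
      intro p
      induction p using Polynomial.induction_on' with
      | add p q hp hq => rw [mul_add, map_add, map_add, hp, hq, add_zero]
      | monomial n a =>
        have : aeval c (X * monomial n a : K[X]) = a • c ^ (n + 1) := by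
          rw [map_mul, aeval_X, aeval_monomial, ← Algebra.smul_def, mul_smul_comm, pow_succ']
        rw [this, map_smul, h n, smul_zero]
    have : (X ^ m * (X * u) : K[X]) = X * (X ^ m * u) := by ring
    rw [this]
    exact hgen _
  have he0 : e = 0 := by
    obtain ⟨p, hp⟩ := (LinearMap.isProj_iff_isIdempotentElem e).mpr hid
    have h1 := hp.trace
    rw [htr] at h1
    have h2 : Module.finrank K p = 0 := by exact_mod_cast h1.symm
    have h3 : p = ⊥ := Submodule.finrank_eq_zero.mp h2
    apply LinearMap.ext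
    intro x
    have h4 := hp.map_mem x
    rw [h3, Submodule.mem_bot] at h4
    rw [h4]; rfl
  refine ⟨m + 1, ?_⟩
  rw [he0, zero_add] at he1
  have h5 : c ^ (m + 1) * aeval c (v * r) = 0 := by
    have h6 : c ^ (m + 1) = aeval c (X ^ (m + 1) : K[X]) := by rw [map_pow, aeval_X]
    rw [h6, ← map_mul]
    have : (X ^ (m + 1) * (v * r) : K[X]) = v * (X ^ (m + 1) * r) := by ring
    rw [this, map_mul, hq, mul_zero]
  rwa [he1, mul_one] at h5

/-- commuting nilpotent maps stabilising a nonzero subspace have a common kernel vector in it -/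
theorem aic_common {K V : Type} [Field K] [AddCommGroup V] [Module K V]
    [FiniteDimensional K V] (h : Set (Module.End K V)) (hc : ∀ x ∈ h, ∀ y ∈ h, x * y = y * x)
    (hn : ∀ x ∈ h, IsNilpotent x) :
    ∀ (n : ℕ) (W : Submodule K V), Module.finrank K W ≤ n → W ≠ ⊥ → (∀ x ∈ h, ∀ w ∈ W, x w ∈ W) →
      ∃ w ∈ W, w ≠ 0 ∧ ∀ x ∈ h, x w = 0 := by
  intro n
  induction n with
  | zero =>
    intro W hW hne _
    exact absurd (Submodule.finrank_eq_zero.mp (Nat.le_zero.mp hW)) hne
  | succ n ih =>
    intro W hW hne hst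
    by_cases hall : ∀ x ∈ h, ∀ w ∈ W, x w = 0
    · obtain ⟨w, hw, hw0⟩ := Submodule.exists_mem_ne_zero_of_ne_bot hne
      exact ⟨w, hw, hw0, fun x hx => hall x hx w hw⟩
    · push Not at hall
      obtain ⟨c, hc1, w0, hw0, hcw0⟩ := hall
      have hW1 : (W ⊓ LinearMap.ker c) ≠ ⊥ := by
        obtain ⟨w, hw, hwne⟩ := Submodule.exists_mem_ne_zero_of_ne_bot hne
        obtain ⟨N, hN⟩ := hn c hc1
        have hex : ∃ k : ℕ, (c ^ k) w = 0 := ⟨N, by rw [hN]; rfl⟩
        classical
        have hk := Nat.find_spec hex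
        have hk0 : Nat.find hex ≠ 0 := by
          intro h0
          rw [h0, pow_zero] at hk
          exact hwne hk
        obtain ⟨k, hkk⟩ := Nat.exists_eq_succ_of_ne_zero hk0
        have hlt : (c ^ k) w ≠ 0 := Nat.find_min hex (by omega)
        rw [hkk, Nat.succ_eq_add_one, pow_succ'] at hk
        have hmem : ∀ j : ℕ, (c ^ j) w ∈ W := by
          intro j
          induction j with
          | zero => exact hw
          | succ j ihj => rw [pow_succ']; exact hst c hc1 _ ihj
        intro hbot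
        have : (c ^ k) w ∈ W ⊓ LinearMap.ker c := ⟨hmem k, hk⟩
        rw [hbot, Submodule.mem_bot] at this
        exact hlt this
      have hlt : W ⊓ LinearMap.ker c < W := by
        refine lt_of_le_of_ne inf_le_left ?_
        intro heq
        have : w0 ∈ W ⊓ LinearMap.ker c := by rw [heq]; exact hw0
        exact hcw0 this.2
      have hfr := Submodule.finrank_lt_finrank_of_lt hlt
      obtain ⟨w, hw, hwne, hwk⟩ := ih (W ⊓ LinearMap.ker c) (by omega) hW1 (by
        intro x hx w hw
        refine ⟨hst x hx w hw.1, ?_⟩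
        have h1 : (c * x) w = (x * c) w := by rw [hc c hc1 x hx]
        have h2 : c w = 0 := hw.2
        have h3 : c (x w) = x (c w) := h1
        rw [h2, map_zero] at h3
        exact h3)
      exact ⟨w, hw.1, hwne, hwk⟩

/-- an abelian ideal of a semisimple linear Lie algebra is central -/
theorem abelian_ideal_central {K V : Type} [Field K] [CharZero K] [AddCommGroup V] [Module K V]
    [FiniteDimensional K V] (g a : Submodule K (Module.End K V)) (hbr : Brk g) (hag : a ≤ g)
    (hid : ∀ x ∈ g, ∀ y ∈ a, x * y - y * x ∈ a) (hab : ∀ x ∈ a, ∀ y ∈ a, x * y = y * x)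
    (hss : ∀ W : Submodule K V, (∀ x ∈ g, ∀ w ∈ W, x w ∈ W) →
      ∃ W' : Submodule K V, (∀ x ∈ g, ∀ w ∈ W', x w ∈ W') ∧ IsCompl W W') :
    ∀ x ∈ g, ∀ y ∈ a, x * y = y * x := by
  obtain ⟨S, hS⟩ : ∃ S : Set (Module.End K V), S = {c | ∃ x ∈ g, ∃ y ∈ a, c = x * y - y * x} := ⟨_, rfl⟩
  have hSa : ∀ c ∈ S, c ∈ a := by
    intro c hc
    rw [hS] at hc
    obtain ⟨x, hx, y, hy, rfl⟩ := hc
    exact hid x hx y hy
  have hSn : ∀ c ∈ S, IsNilpotent c := by
    intro c hc
    have hca := hSa c hc
    rw [hS] at hc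
    obtain ⟨x, hx, y, hy, hcxy⟩ := hc
    apply aic_nilpotent
    intro k
    have hcomm : Commute y (c ^ k) := (show Commute y c from hab y hy c hca).pow_right k
    have h1 : c ^ (k + 1) = x * (y * c ^ k) - y * (x * c ^ k) := by
      rw [pow_succ']
      nth_rewrite 1 [hcxy]
      rw [sub_mul, mul_assoc, mul_assoc]
    rw [h1, map_sub, LinearMap.trace_mul_comm K y (x * c ^ k), mul_assoc, hcomm.eq, sub_self]
  have hScomm : ∀ x ∈ S, ∀ y ∈ S, x * y = y * x := fun x hx y hy => hab x (hSa x hx) y (hSa y hy)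
  -- common kernel
  obtain ⟨N, hN⟩ : ∃ N : Submodule K V, ∀ v, v ∈ N ↔ ∀ c ∈ S, c v = 0 := by
    refine ⟨⨅ c ∈ S, LinearMap.ker c, ?_⟩
    intro v
    simp only [Submodule.mem_iInf, LinearMap.mem_ker]
  have hNst : ∀ x ∈ g, ∀ v ∈ N, x v ∈ N := by
    intro x hx v hv
    rw [hN] at hv ⊢
    intro c hc
    have h1 : x * c - c * x ∈ S := by
      rw [hS]
      exact ⟨x, hx, c, hSa c hc, rfl⟩
    have h2 := hv _ h1
    have h3 : x (c v) - c (x v) = 0 := h2
    rw [hv c hc, map_zero, zero_sub, neg_eq_zero] at h3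
    exact h3
  obtain ⟨N', hN'st, hcompl⟩ := hss N hNst
  have hN' : N' = ⊥ := by
    by_contra hne
    obtain ⟨w, hw, hw0, hwk⟩ := aic_common S hScomm hSn _ N' le_rfl hne
      (fun c hc w hw => hN'st c (hag (hSa c hc)) w hw)
    have h1 : w ∈ N := (hN w).mpr hwk
    have h2 : w ∈ N ⊓ N' := ⟨h1, hw⟩
    rw [hcompl.inf_eq_bot, Submodule.mem_bot] at h2
    exact hw0 h2
  have hNtop : N = ⊤ := by
    have := hcompl.sup_eq_top
    rwa [hN', sup_bot_eq] at this
  intro x hx y hy
  have hc : x * y - y * x ∈ S := by rw [hS]; exact ⟨x, hx, y, hy, rfl⟩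
  have h0 : x * y - y * x = 0 := by
    apply LinearMap.ext
    intro v
    have hv : v ∈ N := by rw [hNtop]; trivial
    rw [(hN v).mp hv _ hc]; rfl
  exact sub_eq_zero.mp h0

end

end Pool.Agent.Helper156.RWF.J12512
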