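import Pool.Agent.KS6_3.RW.Helper156.RWF.D0
import Pool.Agent.KS6_3.RW.Helper156.RWF.J12439

namespace Pool.Agent.Helper156.RWF.J12833

open Pool.Agent.Helper156.RWF Pool.Agent.Helper156.RWF.J12439
open Filter Topology


section
variable {p : ℕ} [Fact p.Prime]
variable {A : Type} [NormedRing A] [NormedAlgebra ℚ_[p] A] [IsUltrametricDist A] [NormOneClass A]
  [FiniteDimensional ℚ_[p] A]
variable {B : Type} [NormedRing B] [NormedAlgebra ℚ_[p] B] [IsUltrametricDist B] [NormOneClass B]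
  [FiniteDimensional ℚ_[p] B]


theorem pow_near_one {F : Type} [Group F] [TopologicalSpace F] [IsTopologicalGroup F]
    [CompactSpace F] (ρ : F →* A) (hρ : Continuous ρ) (k : ℕ) :
    ∃ n : ℕ, 1 ≤ n ∧ ∀ f : F, ‖ρ (f ^ n) - 1‖ ≤ ((p : ℝ)⁻¹) ^ k := by
  have hp : (1 : ℝ) < (p : ℝ) := by
    exact_mod_cast (Fact.out : p.Prime).one_lt
  have hp0 : 0 < (p : ℝ)⁻¹ := by positivity
  have hp1 : (p : ℝ)⁻¹ < 1 := inv_lt_one_of_one_lt₀ hp
  set r : ℝ := ((p : ℝ)⁻¹) ^ (k + 1) with hr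
  have hr0 : 0 < r := by positivity
  have hr1 : r < 1 := pow_lt_one₀ hp0.le hp1 (by omega)
  have hrk : r ≤ ((p : ℝ)⁻¹) ^ k := pow_le_pow_of_le_one hp0.le hp1.le (by omega)
  have hn1 : ∀ a : A, ‖a - 1‖ ≤ r → ‖a‖ ≤ 1 := by
    intro a ha
    have h1 : ‖(a - 1) + 1‖ ≤ max ‖a - 1‖ ‖(1 : A)‖ := IsUltrametricDist.norm_add_le_max _ _
    rw [sub_add_cancel, norm_one] at h1
    exact h1.trans (max_le (ha.trans hr1.le) le_rfl)
  let N : Subgroup F :=
    { carrier := {f | ‖ρ f - 1‖ ≤ r}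
      one_mem' := by
        change ‖ρ 1 - 1‖ ≤ r
        rw [map_one, sub_self, norm_zero]
        exact hr0.le
      mul_mem' := by
        intro f g hf hg
        change ‖ρ (f * g) - 1‖ ≤ r
        have hf' : ‖ρ f - 1‖ ≤ r := hf
        have hg' : ‖ρ g - 1‖ ≤ r := hg
        have e : ρ (f * g) - 1 = (ρ f - 1) * ρ g + (ρ g - 1) := by
          rw [map_mul]; noncomm_ring
        rw [e]
        refine (IsUltrametricDist.norm_add_le_max _ _).trans (max_le ?_ hg')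
        refine (norm_mul_le _ _).trans ?_
        calc ‖ρ f - 1‖ * ‖ρ g‖ ≤ r * 1 :=
              mul_le_mul hf' (hn1 _ hg') (norm_nonneg _) hr0.le
          _ = r := mul_one r
      inv_mem' := by
        intro f hf
        change ‖ρ f⁻¹ - 1‖ ≤ r
        have hf' : ‖ρ f - 1‖ ≤ r := hf
        have hba : ρ f⁻¹ * ρ f = 1 := by rw [← map_mul, inv_mul_cancel, map_one]
        have e : ρ f⁻¹ - 1 = -(ρ f⁻¹ * (ρ f - 1)) := by
          rw [mul_sub, hba]; noncomm_ring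
        have h1 : ‖ρ f⁻¹ - 1‖ ≤ ‖ρ f⁻¹‖ * r := by
          rw [e, norm_neg]
          exact (norm_mul_le _ _).trans (mul_le_mul_of_nonneg_left hf' (norm_nonneg _))
        have h2 : ‖ρ f⁻¹‖ ≤ 1 := by
          by_contra hcon
          rw [not_le] at hcon
          have h3 : ‖(ρ f⁻¹ - 1) + 1‖ ≤ max ‖ρ f⁻¹ - 1‖ ‖(1 : A)‖ :=
            IsUltrametricDist.norm_add_le_max _ _
          rw [sub_add_cancel, norm_one] at h3
          rcases le_max_iff.1 h3 with h4 | h4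
          · have h5 : ‖ρ f⁻¹‖ * r < ‖ρ f⁻¹‖ * 1 := mul_lt_mul_of_pos_left hr1 (by linarith)
            linarith
          · linarith
        calc ‖ρ f⁻¹ - 1‖ ≤ ‖ρ f⁻¹‖ * r := h1
          _ ≤ 1 * r := mul_le_mul_of_nonneg_right h2 hr0.le
          _ = r := one_mul r }
  have hNopen : IsOpen (N : Set F) := by
    apply Subgroup.isOpen_of_mem_nhds N (g := 1)
    have h1 : ∀ᶠ f in 𝓝 (1 : F), ‖ρ f - 1‖ < r := by
      have h2 : Tendsto (fun f => ‖ρ f - 1‖) (𝓝 1) (𝓝 ‖ρ 1 - 1‖) :=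
        ((hρ.sub continuous_const).norm).tendsto 1
      rw [map_one, sub_self, norm_zero] at h2
      exact h2.eventually (gt_mem_nhds hr0)
    filter_upwards [h1] with f hf
    exact hf.le
  have hfin : Finite (F ⧸ N) := Subgroup.quotient_finite_of_isOpen N hNopen
  have hidx : N.index ≠ 0 := Subgroup.index_ne_zero_of_finite
  refine ⟨N.index.factorial, Nat.factorial_pos _, fun f => ?_⟩
  have h1 : f ^ (N.index.factorial) ∈ N :=
    Subgroup.pow_mem_of_index_ne_zero_of_dvd hidx f fun m hm1 hm2 => Nat.dvd_factorial hm1 hm2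
  exact (show ‖ρ (f ^ (N.index.factorial)) - 1‖ ≤ r from h1).trans hrk

end

end Pool.Agent.Helper156.RWF.J12833
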