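import Pool.Agent.KS6_3.RW.Helper156.RWF.D0
import Pool.Agent.KS6_3.RW.Helper156.RWF.J12439
import Pool.Agent.KS6_3.RW.Helper156.RWF.J12441
import Pool.Agent.KS6_3.RW.Helper156.RWF.J12442
import Pool.Agent.KS6_3.RW.Helper156.RWF.J12831
import Pool.Agent.KS6_3.RW.Helper156.RWF.J12833

namespace Pool.Agent.Helper156.RWF.J12832

open Pool.Agent.Helper156.RWF Pool.Agent.Helper156.RWF.J12439 Pool.Agent.Helper156.RWF.J12441 Pool.Agent.Helper156.RWF.J12442 Pool.Agent.Helper156.RWF.J12831 Pool.Agent.Helper156.RWF.J12833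
open Filter Topology


section
variable {p : ℕ} [Fact p.Prime]
variable {A : Type} [NormedRing A] [NormedAlgebra ℚ_[p] A] [IsUltrametricDist A] [NormOneClass A]
  [FiniteDimensional ℚ_[p] A]
variable {B : Type} [NormedRing B] [NormedAlgebra ℚ_[p] B] [IsUltrametricDist B] [NormOneClass B]
  [FiniteDimensional ℚ_[p] B]


theorem lf_p : (1 : ℝ) < p := by exact_mod_cast (Fact.out : p.Prime).one_lt

theorem lf_scale {X : Type} [NormedAddCommGroup X] [NormedSpace ℚ_[p] X] (x : X) (K : ℕ) :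
    ∃ j : ℕ, ‖((p : ℚ_[p]) ^ j) • x‖ ≤ ((p : ℝ)⁻¹) ^ K := by
  have hp : (1 : ℝ) < p := lf_p
  have hp0 : (0 : ℝ) < p := by linarith
  have h0 : (0 : ℝ) < ((p : ℝ)⁻¹) ^ K / (‖x‖ + 1) := by positivity
  obtain ⟨j, hj⟩ := exists_pow_lt_of_lt_one h0 (inv_lt_one_of_one_lt₀ hp)
  refine ⟨j, ?_⟩
  rw [norm_smul, norm_pow, Padic.norm_p]
  calc ((p : ℝ)⁻¹) ^ j * ‖x‖ ≤ (((p : ℝ)⁻¹) ^ K / (‖x‖ + 1)) * (‖x‖ + 1) := by
        apply mul_le_mul hj.le (by linarith) (norm_nonneg _) (by positivity)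
    _ = _ := by field_simp

theorem lf_mono {K L : ℕ} (h : K ≤ L) : ((p : ℝ)⁻¹) ^ L ≤ ((p : ℝ)⁻¹) ^ K := by
  have hp : (1 : ℝ) < p := lf_p
  exact pow_le_pow_of_le_one (by positivity) (inv_le_one_of_one_le₀ hp.le) h

theorem lf_pne (j : ℕ) : ((p : ℚ_[p]) ^ j) ≠ 0 := by
  apply pow_ne_zero
  exact_mod_cast (Fact.out : p.Prime).ne_zero

theorem lf_E (x : A) (y : B) (hx : ‖x‖ ≤ ((p : ℝ)⁻¹) ^ 2) (hy : ‖y‖ ≤ ((p : ℝ)⁻¹) ^ 2) :
    E p (x, y) = (E p x, E p y) := by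
  unfold E
  have h3 := (E_summable x hx).hasSum.prodMk (E_summable y hy).hasSum
  exact h3.tsum_eq

/-- differential of a continuous homomorphism -/
theorem lie_functor {F : Type} [Group F] [TopologicalSpace F] [IsTopologicalGroup F]
    [CompactSpace F] (ρ : F →* A) (σ : F →* B) (hρ : Continuous ρ) (hσ : Continuous σ)
    (hker : ∀ f, ρ f = 1 → σ f = 1) (g : Submodule ℚ_[p] A) (k : ℕ)
    (hL : IsLieOf p (Set.range ρ) g k) :
    ∃ (D : A →ₗ[ℚ_[p]] B) (k' : ℕ), k ≤ k' ∧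
      (∀ x ∈ g, ∀ y ∈ g, D (x * y - y * x) = D x * D y - D y * D x) ∧
      (∀ x : A, ‖x‖ ≤ ((p : ℝ)⁻¹) ^ k' → ‖D x‖ ≤ ((p : ℝ)⁻¹) ^ 2) ∧
      (∀ x ∈ g, ‖x‖ ≤ ((p : ℝ)⁻¹) ^ k' → ∀ f, ρ f = E p x → σ f = E p (D x)) := by
  classical
  haveI := prod_ultrametric A B
  obtain ⟨τ, hτ⟩ : ∃ τ : F →* A × B, τ = ρ.prod σ := ⟨_, rfl⟩
  have hτa : ∀ f, τ f = (ρ f, σ f) := fun f => by rw [hτ]; rfl
  have hτc : Continuous τ := by
    have : (τ : F → A × B) = fun f => (ρ f, σ f) := funext hτa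
    rw [this]
    exact hρ.prodMk hσ
  obtain ⟨h, k1, ⟨hk1, hIff⟩, hBrk⟩ := exists_lie' (p := p) (A := A × B) (Set.range τ)
    ⟨1, map_one τ⟩ (by
      rintro _ ⟨f, rfl⟩ _ ⟨f', rfl⟩
      exact ⟨f * f', map_mul τ f f'⟩) (by
      rintro _ ⟨f, rfl⟩
      refine ⟨τ f⁻¹, ⟨f⁻¹, rfl⟩, ?_, ?_⟩
      · rw [← map_mul, mul_inv_cancel, map_one]
      · rw [← map_mul, inv_mul_cancel, map_one]) (isCompact_range hτc)
  obtain ⟨hk2, hLie⟩ := hL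
  -- F1
  have F1 : ∀ Y : B, ((0 : A), Y) ∈ h → Y = 0 := by
    intro Y hY
    obtain ⟨j, hj⟩ := lf_scale (p := p) Y k1
    have hj2 : ‖((p : ℚ_[p]) ^ j) • Y‖ ≤ ((p : ℝ)⁻¹) ^ 2 := hj.trans (lf_mono hk1)
    have h1 : ((0 : A), ((p : ℚ_[p]) ^ j) • Y) ∈ h := by
      have := h.smul_mem ((p : ℚ_[p]) ^ j) hY
      rwa [Prod.smul_mk, smul_zero] at this
    have h2 : ‖((0 : A), ((p : ℚ_[p]) ^ j) • Y)‖ ≤ ((p : ℝ)⁻¹) ^ k1 := by
      rw [Prod.norm_def, norm_zero]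
      exact max_le (by positivity) hj
    obtain ⟨f, hf⟩ := (hIff _ h2).2 h1
    rw [lf_E _ _ (by rw [norm_zero]; positivity) hj2, hτa, E_zero] at hf
    have hf1 : ρ f = 1 := congrArg Prod.fst hf
    have hf2 : σ f = E p (((p : ℚ_[p]) ^ j) • Y) := congrArg Prod.snd hf
    rw [hker f hf1] at hf2
    have h3 := E_isom (((p : ℚ_[p]) ^ j) • Y) (0 : B) hj2 (by rw [norm_zero]; positivity)
    rw [← hf2, E_zero, sub_self, norm_zero, sub_zero] at h3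
    have h4 := norm_eq_zero.1 h3.symm
    exact (smul_eq_zero.1 h4).resolve_left (lf_pne j)
  -- F3
  have F3 : ∀ (x : A) (Y : B), (x, Y) ∈ h → x ∈ g := by
    intro x Y hxY
    obtain ⟨j, hj⟩ := lf_scale (p := p) (x, Y) (max k k1)
    have h1 : ((p : ℚ_[p]) ^ j) • (x, Y) ∈ h := h.smul_mem _ hxY
    have h2 : ‖((p : ℚ_[p]) ^ j) • (x, Y)‖ ≤ ((p : ℝ)⁻¹) ^ k1 :=
      hj.trans (lf_mono (le_max_right _ _))
    obtain ⟨f, hf⟩ := (hIff _ h2).2 h1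
    rw [Prod.smul_mk] at hf h2 hj
    have hx1 : ‖((p : ℚ_[p]) ^ j) • x‖ ≤ ((p : ℝ)⁻¹) ^ (max k k1) := (norm_fst_le _).trans hj
    have hy1 : ‖((p : ℚ_[p]) ^ j) • Y‖ ≤ ((p : ℝ)⁻¹) ^ (max k k1) := (norm_snd_le _).trans hj
    have h22 : 2 ≤ max k k1 := hk2.trans (le_max_left _ _)
    rw [lf_E _ _ (hx1.trans (lf_mono h22)) (hy1.trans (lf_mono h22)), hτa] at hf
    have hf1 : ρ f = E p (((p : ℚ_[p]) ^ j) • x) := congrArg Prod.fst hf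
    have h3 := (hLie _ (hx1.trans (lf_mono (le_max_left _ _)))).1 ⟨f, hf1⟩
    exact (g.smul_mem_iff (lf_pne j)).1 h3
  -- F2
  have F2 : ∀ x ∈ g, ∃ Y : B, (x, Y) ∈ h := by
    intro x hx
    obtain ⟨j, hj⟩ := lf_scale (p := p) x k
    obtain ⟨f, hf⟩ := (hLie _ hj).2 (g.smul_mem _ hx)
    obtain ⟨n, hn1, hn⟩ := pow_near_one (p := p) τ hτc k1
    have h1 := hn f
    have h2 : τ (f ^ n) - 1 = (ρ (f ^ n) - 1, σ (f ^ n) - 1) := by rw [hτa]; rfl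
    rw [h2] at h1
    have hr : ‖ρ (f ^ n) - 1‖ ≤ ((p : ℝ)⁻¹) ^ k1 := (norm_fst_le _).trans h1
    have hs : ‖σ (f ^ n) - 1‖ ≤ ((p : ℝ)⁻¹) ^ k1 := (norm_snd_le _).trans h1
    have hj2 : ‖((p : ℚ_[p]) ^ j) • x‖ ≤ ((p : ℝ)⁻¹) ^ 2 := hj.trans (lf_mono hk2)
    have hr2 : ρ (f ^ n) = E p (n • (((p : ℚ_[p]) ^ j) • x)) := by
      rw [map_pow, hf, E_nsmul _ _ hj2]
    have hnx : ‖n • (((p : ℚ_[p]) ^ j) • x)‖ ≤ ((p : ℝ)⁻¹) ^ 2 := by
      rw [← Nat.cast_smul_eq_nsmul ℚ_[p], norm_smul]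
      refine (mul_le_of_le_one_left (norm_nonneg _) ?_).trans hj2
      exact_mod_cast Padic.norm_int_le_one (p := p) (n : ℤ)
    have hnx1 : ‖n • (((p : ℚ_[p]) ^ j) • x)‖ ≤ ((p : ℝ)⁻¹) ^ k1 := by
      have h3 := E_isom (n • (((p : ℚ_[p]) ^ j) • x)) (0 : A) hnx (by rw [norm_zero]; positivity)
      rw [E_zero, ← hr2, sub_zero] at h3
      rw [← h3]
      exact hr
    obtain ⟨Y', hY1, hY2⟩ := E_surj (p := p) k1 hk1 (σ (f ^ n)) hs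
    have h4 : (n • (((p : ℚ_[p]) ^ j) • x), Y') ∈ h := by
      refine (hIff _ ?_).1 ⟨f ^ n, ?_⟩
      · rw [Prod.norm_def]
        exact max_le hnx1 hY1
      · rw [lf_E _ _ hnx (hY1.trans (lf_mono hk1)), hτa, hr2, hY2]
    have hn0 : (n : ℚ_[p]) ≠ 0 := by
      have : n ≠ 0 := by omega
      exact_mod_cast this
    refine ⟨((n : ℚ_[p]) * (p : ℚ_[p]) ^ j)⁻¹ • Y', ?_⟩
    have h5 := h.smul_mem ((n : ℚ_[p]) * (p : ℚ_[p]) ^ j)⁻¹ h4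
    have h6 : ((n : ℚ_[p]) * (p : ℚ_[p]) ^ j)⁻¹ • (n • (((p : ℚ_[p]) ^ j) • x)) = x := by
      rw [← Nat.cast_smul_eq_nsmul ℚ_[p], smul_smul, smul_smul, mul_assoc,
        inv_mul_cancel₀ (mul_ne_zero hn0 (lf_pne j)), one_smul]
    rw [Prod.smul_mk, h6] at h5
    exact h5
  choose! Df hDf using F2
  have huniq : ∀ (x : A) (Y Y' : B), (x, Y) ∈ h → (x, Y') ∈ h → Y = Y' := by
    intro x Y Y' h1 h2
    have h3 := h.sub_mem h1 h2
    rw [Prod.mk_sub_mk, sub_self] at h3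
    exact sub_eq_zero.1 (F1 _ h3)
  let D0 : g →ₗ[ℚ_[p]] B :=
    { toFun := fun x => Df x.1
      map_add' := by
        intro x y
        refine huniq (x.1 + y.1) _ _ (hDf _ (g.add_mem x.2 y.2)) ?_
        exact h.add_mem (hDf _ x.2) (hDf _ y.2)
      map_smul' := by
        intro c x
        refine huniq (c • x.1) _ _ (hDf _ (g.smul_mem c x.2)) ?_
        exact h.smul_mem c (hDf _ x.2) }
  obtain ⟨D, hD⟩ := LinearMap.exists_extend D0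
  have hDg : ∀ x ∈ g, (x, D x) ∈ h := by
    intro x hx
    have h1 : D x = Df x := by
      have := congrArg (fun T : g →ₗ[ℚ_[p]] B => T ⟨x, hx⟩) hD
      exact this
    rw [h1]
    exact hDf x hx
  -- norm bound
  obtain ⟨k2, hk2'⟩ : ∃ k2 : ℕ, ∀ x : A, ‖x‖ ≤ ((p : ℝ)⁻¹) ^ k2 → ‖D x‖ ≤ ((p : ℝ)⁻¹) ^ k1 := by
    have hp : (1 : ℝ) < p := lf_p
    have hp0 : (0 : ℝ) < p := by linarith
    set T : A →L[ℚ_[p]] B := LinearMap.toContinuousLinearMap D with hT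
    have h0 : (0 : ℝ) < ((p : ℝ)⁻¹) ^ k1 / (‖T‖ + 1) := by positivity
    obtain ⟨j, hj⟩ := exists_pow_lt_of_lt_one h0 (inv_lt_one_of_one_lt₀ hp)
    refine ⟨j, fun x hx => ?_⟩
    have h1 : ‖T x‖ ≤ ‖T‖ * ‖x‖ := T.le_opNorm x
    have h2 : T x = D x := rfl
    rw [h2] at h1
    refine h1.trans ?_
    calc ‖T‖ * ‖x‖ ≤ (‖T‖ + 1) * (((p : ℝ)⁻¹) ^ k1 / (‖T‖ + 1)) := by
          apply mul_le_mul (by linarith) (hx.trans hj.le) (norm_nonneg _) (by positivity)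
      _ = _ := by field_simp
  refine ⟨D, max k (max k1 k2), le_max_left _ _, ?_, ?_, ?_⟩
  · intro x hx y hy
    have h1 := hBrk _ (hDg x hx) _ (hDg y hy)
    have h2 : (x * y - y * x, D x * D y - D y * D x) ∈ h := h1
    exact huniq _ _ _ (hDg _ (F3 _ _ h2)) h2
  · intro x hx
    exact (hk2' x (hx.trans (lf_mono ((le_max_right _ _).trans (le_max_right _ _))))).trans
      (lf_mono hk1)
  · intro x hx hxk f hf
    have hx1 : ‖x‖ ≤ ((p : ℝ)⁻¹) ^ k1 :=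
      hxk.trans (lf_mono ((le_max_left _ _).trans (le_max_right _ _)))
    have hDx : ‖D x‖ ≤ ((p : ℝ)⁻¹) ^ k1 :=
      hk2' x (hxk.trans (lf_mono ((le_max_right _ _).trans (le_max_right _ _))))
    have hn : ‖(x, D x)‖ ≤ ((p : ℝ)⁻¹) ^ k1 := by
      rw [Prod.norm_def]
      exact max_le hx1 hDx
    obtain ⟨f', hf'⟩ := (hIff _ hn).2 (hDg x hx)
    rw [lf_E _ _ (hx1.trans (lf_mono hk1)) (hDx.trans (lf_mono hk1)), hτa] at hf'
    have hf1 : ρ f' = E p x := congrArg Prod.fst hf'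
    have hf2 : σ f' = E p (D x) := congrArg Prod.snd hf'
    have h3 : ρ (f * f'⁻¹) = 1 := by
      rw [map_mul, hf, ← hf1, ← map_mul, mul_inv_cancel, map_one]
    have h4 := hker _ h3
    have h5 : σ (f * f'⁻¹ * f') = σ f' := by rw [map_mul, h4, one_mul]
    rw [inv_mul_cancel_right] at h5
    rw [h5, hf2]

end

end Pool.Agent.Helper156.RWF.J12832
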