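import Pool.Agent.KS6_3.RW.Helper156.RWF.D0
import Pool.Agent.KS6_3.RW.Helper156.RWF.J12439
import Pool.Agent.KS6_3.RW.Helper156.RWF.J12441
import Pool.Agent.KS6_3.RW.Helper156.RWF.J12442
import Pool.Agent.KS6_3.RW.Helper156.RWF.J12831
import Pool.Agent.KS6_3.RW.Helper156.RWF.J12832
import Pool.Agent.KS6_3.RW.Helper156.RWF.J12833

namespace Pool.Agent.Helper156.RWF.J12834

open Pool.Agent.Helper156.RWF Pool.Agent.Helper156.RWF.J12439 Pool.Agent.Helper156.RWF.J12441 Pool.Agent.Helper156.RWF.J12442 Pool.Agent.Helper156.RWF.J12831 Pool.Agent.Helper156.RWF.J12832 Pool.Agent.Helper156.RWF.J12833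
open Filter Topology


section
variable {p : ℕ} [Fact p.Prime]
variable {A : Type} [NormedRing A] [NormedAlgebra ℚ_[p] A] [IsUltrametricDist A] [NormOneClass A]
  [FiniteDimensional ℚ_[p] A]
variable {B : Type} [NormedRing B] [NormedAlgebra ℚ_[p] B] [IsUltrametricDist B] [NormOneClass B]
  [FiniteDimensional ℚ_[p] B]


/-- the affine action on `X × ℚ_[p]` -/
noncomputable def SigJ {F : Type} [Group F]
    {X : Type} [NormedAddCommGroup X] [NormedSpace ℚ_[p] X]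
    (σ : F →* (X →L[ℚ_[p]] X)) (c : F → X) (hcoc : ∀ f h, c (f * h) = c f + σ f (c h)) :
    F →* ((X × ℚ_[p]) →L[ℚ_[p]] (X × ℚ_[p])) where
  toFun f := ((σ f).comp (ContinuousLinearMap.fst ℚ_[p] X ℚ_[p]) +
    (ContinuousLinearMap.snd ℚ_[p] X ℚ_[p]).smulRight (c f)).prod
      (ContinuousLinearMap.snd ℚ_[p] X ℚ_[p])
  map_one' := by
    have h1 : c 1 = 0 := by
      have := hcoc 1 1
      simp at this
      exact this
    refine ContinuousLinearMap.ext fun y => ?_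
    simp [h1]
  map_mul' f h := by
    refine ContinuousLinearMap.ext fun y => ?_
    simp only [map_mul, hcoc, ContinuousLinearMap.prod_apply, ContinuousLinearMap.add_apply,
      ContinuousLinearMap.comp_apply, ContinuousLinearMap.coe_fst', ContinuousLinearMap.coe_snd',
      ContinuousLinearMap.smulRight_apply, ContinuousLinearMap.mul_apply, map_add, map_smul,
      smul_add]
    refine Prod.ext ?_ rfl
    simp only
    abel

theorem SigJ_apply {F : Type} [Group F]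
    {X : Type} [NormedAddCommGroup X] [NormedSpace ℚ_[p] X]
    (σ : F →* (X →L[ℚ_[p]] X)) (c : F → X) (hcoc : ∀ f h, c (f * h) = c f + σ f (c h))
    (f : F) (y : X × ℚ_[p]) : SigJ σ c hcoc f y = (σ f y.1 + y.2 • c f, y.2) := by
  simp [SigJ]

theorem SigJ_cont {F : Type} [Group F] [TopologicalSpace F]
    {X : Type} [NormedAddCommGroup X] [NormedSpace ℚ_[p] X]
    (σ : F →* (X →L[ℚ_[p]] X)) (c : F → X) (hcoc : ∀ f h, c (f * h) = c f + σ f (c h))
    (hσ : Continuous σ) (hc : Continuous c) : Continuous (SigJ σ c hcoc) := by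
  have : (fun f => SigJ σ c hcoc f) = fun f =>
      ((ContinuousLinearMap.inl ℚ_[p] X ℚ_[p]).comp
        (((σ f).comp (ContinuousLinearMap.fst ℚ_[p] X ℚ_[p])) +
        (ContinuousLinearMap.smulRightL ℚ_[p] (X × ℚ_[p]) X
          (ContinuousLinearMap.snd ℚ_[p] X ℚ_[p]) (c f)))) +
      (ContinuousLinearMap.inr ℚ_[p] X ℚ_[p]).comp (ContinuousLinearMap.snd ℚ_[p] X ℚ_[p]) := by
    funext f
    refine ContinuousLinearMap.ext fun y => ?_
    rw [SigJ_apply]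
    simp
  change Continuous (fun f => SigJ σ c hcoc f)
  rw [this]
  refine Continuous.add ?_ continuous_const
  refine continuous_const.clm_comp ?_
  refine Continuous.add ?_ ?_
  · exact hσ.clm_comp continuous_const
  · exact (ContinuousLinearMap.continuous _).comp hc

theorem E_fix {Y : Type} [NormedAddCommGroup Y] [NormedSpace ℚ_[p] Y]
    [IsUltrametricDist Y] [Nontrivial Y] [FiniteDimensional ℚ_[p] Y]
    (T : Y →L[ℚ_[p]] Y) (hT : ‖T‖ ≤ ((p : ℝ)⁻¹) ^ 2) (y : Y) (hy : T y = 0) :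
    E p T y = y := by
  haveI : IsUltrametricDist (Y →L[ℚ_[p]] Y) := clm_ultrametric Y
  have hs := E_summable (p := p) T hT
  unfold E
  have h1 : (∑' n : ℕ, ((n.factorial : ℚ_[p])⁻¹) • T ^ n) y =
      ∑' n : ℕ, (((n.factorial : ℚ_[p])⁻¹) • T ^ n) y := by
    have := (ContinuousLinearMap.apply ℚ_[p] Y y).map_tsum hs
    simpa using this
  rw [h1, tsum_eq_single 0]
  · simp
  · intro n hn
    obtain ⟨m, rfl⟩ := Nat.exists_eq_succ_of_ne_zero hn
    simp [pow_succ, hy]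

theorem proj_zero {Y : Type} [NormedAddCommGroup Y] [NormedSpace ℚ_[p] Y]
    [IsUltrametricDist Y] [Nontrivial Y] [FiniteDimensional ℚ_[p] Y]
    (T : Y →L[ℚ_[p]] Y) (P : Y →L[ℚ_[p]] ℚ_[p]) (j0 : ℕ)
    (h : ∀ j : ℕ, j0 ≤ j → P.comp (E p (((p : ℚ_[p]) ^ j) • T)) = P) :
    P.comp T = 0 := by
  haveI : IsUltrametricDist (Y →L[ℚ_[p]] Y) := clm_ultrametric Y
  have hp0 : (0:ℝ) < (p:ℝ)⁻¹ := inv_pos.mpr (by exact_mod_cast (Fact.out : p.Prime).pos)
  have hp1 : (p:ℝ)⁻¹ < 1 := inv_lt_one_of_one_lt₀ (by exact_mod_cast (Fact.out : p.Prime).one_lt)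
  have hnp : ∀ j : ℕ, ‖((p : ℚ_[p]) ^ j)‖ = ((p:ℝ)⁻¹) ^ j := by
    intro j; rw [norm_pow, Padic.norm_p]
  -- eventually small
  have hlim : Tendsto (fun j : ℕ => ((p:ℝ)⁻¹) ^ j * ‖T‖) atTop (𝓝 0) := by
    have := (tendsto_pow_atTop_nhds_zero_of_lt_one hp0.le hp1).mul_const ‖T‖
    simpa using this
  have hev : ∀ᶠ j in atTop, ((p:ℝ)⁻¹) ^ j * ‖T‖ ≤ ((p:ℝ)⁻¹) ^ 2 :=
    (hlim.eventually (ge_mem_nhds (by positivity)))
  have hev2 : ∀ᶠ j : ℕ in atTop, ‖P.comp T‖ ≤ ‖P‖ * ((p:ℝ) * ‖T‖ * (((p:ℝ)⁻¹) ^ j * ‖T‖)) := by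
    filter_upwards [hev, eventually_ge_atTop j0] with j hj hj0
    have hn : ‖((p : ℚ_[p]) ^ j) • T‖ = ((p:ℝ)⁻¹) ^ j * ‖T‖ := by rw [norm_smul, hnp]
    have h1 := E_sub_est (p := p) (((p : ℚ_[p]) ^ j) • T) 0 (by rw [hn]; exact hj)
      (by rw [norm_zero]; positivity)
    rw [E_zero, sub_zero, norm_zero, max_eq_left (norm_nonneg _)] at h1
    have h2 : P.comp (E p (((p : ℚ_[p]) ^ j) • T) - 1 - ((p : ℚ_[p]) ^ j) • T) =
        - (((p : ℚ_[p]) ^ j) • (P.comp T)) := by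
      rw [ContinuousLinearMap.comp_sub, ContinuousLinearMap.comp_sub, h j hj0,
        ContinuousLinearMap.comp_smul]
      have : P.comp (1 : Y →L[ℚ_[p]] Y) = P := by
        refine ContinuousLinearMap.ext fun y => ?_
        simp
      rw [this]; simp
    have h3 : ((p:ℝ)⁻¹) ^ j * ‖P.comp T‖ ≤ ‖P‖ * ((p:ℝ) * ‖((p : ℚ_[p]) ^ j) • T‖ * ‖((p : ℚ_[p]) ^ j) • T‖) := by
      calc ((p:ℝ)⁻¹) ^ j * ‖P.comp T‖ = ‖- (((p : ℚ_[p]) ^ j) • (P.comp T))‖ := by
            rw [norm_neg, norm_smul, hnp]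
        _ = ‖P.comp (E p (((p : ℚ_[p]) ^ j) • T) - 1 - ((p : ℚ_[p]) ^ j) • T)‖ := by rw [h2]
        _ ≤ ‖P‖ * ‖(E p (((p : ℚ_[p]) ^ j) • T) - 1 - ((p : ℚ_[p]) ^ j) • T)‖ :=
            ContinuousLinearMap.opNorm_comp_le _ _
        _ ≤ _ := mul_le_mul_of_nonneg_left h1 (norm_nonneg _)
    rw [hn] at h3
    have hpj : (0:ℝ) < ((p:ℝ)⁻¹) ^ j := by positivity
    have h4 : ((p:ℝ)⁻¹) ^ j * ‖P.comp T‖ ≤ ((p:ℝ)⁻¹) ^ j * (‖P‖ * ((p:ℝ) * ‖T‖ * (((p:ℝ)⁻¹) ^ j * ‖T‖))) := by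
      calc _ ≤ _ := h3
        _ = _ := by ring
    exact le_of_mul_le_mul_left h4 hpj
  have hlim2 : Tendsto (fun j : ℕ => ‖P‖ * ((p:ℝ) * ‖T‖ * (((p:ℝ)⁻¹) ^ j * ‖T‖))) atTop (𝓝 0) := by
    have := (hlim.const_mul ((p:ℝ) * ‖T‖)).const_mul ‖P‖
    simpa using this
  have : ‖P.comp T‖ ≤ 0 := ge_of_tendsto hlim2 hev2
  exact norm_le_zero_iff.mp this

/-- vanishing of continuous first cohomology -/
theorem H1_abs {F : Type} [Group F] [TopologicalSpace F] [IsTopologicalGroup F]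
    [CompactSpace F] (ρ : F →* A) (hρ : Continuous ρ) (g : Submodule ℚ_[p] A) (k : ℕ)
    (hL : IsLieOf p (Set.range ρ) g k) (hW : WProp g)
    {X : Type} [NormedAddCommGroup X] [NormedSpace ℚ_[p] X] [FiniteDimensional ℚ_[p] X]
    [IsUltrametricDist X] (σ : F →* (X →L[ℚ_[p]] X)) (hσ : Continuous σ)
    (c : F → X) (hc : Continuous c) (hcoc : ∀ f h, c (f * h) = c f + σ f (c h))
    (hker : ∀ f, ρ f = 1 → σ f = 1 ∧ c f = 0) :
    ∃ v : X, ∀ f, c f = σ f v - v := by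
  classical
  haveI hultra : IsUltrametricDist (X × ℚ_[p]) := by
    constructor
    intro x y z
    simp only [Prod.dist_eq]
    refine max_le ?_ ?_
    · refine (dist_triangle_max x.1 y.1 z.1).trans ?_
      exact max_le_max (le_max_left _ _) (le_max_left _ _)
    · refine (dist_triangle_max x.2 y.2 z.2).trans ?_
      exact max_le_max (le_max_right _ _) (le_max_right _ _)
  haveI : IsUltrametricDist ((X × ℚ_[p]) →L[ℚ_[p]] (X × ℚ_[p])) := clm_ultrametric _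
  have hp0 : (0:ℝ) < (p:ℝ)⁻¹ := inv_pos.mpr (by exact_mod_cast (Fact.out : p.Prime).pos)
  have hp1 : (p:ℝ)⁻¹ < 1 := inv_lt_one_of_one_lt₀ (by exact_mod_cast (Fact.out : p.Prime).one_lt)
  have hnp : ∀ j : ℕ, ‖((p : ℚ_[p]) ^ j)‖ = ((p:ℝ)⁻¹) ^ j := by
    intro j; rw [norm_pow, Padic.norm_p]
  have hSc := SigJ_cont σ c hcoc hσ hc
  have hSker : ∀ f, ρ f = 1 → SigJ σ c hcoc f = 1 := by
    intro f hf
    obtain ⟨h1, h2⟩ := hker f hf
    refine ContinuousLinearMap.ext fun y => ?_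
    rw [SigJ_apply, h1, h2]
    simp
  obtain ⟨D, k', hkk', hbr, hnorm, hE⟩ := lie_functor ρ (SigJ σ c hcoc) hρ hSc hSker g k hL
  have hk2 : 2 ≤ k' := hL.1.trans hkk'
  -- second coordinate vanishes
  have hsnd : ∀ x ∈ g, ∀ y, (D x y).2 = 0 := by
    intro x hx y
    have hlim : Tendsto (fun j : ℕ => ((p:ℝ)⁻¹) ^ j * ‖x‖) atTop (𝓝 0) := by
      have := (tendsto_pow_atTop_nhds_zero_of_lt_one hp0.le hp1).mul_const ‖x‖
      simpa using this
    have hev : ∀ᶠ j in atTop, ((p:ℝ)⁻¹) ^ j * ‖x‖ ≤ ((p:ℝ)⁻¹) ^ k' :=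
      (hlim.eventually (ge_mem_nhds (by positivity)))
    obtain ⟨j0, hj0⟩ := eventually_atTop.mp hev
    have hz := proj_zero (p := p) (D x) (ContinuousLinearMap.snd ℚ_[p] X ℚ_[p]) j0 (by
      intro j hj
      have hxj : ((p : ℚ_[p]) ^ j) • x ∈ g := g.smul_mem _ hx
      have hnx : ‖((p : ℚ_[p]) ^ j) • x‖ ≤ ((p:ℝ)⁻¹) ^ k' := by
        rw [norm_smul, hnp]; exact hj0 j hj
      have hnx' : ‖((p : ℚ_[p]) ^ j) • x‖ ≤ ((p:ℝ)⁻¹) ^ k :=
        hnx.trans (pow_le_pow_of_le_one hp0.le hp1.le hkk')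
      obtain ⟨f, hf⟩ := (hL.2 _ hnx').mpr hxj
      have h1 := hE _ hxj hnx f hf
      rw [map_smul] at h1
      rw [← h1]
      refine ContinuousLinearMap.ext fun y => ?_
      rw [ContinuousLinearMap.comp_apply, SigJ_apply]
      simp)
    have := congrArg (fun T => T y) hz
    simpa using this
  -- define τ and δ
  let τ : A →ₗ[ℚ_[p]] Module.End ℚ_[p] X :=
    { toFun := fun x =>
        ((ContinuousLinearMap.fst ℚ_[p] X ℚ_[p]).comp
          ((D x).comp (ContinuousLinearMap.inl ℚ_[p] X ℚ_[p]))).toLinearMap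
      map_add' := by
        intro x y; refine LinearMap.ext fun w => ?_; simp
      map_smul' := by
        intro a x; refine LinearMap.ext fun w => ?_; simp }
  let δ : A →ₗ[ℚ_[p]] X :=
    { toFun := fun x => (D x (0, 1)).1
      map_add' := by intro x y; simp
      map_smul' := by intro a x; simp }
  have hτ : ∀ x w, τ x w = (D x (w, 0)).1 := fun x w => rfl
  have hδ : ∀ x, δ x = (D x (0, 1)).1 := fun x => rfl
  have hDw : ∀ x ∈ g, ∀ w, D x (w, 0) = (τ x w, 0) := by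
    intro x hx w
    exact Prod.ext (hτ x w).symm (hsnd x hx _)
  have hD1 : ∀ x ∈ g, D x (0, 1) = (δ x, 0) := by
    intro x hx
    exact Prod.ext (hδ x).symm (hsnd x hx _)
  obtain ⟨v, hv⟩ := hW X τ δ (by
    intro x hx y hy
    refine LinearMap.ext fun w => ?_
    rw [hτ, hbr x hx y hy]
    change (D x (D y (w, 0)) - D y (D x (w, 0))).1 = τ x (τ y w) - τ y (τ x w)
    rw [hDw y hy, hDw x hx, hDw x hx, hDw y hy]
    simp) (by
    intro x hx y hy
    rw [hδ (x * y - y * x), hbr x hx y hy]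
    change (D x (D y (0, 1)) - D y (D x (0, 1))).1 = τ x (δ y) - τ y (δ x)
    rw [hD1 y hy, hD1 x hx, hDw x hx, hDw y hy]
    simp)
  have hkill : ∀ x ∈ g, D x (-v, 1) = 0 := by
    intro x hx
    have h1 : ((-v, 1) : X × ℚ_[p]) = (-v, 0) + (0, 1) := by simp
    rw [h1, map_add, hDw x hx, hD1 x hx, map_neg, hv x hx]
    simp
  have hfix : ∀ f, ‖ρ f - 1‖ ≤ ((p:ℝ)⁻¹) ^ k' → SigJ σ c hcoc f (-v, 1) = (-v, 1) := by
    intro f hf
    obtain ⟨x, hx1, hx2⟩ := E_surj (p := p) k' hk2 (ρ f) hf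
    have hxg : x ∈ g := (hL.2 x (hx1.trans (pow_le_pow_of_le_one hp0.le hp1.le hkk'))).mp
      ⟨f, hx2.symm⟩
    rw [hE x hxg hx1 f hx2.symm]
    exact E_fix _ (hnorm x hx1) _ (hkill x hxg)
  -- the orbit map is locally constant
  have hlc : IsLocallyConstant (fun f => SigJ σ c hcoc f ((-v, 1) : X × ℚ_[p])) := by
    rw [IsLocallyConstant.iff_exists_open]
    intro f
    refine ⟨{h | ‖ρ (f⁻¹ * h) - 1‖ < ((p:ℝ)⁻¹) ^ k'}, ?_, ?_, ?_⟩
    · refine isOpen_lt ?_ continuous_const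
      exact ((hρ.comp (continuous_mul_left f⁻¹)).sub continuous_const).norm
    · simp only [Set.mem_setOf_eq, inv_mul_cancel, map_one, sub_self, norm_zero]
      positivity
    · intro h hh
      have h1 := hfix (f⁻¹ * h) (le_of_lt hh)
      have h2 : h = f * (f⁻¹ * h) := by group
      calc SigJ σ c hcoc h (-v, 1) = SigJ σ c hcoc (f * (f⁻¹ * h)) (-v, 1) := by rw [← h2]
        _ = SigJ σ c hcoc f (SigJ σ c hcoc (f⁻¹ * h) (-v, 1)) := by
            rw [map_mul]; rfl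
        _ = _ := by rw [h1]
  have hfin := hlc.range_finite
  set O := hfin.toFinset with hO
  have hmem : ∀ y, y ∈ O ↔ ∃ f, SigJ σ c hcoc f (-v, 1) = y := by
    intro y; rw [hO, Set.Finite.mem_toFinset]; rfl
  have hOne : O.Nonempty := ⟨SigJ σ c hcoc 1 (-v, 1), (hmem _).mpr ⟨1, rfl⟩⟩
  have hinj : ∀ f, Function.Injective (SigJ σ c hcoc f) := by
    intro f y z hyz
    have h1 := congrArg (SigJ σ c hcoc f⁻¹) hyz
    have h2 : ∀ w, SigJ σ c hcoc f⁻¹ (SigJ σ c hcoc f w) = w := by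
      intro w
      have : SigJ σ c hcoc f⁻¹ * SigJ σ c hcoc f = 1 := by rw [← map_mul]; simp
      have := congrArg (fun T => T w) this
      simpa using this
    rwa [h2, h2] at h1
  have himg : ∀ f, O.image (SigJ σ c hcoc f) = O := by
    intro f
    refine Finset.eq_of_subset_of_card_le ?_ ?_
    · intro y hy
      obtain ⟨z, hz, rfl⟩ := Finset.mem_image.mp hy
      obtain ⟨h, rfl⟩ := (hmem z).mp hz
      refine (hmem _).mpr ⟨f * h, ?_⟩
      rw [map_mul]; rfl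
    · rw [Finset.card_image_of_injective _ (hinj f)]
  have hsum : ∀ f, SigJ σ c hcoc f (∑ y ∈ O, y) = ∑ y ∈ O, y := by
    intro f
    rw [map_sum]
    conv_rhs => rw [← himg f]
    rw [Finset.sum_image (fun a _ b _ hab => hinj f hab)]
  have hcard : ((O.card : ℚ_[p])) ≠ 0 := by
    exact_mod_cast (Finset.card_pos.mpr hOne).ne'
  have hsum2 : (∑ y ∈ O, y).2 = O.card := by
    rw [Prod.snd_sum]
    rw [Finset.sum_congr rfl (g := fun _ => (1 : ℚ_[p]))]
    · simp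
    · intro y hy
      obtain ⟨f, rfl⟩ := (hmem y).mp hy
      rw [SigJ_apply]
  refine ⟨-((O.card : ℚ_[p])⁻¹ • (∑ y ∈ O, y).1), fun f => ?_⟩
  have h1 := hsum f
  rw [SigJ_apply] at h1
  have h2 := congrArg Prod.fst h1
  simp only [hsum2] at h2
  have h3 : σ f ((O.card : ℚ_[p])⁻¹ • (∑ y ∈ O, y).1) + c f = (O.card : ℚ_[p])⁻¹ • (∑ y ∈ O, y).1 := by
    have := congrArg (fun z => (O.card : ℚ_[p])⁻¹ • z) h2
    simp only [smul_add] at this
    rw [smul_smul, inv_mul_cancel₀ hcard, one_smul] at this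
    rw [map_smul]
    exact this
  rw [map_neg, sub_neg_eq_add]
  rw [← sub_eq_iff_eq_add'.mpr h3.symm]
  abel

end

end Pool.Agent.Helper156.RWF.J12834
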