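import Pool.Agent.KS6_3.RW.Helper156.RWF.D0
import Pool.Agent.KS6_3.RW.Helper156.RWF.J12439
import Pool.Agent.KS6_3.RW.Helper156.RWF.J12441
import Pool.Agent.KS6_3.RW.Helper156.RWF.J12442
import Pool.Agent.KS6_3.RW.Helper156.RWF.J12831
import Pool.Agent.KS6_3.RW.Helper156.RWF.J12832
import Pool.Agent.KS6_3.RW.Helper156.RWF.J12833

namespace Pool.Agent.Helper156.RWF.J12835

open Pool.Agent.Helper156.RWF Pool.Agent.Helper156.RWF.J12439 Pool.Agent.Helper156.RWF.J12441 Pool.Agent.Helper156.RWF.J12442 Pool.Agent.Helper156.RWF.J12831 Pool.Agent.Helper156.RWF.J12832 Pool.Agent.Helper156.RWF.J12833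
open Filter Topology


section
variable {p : ℕ} [Fact p.Prime]
variable {A : Type} [NormedRing A] [NormedAlgebra ℚ_[p] A] [IsUltrametricDist A] [NormOneClass A]
  [FiniteDimensional ℚ_[p] A]
variable {B : Type} [NormedRing B] [NormedAlgebra ℚ_[p] B] [IsUltrametricDist B] [NormOneClass B]
  [FiniteDimensional ℚ_[p] B]


/-- the Lie algebra of an image group inherits the vanishing property -/
theorem lie_image {F : Type} [Group F] [TopologicalSpace F] [IsTopologicalGroup F]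
    [CompactSpace F] (ρ : F →* A) (σ : F →* B) (hρ : Continuous ρ) (hσ : Continuous σ)
    (hker : ∀ f, ρ f = 1 → σ f = 1) (g : Submodule ℚ_[p] A) (k : ℕ)
    (hL : IsLieOf p (Set.range ρ) g k) (hbr : Brk g) (hW : WProp g) :
    ∃ (g' : Submodule ℚ_[p] B) (k' : ℕ), IsLieOf p (Set.range σ) g' k' ∧ Brk g' ∧ WProp g' := by
  obtain ⟨D, k', hkk', hDbr, hDn, hDE⟩ := lie_functor ρ σ hρ hσ hker g k hL
  have hp1 : (1 : ℝ) < p := by exact_mod_cast (Fact.out : p.Prime).one_lt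
  have hq0 : (0 : ℝ) < (p : ℝ)⁻¹ := inv_pos.mpr (by linarith)
  have hq1 : (p : ℝ)⁻¹ < 1 := inv_lt_one_of_one_lt₀ hp1
  have hk2 : 2 ≤ k := hL.1
  -- the section
  obtain ⟨s, hs⟩ := (D.submoduleMap g).exists_rightInverse_of_surjective
    (LinearMap.range_eq_top.mpr (D.submoduleMap_surjective g))
  have hs' : ∀ y : g.map D, D (s y : A) = (y : B) := by
    intro y
    have h1 := LinearMap.congr_fun hs y
    have h2 := congrArg Subtype.val h1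
    exact h2
  set S : g.map D →L[ℚ_[p]] A := LinearMap.toContinuousLinearMap (g.subtype.comp s) with hS
  have hS0 : 0 ≤ ‖S‖ := S.opNorm_nonneg
  have hSn : ∀ y : g.map D, ‖(s y : A)‖ ≤ ‖S‖ * ‖(y : B)‖ := fun y => S.le_opNorm y
  obtain ⟨j, hj⟩ := exists_pow_lt_of_lt_one (show (0 : ℝ) < 1 / (‖S‖ + 1) by positivity) hq1
  have hj' : ‖S‖ * ((p : ℝ)⁻¹) ^ j ≤ 1 := by
    rw [lt_div_iff₀ (by positivity)] at hj
    have h0 : 0 < ((p : ℝ)⁻¹) ^ j := pow_pos hq0 j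
    nlinarith
  have hpow : ∀ a b : ℕ, a ≤ b → ((p : ℝ)⁻¹) ^ b ≤ ((p : ℝ)⁻¹) ^ a := fun a b hab =>
    pow_le_pow_of_le_one hq0.le hq1.le hab
  refine ⟨g.map D, k' + j, ⟨by omega, ?_⟩, ?_, ?_⟩
  · intro y hy
    have hy2 : ‖y‖ ≤ ((p : ℝ)⁻¹) ^ 2 := hy.trans (hpow _ _ (by omega))
    constructor
    · rintro ⟨f, hf⟩
      obtain ⟨n, hn1, hn⟩ := pow_near_one (p := p) ρ hρ k'
      obtain ⟨x, hx, hEx⟩ := E_surj k' (by omega) (ρ (f ^ n)) (hn f)
      have hxg : x ∈ g := (hL.2 x (hx.trans (hpow _ _ hkk'))).mp ⟨f ^ n, hEx.symm⟩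
      have h1 : σ (f ^ n) = E p (D x) := hDE x hxg hx (f ^ n) hEx.symm
      have h2 : σ (f ^ n) = E p (n • y) := by
        rw [map_pow, hf, E_nsmul n y hy2]
      have hny : ‖(n • y : B)‖ ≤ ((p : ℝ)⁻¹) ^ 2 := by
        rw [← Nat.cast_smul_eq_nsmul ℚ_[p], norm_smul]
        have h3 : ‖((n : ℕ) : ℚ_[p])‖ ≤ 1 := by
          have := Padic.norm_int_le_one (p := p) (n : ℤ)
          simpa using this
        calc ‖((n : ℕ) : ℚ_[p])‖ * ‖y‖ ≤ 1 * ‖y‖ := mul_le_mul_of_nonneg_right h3 (norm_nonneg _)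
          _ ≤ _ := by rw [one_mul]; exact hy2
      have h4 := E_isom (p := p) (n • y) (D x) hny (hDn x hx)
      rw [← h1, ← h2, sub_self, norm_zero] at h4
      have h5 : n • y = D x := by
        rw [← sub_eq_zero, ← norm_eq_zero]
        exact h4.symm
      have hn0 : ((n : ℕ) : ℚ_[p]) ≠ 0 := by
        rw [Nat.cast_ne_zero]
        omega
      refine ⟨((n : ℚ_[p])⁻¹) • x, g.smul_mem _ hxg, ?_⟩
      rw [map_smul, ← h5, ← Nat.cast_smul_eq_nsmul ℚ_[p], smul_smul, inv_mul_cancel₀ hn0, one_smul]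
    · intro hyg
      have hx : ‖(s ⟨y, hyg⟩ : A)‖ ≤ ((p : ℝ)⁻¹) ^ k' := by
        refine (hSn ⟨y, hyg⟩).trans ?_
        calc ‖S‖ * ‖y‖ ≤ ‖S‖ * ((p : ℝ)⁻¹) ^ (k' + j) :=
              mul_le_mul_of_nonneg_left hy hS0
          _ = (‖S‖ * ((p : ℝ)⁻¹) ^ j) * ((p : ℝ)⁻¹) ^ k' := by rw [pow_add]; ring
          _ ≤ 1 * ((p : ℝ)⁻¹) ^ k' := mul_le_mul_of_nonneg_right hj' (by positivity)
          _ = _ := one_mul _
      have hxg : (s ⟨y, hyg⟩ : A) ∈ g := (s ⟨y, hyg⟩).2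
      obtain ⟨f, hf⟩ := (hL.2 _ (hx.trans (hpow _ _ hkk'))).mpr hxg
      have h1 := hDE _ hxg hx f hf
      rw [hs' ⟨y, hyg⟩] at h1
      exact ⟨f, h1⟩
  · rintro _ ⟨x, hx, rfl⟩ _ ⟨y, hy, rfl⟩
    rw [← hDbr x hx y hy]
    exact ⟨_, hbr x hx y hy, rfl⟩
  · intro X _ _ _ τ' D1 h1 h2
    obtain ⟨v, hv⟩ := hW X (τ'.comp D) (D1.comp D) (by
      intro x hx y hy
      rw [LinearMap.comp_apply, LinearMap.comp_apply, LinearMap.comp_apply, hDbr x hx y hy]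
      exact h1 _ ⟨x, hx, rfl⟩ _ ⟨y, hy, rfl⟩) (by
      intro x hx y hy
      rw [LinearMap.comp_apply, hDbr x hx y hy]
      exact h2 _ ⟨x, hx, rfl⟩ _ ⟨y, hy, rfl⟩)
    refine ⟨v, ?_⟩
    rintro _ ⟨x, hx, rfl⟩
    exact hv x hx

end

end Pool.Agent.Helper156.RWF.J12835
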