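import Pool.Agent.KS6_3.RW.Helper156.RWF.D0

namespace Pool.Agent.Helper156.RWF.J13187

open Pool.Agent.Helper156.RWF
open Filter Topology


section
variable {p : ℕ} [Fact p.Prime]
variable {A : Type} [NormedRing A] [NormedAlgebra ℚ_[p] A] [IsUltrametricDist A] [NormOneClass A]
  [FiniteDimensional ℚ_[p] A]

theorem la_bound_ginv {K V W : Type} [Field K] [AddCommGroup V] [Module K V] [AddCommGroup W]
    [Module K W] (f : V →ₗ[K] W) : ∃ s : W →ₗ[K] V, ∀ v, f (s (f v)) = f v := by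
  obtain ⟨g, hg⟩ := f.rangeRestrict.exists_rightInverse_of_surjective f.range_rangeRestrict
  obtain ⟨s, hs⟩ := LinearMap.exists_extend g
  refine ⟨s, fun v => ?_⟩
  have h1 : s (f v) = g ⟨f v, LinearMap.mem_range_self f v⟩ := by
    rw [← hs]; rfl
  have h2 := LinearMap.congr_fun hg ⟨f v, LinearMap.mem_range_self f v⟩
  have h3 := congrArg Subtype.val h2
  rw [h1]
  exact h3

theorem la_bound {U V W : Type} [NormedAddCommGroup U] [NormedSpace ℚ_[p] U]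
    [FiniteDimensional ℚ_[p] U] [NormedAddCommGroup V] [NormedSpace ℚ_[p] V]
    [FiniteDimensional ℚ_[p] V] [NormedAddCommGroup W] [NormedSpace ℚ_[p] W]
    [FiniteDimensional ℚ_[p] W] (α : U →ₗ[ℚ_[p]] V) (β : V →ₗ[ℚ_[p]] W)
    (h : ∀ v, β v = 0 → ∃ u, α u = v) :
    ∃ κ : ℝ, 1 ≤ κ ∧ ∀ v, ∃ u, ‖v - α u‖ ≤ κ * ‖β v‖ ∧ ‖u‖ ≤ κ * ‖v‖ := by
  obtain ⟨s, hs⟩ := la_bound_ginv β
  obtain ⟨r, hr⟩ := la_bound_ginv α
  obtain ⟨S, hS⟩ : ∃ S : W →L[ℚ_[p]] V, ∀ w, S w = s w :=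
    ⟨LinearMap.toContinuousLinearMap s, fun _ => rfl⟩
  obtain ⟨R, hR⟩ : ∃ R : V →L[ℚ_[p]] U, ∀ v, R v = r (v - s (β v)) :=
    ⟨LinearMap.toContinuousLinearMap (r ∘ₗ (LinearMap.id - s ∘ₗ β)), fun _ => rfl⟩
  refine ⟨1 + ‖S‖ + ‖R‖, by linarith [norm_nonneg S, norm_nonneg R], fun v => ?_⟩
  have h0 : β (v - s (β v)) = 0 := by rw [map_sub, hs, sub_self]
  obtain ⟨u, hu⟩ := h _ h0
  have h1 : α (R v) = v - s (β v) := by
    rw [hR, ← hu, hr]
  refine ⟨R v, ?_, ?_⟩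
  · rw [h1, sub_sub_cancel, ← hS]
    refine (S.le_opNorm _).trans ?_
    apply mul_le_mul_of_nonneg_right _ (norm_nonneg _)
    linarith [norm_nonneg R]
  · refine (R.le_opNorm _).trans ?_
    apply mul_le_mul_of_nonneg_right _ (norm_nonneg _)
    linarith [norm_nonneg S]


end

end Pool.Agent.Helper156.RWF.J13187
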