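import Pool.Agent.KS6_3.RW.Helper156.RWF.D0
import Pool.Agent.KS6_3.RW.Helper156.RWF.J12439
import Pool.Agent.KS6_3.RW.Helper156.RWF.J12441
import Pool.Agent.KS6_3.RW.Helper156.RWF.J12442
import Pool.Agent.KS6_3.RW.Helper156.RWF.J13187

namespace Pool.Agent.Helper156.RWF.J13193

open Pool.Agent.Helper156.RWF Pool.Agent.Helper156.RWF.J12439 Pool.Agent.Helper156.RWF.J12441 Pool.Agent.Helper156.RWF.J12442 Pool.Agent.Helper156.RWF.J13187
open Filter Topology


section
variable {p : ℕ} [Fact p.Prime]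
variable {A : Type} [NormedRing A] [NormedAlgebra ℚ_[p] A] [IsUltrametricDist A] [NormOneClass A]
  [FiniteDimensional ℚ_[p] A]


/-- the linear map `t ↦ (x ↦ P [Q x, t])` -/
noncomputable def alp (P Q : A →ₗ[ℚ_[p]] A) : A →ₗ[ℚ_[p]] (A →L[ℚ_[p]] A) where
  toFun t := LinearMap.toContinuousLinearMap
    { toFun := fun x => P (Q x * t - t * Q x)
      map_add' := by
        intro x y
        simp only [map_add, map_sub, add_mul, mul_add]
        abel
      map_smul' := by
        intro c x
        simp only [map_smul, smul_mul_assoc, mul_smul_comm, map_sub, smul_sub, RingHom.id_apply] }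
  map_add' := by
    intro t t'
    ext x
    show P (Q x * (t + t') - (t + t') * Q x) = P (Q x * t - t * Q x) + P (Q x * t' - t' * Q x)
    simp only [map_add, map_sub, add_mul, mul_add]
    abel
  map_smul' := by
    intro c t
    ext x
    show P (Q x * (c • t) - (c • t) * Q x) = c • P (Q x * t - t * Q x)
    simp only [map_smul, smul_mul_assoc, mul_smul_comm, map_sub, smul_sub]

/-- the cocycle defect -/
noncomputable def bet (P Q : A →ₗ[ℚ_[p]] A) :
    (A →L[ℚ_[p]] A) →ₗ[ℚ_[p]] ((A →L[ℚ_[p]] (A →L[ℚ_[p]] A)) × (A →L[ℚ_[p]] A)) where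
  toFun f := (LinearMap.toContinuousLinearMap
    { toFun := fun x => LinearMap.toContinuousLinearMap
        { toFun := fun y => P (Q x * f (Q y) - f (Q y) * Q x) - P (Q y * f (Q x) - f (Q x) * Q y)
            - f (Q x * Q y - Q y * Q x)
          map_add' := by
            intro y y'
            simp only [map_add, map_sub, add_mul, mul_add]
            abel
          map_smul' := by
            intro c y
            simp only [map_smul, smul_mul_assoc, mul_smul_comm, map_sub, smul_sub, RingHom.id_apply] }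
      map_add' := by
        intro x x'
        ext y
        show P (Q (x + x') * f (Q y) - f (Q y) * Q (x + x')) -
            P (Q y * f (Q (x + x')) - f (Q (x + x')) * Q y) - f (Q (x + x') * Q y - Q y * Q (x + x')) =
          (P (Q x * f (Q y) - f (Q y) * Q x) - P (Q y * f (Q x) - f (Q x) * Q y)
            - f (Q x * Q y - Q y * Q x)) + (P (Q x' * f (Q y) - f (Q y) * Q x') -
            P (Q y * f (Q x') - f (Q x') * Q y) - f (Q x' * Q y - Q y * Q x'))
        simp only [map_add, map_sub, add_mul, mul_add]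
        abel
      map_smul' := by
        intro c x
        ext y
        show P (Q (c • x) * f (Q y) - f (Q y) * Q (c • x)) -
            P (Q y * f (Q (c • x)) - f (Q (c • x)) * Q y) - f (Q (c • x) * Q y - Q y * Q (c • x)) =
          c • (P (Q x * f (Q y) - f (Q y) * Q x) - P (Q y * f (Q x) - f (Q x) * Q y)
            - f (Q x * Q y - Q y * Q x))
        simp only [map_smul, smul_mul_assoc, mul_smul_comm, map_sub, smul_sub] },
    f - (LinearMap.toContinuousLinearMap P).comp (f.comp (LinearMap.toContinuousLinearMap Q)))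
  map_add' := by
    intro f f'
    apply Prod.ext
    · ext x y
      show P (Q x * (f (Q y) + f' (Q y)) - (f (Q y) + f' (Q y)) * Q x) -
          P (Q y * (f (Q x) + f' (Q x)) - (f (Q x) + f' (Q x)) * Q y)
            - (f (Q x * Q y - Q y * Q x) + f' (Q x * Q y - Q y * Q x)) =
        (P (Q x * f (Q y) - f (Q y) * Q x) - P (Q y * f (Q x) - f (Q x) * Q y)
            - f (Q x * Q y - Q y * Q x)) + (P (Q x * f' (Q y) - f' (Q y) * Q x) -
            P (Q y * f' (Q x) - f' (Q x) * Q y) - f' (Q x * Q y - Q y * Q x))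
      simp only [map_add, map_sub, add_mul, mul_add]
      abel
    · ext x
      show (f x + f' x) - P (f (Q x) + f' (Q x)) = (f x - P (f (Q x))) + (f' x - P (f' (Q x)))
      simp only [map_add]
      abel
  map_smul' := by
    intro c f
    apply Prod.ext
    · ext x y
      show P (Q x * (c • f (Q y)) - (c • f (Q y)) * Q x) -
          P (Q y * (c • f (Q x)) - (c • f (Q x)) * Q y)
            - (c • f (Q x * Q y - Q y * Q x)) =
        c • (P (Q x * f (Q y) - f (Q y) * Q x) - P (Q y * f (Q x) - f (Q x) * Q y)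
            - f (Q x * Q y - Q y * Q x))
      simp only [map_smul, smul_mul_assoc, mul_smul_comm, map_sub, smul_sub]
    · ext x
      show (c • f x) - P (c • f (Q x)) = c • (f x - P (f (Q x)))
      simp only [map_smul, smul_sub]

theorem alp_apply (P Q : A →ₗ[ℚ_[p]] A) (t x : A) : alp P Q t x = P (Q x * t - t * Q x) := rfl

theorem bet_apply (P Q : A →ₗ[ℚ_[p]] A) (f : A →L[ℚ_[p]] A) (x y : A) : (bet P Q f).1 x y =
    P (Q x * f (Q y) - f (Q y) * Q x) - P (Q y * f (Q x) - f (Q x) * Q y)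
            - f (Q x * Q y - Q y * Q x) := rfl

theorem bet_apply2 (P Q : A →ₗ[ℚ_[p]] A) (f : A →L[ℚ_[p]] A) (x : A) : (bet P Q f).2 x =
    f x - P (f (Q x)) := rfl

omit [NormOneClass A] in
theorem ultra_sub (x y : A) : ‖x - y‖ ≤ max ‖x‖ ‖y‖ := by
  have := IsUltrametricDist.norm_add_le_max x (-y)
  rwa [norm_neg, ← sub_eq_add_neg] at this

omit [NormOneClass A] [FiniteDimensional ℚ_[p] A] in
theorem br_norm (x y : A) (a b : ℝ) (hx : ‖x‖ ≤ a) (hy : ‖y‖ ≤ b) : ‖x * y - y * x‖ ≤ a * b := by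
  have ha : 0 ≤ a := (norm_nonneg _).trans hx
  have hb : 0 ≤ b := (norm_nonneg _).trans hy
  refine (ultra_sub (x * y) (y * x)).trans (max_le ?_ ?_)
  · exact (norm_mul_le _ _).trans (mul_le_mul hx hy (norm_nonneg _) ha)
  · refine (norm_mul_le _ _).trans ?_
    rw [mul_comm a b]
    exact mul_le_mul hy hx (norm_nonneg _) hb

theorem one_step (g : Submodule ℚ_[p] A) (hbr : Brk g) (hW : WProp g)
    (P : A →ₗ[ℚ_[p]] A) (hP : ∀ x, P x = 0 ↔ x ∈ g) (hPP : ∀ x, P (P x) = P x) :
    ∃ κ : ℝ, 1 ≤ κ ∧ ∀ h : Submodule ℚ_[p] A, Brk h →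
      Module.finrank ℚ_[p] h = Module.finrank ℚ_[p] g →
      ∀ ε : ℝ, 0 ≤ ε → κ * ε < 1 → (∀ x ∈ h, ‖P x‖ ≤ ε * ‖x‖) →
      ∃ t : A, ‖t‖ ≤ κ * ε ∧ ∀ w : A, (1 + t) * w = 1 → w * (1 + t) = 1 →
        ∀ x ∈ h, ‖P ((1 + t) * x * w)‖ ≤ κ * ε ^ 2 * ‖x‖ := by
  classical
  set Q : A →ₗ[ℚ_[p]] A := LinearMap.id - P with hQdef
  have hQ : ∀ x, Q x = x - P x := fun x => rfl
  have hPQ : ∀ x, P (Q x) = 0 := by
    intro x; rw [hQ, map_sub, hPP, sub_self]
  have hQg : ∀ x, Q x ∈ g := fun x => (hP _).1 (hPQ x)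
  have hgQ : ∀ x ∈ g, Q x = x := by
    intro x hx
    rw [hQ, (hP x).2 hx, sub_zero]
  have hQQ : ∀ x, Q (Q x) = Q x := fun x => hgQ _ (hQg x)
  have hdec : ∀ x, x = Q x + P x := by
    intro x; rw [hQ]; abel
  -- exactness
  have hex : ∀ f : A →L[ℚ_[p]] A, bet P Q f = 0 → ∃ t, alp P Q t = f := by
    intro f hf
    have h1 : ∀ x y, P (Q x * f (Q y) - f (Q y) * Q x) - P (Q y * f (Q x) - f (Q x) * Q y)
            - f (Q x * Q y - Q y * Q x) = 0 := by
      intro x y
      rw [← bet_apply, hf]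
      rfl
    have h2 : ∀ x, f x = P (f (Q x)) := by
      intro x
      have := bet_apply2 P Q f x
      rw [hf] at this
      exact (sub_eq_zero.1 this.symm)
    have h3 : ∀ x, P (f x) = f x := by
      intro x
      rw [h2 x, hPP]
    have h4 : ∀ x, f (Q x) = f x := by
      intro x
      rw [h2 (Q x), hQQ, ← h2]
    let τ : A →ₗ[ℚ_[p]] Module.End ℚ_[p] A :=
      { toFun := fun x =>
          { toFun := fun c => P (x * P c - P c * x)
            map_add' := by
              intro c c'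
              simp only [map_add, map_sub, add_mul, mul_add]
              abel
            map_smul' := by
              intro r c
              simp only [map_smul, smul_mul_assoc, mul_smul_comm, map_sub, smul_sub, RingHom.id_apply] }
        map_add' := by
          intro x x'
          apply LinearMap.ext
          intro c
          show P ((x + x') * P c - P c * (x + x')) = P (x * P c - P c * x) + P (x' * P c - P c * x')
          simp only [map_add, map_sub, add_mul, mul_add]
          abel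
        map_smul' := by
          intro r x
          apply LinearMap.ext
          intro c
          show P ((r • x) * P c - P c * (r • x)) = r • P (x * P c - P c * x)
          simp only [map_smul, smul_mul_assoc, mul_smul_comm, map_sub, smul_sub] }
    have hτ : ∀ x c, τ x c = P (x * P c - P c * x) := fun _ _ => rfl
    obtain ⟨v, hv⟩ := hW A τ (f : A →ₗ[ℚ_[p]] A) (by
      intro x hx y hy
      apply LinearMap.ext
      intro c
      show P ((x * y - y * x) * P c - P c * (x * y - y * x)) =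
        P (x * P (P (y * P c - P c * y)) - P (P (y * P c - P c * y)) * x) -
        P (y * P (P (x * P c - P c * x)) - P (P (x * P c - P c * x)) * y)
      rw [hPP, hPP]
      -- replace P by the identity inside
      have key : ∀ x ∈ g, ∀ u, P (x * P u - P u * x) = P (x * u - u * x) := by
        intro x hx u
        have e1 : P (x * Q u - Q u * x) = 0 := (hP _).2 (hbr x hx _ (hQg u))
        have e2 : x * u - u * x = (x * Q u - Q u * x) + (x * P u - P u * x) := by
          conv_lhs => rw [hdec u]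
          rw [mul_add, add_mul]
          abel
        rw [e2, map_add, e1, zero_add]
      rw [key x hx, key y hy, ← map_sub]
      congr 1
      noncomm_ring) (by
      intro x hx y hy
      show f (x * y - y * x) = P (x * P (f y) - P (f y) * x) - P (y * P (f x) - P (f x) * y)
      rw [h3, h3]
      have := h1 x y
      rw [hgQ x hx, hgQ y hy] at this
      exact (sub_eq_zero.1 this).symm)
    refine ⟨P v, ?_⟩
    ext x
    rw [alp_apply]
    have := hv (Q x) (hQg x)
    rw [hτ] at this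
    rw [← this]
    exact h4 x
  obtain ⟨κ0, hκ0, hla⟩ := la_bound (U := A) (V := A →L[ℚ_[p]] A) (W := (A →L[ℚ_[p]] (A →L[ℚ_[p]] A)) × (A →L[ℚ_[p]] A)) (alp P Q) (bet P Q) hex
  set M : ℝ := max 1 ‖LinearMap.toContinuousLinearMap P‖ with hM
  have hM1 : 1 ≤ M := le_max_left _ _
  have hPM : ∀ x, ‖P x‖ ≤ M * ‖x‖ := by
    intro x
    have := (LinearMap.toContinuousLinearMap P).le_opNorm x
    refine le_trans this ?_
    exact mul_le_mul_of_nonneg_right (le_max_right _ _) (norm_nonneg _)
  have hQM : ∀ x, ‖Q x‖ ≤ M * ‖x‖ := by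
    intro x
    rw [hQ]
    refine (ultra_sub _ _).trans (max_le ?_ (hPM x))
    nlinarith [norm_nonneg x]
  have hMp : 0 < M := by linarith
  refine ⟨κ0 ^ 2 * M ^ 3, ?_, ?_⟩
  · have h1 : 1 ≤ κ0 ^ 2 := one_le_pow₀ hκ0
    have h2 : 1 ≤ M ^ 3 := one_le_pow₀ hM1
    nlinarith
  intro h hbrh hdim ε hε hκε hPε
  have hκ1 : κ0 * M ≤ κ0 ^ 2 * M ^ 3 := by
    have h1 : 1 ≤ κ0 * M ^ 2 := by
      have := one_le_pow₀ hM1 (n := 2)
      nlinarith
    calc κ0 * M = κ0 * M * 1 := by ring
      _ ≤ κ0 * M * (κ0 * M ^ 2) := mul_le_mul_of_nonneg_left h1 (by positivity)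
      _ = _ := by ring
  have hκM1 : 1 ≤ κ0 * M := by nlinarith
  have hε1 : ε < 1 := by
    by_contra hc
    push Not at hc
    nlinarith
  -- the graph map
  have hQhg : ∀ x : h, (Q.comp h.subtype) x ∈ g := fun x => hQg _
  let Qh : h →ₗ[ℚ_[p]] g := (Q.comp h.subtype).codRestrict g hQhg
  have hQhinj : Function.Injective Qh := by
    rw [← LinearMap.ker_eq_bot, LinearMap.ker_eq_bot']
    intro x hx
    have h1 : Q (x : A) = 0 := congrArg Subtype.val hx
    have h2 : (x : A) = P x := by
      have := hdec (x : A)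
      rw [h1, zero_add] at this
      exact this
    have h3 := hPε x x.2
    rw [← h2] at h3
    have h4 : ‖(x : A)‖ = 0 := by
      by_contra hne
      have : 0 < ‖(x : A)‖ := lt_of_le_of_ne (norm_nonneg _) (Ne.symm hne)
      nlinarith
    exact Subtype.ext (norm_eq_zero.1 h4)
  let Qe : h ≃ₗ[ℚ_[p]] g := LinearMap.linearEquivOfInjective Qh hQhinj hdim
  have hQe : ∀ x : h, ((Qe x : g) : A) = Q x := fun x => rfl
  let fl : A →ₗ[ℚ_[p]] A := P.comp (h.subtype.comp ((Qe.symm : g →ₗ[ℚ_[p]] h).comp (Q.codRestrict g hQg)))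
  have hfl : ∀ x, fl x = P ((Qe.symm ⟨Q x, hQg x⟩ : h) : A) := fun x => rfl
  have hS : ∀ x, ((Qe.symm ⟨Q x, hQg x⟩ : h) : A) = Q x + fl x := by
    intro x
    have h1 : Q ((Qe.symm ⟨Q x, hQg x⟩ : h) : A) = Q x := by
      rw [← hQe, LinearEquiv.apply_symm_apply]
    rw [hfl]
    conv_lhs => rw [hdec ((Qe.symm ⟨Q x, hQg x⟩ : h) : A), h1]
  have hmemh : ∀ x, Q x + fl x ∈ h := by
    intro x
    rw [← hS]
    exact (Qe.symm ⟨Q x, hQg x⟩ : h).2
  have hflh : ∀ x ∈ h, fl x = P x := by
    intro x hx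
    rw [hfl]
    have : (⟨Q x, hQg x⟩ : g) = Qe ⟨x, hx⟩ := Subtype.ext rfl
    rw [this, LinearEquiv.symm_apply_apply]
  have hflQ : ∀ x, fl (Q x) = fl x := by
    intro x
    have e : (⟨Q (Q x), hQg (Q x)⟩ : g) = ⟨Q x, hQg x⟩ := Subtype.ext (hQQ x)
    rw [hfl, hfl, e]
  have hPfl : ∀ x, P (fl x) = fl x := by
    intro x
    rw [hfl, hPP]
  have hsn : ∀ x, ‖Q x + fl x‖ ≤ M * ‖x‖ := by
    intro x
    have h1 := hPε _ (hmemh x)
    have h2 : P (Q x + fl x) = fl x := by rw [map_add, hPQ, zero_add, hPfl]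
    rw [h2] at h1
    have h3 := IsUltrametricDist.norm_add_le_max (Q x) (fl x)
    rcases le_max_iff.1 h3 with h4 | h4
    · exact h4.trans (hQM x)
    · have h5 : ‖Q x + fl x‖ ≤ 0 := by
        by_contra hne
        push Not at hne
        nlinarith
      have : 0 ≤ M * ‖x‖ := by positivity
      linarith
  have hfn : ∀ x, ‖fl x‖ ≤ ε * M * ‖x‖ := by
    intro x
    have h1 := hPε _ (hmemh x)
    have h2 : P (Q x + fl x) = fl x := by rw [map_add, hPQ, zero_add, hPfl]
    rw [h2] at h1
    have h3 := mul_le_mul_of_nonneg_left (hsn x) hε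
    linarith
  let f : A →L[ℚ_[p]] A := LinearMap.toContinuousLinearMap fl
  have hf : ∀ x, f x = fl x := fun x => rfl
  have hfnorm : ‖f‖ ≤ ε * M := ContinuousLinearMap.opNorm_le_bound _ (by positivity) hfn
  have hbet : ‖bet P Q f‖ ≤ ε ^ 2 * M ^ 3 := by
    have hb2 : (bet P Q f).2 = 0 := by
      ext x
      rw [bet_apply2, hf, hf, hPfl, hflQ, sub_self]
      rfl
    have hb1 : ‖(bet P Q f).1‖ ≤ ε ^ 2 * M ^ 3 := by
      refine ContinuousLinearMap.opNorm_le_bound₂ _ (by positivity) ?_
      intro x y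
      rw [bet_apply]
      simp only [hf, hflQ]
      set R : A := (Q x * fl y - fl y * Q x) + (fl x * Q y - Q y * fl x) + (fl x * fl y - fl y * fl x) with hR
      have hz : (Q x + fl x) * (Q y + fl y) - (Q y + fl y) * (Q x + fl x) ∈ h :=
        hbrh _ (hmemh x) _ (hmemh y)
      have hz2 : (Q x + fl x) * (Q y + fl y) - (Q y + fl y) * (Q x + fl x) =
          (Q x * Q y - Q y * Q x) + R := by
        rw [hR]
        noncomm_ring
      have hz3 := hflh _ hz
      rw [hz2, fl.map_add, P.map_add, (hP _).2 (hbr _ (hQg x) _ (hQg y)), zero_add] at hz3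
      have hPR : P R = P (Q x * fl y - fl y * Q x) + P (fl x * Q y - Q y * fl x) +
          P (fl x * fl y - fl y * fl x) := by
        rw [hR, map_add, map_add]
      have e1 : P (fl x * Q y - Q y * fl x) = - P (Q y * fl x - fl x * Q y) := by
        rw [← map_neg, neg_sub]
      have e2 : P (Q x * fl y - fl y * Q x) - P (Q y * fl x - fl x * Q y) - fl (Q x * Q y - Q y * Q x) =
          fl R - P (fl x * fl y - fl y * fl x) := by
        have e3 : fl (Q x * Q y - Q y * Q x) = P R - fl R := by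
          rw [← hz3]; abel
        rw [e3, hPR, e1]
        abel
      rw [e2]
      have hx0 : 0 ≤ ‖x‖ := norm_nonneg x
      have hy0 : 0 ≤ ‖y‖ := norm_nonneg y
      have n1 : ‖Q x * fl y - fl y * Q x‖ ≤ ε * M ^ 2 * ‖x‖ * ‖y‖ := by
        refine (br_norm _ _ _ _ (hQM x) (hfn y)).trans (le_of_eq (by ring))
      have n2 : ‖fl x * Q y - Q y * fl x‖ ≤ ε * M ^ 2 * ‖x‖ * ‖y‖ := by
        refine (br_norm _ _ _ _ (hfn x) (hQM y)).trans (le_of_eq (by ring))
      have n3' : ‖fl x * fl y - fl y * fl x‖ ≤ ε ^ 2 * M ^ 2 * ‖x‖ * ‖y‖ := by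
        refine (br_norm _ _ _ _ (hfn x) (hfn y)).trans (le_of_eq (by ring))
      have hε2 : ε ^ 2 ≤ ε := by nlinarith
      have n3 : ‖fl x * fl y - fl y * fl x‖ ≤ ε * M ^ 2 * ‖x‖ * ‖y‖ := by
        refine n3'.trans ?_
        have : ε ^ 2 * (M ^ 2 * ‖x‖ * ‖y‖) ≤ ε * (M ^ 2 * ‖x‖ * ‖y‖) :=
          mul_le_mul_of_nonneg_right hε2 (by positivity)
        linarith
      have nR : ‖R‖ ≤ ε * M ^ 2 * ‖x‖ * ‖y‖ := by
        rw [hR]
        refine (IsUltrametricDist.norm_add_le_max _ _).trans (max_le ?_ n3)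
        exact (IsUltrametricDist.norm_add_le_max _ _).trans (max_le n1 n2)
      refine (ultra_sub _ _).trans (max_le ?_ ?_)
      · refine (hfn R).trans ?_
        have := mul_le_mul_of_nonneg_left nR (by positivity : 0 ≤ ε * M)
        refine this.trans (le_of_eq (by ring))
      · refine (hPM _).trans ?_
        have := mul_le_mul_of_nonneg_left n3' hMp.le
        refine this.trans (le_of_eq (by ring))
    rw [Prod.norm_def, hb2, norm_zero]
    exact max_le hb1 (by positivity)
  obtain ⟨t, ht1, ht2⟩ := hla f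
  have ht : ‖t‖ ≤ κ0 * (ε * M) := ht2.trans (mul_le_mul_of_nonneg_left hfnorm (by linarith))
  have hta : ‖t‖ ≤ κ0 ^ 2 * M ^ 3 * ε := by
    refine ht.trans ?_
    have := mul_le_mul_of_nonneg_right hκ1 hε
    linarith
  refine ⟨t, hta, ?_⟩
  intro w hw1 hw2 s hs
  have ht1' : ‖t‖ < 1 := lt_of_le_of_lt hta hκε
  have hwe : w = 1 - t * w := by
    have : w + t * w = 1 := by rw [← hw1]; rw [add_mul, one_mul]
    rw [← this]; abel
  have hwn : ‖w‖ ≤ 1 := by
    by_contra hc
    push Not at hc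
    have h1 : ‖w‖ ≤ max ‖(1 : A)‖ ‖t * w‖ := by
      conv_lhs => rw [hwe]
      exact ultra_sub _ _
    rw [norm_one] at h1
    rcases le_max_iff.1 h1 with h2 | h2
    · linarith
    · have h3 := h2.trans (norm_mul_le t w)
      nlinarith
  have hexp : (1 + t) * s * w = s + (t * s - s * t) - (t * s - s * t) * (t * w) := by
    have e1 : (1 + t) * s * w = s + (t * s - s * t) * w := by
      have : s * ((1 + t) * w) = s := by rw [hw1, mul_one]
      calc (1 + t) * s * w = s * ((1 + t) * w) + (t * s - s * t) * w := by noncomm_ring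
        _ = _ := by rw [this]
    have e2 : (t * s - s * t) * w = (t * s - s * t) - (t * s - s * t) * (t * w) := by
      conv_lhs => rw [hwe]
      rw [mul_sub, mul_one]
    rw [e1, e2]
    abel
  have hsdec : s = Q s + fl s := by
    rw [hflh s hs]; exact hdec s
  have hts : t * s - s * t = (t * Q s - Q s * t) + (t * fl s - fl s * t) := by
    conv_lhs => rw [hsdec]
    noncomm_ring
  have hPe : P ((1 + t) * s * w) = (f - alp P Q t) s + P (t * fl s - fl s * t) -
      P ((t * s - s * t) * (t * w)) := by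
    rw [hexp, map_sub, map_add]
    conv_lhs => rw [hts]
    rw [map_add]
    have e1 : (f - alp P Q t) s = P s + P (t * Q s - Q s * t) := by
      show fl s - P (Q s * t - t * Q s) = _
      rw [hflh s hs]
      have : P (t * Q s - Q s * t) = - P (Q s * t - t * Q s) := by rw [← map_neg, neg_sub]
      rw [this]; abel
    rw [e1, ← hts]
    abel
  rw [hPe]
  have hs0 : 0 ≤ ‖s‖ := norm_nonneg s
  have m1 : ‖(f - alp P Q t) s‖ ≤ κ0 ^ 2 * M ^ 3 * ε ^ 2 * ‖s‖ := by
    refine ((f - alp P Q t).le_opNorm s).trans ?_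
    apply mul_le_mul_of_nonneg_right _ hs0
    refine ht1.trans ?_
    have h1 := mul_le_mul_of_nonneg_left hbet (by linarith : 0 ≤ κ0)
    refine h1.trans ?_
    have h2 : κ0 ≤ κ0 ^ 2 := by nlinarith
    have h3 := mul_le_mul_of_nonneg_right h2 (by positivity : 0 ≤ ε ^ 2 * M ^ 3)
    linarith
  have m2 : ‖P (t * fl s - fl s * t)‖ ≤ κ0 ^ 2 * M ^ 3 * ε ^ 2 * ‖s‖ := by
    refine (hPM _).trans ?_
    have h1 := mul_le_mul_of_nonneg_left (br_norm _ _ _ _ ht (hfn s)) hMp.le
    refine h1.trans ?_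
    have h2 : κ0 ≤ κ0 ^ 2 := by nlinarith
    have h3 := mul_le_mul_of_nonneg_right h2 (by positivity : 0 ≤ ε ^ 2 * M ^ 3 * ‖s‖)
    linarith
  have m3 : ‖P ((t * s - s * t) * (t * w))‖ ≤ κ0 ^ 2 * M ^ 3 * ε ^ 2 * ‖s‖ := by
    refine (hPM _).trans ?_
    have h1 : ‖t * s - s * t‖ ≤ (κ0 * (ε * M)) * ‖s‖ := br_norm _ _ _ _ ht le_rfl
    have h2 : ‖t * w‖ ≤ κ0 * (ε * M) := by
      refine (norm_mul_le _ _).trans ?_
      have := mul_le_mul ht hwn (norm_nonneg _) (by positivity)
      linarith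
    have h3 : ‖(t * s - s * t) * (t * w)‖ ≤ ((κ0 * (ε * M)) * ‖s‖) * (κ0 * (ε * M)) :=
      (norm_mul_le _ _).trans (mul_le_mul h1 h2 (norm_nonneg _) (by positivity))
    have h4 := mul_le_mul_of_nonneg_left h3 hMp.le
    refine h4.trans (le_of_eq (by ring))
  refine (ultra_sub _ _).trans (max_le ?_ m3)
  exact (IsUltrametricDist.norm_add_le_max _ _).trans (max_le m1 m2)

end

end Pool.Agent.Helper156.RWF.J13193
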