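import Pool.Agent.KS6_3.RW.Helper156.RWF.D0
import Pool.Agent.KS6_3.RW.Helper156.RWF.J12439
import Pool.Agent.KS6_3.RW.Helper156.RWF.J12441
import Pool.Agent.KS6_3.RW.Helper156.RWF.J12442

namespace Pool.Agent.Helper156.RWF.J13190

open Pool.Agent.Helper156.RWF Pool.Agent.Helper156.RWF.J12439 Pool.Agent.Helper156.RWF.J12441 Pool.Agent.Helper156.RWF.J12442
open Filter Topology


section
variable {p : ℕ} [Fact p.Prime]
variable {A : Type} [NormedRing A] [NormedAlgebra ℚ_[p] A] [IsUltrametricDist A] [NormOneClass A]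
  [FiniteDimensional ℚ_[p] A]


omit [IsUltrametricDist A] [NormOneClass A] [FiniteDimensional ℚ_[p] A] in
theorem cl_norm_p (j : ℕ) : ‖((p : ℚ_[p]) ^ j)‖ = ((p : ℝ)⁻¹) ^ j := by
  rw [norm_pow, Padic.norm_p]

omit [IsUltrametricDist A] [NormOneClass A] [FiniteDimensional ℚ_[p] A] in
theorem cl_q_pos : 0 < ((p : ℝ)⁻¹) := by
  have := (Fact.out : p.Prime).pos
  positivity

omit [IsUltrametricDist A] [NormOneClass A] [FiniteDimensional ℚ_[p] A] in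
theorem cl_q_lt_one : ((p : ℝ)⁻¹) < 1 := by
  have h : 1 < (p : ℝ) := by exact_mod_cast (Fact.out : p.Prime).one_lt
  exact inv_lt_one_of_one_lt₀ h

omit [IsUltrametricDist A] [NormOneClass A] [FiniteDimensional ℚ_[p] A] in
theorem cl_p_ne (j : ℕ) : ((p : ℚ_[p]) ^ j) ≠ 0 := by
  apply pow_ne_zero
  exact_mod_cast (Fact.out : p.Prime).ne_zero

omit [IsUltrametricDist A] [NormOneClass A] [FiniteDimensional ℚ_[p] A] in
theorem cl_small (w : A) (r : ℝ) (hr : 0 < r) : ∃ j : ℕ, ‖((p : ℚ_[p]) ^ j) • w‖ ≤ r := by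
  have h1 : Tendsto (fun j : ℕ => ((p : ℝ)⁻¹) ^ j * ‖w‖) atTop (𝓝 (0 * ‖w‖)) :=
    (tendsto_pow_atTop_nhds_zero_of_lt_one cl_q_pos.le cl_q_lt_one).mul_const _
  rw [zero_mul] at h1
  obtain ⟨j, hj⟩ := (h1.eventually (gt_mem_nhds hr)).exists
  refine ⟨j, ?_⟩
  rw [norm_smul, cl_norm_p]
  exact le_of_lt hj

theorem commute_of_E_commute (x w : A) (hx : ‖x‖ ≤ ((p : ℝ)⁻¹) ^ 2)
    (h : E p x * w = w * E p x) : x * w = w * x := by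
  have : CompleteSpace A := FiniteDimensional.complete ℚ_[p] A
  have hq0 : 0 < ((p : ℝ)⁻¹) := cl_q_pos
  have hq1 : ((p : ℝ)⁻¹) < 1 := cl_q_lt_one
  obtain ⟨j, hj⟩ := cl_small (p := p) w ((p : ℝ)⁻¹) hq0
  obtain ⟨w', hw'⟩ : ∃ w', w' = ((p : ℚ_[p]) ^ j) • w := ⟨_, rfl⟩
  rw [← hw'] at hj
  have hcomm : E p x * w' = w' * E p x := by
    rw [hw', mul_smul_comm, smul_mul_assoc, h]
  have hlt : ‖-w'‖ < 1 := by rw [norm_neg]; exact lt_of_le_of_lt hj hq1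
  obtain ⟨u, hu⟩ : ∃ u : Aˣ, (u : A) = 1 + w' := by
    refine ⟨Units.oneSub (-w') hlt, ?_⟩
    rw [Units.val_oneSub, sub_neg_eq_add]
  obtain ⟨v, hv⟩ : ∃ v : A, v = ((u⁻¹ : Aˣ) : A) := ⟨_, rfl⟩
  have huv : (u : A) * v = 1 := by rw [hv]; exact u.mul_inv
  have hvu : v * (u : A) = 1 := by rw [hv]; exact u.inv_mul
  have hun : ‖(u : A)‖ ≤ 1 := by
    rw [hu]
    refine (IsUltrametricDist.norm_add_le_max _ _).trans ?_
    rw [norm_one]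
    exact max_le le_rfl (hj.trans hq1.le)
  have hvn : ‖v‖ ≤ 1 := by
    by_contra hcon
    push Not at hcon
    have e : v = 1 + -(v * w') := by
      have h1 : v * (1 + w') = 1 := by rw [← hu]; exact hvu
      rw [mul_add, mul_one] at h1
      rw [← h1]; abel
    have h2 : ‖v‖ ≤ max 1 (‖v‖ * ‖w'‖) := by
      calc ‖v‖ = ‖1 + -(v * w')‖ := by rw [← e]
        _ ≤ max ‖(1:A)‖ ‖-(v * w')‖ := IsUltrametricDist.norm_add_le_max _ _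
        _ ≤ max 1 (‖v‖ * ‖w'‖) := by
          rw [norm_one, norm_neg]
          exact max_le_max le_rfl (norm_mul_le _ _)
    have h3 : ‖v‖ * ‖w'‖ < ‖v‖ := by
      have h4 : ‖v‖ * ‖w'‖ ≤ ‖v‖ * (p : ℝ)⁻¹ := mul_le_mul_of_nonneg_left hj (norm_nonneg _)
      have h5 : ‖v‖ * (p : ℝ)⁻¹ < ‖v‖ * 1 := mul_lt_mul_of_pos_left hq1 (by linarith)
      linarith
    rcases le_max_iff.mp h2 with h4 | h4
    · linarith
    · linarith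
  have hE := E_conj (u : A) v x huv hvu hx
  have hcu : (u : A) * E p x = E p x * u := by
    rw [hu, add_mul, mul_add, one_mul, mul_one, hcomm]
  rw [hcu, mul_assoc (E p x), huv, mul_one] at hE
  have hn : ‖(u : A) * x * v‖ ≤ ((p : ℝ)⁻¹) ^ 2 := by
    calc ‖(u : A) * x * v‖ ≤ ‖(u : A) * x‖ * ‖v‖ := norm_mul_le _ _
      _ ≤ (‖(u : A)‖ * ‖x‖) * ‖v‖ := mul_le_mul_of_nonneg_right (norm_mul_le _ _) (norm_nonneg _)
      _ ≤ (1 * ‖x‖) * 1 := by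
        apply mul_le_mul _ hvn (norm_nonneg _) (by positivity)
        exact mul_le_mul_of_nonneg_right hun (norm_nonneg _)
      _ = ‖x‖ := by ring
      _ ≤ _ := hx
  have h6 := E_isom ((u : A) * x * v) x hn hx
  rw [hE, sub_self, norm_zero] at h6
  have h7 : (u : A) * x * v = x := sub_eq_zero.mp (norm_eq_zero.mp h6.symm)
  have h8 : (u : A) * x = x * u := by
    have h9 : (u : A) * x * v * u = x * u := by rw [h7]
    rwa [mul_assoc, hvu, mul_one] at h9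
  rw [hu, add_mul, mul_add, one_mul, mul_one] at h8
  have h10 : w' * x = x * w' := add_left_cancel h8
  rw [hw', smul_mul_assoc, mul_smul_comm] at h10
  exact (smul_right_injective A (cl_p_ne (p := p) j) h10).symm

theorem cl_lim (y : A) (hy : ‖y‖ ≤ ((p : ℝ)⁻¹) ^ 2) :
    Tendsto (fun j : ℕ => ((p : ℚ_[p]) ^ j)⁻¹ • (E p (((p : ℚ_[p]) ^ j) • y) - 1)) atTop (𝓝 y) := by
  rw [tendsto_iff_norm_sub_tendsto_zero]
  have hq0 : 0 < ((p : ℝ)⁻¹) := cl_q_pos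
  have hq1 : ((p : ℝ)⁻¹) < 1 := cl_q_lt_one
  have hp0 : 0 < (p : ℝ) := inv_pos.mp hq0
  have h1 : Tendsto (fun j : ℕ => ((p : ℝ)⁻¹) ^ j * (p * ‖y‖ ^ 2)) atTop (𝓝 (0 * (p * ‖y‖ ^ 2))) :=
    (tendsto_pow_atTop_nhds_zero_of_lt_one hq0.le hq1).mul_const _
  rw [zero_mul] at h1
  apply squeeze_zero (fun j => norm_nonneg _) _ h1
  intro j
  have hyj : ‖((p : ℚ_[p]) ^ j) • y‖ = ((p : ℝ)⁻¹) ^ j * ‖y‖ := by rw [norm_smul, cl_norm_p]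
  have hyj2 : ‖((p : ℚ_[p]) ^ j) • y‖ ≤ ((p : ℝ)⁻¹) ^ 2 := by
    rw [hyj]
    calc ((p : ℝ)⁻¹) ^ j * ‖y‖ ≤ 1 * ‖y‖ :=
          mul_le_mul_of_nonneg_right (pow_le_one₀ hq0.le hq1.le) (norm_nonneg _)
      _ = ‖y‖ := one_mul _
      _ ≤ _ := hy
  have h2 := E_sub_est (((p : ℚ_[p]) ^ j) • y) 0 hyj2 (by rw [norm_zero]; positivity)
  rw [E_zero, sub_zero, norm_zero, max_eq_left (norm_nonneg _), hyj] at h2
  have e : ((p : ℚ_[p]) ^ j)⁻¹ • (E p (((p : ℚ_[p]) ^ j) • y) - 1) - y =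
      ((p : ℚ_[p]) ^ j)⁻¹ • (E p (((p : ℚ_[p]) ^ j) • y) - 1 - ((p : ℚ_[p]) ^ j) • y) := by
    rw [smul_sub _ (E p (((p : ℚ_[p]) ^ j) • y) - 1), smul_smul, inv_mul_cancel₀ (cl_p_ne j), one_smul]
  rw [e, norm_smul, norm_inv, cl_norm_p]
  calc (((p : ℝ)⁻¹) ^ j)⁻¹ * ‖E p (((p : ℚ_[p]) ^ j) • y) - 1 - ((p : ℚ_[p]) ^ j) • y‖
      ≤ (((p : ℝ)⁻¹) ^ j)⁻¹ * ((p : ℝ) * (((p : ℝ)⁻¹) ^ j * ‖y‖) * (((p : ℝ)⁻¹) ^ j * ‖y‖)) :=
        mul_le_mul_of_nonneg_left h2 (by positivity)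
    _ = ((((p : ℝ)⁻¹) ^ j)⁻¹ * ((p : ℝ)⁻¹) ^ j) * (((p : ℝ)⁻¹) ^ j * (p * ‖y‖ ^ 2)) := by ring
    _ = ((p : ℝ)⁻¹) ^ j * (p * ‖y‖ ^ 2) := by
        rw [inv_mul_cancel₀ (by positivity), one_mul]

theorem cl_lim_one (y : A) (hy : ‖y‖ ≤ ((p : ℝ)⁻¹) ^ 2) :
    Tendsto (fun j : ℕ => E p (((p : ℚ_[p]) ^ j) • y)) atTop (𝓝 1) := by
  have hq0 : 0 < ((p : ℝ)⁻¹) := cl_q_pos
  have hq1 : ((p : ℝ)⁻¹) < 1 := cl_q_lt_one
  rw [tendsto_iff_norm_sub_tendsto_zero]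
  have h1 : Tendsto (fun j : ℕ => ((p : ℝ)⁻¹) ^ j * ‖y‖) atTop (𝓝 (0 * ‖y‖)) :=
    (tendsto_pow_atTop_nhds_zero_of_lt_one hq0.le hq1).mul_const _
  rw [zero_mul] at h1
  refine h1.congr ?_
  intro j
  have hyj : ‖((p : ℚ_[p]) ^ j) • y‖ = ((p : ℝ)⁻¹) ^ j * ‖y‖ := by rw [norm_smul, cl_norm_p]
  have hyj2 : ‖((p : ℚ_[p]) ^ j) • y‖ ≤ ((p : ℝ)⁻¹) ^ 2 := by
    rw [hyj]
    calc ((p : ℝ)⁻¹) ^ j * ‖y‖ ≤ 1 * ‖y‖ :=
          mul_le_mul_of_nonneg_right (pow_le_one₀ hq0.le hq1.le) (norm_nonneg _)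
      _ = ‖y‖ := one_mul _
      _ ≤ _ := hy
  have h2 := E_isom (((p : ℚ_[p]) ^ j) • y) 0 hyj2 (by rw [norm_zero]; positivity)
  rw [E_zero, sub_zero, hyj] at h2
  exact h2.symm

theorem log_normalizes (g : Submodule ℚ_[p] A) (y : A) (hy : ‖y‖ ≤ ((p : ℝ)⁻¹) ^ 2)
    (h : ∀ x ∈ g, E p y * x * E p (-y) ∈ g) : ∀ x ∈ g, y * x - x * y ∈ g := by
  intro x hx
  have hyn : ‖-y‖ ≤ ((p : ℝ)⁻¹) ^ 2 := by rw [norm_neg]; exact hy
  have hcl : IsClosed (g : Set A) := Submodule.closed_of_finiteDimensional g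
  have hpow : ∀ n : ℕ, E p y ^ n * x * E p (-y) ^ n ∈ g := by
    intro n
    induction n with
    | zero => rw [pow_zero, pow_zero, one_mul, mul_one]; exact hx
    | succ n ih =>
      have h1 := h _ ih
      have e : E p y ^ (n + 1) * x * E p (-y) ^ (n + 1) =
          E p y * (E p y ^ n * x * E p (-y) ^ n) * E p (-y) := by
        rw [pow_succ' (E p y), pow_succ (E p (-y))]
        simp only [mul_assoc]
      rw [e]; exact h1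
  have hcast : ∀ (j : ℕ) (z : A), ((p : ℚ_[p]) ^ j) • z = (p ^ j : ℕ) • z := by
    intro j z
    rw [← Nat.cast_smul_eq_nsmul ℚ_[p]]
    push_cast
    rfl
  have hmem : ∀ j : ℕ, E p (((p : ℚ_[p]) ^ j) • y) * x * E p (((p : ℚ_[p]) ^ j) • (-y)) ∈ g := by
    intro j
    rw [hcast, hcast, E_nsmul _ _ hy, E_nsmul _ _ hyn]
    exact hpow _
  have hmem2 : ∀ j : ℕ, ((p : ℚ_[p]) ^ j)⁻¹ • (E p (((p : ℚ_[p]) ^ j) • y) - 1) * x *
      E p (((p : ℚ_[p]) ^ j) • (-y)) + x * (((p : ℚ_[p]) ^ j)⁻¹ • (E p (((p : ℚ_[p]) ^ j) • (-y)) - 1)) ∈ g := by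
    intro j
    have h1 : ((p : ℚ_[p]) ^ j)⁻¹ • (E p (((p : ℚ_[p]) ^ j) • y) * x * E p (((p : ℚ_[p]) ^ j) • (-y)) - x) ∈ g :=
      g.smul_mem _ (g.sub_mem (hmem j) hx)
    have e : ((p : ℚ_[p]) ^ j)⁻¹ • (E p (((p : ℚ_[p]) ^ j) • y) - 1) * x *
      E p (((p : ℚ_[p]) ^ j) • (-y)) + x * (((p : ℚ_[p]) ^ j)⁻¹ • (E p (((p : ℚ_[p]) ^ j) • (-y)) - 1)) =
      ((p : ℚ_[p]) ^ j)⁻¹ • (E p (((p : ℚ_[p]) ^ j) • y) * x * E p (((p : ℚ_[p]) ^ j) • (-y)) - x) := by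
      rw [smul_mul_assoc, smul_mul_assoc, mul_smul_comm, ← smul_add]
      congr 1
      rw [sub_mul, one_mul, sub_mul, mul_sub, mul_one]
      abel
    rw [e]; exact h1
  have hlim := (((cl_lim y hy).mul_const x).mul (cl_lim_one (-y) hyn)).add
    ((cl_lim (-y) hyn).const_mul x)
  have h2 := hcl.mem_of_tendsto hlim (Eventually.of_forall hmem2)
  have e : y * x * 1 + x * (-y) = y * x - x * y := by
    rw [mul_one, mul_neg, sub_eq_add_neg]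
  rw [e] at h2
  exact h2

theorem group_normalizes (G : Set A) (hG : IsCptGrp G) (g : Submodule ℚ_[p] A) (k : ℕ)
    (hL : IsLieOf p G g k) (a b : A) (ha : a ∈ G) (hb : b ∈ G) (hab : a * b = 1)
    (hba : b * a = 1) : ∀ x ∈ g, a * x * b ∈ g := by
  intro x hx
  obtain ⟨hk, hLie⟩ := hL
  have hq0 : 0 < ((p : ℝ)⁻¹) := cl_q_pos
  have hq1 : ((p : ℝ)⁻¹) < 1 := cl_q_lt_one
  obtain ⟨j, hj⟩ := cl_small (p := p) x (((p : ℝ)⁻¹) ^ k) (by positivity)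
  have hj2 : ‖((p : ℚ_[p]) ^ j) • x‖ ≤ ((p : ℝ)⁻¹) ^ 2 :=
    hj.trans (pow_le_pow_of_le_one hq0.le hq1.le hk)
  have h1 : E p (((p : ℚ_[p]) ^ j) • x) ∈ G := (hLie _ hj).mpr (g.smul_mem _ hx)
  have h2 : a * E p (((p : ℚ_[p]) ^ j) • x) * b ∈ G := hG.mul_mem _ (hG.mul_mem _ ha _ h1) _ hb
  rw [← E_conj a b _ hab hba hj2] at h2
  have hn : ‖a * (((p : ℚ_[p]) ^ j) • x) * b‖ ≤ ((p : ℝ)⁻¹) ^ k := by
    calc ‖a * (((p : ℚ_[p]) ^ j) • x) * b‖ ≤ ‖a * (((p : ℚ_[p]) ^ j) • x)‖ * ‖b‖ := norm_mul_le _ _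
      _ ≤ (‖a‖ * ‖((p : ℚ_[p]) ^ j) • x‖) * ‖b‖ :=
        mul_le_mul_of_nonneg_right (norm_mul_le _ _) (norm_nonneg _)
      _ ≤ (1 * ‖((p : ℚ_[p]) ^ j) • x‖) * 1 := by
        apply mul_le_mul _ (hG.norm_le b hb) (norm_nonneg _) (by positivity)
        exact mul_le_mul_of_nonneg_right (hG.norm_le a ha) (norm_nonneg _)
      _ = ‖((p : ℚ_[p]) ^ j) • x‖ := by ring
      _ ≤ _ := hj
  have h3 := (hLie _ hn).mp h2
  have h4 : a * x * b = ((p : ℚ_[p]) ^ j)⁻¹ • (a * (((p : ℚ_[p]) ^ j) • x) * b) := by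
    rw [mul_smul_comm, smul_mul_assoc, smul_smul, inv_mul_cancel₀ (cl_p_ne j), one_smul]
  rw [h4]
  exact g.smul_mem _ h3

end

end Pool.Agent.Helper156.RWF.J13190
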