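import Pool.Agent.KS6_3.RW.Helper156.RWF.D0
import Pool.Agent.KS6_3.RW.Helper156.RWF.J12439
import Pool.Agent.KS6_3.RW.Helper156.RWF.J12441
import Pool.Agent.KS6_3.RW.Helper156.RWF.J12442
import Pool.Agent.KS6_3.RW.Helper156.RWF.J13186
import Pool.Agent.KS6_3.RW.Helper156.RWF.J13190

namespace Pool.Agent.Helper156.RWF.J13192

open Pool.Agent.Helper156.RWF Pool.Agent.Helper156.RWF.J12439 Pool.Agent.Helper156.RWF.J12441 Pool.Agent.Helper156.RWF.J12442 Pool.Agent.Helper156.RWF.J13186 Pool.Agent.Helper156.RWF.J13190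
open Filter Topology


section
variable {p : ℕ} [Fact p.Prime]
variable {A : Type} [NormedRing A] [NormedAlgebra ℚ_[p] A] [IsUltrametricDist A] [NormOneClass A]
  [FiniteDimensional ℚ_[p] A]


omit [NormedAlgebra ℚ_[p] A] [NormOneClass A] [FiniteDimensional ℚ_[p] A] in
theorem group_rigid_sub_le (x y : A) : ‖x - y‖ ≤ max ‖x‖ ‖y‖ := by
  rw [sub_eq_add_neg, ← norm_neg y]
  exact IsUltrametricDist.norm_add_le_max x (-y)

theorem group_rigid_comm_E (w x : A) (hw : ‖w‖ ≤ ((p : ℝ)⁻¹) ^ 2) (h : w * x = x * w) :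
    E p w * x = x * E p w := by
  have hs := E_summable (p := p) w hw
  unfold E
  rw [← hs.tsum_mul_right, ← hs.tsum_mul_left]
  refine tsum_congr fun n => ?_
  rw [smul_mul_assoc, mul_smul_comm]
  congr 1
  have hc : Commute w x := h
  exact (hc.pow_left n).eq

/-- elements near to one another in a group -/
theorem group_rigid_nearE (g : Submodule ℚ_[p] A) (k : ℕ) {G : Set A} (hG : IsCptGrp G)
    (hL : IsLieOf p G g k) {a b : A} (ha : a ∈ G) (hb : b ∈ G)
    (hab : ‖a - b‖ ≤ ((p : ℝ)⁻¹) ^ k) :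
    ∃ x ∈ g, ‖x‖ ≤ ((p : ℝ)⁻¹) ^ k ∧ b = a * E p x := by
  obtain ⟨a', ha', h1, h2⟩ := hG.inv_mem a ha
  have hn : ‖a' * b - 1‖ ≤ ((p : ℝ)⁻¹) ^ k := by
    have e : a' * b - 1 = a' * (b - a) := by rw [mul_sub, h2]
    rw [e]
    calc ‖a' * (b - a)‖ ≤ ‖a'‖ * ‖b - a‖ := norm_mul_le _ _
      _ ≤ 1 * ‖b - a‖ := mul_le_mul_of_nonneg_right (hG.norm_le a' ha') (norm_nonneg _)
      _ = ‖a - b‖ := by rw [one_mul, norm_sub_rev]
      _ ≤ _ := hab
  obtain ⟨x, hx, hEx⟩ := E_surj (p := p) k hL.1 (a' * b) hn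
  have hxg : x ∈ g := by
    rw [← hL.2 x hx, hEx]
    exact hG.mul_mem a' ha' b hb
  refine ⟨x, hxg, hx, ?_⟩
  rw [hEx, ← mul_assoc, h1, one_mul]

/-- the property of the correction factors -/
def group_rigid_Pz (g : Submodule ℚ_[p] A) (G' : Set A) (δ : ℝ) (a z : A) : Prop :=
  (∀ x ∈ g, z * x = x * z) ∧ ‖z - 1‖ ≤ δ ∧ a * z ∈ G'

theorem group_rigid_exists (g : Submodule ℚ_[p] A) (k : ℕ) {κ : ℝ} (hκ : 1 ≤ κ)
    (hdec : ∀ y : A, (∀ x ∈ g, y * x - x * y ∈ g) →
      ∃ x₀ ∈ g, ‖x₀‖ ≤ κ * ‖y‖ ∧ ∀ x ∈ g, (y - x₀) * x = x * (y - x₀))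
    {j : ℕ} (hj : κ * ((p : ℝ)⁻¹) ^ j ≤ ((p : ℝ)⁻¹) ^ k)
    {G G' : Set A} (hG : IsCptGrp G) (hG' : IsCptGrp G') (hL : IsLieOf p G g k)
    (hL' : IsLieOf p G' g k) (hC : Close p j G G') (a : A) (ha : a ∈ G) :
    ∃ z, group_rigid_Pz g G' (κ * ((p : ℝ)⁻¹) ^ j) a z := by
  have hk := hL.1
  have hp0 : (0 : ℝ) < (p : ℝ)⁻¹ := inv_pos.2 (by exact_mod_cast (Fact.out : p.Prime).pos)
  have hp1 : (p : ℝ)⁻¹ ≤ 1 := inv_le_one_of_one_le₀ (by exact_mod_cast (Fact.out : p.Prime).one_le)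
  have hk2 : ((p : ℝ)⁻¹) ^ k ≤ ((p : ℝ)⁻¹) ^ 2 := pow_le_pow_of_le_one hp0.le hp1 hk
  have hpj : 0 < ((p : ℝ)⁻¹) ^ j := pow_pos hp0 j
  have hjκ : ((p : ℝ)⁻¹) ^ j ≤ κ * ((p : ℝ)⁻¹) ^ j := le_mul_of_one_le_left hpj.le hκ
  obtain ⟨a', ha', haa'⟩ := hC.1 a ha
  obtain ⟨b, hb, hab, hba⟩ := hG.inv_mem a ha
  obtain ⟨b', hb', hab', hba'⟩ := hG'.inv_mem a' ha'
  have hn : ‖b * a' - 1‖ ≤ ((p : ℝ)⁻¹) ^ j := by
    have e : b * a' - 1 = b * (a' - a) := by rw [mul_sub, hba]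
    rw [e]
    calc ‖b * (a' - a)‖ ≤ ‖b‖ * ‖a' - a‖ := norm_mul_le _ _
      _ ≤ 1 * ‖a' - a‖ := mul_le_mul_of_nonneg_right (hG.norm_le b hb) (norm_nonneg _)
      _ = ‖a - a'‖ := by rw [one_mul, norm_sub_rev]
      _ ≤ _ := haa'
  obtain ⟨y, hy, hEy⟩ := E_surj (p := p) k hk (b * a') (hn.trans (hjκ.trans hj))
  have hy2 : ‖y‖ ≤ ((p : ℝ)⁻¹) ^ 2 := hy.trans hk2
  have h0 : ‖(0 : A)‖ ≤ ((p : ℝ)⁻¹) ^ 2 := by rw [norm_zero]; positivity
  have hyj : ‖y‖ ≤ ((p : ℝ)⁻¹) ^ j := by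
    have h1 := E_isom (p := p) y 0 hy2 h0
    rw [E_zero, sub_zero, hEy] at h1
    rw [← h1]
    exact hn
  have hEny : E p (-y) = b' * a := by
    have h1 := E_neg (p := p) y hy2
    rw [hEy] at h1
    have h2 : (b' * a) * (b * a') = 1 := by
      calc (b' * a) * (b * a') = b' * (a * b) * a' := by simp only [mul_assoc]
        _ = 1 := by rw [hab, mul_one, hba']
    calc E p (-y) = ((b' * a) * (b * a')) * E p (-y) := by rw [h2, one_mul]
      _ = (b' * a) * ((b * a') * E p (-y)) := by simp only [mul_assoc]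
      _ = b' * a := by rw [h1, mul_one]
  have hnorm : ∀ x ∈ g, E p y * x * E p (-y) ∈ g := by
    intro x hx
    have h1 := group_normalizes G' hG' g k hL' a' b' ha' hb' hab' hba' x hx
    have h2 := group_normalizes G hG g k hL b a hb ha hba hab _ h1
    have e : E p y * x * E p (-y) = b * (a' * x * b') * a := by
      rw [hEy, hEny]; simp only [mul_assoc]
    rw [e]
    exact h2
  obtain ⟨x₀, hx₀, hx₀n, hcomm⟩ := hdec y (log_normalizes g y hy2 hnorm)
  have hx₀j : ‖x₀‖ ≤ κ * ((p : ℝ)⁻¹) ^ j :=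
    hx₀n.trans (mul_le_mul_of_nonneg_left hyj (by linarith))
  have hx₀k : ‖x₀‖ ≤ ((p : ℝ)⁻¹) ^ k := hx₀j.trans hj
  set w : A := y - x₀ with hw
  have hwj : ‖w‖ ≤ κ * ((p : ℝ)⁻¹) ^ j :=
    (group_rigid_sub_le y x₀).trans (max_le (hyj.trans hjκ) hx₀j)
  have hw2 : ‖w‖ ≤ ((p : ℝ)⁻¹) ^ 2 := (hwj.trans hj).trans hk2
  have hEyw : E p y = E p w * E p x₀ := by
    rw [← E_add_comm (p := p) w x₀ hw2 (hx₀k.trans hk2) (hcomm x₀ hx₀)]
    congr 1
    rw [hw]; abel
  refine ⟨E p w, fun x hx => group_rigid_comm_E w x hw2 (hcomm x hx), ?_, ?_⟩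
  · have h1 := E_isom (p := p) w 0 hw2 h0
    rw [E_zero, sub_zero] at h1
    rw [h1]
    exact hwj
  · have h1 : a * E p w = a' * E p (-x₀) := by
      have h2 := E_neg (p := p) x₀ (hx₀k.trans hk2)
      calc a * E p w = a * (E p w * (E p x₀ * E p (-x₀))) := by rw [h2, mul_one]
        _ = a * ((E p w * E p x₀) * E p (-x₀)) := by simp only [mul_assoc]
        _ = a * ((b * a') * E p (-x₀)) := by rw [← hEyw, hEy]
        _ = (a * b) * (a' * E p (-x₀)) := by simp only [mul_assoc]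
        _ = a' * E p (-x₀) := by rw [hab, one_mul]
    rw [h1]
    refine hG'.mul_mem a' ha' _ ?_
    rw [hL'.2 (-x₀) (by rw [norm_neg]; exact hx₀k)]
    exact g.neg_mem hx₀

theorem group_rigid_unique (g : Submodule ℚ_[p] A) (hbr : Brk g) (hW : WProp g) (k : ℕ) {δ : ℝ}
    (hδ : δ ≤ ((p : ℝ)⁻¹) ^ k) {G G' : Set A} (hG : IsCptGrp G) (hG' : IsCptGrp G')
    (hL' : IsLieOf p G' g k) {a z z' : A} (ha : a ∈ G) (hz : group_rigid_Pz g G' δ a z)
    (hz' : group_rigid_Pz g G' δ a z') : z = z' := by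
  have hk := hL'.1
  have hp0 : (0 : ℝ) < (p : ℝ)⁻¹ := inv_pos.2 (by exact_mod_cast (Fact.out : p.Prime).pos)
  have hp1 : (p : ℝ)⁻¹ ≤ 1 := inv_le_one_of_one_le₀ (by exact_mod_cast (Fact.out : p.Prime).one_le)
  have hk2 : ((p : ℝ)⁻¹) ^ k ≤ ((p : ℝ)⁻¹) ^ 2 := pow_le_pow_of_le_one hp0.le hp1 hk
  obtain ⟨b, hb, hab, hba⟩ := hG.inv_mem a ha
  obtain ⟨c, hc, h1, h2⟩ := hG'.inv_mem (a * z) hz.2.2
  have h3 : (c * a) * z = 1 := by rw [mul_assoc]; exact h2
  have h4 : z * (c * a) = 1 := by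
    calc z * (c * a) = (b * a) * (z * (c * a)) := by rw [hba, one_mul]
      _ = b * ((a * z) * c) * a := by simp only [mul_assoc]
      _ = 1 := by rw [h1, mul_one, hba]
  have h5 : ∀ x ∈ g, (c * a) * x = x * (c * a) := by
    intro x hx
    calc (c * a) * x = (c * a) * (x * (z * (c * a))) := by rw [h4, mul_one]
      _ = (c * a) * ((x * z) * (c * a)) := by simp only [mul_assoc]
      _ = (c * a) * ((z * x) * (c * a)) := by rw [hz.1 x hx]
      _ = ((c * a) * z) * (x * (c * a)) := by simp only [mul_assoc]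
      _ = x * (c * a) := by rw [h3, one_mul]
  set t : A := (c * a) * z' with ht
  have htG : t ∈ G' := by
    rw [ht, mul_assoc]
    exact hG'.mul_mem c hc _ hz'.2.2
  have htn : ‖t - 1‖ ≤ ((p : ℝ)⁻¹) ^ k := by
    have e : t - 1 = (c * a) * (z' - z) := by rw [mul_sub, h3]
    have hca : ‖c * a‖ ≤ 1 := by
      calc ‖c * a‖ ≤ ‖c‖ * ‖a‖ := norm_mul_le _ _
        _ ≤ 1 * 1 := mul_le_mul (hG'.norm_le c hc) (hG.norm_le a ha) (norm_nonneg _) zero_le_one
        _ = 1 := one_mul 1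
    have hzz : ‖z' - z‖ ≤ δ := by
      have e2 : z' - z = (z' - 1) - (z - 1) := by abel
      rw [e2]
      exact (group_rigid_sub_le _ _).trans (max_le hz'.2.1 hz.2.1)
    rw [e]
    calc ‖(c * a) * (z' - z)‖ ≤ ‖c * a‖ * ‖z' - z‖ := norm_mul_le _ _
      _ ≤ 1 * ‖z' - z‖ := mul_le_mul_of_nonneg_right hca (norm_nonneg _)
      _ ≤ _ := by rw [one_mul]; exact hzz.trans hδ
  have htc : ∀ x ∈ g, t * x = x * t := by
    intro x hx
    rw [ht]
    calc (c * a) * z' * x = (c * a) * (z' * x) := by simp only [mul_assoc]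
      _ = (c * a) * (x * z') := by rw [hz'.1 x hx]
      _ = ((c * a) * x) * z' := by simp only [mul_assoc]
      _ = (x * (c * a)) * z' := by rw [h5 x hx]
      _ = x * ((c * a) * z') := by simp only [mul_assoc]
  obtain ⟨x, hx, hEx⟩ := E_surj (p := p) k hk t htn
  have hxg : x ∈ g := by
    rw [← hL'.2 x hx, hEx]
    exact htG
  have hx0 : x = 0 := by
    refine center_zero_of_wprop g hbr hW x hxg fun y hy => ?_
    refine commute_of_E_commute x y (hx.trans hk2) ?_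
    rw [hEx]
    exact htc y hy
  have ht1 : t = 1 := by rw [← hEx, hx0, E_zero]
  calc z = z * ((c * a) * z') := by rw [← ht, ht1, mul_one]
    _ = (z * (c * a)) * z' := by simp only [mul_assoc]
    _ = z' := by rw [h4, one_mul]

theorem group_rigid_mul (g : Submodule ℚ_[p] A) (k : ℕ) {δ : ℝ} (hδ0 : 0 ≤ δ) (hδ1 : δ ≤ 1)
    {G G' : Set A} (hG : IsCptGrp G) (hG' : IsCptGrp G') (hL : IsLieOf p G g k)
    {a b b' za zb : A} (hb : b ∈ G) (hb' : b' ∈ G) (h1 : b * b' = 1)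
    (h2 : b' * b = 1) (hza : group_rigid_Pz g G' δ a za) (hzb : group_rigid_Pz g G' δ b zb) :
    group_rigid_Pz g G' δ (a * b) (b' * za * b * zb) := by
  refine ⟨fun x hx => ?_, ?_, ?_⟩
  · have h3 := group_normalizes G hG g k hL b b' hb hb' h1 h2 x hx
    have h4 := hza.1 _ h3
    calc b' * za * b * zb * x = b' * za * b * (zb * x) := by simp only [mul_assoc]
      _ = b' * za * b * (x * zb) := by rw [hzb.1 x hx]
      _ = b' * (za * (b * x)) * zb := by simp only [mul_assoc]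
      _ = b' * (za * (b * x * (b' * b))) * zb := by rw [h2, mul_one]
      _ = b' * (za * (b * x * b')) * b * zb := by simp only [mul_assoc]
      _ = b' * ((b * x * b') * za) * b * zb := by rw [h4]
      _ = (b' * b) * (x * (b' * za * b * zb)) := by simp only [mul_assoc]
      _ = x * (b' * za * b * zb) := by rw [h2, one_mul]
  · have e : b' * za * b * zb - 1 = b' * (za - 1) * b * zb + (zb - 1) := by
      have e1 : b' * (za - 1) * b * zb = b' * za * b * zb - (b' * b) * zb := by noncomm_ring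
      rw [e1, h2, one_mul]
      abel
    have hzbn : ‖zb‖ ≤ 1 := by
      have e2 : zb = (zb - 1) + 1 := by abel
      rw [e2]
      refine (IsUltrametricDist.norm_add_le_max _ _).trans (max_le (hzb.2.1.trans hδ1) ?_)
      rw [norm_one]
    rw [e]
    refine (IsUltrametricDist.norm_add_le_max _ _).trans (max_le ?_ hzb.2.1)
    calc ‖b' * (za - 1) * b * zb‖ ≤ ‖b' * (za - 1) * b‖ * ‖zb‖ := norm_mul_le _ _
      _ ≤ (‖b' * (za - 1)‖ * ‖b‖) * ‖zb‖ :=
        mul_le_mul_of_nonneg_right (norm_mul_le _ _) (norm_nonneg _)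
      _ ≤ (‖b'‖ * ‖za - 1‖ * ‖b‖) * ‖zb‖ :=
        mul_le_mul_of_nonneg_right (mul_le_mul_of_nonneg_right (norm_mul_le _ _) (norm_nonneg _))
          (norm_nonneg _)
      _ ≤ (1 * δ * 1) * 1 := by
        have n1 := hG.norm_le b hb
        have n2 := hG.norm_le b' hb'
        have n3 := hza.2.1
        have n4 := norm_nonneg b
        have n5 := norm_nonneg b'
        have n6 := norm_nonneg zb
        have n7 := norm_nonneg (za - 1)
        gcongr
      _ = δ := by ring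
  · have e : a * b * (b' * za * b * zb) = (a * za) * (b * zb) := by
      calc a * b * (b' * za * b * zb) = a * (b * b') * (za * (b * zb)) := by simp only [mul_assoc]
        _ = (a * za) * (b * zb) := by rw [h1, mul_one]; simp only [mul_assoc]
    rw [e]
    exact hG'.mul_mem _ hza.2.2 _ hzb.2.2

theorem group_rigid_near (g : Submodule ℚ_[p] A) (k : ℕ) {δ : ℝ}
    {G G' : Set A} (hG : IsCptGrp G) (hG' : IsCptGrp G') (hL : IsLieOf p G g k)
    (hL' : IsLieOf p G' g k) {a b za : A} (ha : a ∈ G) (hb : b ∈ G)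
    (hab : ‖a - b‖ ≤ ((p : ℝ)⁻¹) ^ k) (hza : group_rigid_Pz g G' δ a za) :
    group_rigid_Pz g G' δ b za := by
  have hp0 : (0 : ℝ) < (p : ℝ)⁻¹ := inv_pos.2 (by exact_mod_cast (Fact.out : p.Prime).pos)
  have hp1 : (p : ℝ)⁻¹ ≤ 1 := inv_le_one_of_one_le₀ (by exact_mod_cast (Fact.out : p.Prime).one_le)
  have hk2 : ((p : ℝ)⁻¹) ^ k ≤ ((p : ℝ)⁻¹) ^ 2 := pow_le_pow_of_le_one hp0.le hp1 hL.1
  refine ⟨hza.1, hza.2.1, ?_⟩
  obtain ⟨x, hxg, hx, hbx⟩ := group_rigid_nearE g k hG hL ha hb hab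
  have h1 : E p x * za = za * E p x :=
    group_rigid_comm_E x za (hx.trans hk2) (hza.1 x hxg).symm
  rw [hbx, mul_assoc, h1, ← mul_assoc]
  exact hG'.mul_mem _ hza.2.2 _ ((hL'.2 x hx).2 hxg)

omit [NormedAlgebra ℚ_[p] A] [FiniteDimensional ℚ_[p] A] in
theorem group_rigid_unit [CompleteSpace A] (T : A) (hT : ‖T - 1‖ < 1) :
    ‖T‖ ≤ 1 ∧ ∃ v : A, T * v = 1 ∧ v * T = 1 ∧ ‖v‖ ≤ 1 := by
  have hT' : ‖1 - T‖ < 1 := by rwa [norm_sub_rev]
  have h1 : ‖T‖ ≤ 1 := by
    have e2 : T = (T - 1) + 1 := by abel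
    rw [e2]
    refine (IsUltrametricDist.norm_add_le_max _ _).trans (max_le hT.le ?_)
    rw [norm_one]
  refine ⟨h1, ?_⟩
  let u : Aˣ := Units.oneSub (1 - T) hT'
  have hu : (u : A) = T := by
    simp [u]
  refine ⟨((u⁻¹ : Aˣ) : A), by rw [← hu]; exact u.mul_inv, by rw [← hu]; exact u.inv_mul, ?_⟩
  set v : A := ((u⁻¹ : Aˣ) : A) with hv
  by_contra hcon
  push Not at hcon
  have e : v = 1 + (1 - T) * v := by
    have : T * v = 1 := by rw [← hu]; exact u.mul_inv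
    rw [sub_mul, this, one_mul]
    abel
  have h2 : ‖v‖ ≤ max 1 (‖1 - T‖ * ‖v‖) := by
    conv_lhs => rw [e]
    refine (IsUltrametricDist.norm_add_le_max _ _).trans (max_le_max ?_ (norm_mul_le _ _))
    rw [norm_one]
  have h3 : ‖1 - T‖ * ‖v‖ < ‖v‖ := by
    have : 0 < ‖v‖ := by linarith
    nlinarith
  rcases le_max_iff.1 h2 with h | h
  · linarith
  · linarith

/-- nearby groups with the same Lie algebra are conjugate -/
theorem group_rigid (g : Submodule ℚ_[p] A) (hbr : Brk g) (hW : WProp g) (k : ℕ) :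
    ∃ j : ℕ, ∀ G G' : Set A, IsCptGrp G → IsCptGrp G' → IsLieOf p G g k → IsLieOf p G' g k →
      Close p j G G' →
      ∃ u v : A, u * v = 1 ∧ v * u = 1 ∧ ‖u‖ ≤ 1 ∧ ‖v‖ ≤ 1 ∧ G' = (fun x => u * x * v) '' G := by
  classical
  by_cases hk : 2 ≤ k
  swap
  · exact ⟨0, fun G G' _ _ hL _ _ => absurd hL.1 hk⟩
  obtain ⟨κ, hκ, hdec⟩ := norm_decomp g hbr hW
  have : ProperSpace A := FiniteDimensional.proper ℚ_[p] A
  have : CompleteSpace A := FiniteDimensional.complete ℚ_[p] A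
  have hp0 : (0 : ℝ) < (p : ℝ)⁻¹ := inv_pos.2 (by exact_mod_cast (Fact.out : p.Prime).pos)
  have hp1' : (p : ℝ)⁻¹ < 1 := inv_lt_one_of_one_lt₀ (by exact_mod_cast (Fact.out : p.Prime).one_lt)
  have hp1 : (p : ℝ)⁻¹ ≤ 1 := hp1'.le
  have hkpos : 0 < ((p : ℝ)⁻¹) ^ k := pow_pos hp0 k
  have hk2 : ((p : ℝ)⁻¹) ^ k ≤ ((p : ℝ)⁻¹) ^ 2 := pow_le_pow_of_le_one hp0.le hp1 hk
  obtain ⟨C, hCfin, hCcov⟩ : ∃ C : Set A, C.Finite ∧
      Metric.closedBall (0 : A) 1 ⊆ ⋃ c ∈ C, Metric.ball c (((p : ℝ)⁻¹) ^ k) :=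
    Metric.totallyBounded_iff.1 (isCompact_closedBall (0 : A) 1).totallyBounded _ hkpos
  set q0 : ℕ := Nat.card C with hq0
  have : Finite C := hCfin
  set B : ℝ := ∑ q ∈ Finset.range (q0 + 1), ‖((q : ℚ_[p]))⁻¹‖ with hB
  have hB0 : 0 ≤ B := Finset.sum_nonneg fun _ _ => norm_nonneg _
  have hκ0 : 0 < κ := by linarith
  obtain ⟨j, hj⟩ : ∃ j : ℕ, ((p : ℝ)⁻¹) ^ j < min (((p : ℝ)⁻¹) ^ k / κ) (1 / ((B + 1) * κ)) :=
    exists_pow_lt_of_lt_one (by positivity) hp1'
  refine ⟨j, ?_⟩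
  intro G G' hG hG' hL hL' hCl
  set δ : ℝ := κ * ((p : ℝ)⁻¹) ^ j with hδ
  have hδ0 : 0 ≤ δ := by positivity
  have hδk : δ ≤ ((p : ℝ)⁻¹) ^ k := by
    have h1 := hj.le.trans (min_le_left _ _)
    rw [le_div_iff₀ hκ0] at h1
    rw [hδ]; linarith
  have hδB : B * δ < 1 := by
    have h1 := hj.trans_le (min_le_right _ _)
    rw [lt_div_iff₀ (by positivity)] at h1
    have h2 : B * δ ≤ ((p : ℝ)⁻¹) ^ j * ((B + 1) * κ) := by
      rw [hδ]
      have : 0 ≤ κ * ((p : ℝ)⁻¹) ^ j := hδ0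
      nlinarith
    linarith
  have hδ1 : δ ≤ 1 := by
    refine (hδk.trans hk2).trans ?_
    exact pow_le_one₀ hp0.le hp1
  have hex : ∀ a ∈ G, ∃ z, group_rigid_Pz g G' δ a z := fun a ha =>
    group_rigid_exists g k hκ hdec hδk hG hG' hL hL' hCl a ha
  choose! Z hZ using hex
  have hinv := hG.inv_mem
  choose! iv hiv using hinv
  have huni : ∀ a ∈ G, ∀ z, group_rigid_Pz g G' δ a z → Z a = z := fun a ha z hz =>
    group_rigid_unique g hbr hW k hδk hG hG' hL' ha (hZ a ha) hz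
  have hZnear : ∀ a ∈ G, ∀ b ∈ G, ‖a - b‖ ≤ ((p : ℝ)⁻¹) ^ k → Z b = Z a := fun a ha b hb hab =>
    huni b hb _ (group_rigid_near g k hG hG' hL hL' ha hb hab (hZ a ha))
  have hZmul : ∀ a ∈ G, ∀ b ∈ G, Z (a * b) = iv b * Z a * b * Z b := fun a ha b hb =>
    huni _ (hG.mul_mem a ha b hb) _ (group_rigid_mul g k hδ0 hδ1 hG hG' hL hb (hiv b hb).1
      (hiv b hb).2.1 (hiv b hb).2.2 (hZ a ha) (hZ b hb))
  let f : G → A := fun s => (s : A) * Z s * iv s
  have hf : ∀ s t : G, ‖(s : A) - t‖ ≤ ((p : ℝ)⁻¹) ^ k → f s = f t := by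
    intro s t hst
    obtain ⟨x, hxg, hx, htx⟩ := group_rigid_nearE g k hG hL s.2 t.2 hst
    have hZt : Z t = Z s := hZnear s s.2 t t.2 hst
    have hc : E p x * Z s = Z s * E p x :=
      group_rigid_comm_E x (Z s) (hx.trans hk2) ((hZ s s.2).1 x hxg).symm
    have h1 : f s * t = t * Z t := by
      simp only [f]
      rw [hZt]
      calc (s : A) * Z s * iv s * t = (s : A) * Z s * iv s * (s * E p x) := by rw [← htx]
        _ = (s : A) * Z s * (iv s * s) * E p x := by simp only [mul_assoc]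
        _ = (s : A) * (Z s * E p x) := by rw [(hiv s s.2).2.2, mul_one]; simp only [mul_assoc]
        _ = (s * E p x) * Z s := by rw [← hc]; simp only [mul_assoc]
        _ = t * Z s := by rw [← htx]
    calc f s = f s * (t * iv t) := by rw [(hiv t t.2).2.1, mul_one]
      _ = (f s * t) * iv t := by simp only [mul_assoc]
      _ = f t := by rw [h1]
  let S : Setoid G :=
    { r := fun s t => ‖(s : A) - t‖ ≤ ((p : ℝ)⁻¹) ^ k
      iseqv := by
        refine ⟨fun s => ?_, fun {s t} h => ?_, fun {s t r} h h' => ?_⟩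
        · rw [sub_self, norm_zero]; exact hkpos.le
        · rw [norm_sub_rev]; exact h
        · have e : (s : A) - r = (s - t) + (t - r) := by abel
          rw [e]
          exact (IsUltrametricDist.norm_add_le_max _ _).trans (max_le h h') }
  let F : Quotient S → A := Quotient.lift f fun s t h => hf s t h
  -- finiteness
  have hcen : ∀ s : G, ∃ c : C, ‖(s : A) - c‖ ≤ ((p : ℝ)⁻¹) ^ k := by
    intro s
    have h1 : (s : A) ∈ Metric.closedBall (0 : A) 1 := by
      rw [mem_closedBall_zero_iff]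
      exact hG.norm_le s s.2
    have h2 := hCcov h1
    simp only [Set.mem_iUnion, exists_prop] at h2
    obtain ⟨c, hc, h3⟩ := h2
    rw [mem_ball_iff_norm] at h3
    exact ⟨⟨c, hc⟩, h3.le⟩
  choose cen hcen' using hcen
  have hinj : Function.Injective (fun c : Quotient S => cen c.out) := by
    intro c c' hcc
    rw [← Quotient.out_eq c, ← Quotient.out_eq c']
    apply Quotient.sound
    change ‖((c.out : G) : A) - (c'.out : G)‖ ≤ _
    have e : ((c.out : G) : A) - (c'.out : G)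
        = (((c.out : G) : A) - cen c.out) - (((c'.out : G) : A) - cen c'.out) := by
      have hcc' : ((cen c.out : C) : A) = cen c'.out := congrArg Subtype.val hcc
      rw [hcc']; abel
    rw [e]
    exact (group_rigid_sub_le _ _).trans (max_le (hcen' _) (hcen' _))
  have : Finite (Quotient S) := Finite.of_injective _ hinj
  have : Fintype (Quotient S) := Fintype.ofFinite _
  have hcard : Fintype.card (Quotient S) ≤ q0 := by
    rw [← Nat.card_eq_fintype_card]
    exact Nat.card_le_card_of_injective _ hinj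
  set q : ℕ := Fintype.card (Quotient S) with hq
  have hqpos : 0 < q := by
    rw [hq, Fintype.card_pos_iff]
    exact ⟨Quotient.mk S ⟨1, hG.one_mem⟩⟩
  have hqne : (q : ℚ_[p]) ≠ 0 := by exact_mod_cast hqpos.ne'
  have hqB : ‖((q : ℚ_[p]))⁻¹‖ ≤ B := by
    rw [hB]
    exact Finset.single_le_sum (f := fun q : ℕ => ‖((q : ℚ_[p]))⁻¹‖)
      (fun _ _ => norm_nonneg _) (Finset.mem_range.2 (by omega))
  -- the average
  let T : A := ((q : ℚ_[p])⁻¹) • ∑ c, F c
  have hF1 : ∀ c, ‖F c - 1‖ ≤ δ := by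
    intro c
    induction c using Quotient.inductionOn with
    | h s =>
      change ‖(s : A) * Z s * iv s - 1‖ ≤ δ
      have h1 := (hiv s s.2).2.1
      have e : (s : A) * Z s * iv s - 1 = (s : A) * (Z s - 1) * iv s := by
        have e1 : (s : A) * (Z s - 1) * iv s = (s : A) * Z s * iv s - s * iv s := by noncomm_ring
        rw [e1, h1]
      rw [e]
      calc ‖(s : A) * (Z s - 1) * iv s‖ ≤ ‖(s : A) * (Z s - 1)‖ * ‖iv s‖ := norm_mul_le _ _
        _ ≤ (‖(s : A)‖ * ‖Z s - 1‖) * ‖iv s‖ :=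
          mul_le_mul_of_nonneg_right (norm_mul_le _ _) (norm_nonneg _)
        _ ≤ (1 * δ) * 1 := by
          have n1 := hG.norm_le s s.2
          have n2 := hG.norm_le _ (hiv s s.2).1
          have n3 := (hZ s s.2).2.1
          have n4 := norm_nonneg (s : A)
          have n5 := norm_nonneg (iv s)
          have n6 := norm_nonneg (Z s - 1)
          gcongr
        _ = δ := by ring
  have hT1 : ‖T - 1‖ < 1 := by
    have e : T - 1 = ((q : ℚ_[p])⁻¹) • ∑ c, (F c - 1) := by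
      rw [Finset.sum_sub_distrib, smul_sub]
      congr 1
      rw [Finset.sum_const, Finset.card_univ, ← hq, ← Nat.cast_smul_eq_nsmul ℚ_[p], smul_smul,
        inv_mul_cancel₀ hqne, one_smul]
    have h1 : ‖∑ c, (F c - 1)‖ ≤ δ :=
      IsUltrametricDist.norm_sum_le_of_forall_le_of_nonneg hδ0 fun c _ => hF1 c
    rw [e, norm_smul]
    calc ‖((q : ℚ_[p]))⁻¹‖ * ‖∑ c, (F c - 1)‖ ≤ B * δ :=
          mul_le_mul hqB h1 (norm_nonneg _) hB0
      _ < 1 := hδB
  -- intertwining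
  have hTa : ∀ a ∈ G, a * Z a * T = T * a := by
    intro a ha
    let La : Quotient S → Quotient S := Quotient.map
      (fun s : G => (⟨a * s, hG.mul_mem a ha s s.2⟩ : G)) (by
        intro s t hst
        change ‖a * (s : A) - a * t‖ ≤ _
        rw [← mul_sub]
        calc ‖a * ((s : A) - t)‖ ≤ ‖a‖ * ‖(s : A) - t‖ := norm_mul_le _ _
          _ ≤ 1 * ‖(s : A) - t‖ := mul_le_mul_of_nonneg_right (hG.norm_le a ha) (norm_nonneg _)
          _ ≤ _ := by rw [one_mul]; exact hst)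
    have hLinj : Function.Injective La := by
      intro c c'
      induction c using Quotient.inductionOn with
      | h s =>
        induction c' using Quotient.inductionOn with
        | h t =>
          intro h
          have h1 : ‖a * (s : A) - a * t‖ ≤ ((p : ℝ)⁻¹) ^ k := Quotient.exact h
          apply Quotient.sound
          change ‖(s : A) - t‖ ≤ _
          have h2 := (hiv a ha).2.2
          have e : (s : A) - t = iv a * (a * s - a * t) := by
            calc (s : A) - t = (iv a * a) * ((s : A) - t) := by rw [h2, one_mul]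
              _ = iv a * (a * s - a * t) := by rw [mul_assoc, mul_sub]
          rw [e]
          calc ‖iv a * (a * (s : A) - a * t)‖ ≤ ‖iv a‖ * ‖a * (s : A) - a * t‖ := norm_mul_le _ _
            _ ≤ 1 * ‖a * (s : A) - a * t‖ :=
              mul_le_mul_of_nonneg_right (hG.norm_le _ (hiv a ha).1) (norm_nonneg _)
            _ ≤ _ := by rw [one_mul]; exact h1
    have hLbij : Function.Bijective La := Finite.injective_iff_bijective.1 hLinj
    have hsum : ∑ c, F (La c) = ∑ c, F c := hLbij.sum_comp F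
    have hterm : ∀ c, a * Z a * F c = F (La c) * a := by
      intro c
      induction c using Quotient.inductionOn with
      | h s =>
        change a * Z a * ((s : A) * Z s * iv s) = (a * s) * Z (a * s) * iv (a * s) * a
        have h1 := hZmul a ha s s.2
        have has : a * (s : A) ∈ G := hG.mul_mem a ha s s.2
        have h2 : iv (a * s) * a = iv s := by
          have h3 := (hiv _ has).2.2
          calc iv (a * s) * a = iv (a * s) * a * (s * iv s) := by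
                rw [(hiv s s.2).2.1, mul_one]
            _ = (iv (a * s) * (a * s)) * iv s := by simp only [mul_assoc]
            _ = iv s := by rw [h3, one_mul]
        calc a * Z a * ((s : A) * Z s * iv s)
            = a * (1 * (Z a * (s * Z s * iv s))) := by rw [one_mul]; simp only [mul_assoc]
          _ = a * ((s * iv s) * (Z a * (s * Z s * iv s))) := by rw [(hiv s s.2).2.1]
          _ = (a * s) * (iv s * Z a * s * Z s) * iv s := by simp only [mul_assoc]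
          _ = (a * s) * Z (a * s) * (iv (a * s) * a) := by rw [← h1, h2]
          _ = (a * s) * Z (a * s) * iv (a * s) * a := by simp only [mul_assoc]
    calc a * Z a * T = ((q : ℚ_[p])⁻¹) • ∑ c, a * Z a * F c := by
          rw [mul_smul_comm, Finset.mul_sum]
      _ = ((q : ℚ_[p])⁻¹) • ∑ c, F (La c) * a := by simp only [hterm]
      _ = (((q : ℚ_[p])⁻¹) • ∑ c, F (La c)) * a := by rw [← Finset.sum_mul, smul_mul_assoc]
      _ = T * a := by rw [hsum]
  obtain ⟨hTn, v, hTv, hvT, hvn⟩ := group_rigid_unit T hT1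
  refine ⟨T, v, hTv, hvT, hTn, hvn, ?_⟩
  have hconj : ∀ a ∈ G, T * a * v = a * Z a := by
    intro a ha
    rw [← hTa a ha, mul_assoc, hTv, mul_one]
  ext a'
  constructor
  · intro ha'
    obtain ⟨a, ha, haa'⟩ := hCl.2 a' ha'
    have hjk : ((p : ℝ)⁻¹) ^ j ≤ ((p : ℝ)⁻¹) ^ k :=
      (le_mul_of_one_le_left (pow_pos hp0 j).le hκ).trans hδk
    have haz : ‖a * Z a - a'‖ ≤ ((p : ℝ)⁻¹) ^ k := by
      have e : a * Z a - a' = a * (Z a - 1) + (a - a') := by
        rw [mul_sub, mul_one]; abel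
      rw [e]
      refine (IsUltrametricDist.norm_add_le_max _ _).trans (max_le ?_ (haa'.trans hjk))
      calc ‖a * (Z a - 1)‖ ≤ ‖a‖ * ‖Z a - 1‖ := norm_mul_le _ _
        _ ≤ 1 * ‖Z a - 1‖ := mul_le_mul_of_nonneg_right (hG.norm_le a ha) (norm_nonneg _)
        _ ≤ _ := by rw [one_mul]; exact (hZ a ha).2.1.trans hδk
    obtain ⟨x, hxg, hx, hxa⟩ := group_rigid_nearE g k hG' hL' (hZ a ha).2.2 ha' haz
    have hc : E p x * Z a = Z a * E p x :=
      group_rigid_comm_E x (Z a) (hx.trans hk2) ((hZ a ha).1 x hxg).symm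
    have hExG : E p x ∈ G := (hL.2 x hx).2 hxg
    have haE : a * E p x ∈ G := hG.mul_mem a ha _ hExG
    have hnear : ‖a - a * E p x‖ ≤ ((p : ℝ)⁻¹) ^ k := by
      have h0 : ‖(0 : A)‖ ≤ ((p : ℝ)⁻¹) ^ 2 := by rw [norm_zero]; positivity
      have h1 := E_isom (p := p) x 0 (hx.trans hk2) h0
      rw [E_zero, sub_zero] at h1
      have e : a - a * E p x = a * (1 - E p x) := by rw [mul_sub, mul_one]
      rw [e]
      calc ‖a * (1 - E p x)‖ ≤ ‖a‖ * ‖1 - E p x‖ := norm_mul_le _ _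
        _ ≤ 1 * ‖1 - E p x‖ := mul_le_mul_of_nonneg_right (hG.norm_le a ha) (norm_nonneg _)
        _ ≤ _ := by rw [one_mul, norm_sub_rev, h1]; exact hx
    refine ⟨a * E p x, haE, ?_⟩
    change T * (a * E p x) * v = a'
    rw [hconj _ haE, hZnear a ha _ haE hnear, hxa, mul_assoc, hc, ← mul_assoc]
  · rintro ⟨a, ha, rfl⟩
    change T * a * v ∈ G'
    rw [hconj a ha]
    exact (hZ a ha).2.2

end

end Pool.Agent.Helper156.RWF.J13192
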