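import Pool.Agent.KS6_3.RW.Helper156.RWF.D0
import Pool.Agent.KS6_3.RW.Helper156.RWF.J13188
import Pool.Agent.KS6_3.RW.Helper156.RWF.J13189
import Pool.Agent.KS6_3.RW.Helper156.RWF.J13192

namespace Pool.Agent.Helper156.RWF.J13185

open Pool.Agent.Helper156.RWF Pool.Agent.Helper156.RWF.J13188 Pool.Agent.Helper156.RWF.J13189 Pool.Agent.Helper156.RWF.J13192
open Filter Topology


section
variable {p : ℕ} [Fact p.Prime]
variable {A : Type} [NormedRing A] [NormedAlgebra ℚ_[p] A] [IsUltrametricDist A] [NormOneClass A]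
  [FiniteDimensional ℚ_[p] A]


omit [IsUltrametricDist A] [NormOneClass A] [FiniteDimensional ℚ_[p] A] in
theorem E_conj_aux (u v x : A) (huv : u * v = 1) (hvu : v * u = 1) :
    E p (u * x * v) = u * E p x * v := by
  let L : A ≃L[ℚ_[p]] A :=
    { toFun := fun a => u * a * v
      invFun := fun a => v * a * u
      map_add' := by intro a b; simp only [mul_add, add_mul]
      map_smul' := by intro c a; simp only [mul_smul_comm, smul_mul_assoc, RingHom.id_apply]
      left_inv := by
        intro a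
        show v * (u * a * v) * u = a
        have : v * (u * a * v) * u = (v * u) * a * (v * u) := by simp only [mul_assoc]
        rw [this, hvu, one_mul, mul_one]
      right_inv := by
        intro a
        show u * (v * a * u) * v = a
        have : u * (v * a * u) * v = (u * v) * a * (u * v) := by simp only [mul_assoc]
        rw [this, huv, one_mul, mul_one]
      continuous_toFun := by
        show Continuous fun a => u * a * v
        fun_prop
      continuous_invFun := by
        show Continuous fun a => v * a * u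
        fun_prop }
  have hL : ∀ a, L a = u * a * v := fun a => rfl
  have hpow : ∀ n : ℕ, (u * x * v) ^ n = u * x ^ n * v := by
    intro n
    induction n with
    | zero => simp [huv]
    | succ n ih =>
      rw [pow_succ, ih, pow_succ]
      have : u * x ^ n * v * (u * x * v) = u * x ^ n * (v * u) * x * v := by
        simp only [mul_assoc]
      rw [this, hvu, mul_one]
      simp only [mul_assoc]
  unfold E
  rw [← hL (∑' n : ℕ, ((n.factorial : ℚ_[p])⁻¹) • x ^ n), L.map_tsum]
  refine tsum_congr fun n => ?_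
  rw [hL, hpow]
  simp only [mul_smul_comm, smul_mul_assoc]

theorem ctbl_rep {α κ : Type} [Countable κ] (P : α → Prop) (F : α → κ) :
    ∃ T : Set α, T.Countable ∧ (∀ t ∈ T, P t) ∧ ∀ a, P a → ∃ t ∈ T, F t = F a := by
  classical
  let I : Set κ := F '' {a | P a}
  have hI : ∀ c : I, ∃ a, P a ∧ F a = c := by
    rintro ⟨c, a, ha, rfl⟩
    exact ⟨a, ha, rfl⟩
  choose r hr using hI
  refine ⟨Set.range r, Set.countable_range r, ?_, ?_⟩
  · rintro t ⟨c, rfl⟩
    exact (hr c).1
  · intro a ha
    exact ⟨r ⟨F a, a, ha, rfl⟩, ⟨_, rfl⟩, (hr ⟨F a, a, ha, rfl⟩).2⟩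

/-- countably many compact groups with rigid Lie algebra, up to integral conjugation -/
theorem countable_types : ∃ S : Set (Set A), S.Countable ∧ ∀ G : Set A, IsCptGrp G →
    (∃ (g : Submodule ℚ_[p] A) (k : ℕ), IsLieOf p G g k ∧ Brk g ∧ WProp g) →
    ∃ G₀ ∈ S, ∃ u v : A, u * v = 1 ∧ v * u = 1 ∧ ‖u‖ ≤ 1 ∧ ‖v‖ ≤ 1 ∧
      G = (fun x => u * x * v) '' G₀ := by
  classical
  choose n code hcode using fun j : ℕ => finite_code (A := A) (p := p) j
  let cd : ℕ → Set A → Finset ℕ := fun j S => (code j S).map Fin.valEmbedding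
  have hcd : ∀ j (S S' : Set A), (∀ x ∈ S, ‖x‖ ≤ 1) → (∀ x ∈ S', ‖x‖ ≤ 1) → cd j S = cd j S' →
      Close p j S S' := by
    intro j S S' hS hS' h
    exact hcode j S S' hS hS' (Finset.map_injective _ h)
  have h1 : ∀ g : Submodule ℚ_[p] A, ∃ j : ℕ, Brk g → WProp g →
      ∀ g' : Submodule ℚ_[p] A, Brk g' → Close p j (ballOf p g) (ballOf p g') →
      ∃ u v : A, u * v = 1 ∧ v * u = 1 ∧ ‖u‖ ≤ 1 ∧ ‖v‖ ≤ 1 ∧
        ∀ x, x ∈ g ↔ u * x * v ∈ g' := by
    intro g
    by_cases hg : Brk g ∧ WProp g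
    · obtain ⟨j, hj⟩ := subalg_rigid g hg.1 hg.2
      exact ⟨j, fun _ _ => hj⟩
    · exact ⟨0, fun a b => absurd ⟨a, b⟩ hg⟩
  choose j1 hj1 using h1
  have h2 : ∀ (g : Submodule ℚ_[p] A) (k : ℕ), ∃ j : ℕ, Brk g → WProp g →
      ∀ G G' : Set A, IsCptGrp G → IsCptGrp G' → IsLieOf p G g k → IsLieOf p G' g k →
      Close p j G G' →
      ∃ u v : A, u * v = 1 ∧ v * u = 1 ∧ ‖u‖ ≤ 1 ∧ ‖v‖ ≤ 1 ∧
        G' = (fun x => u * x * v) '' G := by
    intro g k
    by_cases hg : Brk g ∧ WProp g
    · obtain ⟨j, hj⟩ := group_rigid g hg.1 hg.2 k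
      exact ⟨j, fun _ _ => hj⟩
    · exact ⟨0, fun a b => absurd ⟨a, b⟩ hg⟩
  choose j2 hj2 using h2
  obtain ⟨T, hTc, hTP, hT⟩ := ctbl_rep (fun g : Submodule ℚ_[p] A => Brk g ∧ WProp g)
    (fun g => ((j1 g, cd (j1 g) (ballOf p g)) : ℕ × Finset ℕ))
  choose R hRc hRP hR using fun (g : Submodule ℚ_[p] A) (k : ℕ) =>
    ctbl_rep (fun G : Set A => IsCptGrp G ∧ IsLieOf p G g k) (fun G => cd (j2 g k) G)
  refine ⟨⋃ g ∈ T, ⋃ k : ℕ, R g k, ?_, ?_⟩
  · exact hTc.biUnion fun g _ => Set.countable_iUnion fun k => hRc g k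
  · rintro G hG ⟨g, k, hL, hB, hW⟩
    obtain ⟨g0, hg0, hF⟩ := hT g ⟨hB, hW⟩
    simp only [Prod.mk.injEq] at hF
    obtain ⟨hF1, hF2⟩ := hF
    rw [← hF1] at hF2
    have hcl : Close p (j1 g0) (ballOf p g0) (ballOf p g) :=
      hcd _ _ _ (fun x hx => hx.2) (fun x hx => hx.2) hF2
    obtain ⟨u, v, huv, hvu, hu, hv, hiff⟩ := hj1 g0 (hTP g0 hg0).1 (hTP g0 hg0).2 g hB hcl
    -- the transported group
    have hback : ∀ y, u * (v * y * u) * v = y := by
      intro y
      have : u * (v * y * u) * v = (u * v) * y * (u * v) := by simp only [mul_assoc]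
      rw [this, huv, one_mul, mul_one]
    have hforth : ∀ y, v * (u * y * v) * u = y := by
      intro y
      have : v * (u * y * v) * u = (v * u) * y * (v * u) := by simp only [mul_assoc]
      rw [this, hvu, one_mul, mul_one]
    have hnorm2 : ∀ a b y : A, ‖a‖ ≤ 1 → ‖b‖ ≤ 1 → ‖a * y * b‖ ≤ ‖y‖ := by
      intro a b y ha hb
      calc ‖a * y * b‖ ≤ ‖a * y‖ * ‖b‖ := norm_mul_le _ _
        _ ≤ ‖a * y‖ * 1 := by gcongr
        _ = ‖a * y‖ := mul_one _
        _ ≤ ‖a‖ * ‖y‖ := norm_mul_le _ _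
        _ ≤ 1 * ‖y‖ := by gcongr
        _ = ‖y‖ := one_mul _
    let G1 : Set A := {y | u * y * v ∈ G}
    have hG1eq : G1 = (fun x => v * x * u) '' G := by
      ext y
      constructor
      · intro hy
        exact ⟨u * y * v, hy, hforth y⟩
      · rintro ⟨x, hx, rfl⟩
        show u * (v * x * u) * v ∈ G
        rw [hback]; exact hx
    have hG1 : IsCptGrp G1 := by
      refine ⟨?_, ?_, ?_, ?_, ?_⟩
      · show u * 1 * v ∈ G
        rw [mul_one, huv]; exact hG.one_mem
      · intro a ha b hb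
        show u * (a * b) * v ∈ G
        have : u * (a * b) * v = (u * a * v) * (u * b * v) := by
          have : (u * a * v) * (u * b * v) = u * a * (v * u) * b * v := by simp only [mul_assoc]
          rw [this, hvu, mul_one]; simp only [mul_assoc]
        rw [this]
        exact hG.mul_mem _ ha _ hb
      · intro a ha
        obtain ⟨y, hy, h1, h2⟩ := hG.inv_mem _ ha
        refine ⟨v * y * u, ?_, ?_, ?_⟩
        · show u * (v * y * u) * v ∈ G
          rw [hback]; exact hy
        · have : a * (v * y * u) = v * ((u * a * v) * y) * u := by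
            have : v * ((u * a * v) * y) * u = (v * u) * a * v * y * u := by
              simp only [mul_assoc]
            rw [this, hvu, one_mul]; simp only [mul_assoc]
          rw [this, h1, mul_one, hvu]
        · have : (v * y * u) * a = v * (y * (u * a * v)) * u := by
            have : v * (y * (u * a * v)) * u = v * y * u * a * (v * u) := by
              simp only [mul_assoc]
            rw [this, hvu, mul_one]
          rw [this, h2, mul_one, hvu]
      · rw [hG1eq]
        exact hG.isCompact.image (by fun_prop)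
      · intro a ha
        have : a = v * (u * a * v) * u := (hforth a).symm
        rw [this]
        exact (hnorm2 v u _ hv hu).trans (hG.norm_le _ ha)
    have hL1 : IsLieOf p G1 g0 k := by
      refine ⟨hL.1, fun x hx => ?_⟩
      show u * E p x * v ∈ G ↔ x ∈ g0
      rw [← E_conj_aux u v x huv hvu, hL.2 (u * x * v) ((hnorm2 u v x hu hv).trans hx), hiff x]
    obtain ⟨G0, hG0, hc⟩ := hR g0 k G1 ⟨hG1, hL1⟩
    have hP0 := hRP g0 k G0 hG0
    have hcl2 : Close p (j2 g0 k) G0 G1 :=
      hcd _ _ _ hP0.1.norm_le hG1.norm_le hc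
    obtain ⟨u1, v1, h11, h12, hu1, hv1, hG1'⟩ := hj2 g0 k (hTP g0 hg0).1 (hTP g0 hg0).2 G0 G1
      hP0.1 hG1 hP0.2 hL1 hcl2
    refine ⟨G0, Set.mem_biUnion hg0 (Set.mem_iUnion.2 ⟨k, hG0⟩), u * u1, v1 * v, ?_, ?_, ?_, ?_, ?_⟩
    · have : u * u1 * (v1 * v) = u * (u1 * v1) * v := by simp only [mul_assoc]
      rw [this, h11, mul_one, huv]
    · have : v1 * v * (u * u1) = v1 * (v * u) * u1 := by simp only [mul_assoc]
      rw [this, hvu, mul_one, h12]
    · calc ‖u * u1‖ ≤ ‖u‖ * ‖u1‖ := norm_mul_le _ _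
        _ ≤ 1 * 1 := by gcongr
        _ = 1 := one_mul _
    · calc ‖v1 * v‖ ≤ ‖v1‖ * ‖v‖ := norm_mul_le _ _
        _ ≤ 1 * 1 := by gcongr
        _ = 1 := one_mul _
    · ext y
      constructor
      · intro hy
        have h3 : v * y * u ∈ G1 := by
          show u * (v * y * u) * v ∈ G
          rw [hback]; exact hy
        rw [hG1'] at h3
        obtain ⟨x, hx, hxe⟩ := h3
        refine ⟨x, hx, ?_⟩
        show u * u1 * x * (v1 * v) = y
        have hxe' : u1 * x * v1 = v * y * u := hxe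
        have : u * u1 * x * (v1 * v) = u * (u1 * x * v1) * v := by simp only [mul_assoc]
        rw [this, hxe', hback]
      · rintro ⟨x, hx, rfl⟩
        have h3 : u1 * x * v1 ∈ G1 := by
          rw [hG1']; exact ⟨x, hx, rfl⟩
        have h4 : u * (u1 * x * v1) * v ∈ G := h3
        have : u * u1 * x * (v1 * v) = u * (u1 * x * v1) * v := by simp only [mul_assoc]
        show u * u1 * x * (v1 * v) ∈ G
        rw [this]; exact h4

end

end Pool.Agent.Helper156.RWF.J13185
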