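import Pool.Agent.KS6_3.RW.Helper156.RWF.D0
import Pool.Agent.KS6_3.RW.Helper156.RWF.J13539
import Pool.Agent.KS6_3.RW.Helper156.RWF.J13543
import Pool.Agent.KS6_3.RW.Helper156.RWF.J13547

namespace Pool.Agent.Helper156.RWF.J13538

open Pool.Agent.Helper156.RWF Pool.Agent.Helper156.RWF.J13539 Pool.Agent.Helper156.RWF.J13543 Pool.Agent.Helper156.RWF.J13547
open Filter Topology MeasureTheory


section
variable {p : ℕ} [Fact p.Prime]
variable {F : Type} [Group F] [TopologicalSpace F] [IsTopologicalGroup F] [CompactSpace F]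
  [T2Space F] [TotallyDisconnectedSpace F]


theorem pgrp_pi834 (d : ℕ) : IsPGroup p (Multiplicative (Fin d → ZMod p)) := by
  intro g
  refine ⟨1, ?_⟩
  rw [pow_one]
  apply Multiplicative.toAdd.injective
  rw [toAdd_pow, toAdd_one]
  funext i
  rw [Pi.smul_apply, nsmul_eq_mul, ZMod.natCast_self, zero_mul, Pi.zero_apply]

theorem pgrp_zmod834 : IsPGroup p (Multiplicative (ZMod p)) := by
  intro g
  refine ⟨1, ?_⟩
  rw [pow_one]
  apply Multiplicative.toAdd.injective
  rw [toAdd_pow, toAdd_one, nsmul_eq_mul, ZMod.natCast_self, zero_mul]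

/-- a proper subgroup of a finite `p`-group is killed by a nontrivial homomorphism to `ZMod p` -/
theorem exists_hom834 {P : Type} [Group P] [Finite P] {k : ℕ} (hP : Nat.card P = p ^ k)
    (K : Subgroup P) (hK : K ≠ ⊤) :
    ∃ f : P →* Multiplicative (ZMod p), (∀ x ∈ K, f x = 1) ∧ ∃ y, f y ≠ 1 := by
  have hp : p.Prime := Fact.out
  obtain ⟨n, hn, hKc⟩ := (Nat.dvd_prime_pow hp).1 (hP ▸ Subgroup.card_subgroup_dvd_card K)
  have hnk : n ≠ k := by
    rintro rfl
    exact hK (Subgroup.eq_top_of_card_eq K (hKc.trans hP.symm))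
  obtain ⟨M, hMc, hKM⟩ := Sylow.exists_subgroup_card_pow_prime_le p (n := n) (m := k - 1)
    (by rw [hP]; exact pow_dvd_pow p (by omega)) K hKc (by omega)
  have hidx : M.index = p := by
    have h1 := M.card_mul_index
    rw [hMc, hP] at h1
    have h2 : p ^ k = p ^ (k - 1) * p := by rw [← pow_succ]; congr 1; omega
    rw [h2] at h1
    exact Nat.eq_of_mul_eq_mul_left (pow_pos hp.pos _) h1
  haveI hMn : M.Normal := by
    apply Subgroup.normal_of_index_eq_minFac_card
    rw [hidx, hP, Nat.Prime.pow_minFac hp (by omega)]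
  have hQ : Nat.card (P ⧸ M) = p := hidx
  have hZ : Nat.card (Multiplicative (ZMod p)) = p := by
    rw [Nat.card_congr (Multiplicative.toAdd (α := ZMod p)), Nat.card_zmod]
  let e := mulEquivOfPrimeCardEq hQ hZ
  refine ⟨e.toMonoidHom.comp (QuotientGroup.mk' M), ?_, ?_⟩
  · intro x hx
    show e (QuotientGroup.mk' M x) = 1
    have : QuotientGroup.mk' M x = 1 := by
      rw [QuotientGroup.mk'_apply, QuotientGroup.eq_one_iff]; exact hKM hx
    rw [this, map_one]
  · have hMt : M ≠ ⊤ := by
      rintro rfl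
      rw [Subgroup.index_top] at hidx
      exact hp.one_lt.ne hidx
    obtain ⟨y, hy⟩ : ∃ y, y ∉ M := by
      by_contra hcon
      push Not at hcon
      exact hMt (by ext z; simpa using hcon z)
    refine ⟨y, ?_⟩
    show e (QuotientGroup.mk' M y) ≠ 1
    intro h
    rw [map_eq_one_iff e e.injective, QuotientGroup.mk'_apply, QuotientGroup.eq_one_iff] at h
    exact hy h

theorem exists_eps {d : ℕ} {x : Fin d → F} (h : IsFreeProP p d F x) :
    ∃ ε : F →* Multiplicative (Fin d → ZMod p), IsOpen (ε.ker : Set F) ∧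
      ∀ i, ε (x i) = Multiplicative.ofAdd (Pi.single i 1) := by
  obtain ⟨f, hf, _⟩ := h.lift (Multiplicative (Fin d → ZMod p)) (pgrp_pi834 d)
    (fun i => Multiplicative.ofAdd (Pi.single i 1))
  exact ⟨f, hf.1, hf.2⟩

/-- a homomorphism to `ZMod p` which kills the range of `θ` is trivial -/
theorem triv_of_eps834 {d : ℕ} {x : Fin d → F} (h : IsFreeProP p d F x)
    (ε : F →* Multiplicative (Fin d → ZMod p)) (hε : IsOpen (ε.ker : Set F))
    (hεx : ∀ i, ε (x i) = Multiplicative.ofAdd (Pi.single i 1))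
    (θ : F →* F)
    (hli : LinearIndependent (ZMod p) (fun i => Multiplicative.toAdd (ε (θ (x i)))))
    (f : F →* Multiplicative (ZMod p)) (hf : IsOpen (f.ker : Set F))
    (hfθ : ∀ z, f (θ z) = 1) : f = 1 := by
  let c : Fin d → ZMod p := fun i => Multiplicative.toAdd (f (x i))
  let ℓ : (Fin d → ZMod p) →ₗ[ZMod p] ZMod p := ∑ i, c i • LinearMap.proj i
  have hℓ : ∀ v, ℓ v = ∑ i, c i * v i := by
    intro v
    simp [ℓ, LinearMap.sum_apply]
  let f' : F →* Multiplicative (ZMod p) := (AddMonoidHom.toMultiplicative ℓ.toAddMonoidHom).comp ε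
  have hf'v : ∀ z, f' z = Multiplicative.ofAdd (ℓ (Multiplicative.toAdd (ε z))) := fun z => rfl
  have hf'o : IsOpen (f'.ker : Set F) := by
    refine Subgroup.isOpen_mono (H₁ := ε.ker) ?_ hε
    intro z hz
    rw [MonoidHom.mem_ker] at hz ⊢
    rw [hf'v, hz]
    simp
  have hf'x : ∀ i, f' (x i) = f (x i) := by
    intro i
    rw [hf'v, hεx, toAdd_ofAdd, hℓ]
    rw [Finset.sum_eq_single i]
    · simp [c]
    · intro j _ hj
      rw [Pi.single_eq_of_ne hj, mul_zero]
    · intro hi; exact absurd (Finset.mem_univ i) hi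
  have hff' : f = f' := by
    obtain ⟨g, _, hg⟩ := h.lift (Multiplicative (ZMod p)) pgrp_zmod834 (fun i => f (x i))
    rw [hg f ⟨hf, fun _ => rfl⟩, hg f' ⟨hf'o, hf'x⟩]
  have hspan := hli.span_eq_top_of_card_eq_finrank' (by simp)
  have hℓ0 : ℓ = 0 := by
    refine LinearMap.ext_on hspan ?_
    rintro _ ⟨j, rfl⟩
    have h1 := hfθ (x j)
    rw [hff', hf'v] at h1
    have h2 : ℓ (Multiplicative.toAdd (ε (θ (x j)))) = 0 := by
      have := congrArg Multiplicative.toAdd h1
      simpa using this
    rw [LinearMap.zero_apply]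
    exact h2
  rw [hff']
  ext z
  rw [hf'v, hℓ0]
  rfl

/-- an endomorphism which is invertible modulo the Frattini subgroup is an automorphism -/
theorem aut_of_eps {d : ℕ} {x : Fin d → F} (h : IsFreeProP p d F x)
    (ε : F →* Multiplicative (Fin d → ZMod p)) (hε : IsOpen (ε.ker : Set F))
    (hεx : ∀ i, ε (x i) = Multiplicative.ofAdd (Pi.single i 1))
    (θ : F →* F) (hθ : Continuous θ)
    (hli : LinearIndependent (ZMod p) (fun i => Multiplicative.toAdd (ε (θ (x i))))) :
    ∃ φ : F ≃ₜ* F, ∀ f, φ f = θ f := by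
  have hp : p.Prime := Fact.out
  have hD := dense_basis h
  -- surjectivity
  have hsurj : Function.Surjective θ := by
    by_contra hns
    obtain ⟨g, hg⟩ : ∃ g, ∀ a, θ a ≠ g := by
      by_contra hcon
      push Not at hcon
      exact hns hcon
    have hcl : IsClosed (Set.range θ) := (isCompact_range hθ).isClosed
    set U : Set F := {u | g * u ∉ Set.range θ} with hU
    have hUo : IsOpen U := by
      have : Continuous fun u : F => g * u := continuous_const.mul continuous_id
      exact (hcl.isOpen_compl).preimage this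
    have hU1 : (1 : F) ∈ U := by
      show g * 1 ∉ Set.range θ
      rw [mul_one]
      rintro ⟨a, ha⟩
      exact hg a ha
    obtain ⟨N, hNn, hNo, hNU, -⟩ := exists_char_open hD U hUo hU1
    haveI := hNn
    obtain ⟨k, hk⟩ := h.index_pow N hNn hNo
    have hcard : Nat.card (F ⧸ N) = p ^ k := hk
    haveI : Finite (F ⧸ N) := Nat.finite_of_card_ne_zero (by rw [hcard]; exact (pow_pos hp.pos k).ne')
    have hKne : (θ.range).map (QuotientGroup.mk' N) ≠ ⊤ := by
      intro htop
      have h1 : QuotientGroup.mk' N g ∈ (θ.range).map (QuotientGroup.mk' N) := by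
        rw [htop]; exact Subgroup.mem_top _
      obtain ⟨t, ⟨a, rfl⟩, ht⟩ := h1
      have h2 : (g⁻¹ * θ a) ∈ N := by
        rw [← QuotientGroup.eq]
        exact ht.symm
      have h3 := hNU h2
      apply h3
      exact ⟨a, by group⟩
    obtain ⟨f, hf1, y, hy⟩ := exists_hom834 hcard _ hKne
    have hF : f.comp (QuotientGroup.mk' N) = 1 := by
      refine triv_of_eps834 h ε hε hεx θ hli _ ?_ ?_
      · refine Subgroup.isOpen_mono (H₁ := N) ?_ hNo
        intro z hz
        rw [MonoidHom.mem_ker, MonoidHom.comp_apply]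
        have : QuotientGroup.mk' N z = 1 := by
          rw [QuotientGroup.mk'_apply, QuotientGroup.eq_one_iff]; exact hz
        rw [this, map_one]
      · intro z
        rw [MonoidHom.comp_apply]
        exact hf1 _ ⟨θ z, ⟨z, rfl⟩, rfl⟩
    obtain ⟨w, rfl⟩ := QuotientGroup.mk'_surjective N y
    apply hy
    have := DFunLike.congr_fun hF w
    rwa [MonoidHom.comp_apply, MonoidHom.one_apply] at this
  -- injectivity
  have hker : ∀ (P : Type) [Group P] [Finite P], IsPGroup p P → ∀ f : F →* P,
      IsOpen (f.ker : Set F) → ∃ f' : F →* P, f'.comp θ = f := by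
    intro P _ _ hP f hf
    let H := {f : F →* P // IsOpen (f.ker : Set F)}
    have hev : Function.Bijective (fun f : H => fun i => f.1 (x i)) := by
      constructor
      · intro f₁ f₂ h12
        obtain ⟨g, _, hg⟩ := h.lift P hP (fun i => f₁.1 (x i))
        apply Subtype.ext
        rw [hg f₁.1 ⟨f₁.2, fun _ => rfl⟩, hg f₂.1 ⟨f₂.2, fun i => (congrFun h12 i).symm⟩]
      · intro y
        obtain ⟨g, hg, _⟩ := h.lift P hP y
        exact ⟨⟨g, hg.1⟩, funext hg.2⟩
    haveI : Finite H := Finite.of_injective _ hev.1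
    let T : H → H := fun f' => ⟨f'.1.comp θ, by
      have : ((f'.1.comp θ).ker : Set F) = θ ⁻¹' (f'.1.ker : Set F) := by
        ext z
        simp [MonoidHom.mem_ker]
      rw [this]
      exact f'.2.preimage hθ⟩
    have hT : Function.Injective T := by
      intro f₁ f₂ h12
      apply Subtype.ext
      ext z
      obtain ⟨w, rfl⟩ := hsurj z
      have := DFunLike.congr_fun (congrArg Subtype.val h12) w
      exact this
    obtain ⟨f', hf'⟩ := (Finite.injective_iff_surjective.1 hT) ⟨f, hf⟩
    exact ⟨f'.1, congrArg Subtype.val hf'⟩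
  have hinj : Function.Injective θ := by
    rw [injective_iff_map_eq_one]
    intro a ha
    by_contra hne
    obtain ⟨N, hNn, hNo, hNU, -⟩ := exists_char_open hD ({a}ᶜ : Set F)
      isOpen_compl_singleton (by simpa using Ne.symm hne)
    haveI := hNn
    obtain ⟨k, hk⟩ := h.index_pow N hNn hNo
    have hcard : Nat.card (F ⧸ N) = p ^ k := hk
    haveI : Finite (F ⧸ N) := Nat.finite_of_card_ne_zero (by rw [hcard]; exact (pow_pos hp.pos k).ne')
    obtain ⟨f', hf'⟩ := hker (F ⧸ N) (IsPGroup.of_card hcard) (QuotientGroup.mk' N)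
      (by rw [QuotientGroup.ker_mk']; exact hNo)
    have h1 : QuotientGroup.mk' N a = 1 := by
      rw [← hf', MonoidHom.comp_apply, ha, map_one]
    rw [QuotientGroup.mk'_apply, QuotientGroup.eq_one_iff] at h1
    exact hNU h1 rfl
  let e : F ≃* F := MulEquiv.ofBijective θ ⟨hinj, hsurj⟩
  have he : Continuous e.toEquiv := hθ
  let hm : F ≃ₜ F := Continuous.homeoOfEquivCompactToT2 (f := e.toEquiv) he
  exact ⟨{ e with
    continuous_toFun := hθ
    continuous_invFun := hm.continuous_invFun }, fun f => rfl⟩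

end

end Pool.Agent.Helper156.RWF.J13538
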