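import Pool.Agent.KS6_3.RW.Helper156.RWF.D0
import Pool.Agent.KS6_3.RW.Helper156.RWF.J13543

namespace Pool.Agent.Helper156.RWF.J13545

open Pool.Agent.Helper156.RWF Pool.Agent.Helper156.RWF.J13543
open Filter Topology MeasureTheory


section
variable {p : ℕ} [Fact p.Prime]
variable {F : Type} [Group F] [TopologicalSpace F] [IsTopologicalGroup F] [CompactSpace F]
  [T2Space F] [TotallyDisconnectedSpace F]


theorem sep836_prod {ι : Type} (s : Finset ι) (a b : ι → ℚ_[p]) (ε : ℝ) (hε : 0 ≤ ε)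
    (ha : ∀ i ∈ s, ‖a i‖ ≤ 1) (hb : ∀ i ∈ s, ‖b i‖ ≤ 1) (hab : ∀ i ∈ s, ‖a i - b i‖ ≤ ε) :
    ‖∏ i ∈ s, a i - ∏ i ∈ s, b i‖ ≤ ε := by
  classical
  induction s using Finset.induction_on with
  | empty => simpa using hε
  | insert x s hx ih =>
    have h1 := ih (fun i hi => ha i (Finset.mem_insert_of_mem hi))
      (fun i hi => hb i (Finset.mem_insert_of_mem hi))
      (fun i hi => hab i (Finset.mem_insert_of_mem hi))
    have h2 : ‖∏ i ∈ s, b i‖ ≤ 1 := by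
      rw [norm_prod]
      exact Finset.prod_le_one (fun i _ => norm_nonneg _)
        (fun i hi => hb i (Finset.mem_insert_of_mem hi))
    rw [Finset.prod_insert hx, Finset.prod_insert hx]
    have e : a x * ∏ i ∈ s, a i - b x * ∏ i ∈ s, b i =
        a x * (∏ i ∈ s, a i - ∏ i ∈ s, b i) + (a x - b x) * ∏ i ∈ s, b i := by ring
    rw [e]
    refine (Padic.nonarchimedean _ _).trans (max_le ?_ ?_)
    · rw [norm_mul]
      calc ‖a x‖ * ‖∏ i ∈ s, a i - ∏ i ∈ s, b i‖ ≤ 1 * ε :=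
            mul_le_mul (ha x (Finset.mem_insert_self _ _)) h1 (norm_nonneg _) zero_le_one
        _ = ε := one_mul ε
    · rw [norm_mul]
      calc ‖a x - b x‖ * ‖∏ i ∈ s, b i‖ ≤ ε * 1 :=
            mul_le_mul (hab x (Finset.mem_insert_self _ _)) h2 (norm_nonneg _) hε
        _ = ε := mul_one ε

theorem sep836_det {r : ℕ} (A A' : Matrix (Fin r) (Fin r) ℚ_[p]) (ε : ℝ) (hε : 0 ≤ ε)
    (hA : ∀ l k, ‖A l k‖ ≤ 1) (hA' : ∀ l k, ‖A' l k‖ ≤ 1) (h : ∀ l k, ‖A l k - A' l k‖ ≤ ε) :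
    ‖A.det - A'.det‖ ≤ ε := by
  rw [Matrix.det_apply', Matrix.det_apply', ← Finset.sum_sub_distrib]
  apply IsUltrametricDist.norm_sum_le_of_forall_le_of_nonneg hε
  intro σ _
  rw [← mul_sub, norm_mul]
  calc _ ≤ 1 * ε := mul_le_mul (Padic.norm_int_le_one _)
        (sep836_prod _ _ _ ε hε (fun i _ => hA _ _) (fun i _ => hA' _ _) (fun i _ => h _ _))
        (norm_nonneg _) zero_le_one
    _ = ε := one_mul ε

theorem sep836_det_le {r : ℕ} (A : Matrix (Fin r) (Fin r) ℚ_[p])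
    (hA : ∀ l k, ‖A l k‖ ≤ 1) : ‖A.det‖ ≤ 1 := by
  rw [Matrix.det_apply']
  apply IsUltrametricDist.norm_sum_le_of_forall_le_of_nonneg zero_le_one
  intro σ _
  rw [norm_mul, norm_prod]
  exact mul_le_one₀ (Padic.norm_int_le_one _) (Finset.prod_nonneg fun i _ => norm_nonneg _)
    (Finset.prod_le_one (fun i _ => norm_nonneg _) (fun i _ => hA _ _))

theorem sep836_single {r : ℕ} (k : Fin r) : ‖(Pi.single k 1 : Fin r → ℚ_[p])‖ ≤ 1 := by
  rw [pi_norm_le_iff_of_nonneg zero_le_one]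
  intro i
  by_cases h : i = k
  · subst h
    rw [Pi.single_eq_same, norm_one]
  · rw [Pi.single_eq_of_ne h, norm_zero]
    exact zero_le_one

theorem sep836_lin {r : ℕ} (L L' : (Fin r → ℚ_[p]) →ₗ[ℚ_[p]] (Fin r → ℚ_[p])) (ε : ℝ)
    (hε : 0 ≤ ε) (hL : ∀ v, ‖v‖ ≤ 1 → ‖L v‖ ≤ 1) (hL' : ∀ v, ‖v‖ ≤ 1 → ‖L' v‖ ≤ 1)
    (h : ∀ v, ‖v‖ ≤ 1 → ‖L v - L' v‖ ≤ ε) (M : ℕ) :
    ‖LinearMap.det L ^ M - LinearMap.det L' ^ M‖ ≤ ε := by
  have e1 : ∀ (L : (Fin r → ℚ_[p]) →ₗ[ℚ_[p]] (Fin r → ℚ_[p])),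
      (∀ v, ‖v‖ ≤ 1 → ‖L v‖ ≤ 1) → ∀ l k, ‖LinearMap.toMatrix' L l k‖ ≤ 1 := by
    intro L hL l k
    rw [LinearMap.toMatrix'_apply]
    exact (norm_le_pi_norm _ l).trans (hL _ (sep836_single k))
  have e2 : ∀ l k, ‖LinearMap.toMatrix' L l k - LinearMap.toMatrix' L' l k‖ ≤ ε := by
    intro l k
    rw [LinearMap.toMatrix'_apply, LinearMap.toMatrix'_apply]
    have h5 := norm_le_pi_norm (L (Pi.single k 1) - L' (Pi.single k 1)) l
    have h6 := h _ (sep836_single k)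
    exact h5.trans h6
  have h1 := sep836_det _ _ ε hε (e1 L hL) (e1 L' hL') e2
  have h2 := sep836_det_le _ (e1 L hL)
  have h3 := sep836_det_le _ (e1 L' hL')
  rw [LinearMap.det_toMatrix'] at h1 h2 h3
  rw [LinearMap.det_toMatrix'] at h1
  have h4 := sep836_prod (Finset.range M) (fun _ => LinearMap.det L) (fun _ => LinearMap.det L')
    ε hε (fun _ _ => h2) (fun _ _ => h3) (fun _ _ => h1)
  simpa using h4

omit [IsTopologicalGroup F] [CompactSpace F] [T2Space F] [TotallyDisconnectedSpace F] in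
theorem sep836_theta {r : ℕ} (η : F →* EN p r) (C : F → (Fin r → ℚ_[p])) (θ : F ≃ₜ* F) (c : ℚ_[p])
    (hθη : ∀ f, η (θ f) = η f) (hθC : ∀ f, C (θ f) = c • C f) (i : ℕ) :
    ∀ f, η ((θ ^ i) f) = η f ∧ C ((θ ^ i) f) = c ^ i • C f := by
  induction i with
  | zero =>
    intro f
    rw [pow_zero, pow_zero, aut_one_apply, one_smul]
    exact ⟨rfl, rfl⟩
  | succ i ih =>
    intro f
    rw [pow_succ, aut_mul_apply, (ih (θ f)).1, (ih (θ f)).2, hθη, hθC, smul_smul, pow_succ]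
    exact ⟨rfl, rfl⟩

omit [IsTopologicalGroup F] [CompactSpace F] [T2Space F] [TotallyDisconnectedSpace F] in
theorem sep836_ball {r : ℕ} {η : F →* EN p r} {C : F → (Fin r → ℚ_[p])} (hD : RData p r η C)
    {φ : F ≃ₜ* F} {B : (Fin r → ℚ_[p]) →ₗ[ℚ_[p]] (Fin r → ℚ_[p])} (hS : Stab η C φ B) {M : ℕ}
    (hM : 1 ≤ M) (hdet : LinearMap.det B ^ M = 1) (v : Fin r → ℚ_[p]) (hv : ‖v‖ ≤ 1) :
    ‖B v‖ ≤ 1 := by
  have hd0 : LinearMap.det B ≠ 0 := by
    intro h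
    rw [h, zero_pow (by omega)] at hdet
    exact zero_ne_one hdet
  have hv' : v ∈ C '' {f | η f = 1} := by rw [hD.lat]; exact hv
  obtain ⟨f, hf, rfl⟩ := hv'
  have hf1 : η f = 1 := hf
  have hsurj : Function.Surjective B := by
    have h2 : LinearMap.ker B = ⊥ := by
      by_contra hcon
      exact hd0 (LinearMap.det_eq_zero_iff_ker_ne_bot.2 hcon)
    exact (LinearMap.injective_iff_surjective (f := B)).1 (LinearMap.ker_eq_bot.1 h2)
  have h1 : η (φ f) = 1 := by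
    apply ContinuousLinearMap.ext
    intro w
    obtain ⟨u, rfl⟩ := hsurj w
    rw [hS.1, hf1]
    rfl
  have h2 : C (φ f) ∈ C '' {f | η f = 1} := ⟨φ f, h1, rfl⟩
  rw [hD.lat] at h2
  rw [← hS.2 f hf1]
  exact h2

/-- separation of twisted classes in a finite quotient -/
theorem separation {d : ℕ} {x : Fin d → F}
    (hx : Dense ((Subgroup.closure (Set.range x) : Subgroup F) : Set F)) {r : ℕ} (hr : 1 ≤ r)
    (η : F →* EN p r) (C : F → (Fin r → ℚ_[p])) (hD : RData p r η C) (j : ℕ) (hj : 1 ≤ j)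
    (θ : F ≃ₜ* F) (hθη : ∀ f, η (θ f) = η f)
    (hθC : ∀ f, C (θ f) = (1 + (p : ℚ_[p]) ^ j) • C f) (M : ℕ) (hM : 1 ≤ M) (K : ℕ) :
    ∃ N : Subgroup F, N.Normal ∧ IsOpen (N : Set F) ∧ (∀ (φ : F ≃ₜ* F) (f : F), φ f ∈ N ↔ f ∈ N) ∧
      ∀ i < K, ∀ i' < K, i ≠ i' → ∀ (φ φ' : F ≃ₜ* F)
        (B B' : (Fin r → ℚ_[p]) →ₗ[ℚ_[p]] (Fin r → ℚ_[p])), Stab η C φ B → Stab η C φ' B' →
        LinearMap.det B ^ M = 1 → LinearMap.det B' ^ M = 1 →
        ¬ ∀ f, ((θ ^ i * φ) f)⁻¹ * (θ ^ i' * φ') f ∈ N := by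
  set l : ℚ_[p] := 1 + (p : ℚ_[p]) ^ j with hl
  have hp1 : 1 < p := (Fact.out : p.Prime).one_lt
  have hp0 : (0 : ℝ) < (p : ℝ)⁻¹ := by
    have : (0 : ℝ) < p := by exact_mod_cast (lt_trans zero_lt_one hp1)
    positivity
  have hp2 : (p : ℝ)⁻¹ < 1 := by
    apply inv_lt_one_of_one_lt₀
    exact_mod_cast hp1
  have hl1 : ‖l‖ = 1 := by
    have h1 : ‖(p : ℚ_[p]) ^ j‖ < 1 := by
      rw [norm_pow, Padic.norm_p]
      exact pow_lt_one₀ hp0.le hp2 (by omega)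
    have h2 := Padic.add_eq_max_of_ne (p := p) (q := 1) (r := (p : ℚ_[p]) ^ j)
      (by rw [norm_one]; exact h1.ne')
    rw [hl, h2, norm_one, max_eq_left h1.le]
  have hroot : ∀ n, 1 ≤ n → l ^ n ≠ 1 := by
    intro n hn h
    have h1 : (((1 + p ^ j) ^ n : ℕ) : ℚ_[p]) = ((1 : ℕ) : ℚ_[p]) := by
      push_cast
      exact h
    have h2 : (1 + p ^ j) ^ n = 1 := Nat.cast_injective h1
    have h3 : 1 < (1 + p ^ j) ^ n := by
      apply Nat.one_lt_pow (by omega)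
      have : 0 < p ^ j := pow_pos (by omega) _
      omega
    omega
  obtain ⟨J, hJ⟩ : ∃ J : ℕ, ∀ i ∈ Finset.range K, 1 ≤ i →
      ((p : ℝ)⁻¹) ^ J < ‖l ^ (r * M * i) - 1‖ := by
    have h1 : ∀ᶠ J : ℕ in atTop, ∀ i ∈ Finset.range K, 1 ≤ i →
        ((p : ℝ)⁻¹) ^ J < ‖l ^ (r * M * i) - 1‖ := by
      rw [Filter.eventually_all_finset]
      intro i _
      by_cases hi : 1 ≤ i
      · have h2 : 0 < ‖l ^ (r * M * i) - 1‖ := by
          rw [norm_pos_iff, sub_ne_zero]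
          apply hroot
          exact Nat.one_le_iff_ne_zero.2 (by positivity)
        filter_upwards [(tendsto_pow_atTop_nhds_zero_of_lt_one hp0.le hp2).eventually_lt_const h2]
          with J hJ _
        exact hJ
      · exact Eventually.of_forall fun J h => absurd h hi
    exact h1.exists
  set ε : ℝ := ((p : ℝ)⁻¹) ^ J with hε
  have hε0 : 0 < ε := pow_pos hp0 J
  have hC1 : C 1 = 0 := by
    have h := hD.coc 1 1
    rw [mul_one, map_one] at h
    have h2 : C 1 = C 1 + C 1 := h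
    exact left_eq_add.1 h2
  have hUo : IsOpen {f : F | ‖C f‖ < ε} := isOpen_lt hD.cC.norm continuous_const
  obtain ⟨N, hN1, hN2, hN3, hN4⟩ := exists_char_open hx {f : F | ‖C f‖ < ε} hUo (by
    change ‖C 1‖ < ε
    rw [hC1, norm_zero]
    exact hε0)
  refine ⟨N, hN1, hN2, hN4, ?_⟩
  have key : ∀ i < K, ∀ i' < i, ∀ (φ φ' : F ≃ₜ* F)
        (B B' : (Fin r → ℚ_[p]) →ₗ[ℚ_[p]] (Fin r → ℚ_[p])), Stab η C φ B → Stab η C φ' B' →
        LinearMap.det B ^ M = 1 → LinearMap.det B' ^ M = 1 →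
        ¬ ∀ f, η f = 1 → ‖C ((θ ^ i * φ) f) - C ((θ ^ i' * φ') f)‖ ≤ ε := by
    intro i hi i' hi' φ φ' B B' hS hS' hdet hdet' H
    have hb := sep836_ball hD hS hM hdet
    have hb' := sep836_ball hD hS' hM hdet'
    have hpow : ∀ n : ℕ, ‖l ^ n‖ = 1 := by
      intro n
      rw [norm_pow, hl1, one_pow]
    have h1 := sep836_lin (l ^ i • B) (l ^ i' • B') ε hε0.le
      (by
        intro v hv
        rw [LinearMap.smul_apply, norm_smul, hpow, one_mul]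
        exact hb v hv)
      (by
        intro v hv
        rw [LinearMap.smul_apply, norm_smul, hpow, one_mul]
        exact hb' v hv)
      (by
        intro v hv
        have hv' : v ∈ C '' {f | η f = 1} := by rw [hD.lat]; exact hv
        obtain ⟨f, hf, rfl⟩ := hv'
        have h2 := H f hf
        rw [aut_mul_apply, aut_mul_apply, (sep836_theta η C θ l hθη hθC i _).2,
          (sep836_theta η C θ l hθη hθC i' _).2, hS.2 f hf, hS'.2 f hf] at h2
        rw [LinearMap.smul_apply, LinearMap.smul_apply]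
        exact h2) M
    rw [LinearMap.det_smul, LinearMap.det_smul, mul_pow, mul_pow, hdet, hdet', mul_one, mul_one,
      Module.finrank_fin_fun, ← pow_mul, ← pow_mul, ← pow_mul, ← pow_mul] at h1
    have e : l ^ (i * (r * M)) - l ^ (i' * (r * M)) =
        l ^ (i' * (r * M)) * (l ^ (r * M * (i - i')) - 1) := by
      rw [mul_sub, mul_one, ← pow_add]
      congr 2
      obtain ⟨c, rfl⟩ := Nat.exists_eq_add_of_lt hi'
      have : i' + c + 1 - i' = c + 1 := by omega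
      rw [this]
      ring
    rw [e, norm_mul, hpow, one_mul] at h1
    have h2 := hJ (i - i') (Finset.mem_range.2 (by omega)) (by omega)
    exact absurd h1 (not_le.2 h2)
  intro i hi i' hi' hne φ φ' B B' hS hS' hdet hdet' H
  have H2 : ∀ f, ‖C ((θ ^ i * φ) f) - C ((θ ^ i' * φ') f)‖ ≤ ε := by
    intro f
    have h1 : ‖C (((θ ^ i * φ) f)⁻¹ * (θ ^ i' * φ') f)‖ < ε := hN3 (H f)
    have h2 : C ((θ ^ i' * φ') f) = C ((θ ^ i * φ) f) +
        η ((θ ^ i * φ) f) (C (((θ ^ i * φ) f)⁻¹ * (θ ^ i' * φ') f)) := by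
      rw [← hD.coc, mul_inv_cancel_left]
    rw [h2, sub_add_cancel_left, norm_neg]
    refine ((η ((θ ^ i * φ) f)).le_opNorm _).trans ?_
    calc ‖η ((θ ^ i * φ) f)‖ * ‖C (((θ ^ i * φ) f)⁻¹ * (θ ^ i' * φ') f)‖ ≤ 1 * ε :=
          mul_le_mul (hD.norm_le _) h1.le (norm_nonneg _) zero_le_one
      _ = ε := one_mul ε
  rcases lt_or_gt_of_ne hne with hlt | hlt
  · apply key i' hi' i hlt φ' φ B' B hS' hS hdet' hdet
    intro f _
    rw [norm_sub_rev]
    exact H2 f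
  · exact key i hi i' hlt φ φ' B B' hS hS' hdet hdet' (fun f _ => H2 f)

end

end Pool.Agent.Helper156.RWF.J13545
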