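import Pool.Agent.KS6_3.RW.Helper156.RWF.D0

namespace Pool.Agent.Helper156.RWF.J13546

open Pool.Agent.Helper156.RWF
open Filter Topology MeasureTheory


section
variable {p : ℕ} [Fact p.Prime]
variable {F : Type} [Group F] [TopologicalSpace F] [IsTopologicalGroup F] [CompactSpace F]
  [T2Space F] [TotallyDisconnectedSpace F]

theorem conj_card {Q : Type} [Group Q] [Finite Q] (S : Subgroup Q) (B : Set Q)
    (hBS : ∀ b ∈ B, b ∈ S) (hconj : ∀ s ∈ S, ∀ b ∈ B, s * b * s⁻¹ ∈ B) (K : ℕ) (t : Q)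
    (ht : t ∈ S)
    (hdisj : ∀ i < K, ∀ i' < K, i ≠ i' → ∀ b ∈ B, ∀ b' ∈ B, t ^ i * b ≠ t ^ i' * b') :
    K * Nat.card {x : Q | ∃ θ : Q, θ * x * θ⁻¹ ∈ B} ≤ Nat.card Q := by
  classical
  by_cases hB : B = ∅
  · have : {x : Q | ∃ θ : Q, θ * x * θ⁻¹ ∈ B} = ∅ := by
      ext x; simp [hB]
    rw [this]; simp
  · have hBpos : 0 < Nat.card B := by
      rw [Nat.card_pos_iff]
      exact ⟨Set.nonempty_coe_sort.2 (Set.nonempty_iff_ne_empty.2 hB), inferInstance⟩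
    have h1 : K * Nat.card B ≤ Nat.card S := by
      have := Nat.card_le_card_of_injective
        (fun (ib : Fin K × B) => (⟨t ^ (ib.1 : ℕ) * (ib.2 : Q),
          S.mul_mem (S.pow_mem ht _) (hBS _ ib.2.2)⟩ : S)) (by
        rintro ⟨i, b⟩ ⟨i', b'⟩ h
        have h' : t ^ (i : ℕ) * (b : Q) = t ^ (i' : ℕ) * (b' : Q) := congrArg Subtype.val h
        by_cases hi : i = i'
        · subst hi
          have h2 := mul_left_cancel h'
          have h3 : b = b' := Subtype.ext h2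
          rw [h3]
        · exact absurd h' (hdisj i i.2 i' i'.2 (fun h => hi (Fin.ext h)) b b.2 b' b'.2))
      rwa [Nat.card_prod, Nat.card_fin] at this
    have h2 : Nat.card {x : Q | ∃ θ : Q, θ * x * θ⁻¹ ∈ B} * Nat.card S ≤
        Nat.card Q * Nat.card B := by
      choose θ hθ using fun x : {x : Q | ∃ θ : Q, θ * x * θ⁻¹ ∈ B} => x.2
      have := Nat.card_le_card_of_injective
        (fun (xs : {x : Q | ∃ θ : Q, θ * x * θ⁻¹ ∈ B} × S) =>
          ((((xs.2 : Q) * θ xs.1, ⟨(xs.2 : Q) * (θ xs.1 * (xs.1 : Q) * (θ xs.1)⁻¹) * (xs.2 : Q)⁻¹,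
            hconj _ xs.2.2 _ (hθ xs.1)⟩)) : Q × B)) (by
        rintro ⟨x, s⟩ ⟨x', s'⟩ h
        rw [Prod.mk.injEq] at h
        obtain ⟨ha, hb⟩ := h
        have hb' : (s : Q) * (θ x * (x : Q) * (θ x)⁻¹) * (s : Q)⁻¹ =
          (s' : Q) * (θ x' * (x' : Q) * (θ x')⁻¹) * (s' : Q)⁻¹ := congrArg Subtype.val hb
        have ha' : (s : Q) * θ x = (s' : Q) * θ x' := ha
        have e1 : (s : Q) * (θ x * (x : Q) * (θ x)⁻¹) * (s : Q)⁻¹ =
          ((s : Q) * θ x) * x * ((s : Q) * θ x)⁻¹ := by group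
        have e2 : (s' : Q) * (θ x' * (x' : Q) * (θ x')⁻¹) * (s' : Q)⁻¹ =
          ((s' : Q) * θ x') * x' * ((s' : Q) * θ x')⁻¹ := by group
        rw [e1, e2, ha'] at hb'
        have h3 := mul_left_cancel (mul_right_cancel hb')
        have h4 : x = x' := Subtype.ext h3
        subst h4
        have h5 := mul_right_cancel ha'
        have h6 : s = s' := Subtype.ext h5
        rw [h6])
      rwa [Nat.card_prod, Nat.card_prod] at this
    refine Nat.le_of_mul_le_mul_right ?_ hBpos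
    calc K * Nat.card {x : Q | ∃ θ : Q, θ * x * θ⁻¹ ∈ B} * Nat.card B
        = Nat.card {x : Q | ∃ θ : Q, θ * x * θ⁻¹ ∈ B} * (K * Nat.card B) := by ring
      _ ≤ Nat.card {x : Q | ∃ θ : Q, θ * x * θ⁻¹ ∈ B} * Nat.card S := Nat.mul_le_mul_left _ h1
      _ ≤ Nat.card Q * Nat.card B := h2

theorem measure_conj_le {H : Type} [Group H] [MeasurableSpace H] (μ : Measure H)
    [IsProbabilityMeasure μ]
    (hinv : ∀ (g : H) (s : Set H), MeasurableSet s → μ ((fun x => g * x) ⁻¹' s) = μ s)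
    {Q : Type} [Group Q] [Finite Q] (q : H →* Q)
    (hq : ∀ y : Q, MeasurableSet (q ⁻¹' {y})) (S : Subgroup H) (B : Set H)
    (hBS : ∀ b ∈ B, b ∈ S) (hconj : ∀ s ∈ S, ∀ b ∈ B, s * b * s⁻¹ ∈ B) (K : ℕ) (t : H)
    (ht : t ∈ S)
    (hdisj : ∀ i < K, ∀ i' < K, i ≠ i' → ∀ b ∈ B, ∀ b' ∈ B, q (t ^ i * b) ≠ q (t ^ i' * b')) :
    (K : ENNReal) * μ {x : H | ∃ θ : H, θ * x * θ⁻¹ ∈ B} ≤ 1 := by
  classical
  set q' : H →* q.range := q.rangeRestrict with hq'def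
  have hq'val : ∀ h, ((q' h : q.range) : Q) = q h := fun h => rfl
  have hcard := conj_card (S.map q') (q' '' B)
    (by rintro _ ⟨b, hb, rfl⟩; exact ⟨b, hBS b hb, rfl⟩)
    (by
      rintro _ ⟨s, hs, rfl⟩ _ ⟨b, hb, rfl⟩
      refine ⟨s * b * s⁻¹, hconj s hs b hb, ?_⟩
      simp [map_mul, map_inv])
    K (q' t) ⟨t, ht, rfl⟩
    (by
      rintro i hi i' hi' hne _ ⟨b, hb, rfl⟩ _ ⟨b', hb', rfl⟩ h
      refine hdisj i hi i' hi' hne b hb b' hb' ?_
      rw [← map_pow, ← map_pow, ← map_mul, ← map_mul] at h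
      exact congrArg Subtype.val h)
  have hfib : ∀ y : q.range, q' ⁻¹' {y} = q ⁻¹' {(y : Q)} := by
    intro y
    ext x
    simp only [Set.mem_preimage, Set.mem_singleton_iff]
    rw [← hq'val, Subtype.ext_iff]
  have hmeas : ∀ y : q.range, MeasurableSet (q' ⁻¹' {y}) := by
    intro y; rw [hfib]; exact hq _
  have hm : ∀ y : q.range, μ (q' ⁻¹' {y}) = μ (q' ⁻¹' {1}) := by
    intro y
    obtain ⟨h, rfl⟩ : ∃ h, q' h = y := q.rangeRestrict_surjective y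
    rw [← hinv h _ (hmeas (q' h))]
    congr 1
    ext x
    simp only [Set.mem_preimage, Set.mem_singleton_iff, map_mul, mul_eq_left]
  haveI : Fintype q.range := Fintype.ofFinite _
  have hsum : (Nat.card q.range : ENNReal) * μ (q' ⁻¹' {1}) = 1 := by
    have h1 : μ (⋃ y : q.range, q' ⁻¹' {y}) = ∑' y : q.range, μ (q' ⁻¹' {y}) := by
      apply measure_iUnion
      · intro y y' hyy'
        refine Set.disjoint_left.2 ?_
        intro x hx hx'
        exact hyy' (hx.symm.trans hx')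
      · exact hmeas
    have h2 : (⋃ y : q.range, q' ⁻¹' {y}) = Set.univ := by
      ext x; simp
    rw [h2, measure_univ, tsum_fintype, Finset.sum_congr rfl (fun y _ => hm y),
      Finset.sum_const, nsmul_eq_mul, Finset.card_univ, ← Nat.card_eq_fintype_card] at h1
    exact h1.symm
  set X' : Set q.range := {x | ∃ θ : q.range, θ * x * θ⁻¹ ∈ q' '' B} with hX'
  have hsub : {x : H | ∃ θ : H, θ * x * θ⁻¹ ∈ B} ⊆ ⋃ y ∈ X'.toFinset, q' ⁻¹' {y} := by
    rintro x ⟨θ, hθ⟩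
    simp only [Set.mem_iUnion, Set.mem_preimage, Set.mem_singleton_iff, Set.mem_toFinset]
    refine ⟨q' x, ⟨q' θ, ⟨_, hθ, ?_⟩⟩, rfl⟩
    simp [map_mul, map_inv]
  have hE : μ {x : H | ∃ θ : H, θ * x * θ⁻¹ ∈ B} ≤ (Nat.card X' : ENNReal) * μ (q' ⁻¹' {1}) := by
    calc μ {x : H | ∃ θ : H, θ * x * θ⁻¹ ∈ B} ≤ μ (⋃ y ∈ X'.toFinset, q' ⁻¹' {y}) :=
          measure_mono hsub
      _ ≤ ∑ y ∈ X'.toFinset, μ (q' ⁻¹' {y}) := measure_biUnion_finset_le _ _
      _ = (Nat.card X' : ENNReal) * μ (q' ⁻¹' {1}) := by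
          rw [Finset.sum_congr rfl (fun y _ => hm y), Finset.sum_const, nsmul_eq_mul,
            Set.toFinset_card, ← Nat.card_eq_fintype_card]
  calc (K : ENNReal) * μ {x : H | ∃ θ : H, θ * x * θ⁻¹ ∈ B}
      ≤ (K : ENNReal) * ((Nat.card X' : ENNReal) * μ (q' ⁻¹' {1})) := by gcongr
    _ = ((K * Nat.card X' : ℕ) : ENNReal) * μ (q' ⁻¹' {1}) := by push_cast; ring
    _ ≤ (Nat.card q.range : ENNReal) * μ (q' ⁻¹' {1}) := by
        gcongr
    _ = 1 := hsum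

end

end Pool.Agent.Helper156.RWF.J13546
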