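import Pool.Agent.KS6_3.RW.Helper156.RWF.D0
import Pool.Agent.KS6_3.RW.Helper156.RWF.J13538
import Pool.Agent.KS6_3.RW.Helper156.RWF.J13539
import Pool.Agent.KS6_3.RW.Helper156.RWF.J13547

namespace Pool.Agent.Helper156.RWF.J13548

open Pool.Agent.Helper156.RWF Pool.Agent.Helper156.RWF.J13538 Pool.Agent.Helper156.RWF.J13539 Pool.Agent.Helper156.RWF.J13547
open Filter Topology MeasureTheory


section
variable {p : ℕ} [Fact p.Prime]
variable {F : Type} [Group F] [TopologicalSpace F] [IsTopologicalGroup F] [CompactSpace F]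
  [T2Space F] [TotallyDisconnectedSpace F]


/-- the twist: an automorphism which scales the cocycle -/
theorem twist {d : ℕ} {x : Fin d → F} (h : IsFreeProP p d F x) {r : ℕ}
    (η : F →* EN p r) (C : F → (Fin r → ℚ_[p])) (hD : RData p r η C) :
    ∃ j : ℕ, 1 ≤ j ∧ ∃ θ : F ≃ₜ* F, (∀ f, η (θ f) = η f) ∧
      ∀ f, C (θ f) = (1 + (p : ℚ_[p]) ^ j) • C f := by
  classical
  have hp1 : (1 : ℝ) < p := by exact_mod_cast (Fact.out : p.Prime).one_lt
  have hp0 : (0 : ℝ) < p := by linarith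
  -- bound
  obtain ⟨B, hB⟩ : ∃ B : ℝ, ∀ f, ‖C f‖ ≤ B := by
    have hc : IsCompact (Set.range C) := isCompact_range hD.cC
    obtain ⟨B, hB⟩ := hc.isBounded.exists_norm_le
    exact ⟨B, fun f => hB _ ⟨f, rfl⟩⟩
  obtain ⟨a, ha⟩ := pow_unbounded_of_one_lt B hp1
  have hCa : ∀ f, ‖C f‖ ≤ (p : ℝ) ^ a := fun f => (hB f).trans ha.le
  -- basic facts on the cocycle
  have hC1 : C 1 = 0 := by
    have h1 := hD.coc 1 1
    rw [mul_one, map_one] at h1
    have h2 : (1 : EN p r) (C 1) = C 1 := rfl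
    rw [h2] at h1
    exact left_eq_add.1 h1
  have hηinv : ∀ f, η f * η f⁻¹ = 1 := fun f => by rw [← map_mul, mul_inv_cancel, map_one]
  have hηinv' : ∀ f, η f⁻¹ * η f = 1 := fun f => by rw [← map_mul, inv_mul_cancel, map_one]
  have hCinv : ∀ f, C f⁻¹ = - η f⁻¹ (C f) := by
    intro f
    have h1 := hD.coc f⁻¹ f
    rw [inv_mul_cancel, hC1] at h1
    exact eq_neg_of_add_eq_zero_left h1.symm
  have hCpow : ∀ (s : F), η s = 1 → ∀ n : ℕ, C (s ^ n) = (n : ℚ_[p]) • C s := by
    intro s hs n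
    induction n with
    | zero => simp [hC1]
    | succ n ih =>
      rw [pow_succ, hD.coc, ih, map_pow, hs, one_pow]
      have h2 : (1 : EN p r) (C s) = C s := rfl
      rw [h2, Nat.cast_succ, add_smul, one_smul]
  -- the elements
  have hr : ∀ i, ∃ s : F, η s = 1 ∧ C s = ((p : ℚ_[p]) ^ a) • η (x i)⁻¹ (C (x i)) := by
    intro i
    have h1 : ‖((p : ℚ_[p]) ^ a) • η (x i)⁻¹ (C (x i))‖ ≤ 1 := by
      rw [norm_smul, norm_pow, Padic.norm_p]
      have h2 : ‖η (x i)⁻¹ (C (x i))‖ ≤ (p : ℝ) ^ a := by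
        refine ((η (x i)⁻¹).le_opNorm _).trans ?_
        calc ‖η (x i)⁻¹‖ * ‖C (x i)‖ ≤ 1 * (p : ℝ) ^ a :=
              mul_le_mul (hD.norm_le _) (hCa _) (norm_nonneg _) zero_le_one
          _ = (p : ℝ) ^ a := one_mul _
      calc ((p : ℝ)⁻¹) ^ a * ‖η (x i)⁻¹ (C (x i))‖ ≤ ((p : ℝ)⁻¹) ^ a * (p : ℝ) ^ a :=
            mul_le_mul_of_nonneg_left h2 (by positivity)
        _ = 1 := by rw [← mul_pow, inv_mul_cancel₀ hp0.ne', one_pow]
    have h3 : ((p : ℚ_[p]) ^ a) • η (x i)⁻¹ (C (x i)) ∈ C '' {f | η f = 1} := by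
      rw [hD.lat]
      exact h1
    obtain ⟨s, hs1, hs2⟩ := h3
    exact ⟨s, hs1, hs2⟩
  choose s hs1 hs2 using hr
  obtain ⟨θ, hθc, hθx⟩ := lift_self h (fun i => x i * s i ^ p)
  have hηx : ∀ i, η (θ (x i)) = η (x i) := by
    intro i
    rw [hθx, map_mul, map_pow, hs1, one_pow, mul_one]
  have hCx : ∀ i, C (θ (x i)) = (1 + (p : ℚ_[p]) ^ (a + 1)) • C (x i) := by
    intro i
    rw [hθx, hD.coc, hCpow _ (hs1 i), hs2, map_smul, map_smul]
    have h1 : η (x i) (η (x i)⁻¹ (C (x i))) = C (x i) := by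
      have h2 := congrArg (fun T : EN p r => T (C (x i))) (hηinv (x i))
      exact h2
    rw [h1, smul_smul, add_smul, one_smul, pow_succ']
  obtain ⟨ε, hε, hεx⟩ := exists_eps h
  have hεθ : ∀ i, Multiplicative.toAdd (ε (θ (x i))) = Pi.single i 1 := by
    intro i
    rw [hθx, map_mul, map_pow, hεx]
    have h1 : ε (s i) ^ p = 1 := by
      apply Multiplicative.toAdd.injective
      rw [toAdd_pow, toAdd_one]
      funext k
      rw [Pi.smul_apply, Pi.zero_apply, nsmul_eq_mul, CharP.cast_eq_zero, zero_mul]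
    rw [h1, mul_one]
    rfl
  obtain ⟨φ, hφ⟩ := aut_of_eps h ε hε hεx θ hθc (by
    have h1 : (fun i => Multiplicative.toAdd (ε (θ (x i)))) =
        fun i => (Pi.basisFun (ZMod p) (Fin d)) i := by
      funext i
      rw [hεθ, Pi.basisFun_apply]
    rw [h1]
    exact (Pi.basisFun (ZMod p) (Fin d)).linearIndependent)
  have hdense := dense_basis h
  have hη : ∀ f, η (θ f) = η f := by
    have hcl : ∀ f ∈ Subgroup.closure (Set.range x), η (θ f) = η f := by
      intro f hf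
      induction hf using Subgroup.closure_induction with
      | mem f hf =>
        obtain ⟨i, rfl⟩ := hf
        exact hηx i
      | one => rw [map_one]
      | mul a b _ _ ha hb => rw [map_mul, map_mul, ha, hb, map_mul]
      | inv b _ hb =>
        calc η (θ b⁻¹) = η (θ b)⁻¹ * (η b * η b⁻¹) := by rw [hηinv, mul_one, map_inv]
          _ = (η (θ b)⁻¹ * η (θ b)) * η b⁻¹ := by rw [hb, mul_assoc]
          _ = η b⁻¹ := by rw [hηinv', one_mul]
    have := Continuous.ext_on hdense (hD.cη.comp hθc) hD.cη (fun f hf => hcl f hf)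
    exact fun f => congrFun this f
  have hC : ∀ f, C (θ f) = (1 + (p : ℚ_[p]) ^ (a + 1)) • C f := by
    have hcl : ∀ f ∈ Subgroup.closure (Set.range x),
        C (θ f) = (1 + (p : ℚ_[p]) ^ (a + 1)) • C f := by
      intro f hf
      induction hf using Subgroup.closure_induction with
      | mem f hf =>
        obtain ⟨i, rfl⟩ := hf
        exact hCx i
      | one => rw [map_one, hC1, smul_zero]
      | mul a b _ _ ha hb => rw [map_mul, hD.coc, hD.coc, ha, hb, hη, map_smul, smul_add]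
      | inv b _ hb =>
        rw [map_inv, hCinv, hb, hCinv b, ← map_inv, hη, map_smul, smul_neg]
    have hcc : Continuous (fun f => (1 + (p : ℚ_[p]) ^ (a + 1)) • C f) :=
      (continuous_const_smul (1 + (p : ℚ_[p]) ^ (a + 1))).comp hD.cC
    have := Continuous.ext_on hdense (hD.cC.comp hθc) hcc (fun f hf => hcl f hf)
    exact fun f => congrFun this f
  refine ⟨a + 1, by omega, φ, fun f => ?_, fun f => ?_⟩
  · rw [hφ]
    exact hη f
  · rw [hφ]
    exact hC f

end

end Pool.Agent.Helper156.RWF.J13548
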