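import Pool.Agent.KS6_3.RW.Helper156.RWF.D0
import Pool.Agent.KS6_3.RW.Helper156.RWF.J13542
import Pool.Agent.KS6_3.RW.Helper156.RWF.J13543
import Pool.Agent.KS6_3.RW.Helper156.RWF.J13545
import Pool.Agent.KS6_3.RW.Helper156.RWF.J13546
import Pool.Agent.KS6_3.RW.Helper156.RWF.J13547
import Pool.Agent.KS6_3.RW.Helper156.RWF.J13548

namespace Pool.Agent.Helper156.RWF.J13549

open Pool.Agent.Helper156.RWF Pool.Agent.Helper156.RWF.J13542 Pool.Agent.Helper156.RWF.J13543 Pool.Agent.Helper156.RWF.J13545 Pool.Agent.Helper156.RWF.J13546 Pool.Agent.Helper156.RWF.J13547 Pool.Agent.Helper156.RWF.J13548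
open Filter Topology MeasureTheory


section
variable {p : ℕ} [Fact p.Prime]
variable {F : Type} [Group F] [TopologicalSpace F] [IsTopologicalGroup F] [CompactSpace F]
  [T2Space F] [TotallyDisconnectedSpace F]


/-- the stabiliser -/
def stabGrp {r : ℕ} (η : F →* EN p r) (C : F → (Fin r → ℚ_[p])) : Subgroup (F ≃ₜ* F) where
  carrier := {φ | ∃ B : (Fin r → ℚ_[p]) ≃ₗ[ℚ_[p]] (Fin r → ℚ_[p]), Stab η C φ B.toLinearMap}
  mul_mem' := by
    rintro φ ψ ⟨A, hA⟩ ⟨B, hB⟩
    refine ⟨B.trans A, ?_, ?_⟩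
    · intro f v
      show η (φ (ψ f)) (A (B v)) = A (B (η f v))
      have h1 := hA.1 (ψ f) (B v)
      have h2 := hB.1 f v
      simp only [LinearEquiv.coe_coe] at h1 h2
      rw [h1, h2]
    · intro f hf
      have h1 : η (ψ f) = 1 := by
        ext1 v
        have h2 := hB.1 f (B.symm v)
        simp only [LinearEquiv.coe_coe, LinearEquiv.apply_symm_apply, hf] at h2
        rw [h2]
        show B (B.symm v) = v
        simp
      have h2 := hA.2 (ψ f) h1
      have h3 := hB.2 f hf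
      simp only [LinearEquiv.coe_coe] at h2 h3
      show C (φ (ψ f)) = A (B (C f))
      rw [h2, h3]
  one_mem' := ⟨LinearEquiv.refl _ _, fun f v => rfl, fun f _ => rfl⟩
  inv_mem' := by
    rintro φ ⟨A, hA⟩
    have h0 : ∀ f v, η (φ⁻¹ f) (A.symm v) = A.symm (η f v) := by
      intro f v
      have h1 := hA.1 (φ⁻¹ f) (A.symm v)
      simp only [LinearEquiv.coe_coe, LinearEquiv.apply_symm_apply] at h1
      have h2 : φ (φ⁻¹ f) = f := φ.apply_symm_apply f
      rw [h2] at h1
      rw [h1, LinearEquiv.symm_apply_apply]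
    refine ⟨A.symm, fun f v => h0 f v, ?_⟩
    intro f hf
    have h1 : η (φ⁻¹ f) = 1 := by
      ext1 v
      have h2 := h0 f (A v)
      rw [hf] at h2
      simpa using h2
    have h3 := hA.2 (φ⁻¹ f) h1
    have h2 : φ (φ⁻¹ f) = f := φ.apply_symm_apply f
    rw [h2] at h3
    simp only [LinearEquiv.coe_coe] at h3
    show C (φ⁻¹ f) = A.symm (C f)
    rw [h3, LinearEquiv.symm_apply_apply]

theorem mem_stabGrp {r : ℕ} {η : F →* EN p r} {C : F → (Fin r → ℚ_[p])} {φ : F ≃ₜ* F} :
    φ ∈ stabGrp η C ↔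
      ∃ B : (Fin r → ℚ_[p]) ≃ₗ[ℚ_[p]] (Fin r → ℚ_[p]), Stab η C φ B.toLinearMap := Iff.rfl

/-- the permutation of the cosets of a characteristic subgroup -/
def permMk (N : Subgroup F) (hN : ∀ (φ : F ≃ₜ* F) (f : F), φ f ∈ N ↔ f ∈ N) (φ : F ≃ₜ* F) :
    Equiv.Perm (F ⧸ N) where
  toFun := Quotient.map' (fun f => φ f) (by
    intro a b hab
    rw [QuotientGroup.leftRel_apply] at hab ⊢
    rw [← map_inv, ← map_mul]
    exact (hN φ _).mpr hab)
  invFun := Quotient.map' (fun f => φ.symm f) (by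
    intro a b hab
    rw [QuotientGroup.leftRel_apply] at hab ⊢
    rw [← map_inv, ← map_mul]
    exact (hN φ.symm _).mpr hab)
  left_inv := by
    intro c
    induction c using Quotient.inductionOn' with
    | h a =>
      rw [Quotient.map'_mk'', Quotient.map'_mk'']
      simp
  right_inv := by
    intro c
    induction c using Quotient.inductionOn' with
    | h a =>
      rw [Quotient.map'_mk'', Quotient.map'_mk'']
      simp

theorem permMk_mk (N : Subgroup F) (hN : ∀ (φ : F ≃ₜ* F) (f : F), φ f ∈ N ↔ f ∈ N) (φ : F ≃ₜ* F)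
    (f : F) : permMk N hN φ (QuotientGroup.mk f) = QuotientGroup.mk (φ f) := rfl

/-- the action on the cosets -/
def permHom (N : Subgroup F) (hN : ∀ (φ : F ≃ₜ* F) (f : F), φ f ∈ N ↔ f ∈ N) :
    (F ≃ₜ* F) →* Equiv.Perm (F ⧸ N) where
  toFun := permMk N hN
  map_one' := by
    ext c
    induction c using Quotient.inductionOn' with
    | h a => rfl
  map_mul' := by
    intro φ ψ
    ext c
    induction c using Quotient.inductionOn' with
    | h a => rfl

theorem permHom_mk (N : Subgroup F) (hN : ∀ (φ : F ≃ₜ* F) (f : F), φ f ∈ N ↔ f ∈ N) (φ : F ≃ₜ* F)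
    (f : F) : permHom N hN φ (QuotientGroup.mk f) = QuotientGroup.mk (φ f) := rfl

omit [IsTopologicalGroup F] [CompactSpace F] [T2Space F] [TotallyDisconnectedSpace F] in
theorem eval_cont (f : F) : Continuous fun φ : F ≃ₜ* F => φ f := by
  have h1 : Continuous fun φ : F ≃ₜ* F => (toCM φ, toCM φ.symm) := continuous_induced_dom
  have h2 : Continuous fun φ : F ≃ₜ* F => toCM φ := continuous_fst.comp h1
  exact (ContinuousEvalConst.continuous_eval_const (F := C(F, F)) f).comp h2

theorem perm_meas (N : Subgroup F) (hN : ∀ (φ : F ≃ₜ* F) (f : F), φ f ∈ N ↔ f ∈ N)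
    (hNo : IsOpen (N : Set F)) [Finite (F ⧸ N)] (y : Equiv.Perm (F ⧸ N)) :
    MeasurableSet (permHom N hN ⁻¹' {y}) := by
  have h1 : permHom N hN ⁻¹' {y} = ⋂ c : F ⧸ N, {φ | permHom N hN φ c = y c} := by
    ext φ
    simp only [Set.mem_preimage, Set.mem_singleton_iff, Set.mem_iInter, Set.mem_setOf_eq]
    exact Equiv.ext_iff
  rw [h1]
  apply IsOpen.measurableSet
  apply isOpen_iInter_of_finite
  intro c
  obtain ⟨f, rfl⟩ := QuotientGroup.mk_surjective c
  obtain ⟨g, hg⟩ := QuotientGroup.mk_surjective (y (QuotientGroup.mk f))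
  have h2 : {φ : F ≃ₜ* F | permHom N hN φ (QuotientGroup.mk f) = y (QuotientGroup.mk f)} =
      (fun φ : F ≃ₜ* F => φ f) ⁻¹' ((fun x => g⁻¹ * x) ⁻¹' (N : Set F)) := by
    ext φ
    simp only [Set.mem_setOf_eq, Set.mem_preimage, permHom_mk, SetLike.mem_coe]
    rw [← hg, eq_comm, QuotientGroup.eq]
  rw [h2]
  exact (hNo.preimage (continuous_const_mul g⁻¹)).preimage (eval_cont f)

theorem null_conj {d : ℕ} {x : Fin d → F} (h : IsFreeProP p d F x) {r : ℕ} (hr : 1 ≤ r)
    (η : F →* EN p r) (C : F → (Fin r → ℚ_[p])) (hD : RData p r η C) (M : ℕ) (hM : 1 ≤ M)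
    (μ : Measure (F ≃ₜ* F)) [IsProbabilityMeasure μ] [μ.IsMulLeftInvariant] :
    μ {φ : F ≃ₜ* F | ∃ (θ : F ≃ₜ* F) (B : (Fin r → ℚ_[p]) →ₗ[ℚ_[p]] (Fin r → ℚ_[p])),
      Stab η C (θ * φ * θ⁻¹) B ∧ LinearMap.det B ^ M = 1} = 0 := by
  haveI := aut_isTopologicalGroup (F := F)
  obtain ⟨j, hj, θ, hθη, hθC⟩ := twist h η C hD
  set Bs : Set (F ≃ₜ* F) := {φ | ∃ B : (Fin r → ℚ_[p]) →ₗ[ℚ_[p]] (Fin r → ℚ_[p]),
    Stab η C φ B ∧ LinearMap.det B ^ M = 1} with hBs
  have hle : ∀ K : ℕ, (K : ENNReal) * μ {x : F ≃ₜ* F | ∃ θ : F ≃ₜ* F, θ * x * θ⁻¹ ∈ Bs} ≤ 1 := by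
    intro K
    obtain ⟨N, hNn, hNo, hNc, hNs⟩ := separation (dense_basis h) hr η C hD j hj θ hθη hθC M hM K
    haveI : Finite (F ⧸ N) := Subgroup.quotient_finite_of_isOpen N hNo
    have hθS : θ ∈ stabGrp η C := by
      have hne : (1 + (p : ℚ_[p]) ^ j) ≠ 0 := by
        have : ((1 + p ^ j : ℕ) : ℚ_[p]) ≠ 0 := by
          rw [Nat.cast_ne_zero]; omega
        push_cast at this
        exact this
      refine ⟨LinearEquiv.smulOfNeZero ℚ_[p] _ _ hne, ?_, ?_⟩
      · intro f v
        show η (θ f) ((1 + (p : ℚ_[p]) ^ j) • v) = (1 + (p : ℚ_[p]) ^ j) • (η f v)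
        rw [hθη, map_smul]
      · intro f _
        exact hθC f
    apply measure_conj_le μ (fun g s _ => measure_preimage_mul μ g s) (permHom N hNc)
      (perm_meas N hNc hNo) (stabGrp η C) Bs ?_ ?_ K θ hθS ?_
    · rintro b ⟨B, hB, hdet⟩
      have hd : LinearMap.det B ≠ 0 := by
        intro h0
        rw [h0, zero_pow (by omega)] at hdet
        exact zero_ne_one hdet
      refine ⟨LinearMap.equivOfDetNeZero B hd, ?_⟩
      have : (LinearMap.equivOfDetNeZero B hd).toLinearMap = B := by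
        ext1 v; rfl
      rw [this]
      exact hB
    · rintro s ⟨A, hA⟩ b ⟨B, hB, hdet⟩
      have hd : LinearMap.det B ≠ 0 := by
        intro h0
        rw [h0, zero_pow (by omega)] at hdet
        exact zero_ne_one hdet
      refine ⟨A.toLinearMap ∘ₗ B ∘ₗ A.symm.toLinearMap, ?_, ?_⟩
      · have hs : s ∈ stabGrp η C := ⟨A, hA⟩
        have hsi := (stabGrp η C).inv_mem hs
        have h0 : ∀ f v, η (s⁻¹ f) (A.symm v) = A.symm (η f v) := by
          intro f v
          have h1 := hA.1 (s⁻¹ f) (A.symm v)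
          simp only [LinearEquiv.coe_coe, LinearEquiv.apply_symm_apply] at h1
          have h2 : s (s⁻¹ f) = f := s.apply_symm_apply f
          rw [h2] at h1
          rw [h1, LinearEquiv.symm_apply_apply]
        have hBsur : Function.Surjective B := by
          have : (LinearMap.equivOfDetNeZero B hd).toLinearMap = B := by
            ext1 v; rfl
          rw [← this]
          exact (LinearMap.equivOfDetNeZero B hd).surjective
        refine ⟨?_, ?_⟩
        · intro f v
          show η (s (b (s⁻¹ f))) (A (B (A.symm v))) = A (B (A.symm (η f v)))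
          have h1 := hA.1 (b (s⁻¹ f)) (B (A.symm v))
          simp only [LinearEquiv.coe_coe] at h1
          rw [h1, hB.1, h0]
        · intro f hf
          have e1 : η (s⁻¹ f) = 1 := by
            ext1 v
            have h2 := h0 f (A v)
            rw [hf] at h2
            simpa using h2
          have e2 : η (b (s⁻¹ f)) = 1 := by
            ext1 v
            obtain ⟨w, rfl⟩ := hBsur v
            rw [hB.1, e1]
            rfl
          have e3 := hA.2 (b (s⁻¹ f)) e2
          have e4 := hB.2 (s⁻¹ f) e1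
          have e5 := hA.2 (s⁻¹ f) e1
          have h2 : s (s⁻¹ f) = f := s.apply_symm_apply f
          rw [h2] at e5
          simp only [LinearEquiv.coe_coe] at e3 e5
          show C (s (b (s⁻¹ f))) = A (B (A.symm (C f)))
          rw [e3, e4, e5, LinearEquiv.symm_apply_apply]
      · rw [LinearMap.det_conj]
        exact hdet
    · rintro i hi i' hi' hii b ⟨B, hB, hd⟩ b' ⟨B', hB', hd'⟩ heq
      apply hNs i hi i' hi' hii b b' B B' hB hB' hd hd'
      intro f
      have := congrArg (fun q : Equiv.Perm (F ⧸ N) => q (QuotientGroup.mk f)) heq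
      simp only [permHom_mk] at this
      exact QuotientGroup.eq.mp this
  have hset : {φ : F ≃ₜ* F | ∃ (θ : F ≃ₜ* F) (B : (Fin r → ℚ_[p]) →ₗ[ℚ_[p]] (Fin r → ℚ_[p])),
      Stab η C (θ * φ * θ⁻¹) B ∧ LinearMap.det B ^ M = 1} =
      {x : F ≃ₜ* F | ∃ θ : F ≃ₜ* F, θ * x * θ⁻¹ ∈ Bs} := rfl
  rw [hset]
  by_contra hne
  obtain ⟨n, hn⟩ := ENNReal.exists_nat_mul_gt hne (b := 1) (by simp)
  exact absurd (hle n) (not_le.mpr hn)

end

end Pool.Agent.Helper156.RWF.J13549
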