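import Pool.Agent.KS6_3.RW.Helper156.RWF.D0

namespace Pool.Agent.Helper156.RWF.J13853

open Pool.Agent.Helper156.RWF
open Filter Topology MeasureTheory


section
variable {p : ℕ} [Fact p.Prime]
variable {F : Type} [Group F] [TopologicalSpace F] [IsTopologicalGroup F] [CompactSpace F]
  [T2Space F] [TotallyDisconnectedSpace F]
variable {A : Type} [NormedRing A] [NormedAlgebra ℚ_[p] A] [IsUltrametricDist A] [NormOneClass A]
  [FiniteDimensional ℚ_[p] A]

theorem lattice_basis_aux (p : ℕ) [Fact p.Prime] (d : ℕ) (L : Set (Fin d → ℚ_[p]))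
    (hc : IsCompact L) (hadd : ∀ x ∈ L, ∀ y ∈ L, x + y ∈ L) (h0 : (0 : Fin d → ℚ_[p]) ∈ L)
    (hspan : Submodule.span ℚ_[p] L = ⊤) :
    ∃ T : (Fin d → ℚ_[p]) ≃ₗ[ℚ_[p]] (Fin d → ℚ_[p]), T '' {v | ‖v‖ ≤ 1} = L := by
  have hsm : ∀ (c : ℤ_[p]) (x : Fin d → ℚ_[p]), c • x = (c : ℚ_[p]) • x := by
    intro c x
    funext i
    rfl
  -- `L` is closed under multiplication by `ℤ_p`
  have hmul : ∀ (c : ℤ_[p]) (x : Fin d → ℚ_[p]), x ∈ L → (c : ℚ_[p]) • x ∈ L := by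
    intro c x hx
    have hcont : Continuous fun c : ℤ_[p] => (c : ℚ_[p]) • x :=
      continuous_subtype_val.smul continuous_const
    have hcl : IsClosed {c : ℤ_[p] | (c : ℚ_[p]) • x ∈ L} := hc.isClosed.preimage hcont
    have hnat : ∀ n : ℕ, (((n : ℤ_[p])) : ℚ_[p]) • x ∈ L := by
      intro n
      induction n with
      | zero =>
        have e : (((0 : ℕ) : ℤ_[p]) : ℚ_[p]) • x = 0 := by
          rw [Nat.cast_zero]
          have : ((0 : ℤ_[p]) : ℚ_[p]) = 0 := rfl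
          rw [this, zero_smul]
        rw [e]
        exact h0
      | succ n ih =>
        have e : (((n + 1 : ℕ) : ℤ_[p]) : ℚ_[p]) • x = (((n : ℤ_[p])) : ℚ_[p]) • x + x := by
          rw [Nat.cast_succ]
          have : (((n : ℤ_[p]) + 1 : ℤ_[p]) : ℚ_[p]) = (((n : ℤ_[p])) : ℚ_[p]) + 1 := rfl
          rw [this, add_smul, one_smul]
        rw [e]
        exact hadd _ ih _ hx
    exact PadicInt.denseRange_natCast.induction_on (p := fun c : ℤ_[p] => (c : ℚ_[p]) • x ∈ L)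
      c hcl hnat
  let N : Submodule ℤ_[p] (Fin d → ℚ_[p]) :=
    { carrier := L
      add_mem' := fun {x y} hx hy => hadd x hx y hy
      zero_mem' := h0
      smul_mem' := fun c x hx => by
        rw [hsm]
        exact hmul c x hx }
  have hNL : ∀ x, x ∈ N ↔ x ∈ L := fun x => Iff.rfl
  -- boundedness
  have hp1 : (1 : ℝ) < p := by exact_mod_cast (Fact.out : p.Prime).one_lt
  have hp0 : (p : ℚ_[p]) ≠ 0 := by
    exact_mod_cast (Fact.out : p.Prime).ne_zero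
  obtain ⟨R, hR⟩ := hc.isBounded.exists_norm_le
  obtain ⟨a, ha⟩ := pow_unbounded_of_one_lt R hp1
  have hpa : ((p : ℚ_[p]) ^ a) ≠ 0 := pow_ne_zero _ hp0
  let ι : (Fin d → ℤ_[p]) →ₗ[ℤ_[p]] (Fin d → ℚ_[p]) :=
    { toFun := fun w i => ((p : ℚ_[p]) ^ a)⁻¹ * (w i : ℚ_[p])
      map_add' := fun w w' => by
        funext i
        change ((p : ℚ_[p]) ^ a)⁻¹ * ((w i : ℚ_[p]) + (w' i : ℚ_[p])) = _
        rw [mul_add]
        rfl
      map_smul' := fun c w => by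
        funext i
        change ((p : ℚ_[p]) ^ a)⁻¹ * ((c : ℚ_[p]) * (w i : ℚ_[p])) =
          (c : ℚ_[p]) * (((p : ℚ_[p]) ^ a)⁻¹ * (w i : ℚ_[p]))
        ring }
  have hιinj : Function.Injective ι := by
    intro w w' h
    funext i
    have h1 : ((p : ℚ_[p]) ^ a)⁻¹ * (w i : ℚ_[p]) = ((p : ℚ_[p]) ^ a)⁻¹ * (w' i : ℚ_[p]) :=
      congrFun h i
    have h2 := mul_left_cancel₀ (inv_ne_zero hpa) h1
    exact Subtype.ext h2
  have hιL : ∀ x ∈ L, ∃ w, ι w = x := by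
    intro x hx
    have hxi : ∀ i, ‖(p : ℚ_[p]) ^ a * x i‖ ≤ 1 := by
      intro i
      rw [norm_mul, norm_pow, Padic.norm_p]
      have h1 : ‖x i‖ ≤ R := (norm_le_pi_norm x i).trans (hR x hx)
      have h2 : ‖x i‖ ≤ (p : ℝ) ^ a := h1.trans ha.le
      have h3 : 0 < (p : ℝ) ^ a := by positivity
      rw [inv_pow, inv_mul_le_iff₀ h3, mul_one]
      exact h2
    refine ⟨fun i => ⟨(p : ℚ_[p]) ^ a * x i, hxi i⟩, ?_⟩
    funext i
    change ((p : ℚ_[p]) ^ a)⁻¹ * ((p : ℚ_[p]) ^ a * x i) = x i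
    rw [← mul_assoc, inv_mul_cancel₀ hpa, one_mul]
  let N0 : Submodule ℤ_[p] (Fin d → ℤ_[p]) := N.comap ι
  obtain ⟨n, ⟨b0⟩⟩ := N0.nonempty_basis_of_pid (Pi.basisFun ℤ_[p] (Fin d))
  let v : Fin n → (Fin d → ℚ_[p]) := fun j => ι (b0 j : Fin d → ℤ_[p])
  have hvL : ∀ j, v j ∈ L := fun j => (b0 j).2
  have hli : LinearIndependent ℤ_[p] v := by
    have h1 : LinearIndependent ℤ_[p] (fun j => b0 j) := b0.linearIndependent
    have h2 := h1.map' (ι ∘ₗ N0.subtype) (by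
      rw [LinearMap.ker_eq_bot]
      exact hιinj.comp Subtype.val_injective)
    exact h2
  have hliK : LinearIndependent ℚ_[p] v :=
    (LinearIndependent.iff_fractionRing ℤ_[p] ℚ_[p]).1 hli
  have hsum : ∀ x ∈ L, ∃ c : Fin n → ℤ_[p], x = ∑ j, (c j : ℚ_[p]) • v j := by
    intro x hx
    obtain ⟨w, hw⟩ := hιL x hx
    have hw0 : w ∈ N0 := by
      change ι w ∈ N
      rw [hw]
      exact hx
    refine ⟨fun j => b0.repr ⟨w, hw0⟩ j, ?_⟩
    have h1 := b0.sum_repr ⟨w, hw0⟩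
    have h2 : w = ∑ j, b0.repr ⟨w, hw0⟩ j • (b0 j : Fin d → ℤ_[p]) := by
      have h3 := congrArg (Subtype.val : N0 → (Fin d → ℤ_[p])) h1
      have h4 : ((∑ j, b0.repr ⟨w, hw0⟩ j • b0 j : N0) : Fin d → ℤ_[p]) =
          ∑ j, b0.repr ⟨w, hw0⟩ j • (b0 j : Fin d → ℤ_[p]) := by
        rw [Submodule.coe_sum]
        rfl
      exact h3.symm.trans h4
    rw [← hw]
    conv_lhs => rw [h2]
    rw [map_sum]
    apply Finset.sum_congr rfl
    intro j _
    rw [map_smul, hsm]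
  have hsp : ⊤ ≤ Submodule.span ℚ_[p] (Set.range v) := by
    rw [← hspan]
    apply Submodule.span_le.2
    intro x hx
    obtain ⟨c, hc'⟩ := hsum x hx
    rw [hc']
    apply Submodule.sum_mem
    intro j _
    exact Submodule.smul_mem _ _ (Submodule.subset_span ⟨j, rfl⟩)
  let B : Module.Basis (Fin n) ℚ_[p] (Fin d → ℚ_[p]) := Module.Basis.mk hliK hsp
  have hn : n = d := by
    have h1 := Module.finrank_eq_card_basis B
    simpa using h1.symm
  subst hn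
  refine ⟨B.equivFun.symm, ?_⟩
  have hT : ∀ w, B.equivFun.symm w = ∑ j, w j • v j := by
    intro w
    rw [Module.Basis.equivFun_symm_apply]
    apply Finset.sum_congr rfl
    intro j _
    rw [Module.Basis.mk_apply]
  ext x
  constructor
  · rintro ⟨w, hw, rfl⟩
    rw [hT]
    have hw1 : ∀ j, ‖w j‖ ≤ 1 := fun j => (norm_le_pi_norm w j).trans hw
    let cc : Fin n → ℤ_[p] := fun j => ⟨w j, hw1 j⟩
    have h1 : ∑ j, w j • v j = ∑ j, cc j • v j := by
      apply Finset.sum_congr rfl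
      intro j _
      rw [hsm]
    rw [h1, ← hNL]
    apply Submodule.sum_mem
    intro j _
    exact N.smul_mem _ (hvL j)
  · intro hx
    obtain ⟨c, hc'⟩ := hsum x hx
    refine ⟨fun j => (c j : ℚ_[p]), ?_, ?_⟩
    · change ‖(fun j => (c j : ℚ_[p]))‖ ≤ 1
      rw [pi_norm_le_iff_of_nonneg zero_le_one]
      intro j
      exact (c j).2
    · rw [hT, hc']

theorem lattice_basis {X : Type} [NormedAddCommGroup X] [NormedSpace ℚ_[p] X]
    [FiniteDimensional ℚ_[p] X] (L : Set X) (hc : IsCompact L)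
    (hadd : ∀ x ∈ L, ∀ y ∈ L, x + y ∈ L) (hneg : ∀ x ∈ L, -x ∈ L) (h0 : (0 : X) ∈ L)
    (hspan : Submodule.span ℚ_[p] L = ⊤) :
    ∃ T : (Fin (Module.finrank ℚ_[p] X) → ℚ_[p]) ≃L[ℚ_[p]] X, T '' {v | ‖v‖ ≤ 1} = L := by
  let S : X ≃ₗ[ℚ_[p]] (Fin (Module.finrank ℚ_[p] X) → ℚ_[p]) :=
    (Module.finBasis ℚ_[p] X).equivFun
  have hScont : Continuous S := S.toLinearMap.continuous_of_finiteDimensional
  obtain ⟨T, hT⟩ := lattice_basis_aux p (Module.finrank ℚ_[p] X) (S '' L) (hc.image hScont)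
    (by
      rintro _ ⟨x, hx, rfl⟩ _ ⟨y, hy, rfl⟩
      exact ⟨x + y, hadd x hx y hy, map_add S x y⟩)
    ⟨0, h0, map_zero S⟩
    (by
      have h1 : Submodule.span ℚ_[p] (S '' L) = (Submodule.span ℚ_[p] L).map S.toLinearMap := by
        rw [Submodule.map_span]
        rfl
      rw [h1, hspan, Submodule.map_top, LinearMap.range_eq_top]
      exact S.surjective)
  refine ⟨(T.trans S.symm).toContinuousLinearEquiv, ?_⟩
  ext x
  constructor
  · rintro ⟨w, hw, rfl⟩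
    have h1 : T w ∈ S '' L := by
      rw [← hT]
      exact ⟨w, hw, rfl⟩
    obtain ⟨y, hy, hy'⟩ := h1
    change S.symm (T w) ∈ L
    rw [← hy', S.symm_apply_apply]
    exact hy
  · intro hx
    have h1 : S x ∈ T '' {v | ‖v‖ ≤ 1} := by
      rw [hT]
      exact ⟨x, hx, rfl⟩
    obtain ⟨w, hw, hw'⟩ := h1
    refine ⟨w, hw, ?_⟩
    change S.symm (T w) = x
    rw [hw', S.symm_apply_apply]

end

end Pool.Agent.Helper156.RWF.J13853
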