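import Pool.Agent.KS6_3.RW.Helper156.RWF.D0

namespace Pool.Agent.Helper156.RWF.J13855

open Pool.Agent.Helper156.RWF
open Filter Topology MeasureTheory


section
variable {p : ℕ} [Fact p.Prime]
variable {F : Type} [Group F] [TopologicalSpace F] [IsTopologicalGroup F] [CompactSpace F]
  [T2Space F] [TotallyDisconnectedSpace F]
variable {A : Type} [NormedRing A] [NormedAlgebra ℚ_[p] A] [IsUltrametricDist A] [NormOneClass A]
  [FiniteDimensional ℚ_[p] A]

/-- the space of invariant characters of an open subgroup is finite dimensional -/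
theorem chars_finite {d : ℕ} {x : Fin d → F}
    (hx : Dense ((Subgroup.closure (Set.range x) : Subgroup F) : Set F))
    (F₁ : Subgroup F) (ho : IsOpen (F₁ : Set F)) (Y : Submodule ℚ_[p] (F → ℚ_[p]))
    (hY : ∀ χ ∈ Y, ContinuousOn χ F₁ ∧ (∀ f ∈ F₁, ∀ h ∈ F₁, χ (f * h) = χ f + χ h) ∧
      ∀ f ∉ F₁, χ f = 0) : FiniteDimensional ℚ_[p] Y := by
  classical
  have hfq : Finite (F ⧸ F₁) := Subgroup.quotient_finite_of_isOpen F₁ ho
  have hfi : F₁.FiniteIndex := Subgroup.finiteIndex_of_finite_quotient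
  have hfg : Group.FG (Subgroup.closure (Set.range x) : Subgroup F) :=
    Group.closure_finite_fg (Set.range x)
  have hfg1 : Group.FG (F₁.subgroupOf (Subgroup.closure (Set.range x))) :=
    Subgroup.fg_of_index_ne_zero _
  obtain ⟨S, hS⟩ := (Group.fg_iff_subgroup_fg _).1 hfg1
  have hone : ∀ χ ∈ Y, χ 1 = 0 := by
    intro χ hχ
    have h := (hY χ hχ).2.1 1 F₁.one_mem 1 F₁.one_mem
    rw [mul_one] at h
    simpa using h
  let L : Y →ₗ[ℚ_[p]] (S → ℚ_[p]) :=
    { toFun := fun χ s => (χ : F → ℚ_[p]) ((s : (Subgroup.closure (Set.range x) : Subgroup F)) : F)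
      map_add' := fun _ _ => rfl
      map_smul' := fun _ _ => rfl }
  have hinj : Function.Injective L := by
    rw [injective_iff_map_eq_zero]
    intro χ hχ
    obtain ⟨hc, hadd, hoff⟩ := hY χ χ.2
    have h1 : ∀ γ ∈ Subgroup.closure (S : Set (Subgroup.closure (Set.range x) : Subgroup F)),
        (χ : F → ℚ_[p]) (γ : F) = 0 := by
      intro γ hγ
      have hmem : ∀ γ ∈ Subgroup.closure (S : Set (Subgroup.closure (Set.range x) : Subgroup F)),
          (γ : F) ∈ F₁ := by
        intro γ hγ
        rw [hS] at hγ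
        exact Subgroup.mem_subgroupOf.1 hγ
      induction hγ using Subgroup.closure_induction with
      | mem s hs => exact congrFun hχ ⟨s, hs⟩
      | one => exact hone χ χ.2
      | mul a b ha hb iha ihb =>
        have h := hadd a (hmem a ha) b (hmem b hb)
        rw [iha, ihb, add_zero] at h
        exact h
      | inv a ha iha =>
        have h := hadd a (hmem a ha) (a : F)⁻¹ (F₁.inv_mem (hmem a ha))
        rw [iha, zero_add, mul_inv_cancel, hone χ χ.2] at h
        exact h.symm
    apply Subtype.ext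
    funext f
    show (χ : F → ℚ_[p]) f = 0
    by_cases hf : f ∈ F₁
    · by_contra hne
      have hop : IsOpen ((F₁ : Set F) ∩ (χ : F → ℚ_[p]) ⁻¹' {0}ᶜ) :=
        hc.isOpen_inter_preimage ho isOpen_compl_singleton
      obtain ⟨γ, hγ1, hγ2⟩ := hx.inter_open_nonempty _ hop ⟨f, hf, hne⟩
      refine hγ1.2 (h1 ⟨γ, hγ2⟩ ?_)
      rw [hS]
      exact Subgroup.mem_subgroupOf.2 hγ1.1
    · exact hoff f hf
  exact FiniteDimensional.of_injective L hinj

end

end Pool.Agent.Helper156.RWF.J13855
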