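import Pool.Agent.KS6_3.RW.Helper156.RWF.D0

namespace Pool.Agent.Helper156.RWF.J13856

open Pool.Agent.Helper156.RWF
open Filter Topology MeasureTheory


section
variable {p : ℕ} [Fact p.Prime]
variable {F : Type} [Group F] [TopologicalSpace F] [IsTopologicalGroup F] [CompactSpace F]
  [T2Space F] [TotallyDisconnectedSpace F]
variable {A : Type} [NormedRing A] [NormedAlgebra ℚ_[p] A] [IsUltrametricDist A] [NormOneClass A]
  [FiniteDimensional ℚ_[p] A]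

/-- a homomorphism on a normal subgroup of finite index extends to a cocycle -/
theorem transfer_cocycle {X : Type} [NormedAddCommGroup X] [NormedSpace ℚ_[p] X]
    (F₁ : Subgroup F) (hn : F₁.Normal) (ho : IsOpen (F₁ : Set F)) (σ : F →* (X →L[ℚ_[p]] X))
    (hσ : ∀ f ∈ F₁, σ f = 1) (ev : F → X) (hev : ContinuousOn ev F₁)
    (hadd : ∀ f ∈ F₁, ∀ h ∈ F₁, ev (f * h) = ev f + ev h)
    (hconj : ∀ f, ∀ h ∈ F₁, ev (f * h * f⁻¹) = σ f (ev h)) :
    ∃ C : F → X, Continuous C ∧ (∀ f h, C (f * h) = C f + σ f (C h)) ∧ ∀ f ∈ F₁, C f = ev f := by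
  classical
  have : Finite (F ⧸ F₁) := Subgroup.quotient_finite_of_isOpen F₁ ho
  have : Fintype (F ⧸ F₁) := Fintype.ofFinite _
  have : DiscreteTopology (F ⧸ F₁) := QuotientGroup.discreteTopology ho
  let s : (F ⧸ F₁) → F := fun c => Quotient.out c
  have hs : ∀ c : F ⧸ F₁, ((s c : F) : F ⧸ F₁) = c := fun c => QuotientGroup.out_eq' c
  let u : F → (F ⧸ F₁) → F := fun f c => f * s c * (s ((f : F ⧸ F₁) * c))⁻¹
  have hu : ∀ f c, u f c ∈ F₁ := by
    intro f c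
    rw [← QuotientGroup.eq_one_iff]
    show ((f * s c * (s ((f : F ⧸ F₁) * c))⁻¹ : F) : F ⧸ F₁) = 1
    rw [QuotientGroup.mk_mul, QuotientGroup.mk_mul, QuotientGroup.mk_inv, hs, hs, mul_inv_cancel]
  have hucoc : ∀ f h c, u (f * h) c = (f * u h c * f⁻¹) * u f ((h : F ⧸ F₁) * c) := by
    intro f h c
    show f * h * s c * (s (((f * h : F) : F ⧸ F₁) * c))⁻¹ =
      (f * (h * s c * (s ((h : F ⧸ F₁) * c))⁻¹) * f⁻¹) *
        (f * s ((h : F ⧸ F₁) * c) * (s ((f : F ⧸ F₁) * ((h : F ⧸ F₁) * c)))⁻¹)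
    rw [QuotientGroup.mk_mul, mul_assoc (f : F ⧸ F₁) (h : F ⧸ F₁) c]
    group
  have hcard : (Fintype.card (F ⧸ F₁) : ℚ_[p]) ≠ 0 := by
    have : Fintype.card (F ⧸ F₁) ≠ 0 := Fintype.card_ne_zero
    exact_mod_cast this
  refine ⟨fun f => ((Fintype.card (F ⧸ F₁) : ℚ_[p])⁻¹) • ∑ c : F ⧸ F₁, ev (u f c), ?_, ?_, ?_⟩
  · refine Continuous.const_smul ?_ _
    refine continuous_finsetSum _ fun c _ => ?_
    have hcont : Continuous (fun f : F => u f c) := by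
      have h1 : Continuous (fun f : F => s ((f : F ⧸ F₁) * c)) := by
        have h2 : Continuous (fun q : F ⧸ F₁ => s (q * c)) := continuous_of_discreteTopology
        exact h2.comp QuotientGroup.continuous_mk
      exact (continuous_id.mul continuous_const).mul h1.inv
    exact hev.comp_continuous hcont (fun f => hu f c)
  · intro f h
    have h1 : ∑ c : F ⧸ F₁, ev (u (f * h) c) = (∑ c : F ⧸ F₁, σ f (ev (u h c))) +
        ∑ c : F ⧸ F₁, ev (u f ((h : F ⧸ F₁) * c)) := by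
      rw [← Finset.sum_add_distrib]
      refine Finset.sum_congr rfl fun c _ => ?_
      have hm : f * u h c * f⁻¹ ∈ F₁ := hn.conj_mem _ (hu h c) f
      rw [hucoc, hadd _ hm _ (hu _ _), hconj f _ (hu h c)]
    have h2 : ∑ c : F ⧸ F₁, ev (u f ((h : F ⧸ F₁) * c)) = ∑ c : F ⧸ F₁, ev (u f c) :=
      Fintype.sum_equiv (Equiv.mulLeft (h : F ⧸ F₁)) _ _ (fun c => rfl)
    show ((Fintype.card (F ⧸ F₁) : ℚ_[p])⁻¹) • ∑ c : F ⧸ F₁, ev (u (f * h) c) =
      ((Fintype.card (F ⧸ F₁) : ℚ_[p])⁻¹) • ∑ c : F ⧸ F₁, ev (u f c) +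
        σ f (((Fintype.card (F ⧸ F₁) : ℚ_[p])⁻¹) • ∑ c : F ⧸ F₁, ev (u h c))
    rw [h1, h2, smul_add, map_smul, map_sum, add_comm]
  · intro f hf
    have h1 : ∀ c : F ⧸ F₁, u f c = f := by
      intro c
      have h2 : (f : F ⧸ F₁) = 1 := (QuotientGroup.eq_one_iff f).mpr hf
      show f * s c * (s ((f : F ⧸ F₁) * c))⁻¹ = f
      rw [h2, one_mul, mul_assoc, mul_inv_cancel, mul_one]
    show ((Fintype.card (F ⧸ F₁) : ℚ_[p])⁻¹) • ∑ c : F ⧸ F₁, ev (u f c) = ev f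
    rw [Finset.sum_congr rfl (fun c _ => by rw [h1 c]), Finset.sum_const, Finset.card_univ,
      ← Nat.cast_smul_eq_nsmul ℚ_[p], smul_smul, inv_mul_cancel₀ hcard, one_smul]

end

end Pool.Agent.Helper156.RWF.J13856
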