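import Pool.Agent.KS6_3.RW.Helper156.RWF.D0
import Pool.Agent.KS6_3.RW.Helper156.RWF.J12439
import Pool.Agent.KS6_3.RW.Helper156.RWF.J12441
import Pool.Agent.KS6_3.RW.Helper156.RWF.J12831
import Pool.Agent.KS6_3.RW.Helper156.RWF.J13853

namespace Pool.Agent.Helper156.RWF.J13866

open Pool.Agent.Helper156.RWF Pool.Agent.Helper156.RWF.J12439 Pool.Agent.Helper156.RWF.J12441 Pool.Agent.Helper156.RWF.J12831 Pool.Agent.Helper156.RWF.J13853
open Filter Topology MeasureTheory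


section
variable {p : ℕ} [Fact p.Prime]
variable {F : Type} [Group F] [TopologicalSpace F] [IsTopologicalGroup F] [CompactSpace F]
  [T2Space F] [TotallyDisconnectedSpace F]
variable {A : Type} [NormedRing A] [NormedAlgebra ℚ_[p] A] [IsUltrametricDist A] [NormOneClass A]
  [FiniteDimensional ℚ_[p] A]


/-- transport of the exponential series under a continuous algebra isomorphism -/
theorem E_transport_aux {A₁ A₂ : Type} [NormedRing A₁] [NormedAlgebra ℚ_[p] A₁]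
    [NormedRing A₂] [NormedAlgebra ℚ_[p] A₂] (Ψ : A₁ ≃A[ℚ_[p]] A₂) (u : A₁) :
    E p (Ψ u) = Ψ (E p u) := by
  unfold E
  have h := ContinuousLinearEquiv.map_tsum (L := SummationFilter.unconditional ℕ)
    (Ψ.toContinuousLinearEquiv)
    (f := fun n : ℕ => ((n.factorial : ℚ_[p])⁻¹) • u ^ n)
  have h2 : Ψ (∑' n : ℕ, ((n.factorial : ℚ_[p])⁻¹) • u ^ n)
      = Ψ.toContinuousLinearEquiv (∑' n : ℕ, ((n.factorial : ℚ_[p])⁻¹) • u ^ n) := rfl
  rw [h2, h]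
  refine tsum_congr fun n => ?_
  rw [ContinuousAlgEquiv.toContinuousLinearEquiv_apply, map_smul, map_pow]

/-- an operator which maps the unit ball of the standard space into itself has norm at most one -/
theorem norm_le_one_aux {r : ℕ} (u : EN p r) (hu : ∀ v : Fin r → ℚ_[p], ‖v‖ ≤ 1 → ‖u v‖ ≤ 1) :
    ‖u‖ ≤ 1 := by
  refine ContinuousLinearMap.opNorm_le_bound _ zero_le_one fun v => ?_
  rw [one_mul]
  by_cases hv : v = 0
  · rw [hv, map_zero]
  have hne : Nonempty (Fin r) := by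
    by_contra hne
    rw [not_nonempty_iff] at hne
    exact hv (Subsingleton.elim _ _)
  obtain ⟨i, hi⟩ : ∃ i, ‖v‖ = ‖v i‖ := by
    obtain ⟨i, -, hi⟩ := Finset.exists_mem_eq_sup Finset.univ Finset.univ_nonempty
      (fun i => ‖v i‖₊)
    refine ⟨i, ?_⟩
    rw [Pi.norm_def, hi]
    rfl
  have hc : ‖v i‖ ≠ 0 := by
    rw [← hi]; exact norm_ne_zero_iff.mpr hv
  have hc' : v i ≠ 0 := norm_ne_zero_iff.mp hc
  have h1 : ‖(v i)⁻¹ • v‖ ≤ 1 := by
    rw [norm_smul, norm_inv, hi, inv_mul_cancel₀ hc]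
  have h2 := hu _ h1
  rw [map_smul, norm_smul, norm_inv] at h2
  have h3 : ‖v i‖ * (‖v i‖⁻¹ * ‖u v‖) ≤ ‖v i‖ * 1 := mul_le_mul_of_nonneg_left h2 (norm_nonneg _)
  rw [← mul_assoc, mul_inv_cancel₀ hc, one_mul, mul_one] at h3
  rw [hi]; exact h3

/-- coordinate-free form of being not bad -/
theorem not_bad_abs (φ : F ≃ₜ* F) (hφ : ¬ Bad p φ) {X : Type} [NormedAddCommGroup X]
    [NormedSpace ℚ_[p] X] [FiniteDimensional ℚ_[p] X] [Nontrivial X] [IsUltrametricDist X]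
    (σ : F →* (X →L[ℚ_[p]] X)) (hσ : Continuous σ) (C : F → X) (hC : Continuous C)
    (hcoc : ∀ f h, C (f * h) = C f + σ f (C h))
    (hspan : Submodule.span ℚ_[p] (C '' {f | σ f = 1}) = ⊤)
    (g : Submodule ℚ_[p] (X →L[ℚ_[p]] X)) (k : ℕ) (hL : IsLieOf p (Set.range σ) g k)
    (hbr : Brk g) (hW : WProp g) (B : X →ₗ[ℚ_[p]] X)
    (hB1 : ∀ f v, σ (φ f) (B v) = B (σ f v)) (hB2 : ∀ f, σ f = 1 → C (φ f) = B (C f))
    (M : ℕ) (hM : 1 ≤ M) : LinearMap.det B ^ M ≠ 1 := by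
  classical
  intro hdet
  apply hφ
  -- the lattice
  set L : Set X := C '' {f | σ f = 1} with hLdef
  have hC1 : C 1 = 0 := by
    have h := hcoc 1 1
    rw [mul_one, map_one] at h
    have h' : C 1 = C 1 + C 1 := h
    exact left_eq_add.mp h'
  have hkerclosed : IsClosed {f : F | σ f = 1} := isClosed_eq hσ continuous_const
  have hLc : IsCompact L := hkerclosed.isCompact.image hC
  have hLadd : ∀ x ∈ L, ∀ y ∈ L, x + y ∈ L := by
    rintro x ⟨f, hf, rfl⟩ y ⟨h, hh, rfl⟩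
    refine ⟨f * h, ?_, ?_⟩
    · show σ (f * h) = 1
      rw [map_mul, show σ f = 1 from hf, show σ h = 1 from hh, mul_one]
    · rw [hcoc, show σ f = 1 from hf]; rfl
  have hinv1 : ∀ f, σ f⁻¹ * σ f = 1 := fun f => by rw [← map_mul, inv_mul_cancel, map_one]
  have hinv2 : ∀ f, σ f * σ f⁻¹ = 1 := fun f => by rw [← map_mul, mul_inv_cancel, map_one]
  have hLneg : ∀ x ∈ L, -x ∈ L := by
    rintro x ⟨f, hf, rfl⟩
    have hinv : σ f⁻¹ = 1 := by
      have h := hinv2 f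
      rw [show σ f = 1 from hf, one_mul] at h
      exact h
    refine ⟨f⁻¹, hinv, ?_⟩
    have h := hcoc f f⁻¹
    rw [mul_inv_cancel, hC1, show σ f = 1 from hf] at h
    have h' : (0 : X) = C f + C f⁻¹ := h
    exact (neg_eq_of_add_eq_zero_right h'.symm).symm
  have hL0 : (0 : X) ∈ L := ⟨1, map_one σ, hC1⟩
  obtain ⟨r, hr1, T, hT⟩ : ∃ r : ℕ, 1 ≤ r ∧ ∃ T : (Fin r → ℚ_[p]) ≃L[ℚ_[p]] X,
      T '' {v | ‖v‖ ≤ 1} = L :=
    ⟨Module.finrank ℚ_[p] X, Module.finrank_pos,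
      lattice_basis (p := p) L hLc hLadd hLneg hL0 hspan⟩
  -- the algebra isomorphism
  let Ψ : (X →L[ℚ_[p]] X) ≃A[ℚ_[p]] EN p r := T.symm.conjContinuousAlgEquiv
  have hΨ : ∀ (u : X →L[ℚ_[p]] X) (v : Fin r → ℚ_[p]), Ψ u v = T.symm (u (T v)) := fun u v => rfl
  have hΨcont : Continuous Ψ := Ψ.continuous_toFun
  have hΨinj : ∀ u w : X →L[ℚ_[p]] X, Ψ u = Ψ w → u = w := fun u w h => Ψ.injective h
  let η : F →* EN p r :=
    { toFun := fun f => Ψ (σ f)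
      map_one' := by rw [map_one, map_one]
      map_mul' := fun f h => by rw [map_mul, map_mul] }
  have hη : ∀ f, η f = Ψ (σ f) := fun f => rfl
  have hη1 : ∀ f, η f = 1 ↔ σ f = 1 := by
    intro f
    rw [hη]
    constructor
    · intro h
      apply hΨinj
      rw [h, map_one]
    · intro h
      rw [h, map_one]
  let C' : F → (Fin r → ℚ_[p]) := fun f => T.symm (C f)
  have hR : RData p r η C' := by
    refine ⟨hΨcont.comp hσ, T.symm.continuous.comp hC, ?_, ?_, ?_⟩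
    · intro f
      apply norm_le_one_aux
      intro v hv
      have hTv : T v ∈ L := by rw [← hT]; exact ⟨v, hv, rfl⟩
      obtain ⟨h, hh, hhv⟩ := hTv
      have hh' : σ h = 1 := hh
      have e1 : C (f * (h * f⁻¹)) = σ f (C h) := by
        rw [hcoc, hcoc, hh', map_add]
        have e2 : C f + σ f (C f⁻¹) = 0 := by rw [← hcoc, mul_inv_cancel, hC1]
        have e3 : (1 : X →L[ℚ_[p]] X) (C f⁻¹) = C f⁻¹ := rfl
        rw [e3]
        calc C f + (σ f (C h) + σ f (C f⁻¹)) = (C f + σ f (C f⁻¹)) + σ f (C h) := by abel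
          _ = σ f (C h) := by rw [e2, zero_add]
      have e4 : σ (f * (h * f⁻¹)) = 1 := by
        rw [map_mul, map_mul, hh', one_mul, hinv2]
      have e5 : σ f (T v) ∈ L := ⟨_, e4, by rw [e1, hhv]⟩
      rw [← hT] at e5
      obtain ⟨w, hw, hwe⟩ := e5
      have e6 : η f v = w := by
        rw [hη, hΨ, ← hwe, ContinuousLinearEquiv.symm_apply_apply]
      rw [e6]
      exact hw
    · intro f h
      show T.symm (C (f * h)) = T.symm (C f) + η f (T.symm (C h))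
      rw [hcoc, map_add, hη, hΨ, ContinuousLinearEquiv.apply_symm_apply]
    · ext v
      constructor
      · rintro ⟨f, hf, rfl⟩
        have hf' : σ f = 1 := (hη1 f).mp hf
        have h1 : C f ∈ L := ⟨f, hf', rfl⟩
        rw [← hT] at h1
        obtain ⟨w, hw, hwe⟩ := h1
        show ‖T.symm (C f)‖ ≤ 1
        rw [← hwe, ContinuousLinearEquiv.symm_apply_apply]
        exact hw
      · intro hv
        have h1 : T v ∈ L := by rw [← hT]; exact ⟨v, hv, rfl⟩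
        obtain ⟨f, hf, hfe⟩ := h1
        refine ⟨f, (hη1 f).mpr hf, ?_⟩
        show T.symm (C f) = v
        rw [hfe, ContinuousLinearEquiv.symm_apply_apply]
  -- the Lie algebra
  let g' : Submodule ℚ_[p] (EN p r) := g.map (Ψ.toContinuousLinearEquiv.toLinearEquiv : (X →L[ℚ_[p]] X) →ₗ[ℚ_[p]] EN p r)
  have hg' : ∀ x : EN p r, x ∈ g' ↔ ∃ u ∈ g, Ψ u = x := fun x => Iff.rfl
  have hg'' : ∀ u : X →L[ℚ_[p]] X, Ψ u ∈ g' ↔ u ∈ g := by
    intro u
    rw [hg']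
    constructor
    · rintro ⟨w, hw, hwe⟩
      rw [← hΨinj _ _ hwe]
      exact hw
    · intro hu
      exact ⟨u, hu, rfl⟩
  have hbr' : Brk g' := by
    intro x hx y hy
    obtain ⟨u, hu, rfl⟩ := (hg' x).mp hx
    obtain ⟨w, hw, rfl⟩ := (hg' y).mp hy
    rw [← map_mul, ← map_mul, ← map_sub, hg'']
    exact hbr u hu w hw
  have hW' : WProp g' := by
    intro Y _ _ _ τ D hτ hD
    let ΨL : (X →L[ℚ_[p]] X) →ₗ[ℚ_[p]] EN p r :=
      (Ψ.toContinuousLinearEquiv.toLinearEquiv : (X →L[ℚ_[p]] X) →ₗ[ℚ_[p]] EN p r)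
    have hΨL : ∀ u, ΨL u = Ψ u := fun u => rfl
    obtain ⟨v, hv⟩ := hW Y (τ ∘ₗ ΨL) (D ∘ₗ ΨL) (by
      intro x hx y hy
      have := hτ (Ψ x) ((hg'' x).mpr hx) (Ψ y) ((hg'' y).mpr hy)
      rw [← map_mul, ← map_mul, ← map_sub] at this
      exact this) (by
      intro x hx y hy
      have := hD (Ψ x) ((hg'' x).mpr hx) (Ψ y) ((hg'' y).mpr hy)
      rw [← map_mul, ← map_mul, ← map_sub] at this
      exact this)
    refine ⟨v, fun x hx => ?_⟩
    obtain ⟨u, hu, rfl⟩ := (hg' x).mp hx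
    exact hv u hu
  have hp1 : 1 < (p : ℝ) := by exact_mod_cast (Fact.out : p.Prime).one_lt
  have hp0 : 0 < (p : ℝ)⁻¹ := inv_pos.mpr (by linarith)
  have hpl : (p : ℝ)⁻¹ < 1 := inv_lt_one_of_one_lt₀ hp1
  obtain ⟨k', hk'2, hk'L⟩ : ∃ k' : ℕ, 2 ≤ k' ∧ ∀ x : EN p r, ‖x‖ ≤ ((p : ℝ)⁻¹) ^ k' →
      ‖Ψ.symm x‖ ≤ ((p : ℝ)⁻¹) ^ k := by
    let S : EN p r →L[ℚ_[p]] (X →L[ℚ_[p]] X) :=
      (Ψ.symm.toContinuousLinearEquiv : EN p r →L[ℚ_[p]] (X →L[ℚ_[p]] X))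
    have hS : ∀ x, S x = Ψ.symm x := fun x => rfl
    obtain ⟨m, hm⟩ : ∃ m : ℕ, (‖S‖ + 1) * ((p : ℝ)⁻¹) ^ m ≤ 1 := by
      obtain ⟨m, hm⟩ := exists_pow_lt_of_lt_one (show 0 < (‖S‖ + 1)⁻¹ by positivity) hpl
      refine ⟨m, ?_⟩
      have h0 : 0 < ‖S‖ + 1 := by positivity
      calc (‖S‖ + 1) * ((p : ℝ)⁻¹) ^ m ≤ (‖S‖ + 1) * (‖S‖ + 1)⁻¹ :=
            mul_le_mul_of_nonneg_left hm.le h0.le
        _ = 1 := mul_inv_cancel₀ h0.ne'
    refine ⟨m + k + 2, by omega, fun x hx => ?_⟩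
    rw [← hS]
    calc ‖S x‖ ≤ ‖S‖ * ‖x‖ := S.le_opNorm x
      _ ≤ (‖S‖ + 1) * ((p : ℝ)⁻¹) ^ (m + k + 2) := by
          apply mul_le_mul _ hx (norm_nonneg _) (by positivity)
          linarith
      _ = ((‖S‖ + 1) * ((p : ℝ)⁻¹) ^ m) * ((p : ℝ)⁻¹) ^ (k + 2) := by ring
      _ ≤ 1 * ((p : ℝ)⁻¹) ^ (k + 2) := mul_le_mul_of_nonneg_right hm (by positivity)
      _ ≤ ((p : ℝ)⁻¹) ^ k := by
          rw [one_mul]
          exact pow_le_pow_of_le_one hp0.le hpl.le (by omega)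
  have hL' : IsLieOf p (Set.range η) g' k' := by
    refine ⟨hk'2, fun x hx => ?_⟩
    have hu := hk'L x hx
    set u := Ψ.symm x with hudef
    have hxu : x = Ψ u := by rw [hudef]; exact (Ψ.apply_symm_apply x).symm
    rw [hxu, hg'', E_transport_aux, ← hL.2 u hu]
    constructor
    · rintro ⟨f, hf⟩
      exact ⟨f, hΨinj _ _ hf⟩
    · rintro ⟨f, hf⟩
      exact ⟨f, by rw [hη, hf]⟩
  -- the linear map
  let B' : (Fin r → ℚ_[p]) →ₗ[ℚ_[p]] (Fin r → ℚ_[p]) :=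
    (T.symm.toLinearEquiv : X →ₗ[ℚ_[p]] (Fin r → ℚ_[p])) ∘ₗ B ∘ₗ
      (T.symm.toLinearEquiv.symm : (Fin r → ℚ_[p]) →ₗ[ℚ_[p]] X)
  have hB' : ∀ v, B' v = T.symm (B (T v)) := fun v => rfl
  have hdet' : LinearMap.det B' = LinearMap.det B := LinearMap.det_conj B T.symm.toLinearEquiv
  have hst : Stab η C' φ B' := by
    constructor
    · intro f v
      rw [hB', hB', hη, hη, hΨ, hΨ, ContinuousLinearEquiv.apply_symm_apply,
        ContinuousLinearEquiv.apply_symm_apply, hB1]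
    · intro f hf
      have hf' := (hη1 f).mp hf
      show T.symm (C (φ f)) = B' (T.symm (C f))
      rw [hB', ContinuousLinearEquiv.apply_symm_apply, hB2 f hf']
  exact ⟨r, η, C', g', k', M, B', hr1, hR, hL', hbr', hW', hst, hM, by rw [hdet', hdet]⟩


end

end Pool.Agent.Helper156.RWF.J13866
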