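import Pool.Agent.KS6_3.RW.Helper156.RWF.D0
import Pool.Agent.KS6_3.RW.Helper156.RWF.J12439
import Pool.Agent.KS6_3.RW.Helper156.RWF.J12441
import Pool.Agent.KS6_3.RW.Helper156.RWF.J12442
import Pool.Agent.KS6_3.RW.Helper156.RWF.J13190
import Pool.Agent.KS6_3.RW.Helper156.RWF.J13543
import Pool.Agent.KS6_3.RW.Helper156.RWF.J13862

namespace Pool.Agent.Helper156.RWF.J13861

open Pool.Agent.Helper156.RWF Pool.Agent.Helper156.RWF.J12439 Pool.Agent.Helper156.RWF.J12441 Pool.Agent.Helper156.RWF.J12442 Pool.Agent.Helper156.RWF.J13190 Pool.Agent.Helper156.RWF.J13543 Pool.Agent.Helper156.RWF.J13862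
open Filter Topology MeasureTheory


section
variable {p : ℕ} [Fact p.Prime]
variable {F : Type} [Group F] [TopologicalSpace F] [IsTopologicalGroup F] [CompactSpace F]
  [T2Space F] [TotallyDisconnectedSpace F]
variable {A : Type} [NormedRing A] [NormedAlgebra ℚ_[p] A] [IsUltrametricDist A] [NormOneClass A]
  [FiniteDimensional ℚ_[p] A]


/-- invariant multiplicative characters have finite order -/
theorem T1_mat {d : ℕ} {x : Fin d → F}
    (hx : Dense ((Subgroup.closure (Set.range x) : Subgroup F) : Set F))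
    (φ : F ≃ₜ* F) (hφ : ¬ Bad p φ) (F₁ : Subgroup F) (hn : F₁.Normal)
    (ho : IsOpen (F₁ : Set F)) (hinv : ∀ f, φ f ∈ F₁ ↔ f ∈ F₁) (M : ℕ) (hM : 1 ≤ M)
    (χ : F → A) (hc : ContinuousOn χ F₁) (h1 : χ 1 = 1)
    (hmul : ∀ f ∈ F₁, ∀ h ∈ F₁, χ (f * h) = χ f * χ h)
    (hcomm : ∀ f ∈ F₁, ∀ h ∈ F₁, χ f * χ h = χ h * χ f)
    (hχ : ∀ f ∈ F₁, χ ((φ ^ M) f) = χ f) : ∃ q : ℕ, 1 ≤ q ∧ ∀ f ∈ F₁, χ f ^ q = 1 := by
  classical
  have hp0 : (0 : ℝ) < (p : ℝ) := by exact_mod_cast (Fact.out : p.Prime).pos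
  have hρ : (0 : ℝ) < ((p : ℝ)⁻¹) ^ 2 := by positivity
  have hU : IsOpen ((F₁ : Set F) ∩ χ ⁻¹' (Metric.ball 1 (((p : ℝ)⁻¹) ^ 2))) :=
    hc.isOpen_inter_preimage ho Metric.isOpen_ball
  obtain ⟨N, hN, hNo, hNU, hNc⟩ := exists_char_open hx _ hU
    ⟨F₁.one_mem, by rw [Set.mem_preimage, h1]; exact Metric.mem_ball_self hρ⟩
  have hN1 : ∀ f ∈ N, f ∈ F₁ := fun f hf => (hNU hf).1
  have hNχ : ∀ f ∈ N, ‖χ f - 1‖ ≤ ((p : ℝ)⁻¹) ^ 2 := by
    intro f hf
    have h2 := (hNU hf).2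
    rw [Set.mem_preimage, Metric.mem_ball, dist_eq_norm] at h2
    exact h2.le
  have hex : ∀ f : F, ∃ x : A, f ∈ N → ‖x‖ ≤ ((p : ℝ)⁻¹) ^ 2 ∧ E p x = χ f := by
    intro f
    by_cases hf : f ∈ N
    · obtain ⟨x, hx1, hx2⟩ := E_surj 2 le_rfl (χ f) (hNχ f hf)
      exact ⟨x, fun _ => ⟨hx1, hx2⟩⟩
    · exact ⟨0, fun h => absurd h hf⟩
  choose L hL using hex
  have huniq : ∀ x y : A, ‖x‖ ≤ ((p : ℝ)⁻¹) ^ 2 → ‖y‖ ≤ ((p : ℝ)⁻¹) ^ 2 → E p x = E p y → x = y := by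
    intro x y hx hy hxy
    have h2 := E_isom x y hx hy
    rw [hxy, sub_self, norm_zero] at h2
    exact sub_eq_zero.1 (norm_eq_zero.1 h2.symm)
  have hadd : ∀ f ∈ N, ∀ h ∈ N, L (f * h) = L f + L h := by
    intro f hf h hh
    obtain ⟨a1, a2⟩ := hL f hf
    obtain ⟨b1, b2⟩ := hL h hh
    obtain ⟨c1, c2⟩ := hL (f * h) (N.mul_mem hf hh)
    have e1 : E p (L f) * E p (L h) = E p (L h) * E p (L f) := by
      rw [a2, b2]; exact hcomm f (hN1 f hf) h (hN1 h hh)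
    have e2 := commute_of_E_commute (L f) (E p (L h)) a1 e1
    have e3 := commute_of_E_commute (L h) (L f) b1 e2.symm
    have e4 : ‖L f + L h‖ ≤ ((p : ℝ)⁻¹) ^ 2 :=
      (IsUltrametricDist.norm_add_le_max _ _).trans (max_le a1 b1)
    apply huniq _ _ c1 e4
    rw [c2, E_add_comm _ _ a1 b1 e3.symm, a2, b2, hmul f (hN1 f hf) h (hN1 h hh)]
  have hdist : ∀ f ∈ N, ∀ h ∈ N, dist (L f) (L h) = dist (χ f) (χ h) := by
    intro f hf h hh
    obtain ⟨a1, a2⟩ := hL f hf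
    obtain ⟨b1, b2⟩ := hL h hh
    rw [dist_eq_norm, dist_eq_norm, ← E_isom _ _ a1 b1, a2, b2]
  have hcont : ContinuousOn L N := by
    intro f hf
    rw [Metric.continuousWithinAt_iff']
    intro ε hε
    have h2 := (hc.mono (fun x hx => hN1 x hx : (N : Set F) ⊆ F₁)) f hf
    rw [Metric.continuousWithinAt_iff'] at h2
    filter_upwards [h2 ε hε, self_mem_nhdsWithin] with y hy hyN
    rw [hdist y hyN f hf]
    exact hy
  have hLinv : ∀ f ∈ N, L ((φ ^ M) f) = L f := by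
    intro f hf
    have hf2 : (φ ^ M) f ∈ N := (hNc (φ ^ M) f).2 hf
    obtain ⟨a1, a2⟩ := hL f hf
    obtain ⟨b1, b2⟩ := hL _ hf2
    apply huniq _ _ b1 a1
    rw [a2, b2, hχ f (hN1 f hf)]
  have hL0 : ∀ f ∈ N, L f = 0 := by
    intro f hf
    rw [← Module.forall_dual_apply_eq_zero_iff ℚ_[p]]
    intro l
    have hlc : Continuous l := LinearMap.continuous_of_finiteDimensional l
    exact T1 hx φ hφ N hN hNo (fun f => hNc φ f) M hM (fun f => l (L f))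
      (hlc.comp_continuousOn hcont)
      (fun f hf h hh => by show l (L (f * h)) = _; rw [hadd f hf h hh, map_add])
      (fun f hf => by show l (L ((φ ^ M) f)) = _; rw [hLinv f hf]) f hf
  have hχ1 : ∀ f ∈ N, χ f = 1 := by
    intro f hf
    rw [← (hL f hf).2, hL0 f hf, E_zero]
  haveI : Finite (F ⧸ N) := Subgroup.quotient_finite_of_isOpen N hNo
  have hidx : N.index ≠ 0 := Subgroup.index_ne_zero_of_finite
  refine ⟨N.index, Nat.one_le_iff_ne_zero.2 hidx, fun f hf => ?_⟩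
  have hpow : ∀ n : ℕ, χ (f ^ n) = χ f ^ n := by
    intro n
    induction n with
    | zero => rw [pow_zero, pow_zero, h1]
    | succ n ih => rw [pow_succ, pow_succ, hmul _ (F₁.pow_mem hf n) _ hf, ih]
  rw [← hpow]
  exact hχ1 _ (Subgroup.pow_index_mem N f)

end

end Pool.Agent.Helper156.RWF.J13861
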