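import Pool.Agent.KS6_3.RW.Helper156.RWF.D0

namespace Pool.Agent.Helper156.RWF.J13973

open Pool.Agent.Helper156.RWF
open Filter Topology MeasureTheory


section
variable {p : ℕ} [Fact p.Prime]
variable {F : Type} [Group F] [TopologicalSpace F] [IsTopologicalGroup F] [CompactSpace F]
  [T2Space F] [TotallyDisconnectedSpace F]
variable {A : Type} [NormedRing A] [NormedAlgebra ℚ_[p] A] [IsUltrametricDist A] [NormOneClass A]
  [FiniteDimensional ℚ_[p] A]

/-- automorphisms of reduced commutative finite dimensional algebras have finite order -/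
theorem alg_finite_order {K Z : Type} [Field K] [CharZero K] [CommRing Z] [Algebra K Z]
    [FiniteDimensional K Z] [IsReduced Z] (a : Z ≃ₐ[K] Z) : ∃ n : ℕ, 1 ≤ n ∧ a ^ n = 1 := by
  have hsep : ∀ w : Z, (∀ f : Z →ₐ[K] AlgebraicClosure K, f w = 0) → w = 0 := by
    intro w hw
    by_contra hne
    have h1 : w ∉ nilradical Z := by
      rw [mem_nilradical]
      intro hnil
      exact hne hnil.eq_zero
    rw [nilradical_eq_sInf, Submodule.mem_sInf] at h1
    push Not at h1
    obtain ⟨P, hP, hwP⟩ : ∃ P : Ideal Z, P.IsPrime ∧ w ∉ P := by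
      obtain ⟨P, hP, hwP⟩ := h1
      exact ⟨P, hP, hwP⟩
    have hA : IsArtinianRing Z := IsArtinianRing.of_finite K Z
    have hM : P.IsMaximal := IsArtinianRing.isMaximal_of_isPrime P
    let _ := Ideal.Quotient.field P
    let f' : (Z ⧸ P) →ₐ[K] AlgebraicClosure K := IsAlgClosed.lift
    have h2 := hw (f'.comp (Ideal.Quotient.mkₐ K P))
    have h3 : f' (Ideal.Quotient.mk P w) = 0 := h2
    have h4 : Ideal.Quotient.mk P w = 0 := (map_eq_zero f').mp h3
    exact hwP (Ideal.Quotient.eq_zero_iff_mem.mp h4)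
  have hfin : Finite (Z ≃ₐ[K] Z) := by
    apply Finite.of_injective
      (fun (a : Z ≃ₐ[K] Z) (f : Z →ₐ[K] AlgebraicClosure K) => f.comp (a : Z →ₐ[K] Z))
    intro a b hab
    ext z
    have h1 := hsep (a z - b z) (fun f => by
      have h2 : f (a z) = f (b z) := AlgHom.congr_fun (congrFun hab f) z
      rw [map_sub, h2, sub_self])
    exact sub_eq_zero.mp h1
  obtain ⟨n, hn, h⟩ := isOfFinOrder_iff_pow_eq_one.mp (isOfFinOrder_of_finite a)
  exact ⟨n, hn, h⟩

end

end Pool.Agent.Helper156.RWF.J13973
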