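import Pool.Agent.KS6_3.RW.Helper156.RWF.D0
import Pool.Agent.KS6_3.RW.Helper156.RWF.J12439
import Pool.Agent.KS6_3.RW.Helper156.RWF.J12441
import Pool.Agent.KS6_3.RW.Helper156.RWF.J12442
import Pool.Agent.KS6_3.RW.Helper156.RWF.J13190
import Pool.Agent.KS6_3.RW.Helper156.RWF.J13861
import Pool.Agent.KS6_3.RW.Helper156.RWF.J13969
import Pool.Agent.KS6_3.RW.Helper156.RWF.J13971
import Pool.Agent.KS6_3.RW.Helper156.RWF.J13972

namespace Pool.Agent.Helper156.RWF.J13974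

open Pool.Agent.Helper156.RWF Pool.Agent.Helper156.RWF.J12439 Pool.Agent.Helper156.RWF.J12441 Pool.Agent.Helper156.RWF.J12442 Pool.Agent.Helper156.RWF.J13190 Pool.Agent.Helper156.RWF.J13861 Pool.Agent.Helper156.RWF.J13969 Pool.Agent.Helper156.RWF.J13971 Pool.Agent.Helper156.RWF.J13972
open Filter Topology MeasureTheory


section
variable {p : ℕ} [Fact p.Prime]
variable {F : Type} [Group F] [TopologicalSpace F] [IsTopologicalGroup F] [CompactSpace F]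
  [T2Space F] [TotallyDisconnectedSpace F]
variable {A : Type} [NormedRing A] [NormedAlgebra ℚ_[p] A] [IsUltrametricDist A] [NormOneClass A]
  [FiniteDimensional ℚ_[p] A]


omit [IsUltrametricDist A] [NormOneClass A] [FiniteDimensional ℚ_[p] A] in
theorem czt_E_commute (z x : A) (h : z * x = x * z) : z * E p x = E p x * z := by
  unfold E
  refine (Commute.tsum_right z fun n => ?_).eq
  have h1 : Commute z x := h
  exact (h1.pow_right n).smul_right _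

omit [IsUltrametricDist A] [NormOneClass A] [FiniteDimensional ℚ_[p] A] in
theorem czt_smul (c : ℚ_[p]) (z x : A) (h : z * x = x * z) : z * (c • x) = (c • x) * z := by
  rw [mul_smul_comm, smul_mul_assoc, h]

theorem czt_ultra (N : ℕ) : IsUltrametricDist (EN p N) := by
  refine IsUltrametricDist.isUltrametricDist_of_forall_norm_add_le_max_norm fun x y => ?_
  refine ContinuousLinearMap.opNorm_le_bound _ (le_max_of_le_left (norm_nonneg x)) fun v => ?_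
  have h1 : ‖x v + y v‖ ≤ max ‖x v‖ ‖y v‖ := IsUltrametricDist.norm_add_le_max _ _
  refine h1.trans (max_le ?_ ?_)
  · exact (x.le_opNorm v).trans (mul_le_mul_of_nonneg_right (le_max_left _ _) (norm_nonneg _))
  · exact (y.le_opNorm v).trans (mul_le_mul_of_nonneg_right (le_max_right _ _) (norm_nonneg _))

/-- the centre is stable under conjugation by normalising elements -/
theorem czt_conj {R : Type} [Ring R] (g : Set R) (u v : R) (huv : u * v = 1) (hvu : v * u = 1)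
    (h1 : ∀ x ∈ g, u * x * v ∈ g) (h2 : ∀ x ∈ g, v * x * u ∈ g) (z : R) (hz : z ∈ g)
    (hzc : ∀ y ∈ g, z * y = y * z) : u * z * v ∈ g ∧ ∀ y ∈ g, (u * z * v) * y = y * (u * z * v) := by
  refine ⟨h1 z hz, fun y hy => ?_⟩
  have h3 := hzc _ (h2 y hy)
  calc u * z * v * y = u * z * v * y * (u * v) := by rw [huv, mul_one]
    _ = u * (z * (v * y * u)) * v := by simp only [mul_assoc]
    _ = u * (v * y * u * z) * v := by rw [h3]
    _ = (u * v) * y * (u * z * v) := by simp only [mul_assoc]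
    _ = y * (u * z * v) := by rw [huv, one_mul]

/-- transport of `center_fixed` to continuous linear maps -/
theorem czt_center (N : ℕ) (g : Submodule ℚ_[p] (EN p N)) (hbr : Brk g)
    (hss : ∀ W : Submodule ℚ_[p] (Fin N → ℚ_[p]), (∀ x ∈ g, ∀ w ∈ W, x w ∈ W) →
      ∃ W' : Submodule ℚ_[p] (Fin N → ℚ_[p]), (∀ x ∈ g, ∀ w ∈ W', x w ∈ W') ∧ IsCompl W W')
    (a b : EN p N) (hab : a * b = 1) (hba : b * a = 1)
    (hag : ∀ x ∈ g, a * x * b ∈ g) (hbg : ∀ x ∈ g, b * x * a ∈ g) :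
    (∀ x ∈ g, (∀ y ∈ g, x * y = y * x) → IsNilpotent x → x = 0) ∧
    ∃ m : ℕ, 1 ≤ m ∧ ∀ x ∈ g, (∀ y ∈ g, x * y = y * x) → a ^ m * x = x * a ^ m := by
  let Φ : EN p N →+* Module.End ℚ_[p] (Fin N → ℚ_[p]) := ContinuousLinearMap.toLinearMapRingHom
  have hΦi : Function.Injective Φ := ContinuousLinearMap.coe_injective
  let Ψ : EN p N →ₗ[ℚ_[p]] Module.End ℚ_[p] (Fin N → ℚ_[p]) :=
    { toFun := Φ
      map_add' := map_add Φ
      map_smul' := fun c x => rfl }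
  have hΨ : ∀ x, Ψ x = Φ x := fun x => rfl
  have hmem : ∀ y, y ∈ g.map Ψ ↔ ∃ x ∈ g, Φ x = y := fun y => Iff.rfl
  obtain ⟨c1, m, hm, c2⟩ := center_fixed (g.map Ψ) (by
      rintro _ ⟨x, hx, rfl⟩ _ ⟨y, hy, rfl⟩
      refine ⟨x * y - y * x, hbr x hx y hy, ?_⟩
      rw [hΨ, hΨ, hΨ, map_sub, map_mul, map_mul]) (by
      intro W hW
      obtain ⟨W', h1, h2⟩ := hss W (fun x hx w hw => hW (Ψ x) ⟨x, hx, rfl⟩ w hw)
      refine ⟨W', ?_, h2⟩
      rintro _ ⟨x, hx, rfl⟩ w hw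
      exact h1 x hx w hw) (Φ a) (Φ b) (by rw [← map_mul, hab, map_one])
      (by rw [← map_mul, hba, map_one]) (by
      rintro _ ⟨x, hx, rfl⟩
      refine ⟨a * x * b, hag x hx, ?_⟩
      rw [hΨ, hΨ, map_mul, map_mul]) (by
      rintro _ ⟨x, hx, rfl⟩
      refine ⟨b * x * a, hbg x hx, ?_⟩
      rw [hΨ, hΨ, map_mul, map_mul])
  have hc : ∀ x, (∀ y ∈ g, x * y = y * x) → ∀ y ∈ g.map Ψ, Φ x * y = y * Φ x := by
    rintro x hx _ ⟨y, hy, rfl⟩
    rw [hΨ, ← map_mul, ← map_mul, hx y hy]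
  refine ⟨fun x hx hxc hn => ?_, m, hm, fun x hx hxc => ?_⟩
  · have := c1 (Φ x) ⟨x, hx, rfl⟩ (hc x hxc) (hn.map Φ)
    exact hΦi (by rw [this, map_zero])
  · have := c2 (Φ x) ⟨x, hx, rfl⟩ (hc x hxc)
    apply hΦi
    rw [map_mul, map_mul, map_pow]
    exact this

/-- the subgroup of elements acting trivially on the centre -/
def cztF {R : Type} [Ring R] (ρ : F →* R) (Z : Set R) : Subgroup F where
  carrier := {f | ∀ z ∈ Z, ρ f * z = z * ρ f}
  mul_mem' := by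
    intro f h hf hh z hz
    rw [map_mul, mul_assoc, hh z hz, ← mul_assoc, hf z hz, mul_assoc]
  one_mem' := by
    intro z _
    rw [map_one, one_mul, mul_one]
  inv_mem' := by
    intro f hf z hz
    have h1 : ρ f⁻¹ * ρ f = 1 := by rw [← map_mul, inv_mul_cancel, map_one]
    have h2 : ρ f * ρ f⁻¹ = 1 := by rw [← map_mul, mul_inv_cancel, map_one]
    calc ρ f⁻¹ * z = ρ f⁻¹ * z * (ρ f * ρ f⁻¹) := by rw [h2, mul_one]
      _ = ρ f⁻¹ * (z * ρ f) * ρ f⁻¹ := by simp only [mul_assoc]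
      _ = ρ f⁻¹ * (ρ f * z) * ρ f⁻¹ := by rw [hf z hz]
      _ = (ρ f⁻¹ * ρ f) * z * ρ f⁻¹ := by simp only [mul_assoc]
      _ = z * ρ f⁻¹ := by rw [h1, one_mul]

theorem czt_mem {R : Type} [Ring R] (ρ : F →* R) (Z : Set R) (f : F) :
    f ∈ cztF ρ Z ↔ ∀ z ∈ Z, ρ f * z = z * ρ f := Iff.rfl

theorem czt_pow (φ : F ≃ₜ* F) {R : Type} [Ring R] (ρ : F →* R) (a b : R)
    (hφa : ∀ f, ρ (φ f) = a * ρ f * b) (m : ℕ) (f : F) :
    ρ ((φ ^ m) f) = a ^ m * ρ f * b ^ m := by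
  induction m generalizing f with
  | zero => simp
  | succ m ih =>
    rw [pow_succ φ m, aut_mul_apply, ih, hφa, pow_succ a, pow_succ' b]
    simp only [mul_assoc]

theorem center_zero_of_typ {d : ℕ} {x : Fin d → F}
    (hx : Dense ((Subgroup.closure (Set.range x) : Subgroup F) : Set F))
    (φ : F ≃ₜ* F) (hφ : ¬ Bad p φ) (N : ℕ) (hN : 1 ≤ N) (ρ : F →* EN p N) (hρ : Continuous ρ)
    (hρn : ∀ f, ‖ρ f‖ ≤ 1) (g : Submodule ℚ_[p] (EN p N)) (k : ℕ)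
    (hL : IsLieOf p (Set.range ρ) g k) (hbr : Brk g) (a b : EN p N) (hab : a * b = 1)
    (hba : b * a = 1) (hφa : ∀ f, ρ (φ f) = a * ρ f * b)
    (hss : ∀ W : Submodule ℚ_[p] (Fin N → ℚ_[p]), (∀ x ∈ g, ∀ w ∈ W, x w ∈ W) →
      ∃ W' : Submodule ℚ_[p] (Fin N → ℚ_[p]), (∀ x ∈ g, ∀ w ∈ W', x w ∈ W') ∧ IsCompl W W') :
    ∀ x ∈ g, (∀ y ∈ g, x * y = y * x) → x = 0 := by
  intro x0 hx0 hx0c
  by_contra hne
  have hp0 : (0 : ℝ) < (p : ℝ)⁻¹ := inv_pos.2 (by exact_mod_cast (Fact.out : p.Prime).pos)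
  have hp1 : (p : ℝ)⁻¹ < 1 := inv_lt_one_of_one_lt₀ (by exact_mod_cast (Fact.out : p.Prime).one_lt)
  have : Nonempty (Fin N) := ⟨⟨0, hN⟩⟩
  have : IsUltrametricDist (EN p N) := czt_ultra N
  obtain ⟨hag, hbg, hAd, -⟩ := conj_lie φ ρ hρn g k hL a b hab hba hφa
  obtain ⟨hnil, m, hm, hcen⟩ := czt_center N g hbr hss a b hab hba hag hbg
  have hnn : ¬ IsNilpotent x0 := fun h => hne (hnil x0 hx0 hx0c h)
  obtain ⟨s, δ, y, hs, hy0, hδc, hδ1, hδm, hδcomm, j₀, hδj⟩ := det_char N x0 hnn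
  have : Nonempty (Fin s) := ⟨⟨0, hs⟩⟩
  have : IsUltrametricDist (EN p s) := czt_ultra s
  let Z : Set (EN p N) := {z | z ∈ g ∧ ∀ y ∈ g, z * y = y * z}
  have hx0Z : x0 ∈ Z := ⟨hx0, hx0c⟩
  have hρi : ∀ f, ρ f * ρ f⁻¹ = 1 := fun f => by rw [← map_mul, mul_inv_cancel, map_one]
  have hρi' : ∀ f, ρ f⁻¹ * ρ f = 1 := fun f => by rw [← map_mul, inv_mul_cancel, map_one]
  have hZρ : ∀ f, ∀ z ∈ Z, ρ f * z * ρ f⁻¹ ∈ Z := by
    intro f z hz
    refine czt_conj (g : Set (EN p N)) (ρ f) (ρ f⁻¹) (hρi f) (hρi' f) (hAd f) ?_ z hz.1 hz.2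
    intro x hx
    have := hAd f⁻¹ x hx
    rwa [inv_inv] at this
  have hZa : ∀ z ∈ Z, a * z * b ∈ Z := fun z hz =>
    czt_conj (g : Set (EN p N)) a b hab hba hag hbg z hz.1 hz.2
  have hZb : ∀ z ∈ Z, b * z * a ∈ Z := fun z hz =>
    czt_conj (g : Set (EN p N)) b a hba hab hbg hag z hz.1 hz.2
  let F₁ : Subgroup F := cztF ρ Z
  have hF₁ : ∀ f, f ∈ F₁ ↔ ∀ z ∈ Z, ρ f * z = z * ρ f := fun f => Iff.rfl
  have hn : F₁.Normal := by
    constructor
    intro f hf h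
    rw [hF₁] at hf ⊢
    intro z hz
    have hz' : ρ h⁻¹ * z * ρ h ∈ Z := by
      have := hZρ h⁻¹ z hz
      rwa [inv_inv] at this
    have h3 := hf _ hz'
    rw [map_mul, map_mul]
    calc ρ h * ρ f * ρ h⁻¹ * z = ρ h * ρ f * ρ h⁻¹ * z * (ρ h * ρ h⁻¹) := by rw [hρi, mul_one]
      _ = ρ h * (ρ f * (ρ h⁻¹ * z * ρ h)) * ρ h⁻¹ := by simp only [mul_assoc]
      _ = ρ h * (ρ h⁻¹ * z * ρ h * ρ f) * ρ h⁻¹ := by rw [h3]
      _ = (ρ h * ρ h⁻¹) * z * (ρ h * ρ f * ρ h⁻¹) := by simp only [mul_assoc]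
      _ = z * (ρ h * ρ f * ρ h⁻¹) := by rw [hρi, one_mul]
  have hinv : ∀ f, φ f ∈ F₁ ↔ f ∈ F₁ := by
    intro f
    rw [hF₁, hF₁]
    constructor
    · intro h z hz
      have h3 := h _ (hZa z hz)
      rw [hφa] at h3
      calc ρ f * z = (b * a) * ρ f * (b * a) * z * (b * a) := by rw [hba]; simp
        _ = b * (a * ρ f * b * (a * z * b)) * a := by simp only [mul_assoc]
        _ = b * (a * z * b * (a * ρ f * b)) * a := by rw [h3]
        _ = (b * a) * z * (b * a) * ρ f * (b * a) := by simp only [mul_assoc]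
        _ = z * ρ f := by rw [hba]; simp
    · intro h z hz
      have h3 := h _ (hZb z hz)
      rw [hφa]
      calc a * ρ f * b * z = a * ρ f * b * z * (a * b) := by rw [hab, mul_one]
        _ = a * (ρ f * (b * z * a)) * b := by simp only [mul_assoc]
        _ = a * (b * z * a * ρ f) * b := by rw [h3]
        _ = (a * b) * z * (a * ρ f * b) := by simp only [mul_assoc]
        _ = z * (a * ρ f * b) := by rw [hab, one_mul]
  have ho : IsOpen (F₁ : Set F) := by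
    refine Subgroup.isOpen_of_mem_nhds F₁ (g := 1) ?_
    have h1 : {f : F | ‖ρ f - 1‖ < ((p : ℝ)⁻¹) ^ k} ∈ 𝓝 (1 : F) := by
      refine IsOpen.mem_nhds ?_ ?_
      · exact isOpen_lt (hρ.sub continuous_const).norm continuous_const
      · show ‖ρ 1 - 1‖ < _
        rw [map_one, sub_self, norm_zero]
        positivity
    filter_upwards [h1] with f hf
    obtain ⟨w, hw1, hw2⟩ := E_surj (p := p) k hL.1 (ρ f) (le_of_lt hf)
    have hwg : w ∈ g := (hL.2 w hw1).1 ⟨f, hw2.symm⟩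
    intro z hz
    rw [← hw2]
    exact (czt_E_commute z w (hz.2 w hwg)).symm
  have hFx : ∀ f ∈ F₁, ρ f * x0 = x0 * ρ f := fun f hf => hf x0 hx0Z
  have hamx : a ^ m * x0 = x0 * a ^ m := hcen x0 hx0 hx0c
  have habm : a ^ m * b ^ m = 1 := by
    have : Commute a b := by
      show a * b = b * a
      rw [hab, hba]
    rw [← this.mul_pow, hab, one_pow]
  have hbam : b ^ m * a ^ m = 1 := by
    have : Commute b a := by
      show b * a = a * b
      rw [hab, hba]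
    rw [← this.mul_pow, hba, one_pow]
  have hbmx : b ^ m * x0 = x0 * b ^ m := by
    calc b ^ m * x0 = b ^ m * x0 * (a ^ m * b ^ m) := by rw [habm, mul_one]
      _ = b ^ m * (x0 * a ^ m) * b ^ m := by simp only [mul_assoc]
      _ = b ^ m * (a ^ m * x0) * b ^ m := by rw [hamx]
      _ = (b ^ m * a ^ m) * x0 * b ^ m := by simp only [mul_assoc]
      _ = x0 * b ^ m := by rw [hbam, one_mul]
  obtain ⟨q, hq, hχq⟩ := T1_mat (p := p) (A := EN p s) hx φ hφ F₁ hn ho hinv m hm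
    (fun f => δ (ρ f)) (hδc.comp hρ.continuousOn fun f hf => hFx f hf)
    (by show δ (ρ 1) = 1; rw [map_one, hδ1])
    (by
      intro f hf h hh
      show δ (ρ (f * h)) = _
      rw [map_mul, hδm _ _ (hFx f hf) (hFx h hh)])
    (fun f hf h hh => hδcomm _ _ (hFx f hf) (hFx h hh))
    (by
      intro f hf
      show δ (ρ ((φ ^ m) f)) = δ (ρ f)
      rw [czt_pow φ ρ a b hφa]
      have h1 := hFx f hf
      have h2 : (a ^ m * ρ f) * x0 = x0 * (a ^ m * ρ f) := by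
        rw [mul_assoc, h1, ← mul_assoc, hamx, mul_assoc]
      rw [hδm _ _ h2 hbmx, hδm _ _ hamx h1, hδcomm _ _ hamx h1, mul_assoc, ← hδm _ _ hamx hbmx,
        habm, hδ1, mul_one])
  -- a large power of p
  have hlim : ∀ c : ℝ, Tendsto (fun j : ℕ => ((p : ℝ)⁻¹) ^ j * c) atTop (𝓝 0) := by
    intro c
    have := (tendsto_pow_atTop_nhds_zero_of_lt_one hp0.le hp1).mul_const c
    rwa [zero_mul] at this
  have e1 := (hlim ‖x0‖).eventually_le_const (show (0 : ℝ) < ((p : ℝ)⁻¹) ^ k by positivity)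
  have e2 := (hlim ‖y‖).eventually_le_const (show (0 : ℝ) < ((p : ℝ)⁻¹) ^ 2 by positivity)
  obtain ⟨j, ⟨h1, h2⟩, h3⟩ := ((e1.and e2).and (eventually_ge_atTop j₀)).exists
  have hpn : ∀ (j : ℕ), ‖(p : ℚ_[p]) ^ j‖ = ((p : ℝ)⁻¹) ^ j := by
    intro j
    rw [norm_pow, Padic.norm_p]
  have n1 : ‖(p : ℚ_[p]) ^ j • x0‖ ≤ ((p : ℝ)⁻¹) ^ k := by
    rw [norm_smul, hpn]; exact h1
  have n2 : ‖(p : ℚ_[p]) ^ j • y‖ ≤ ((p : ℝ)⁻¹) ^ 2 := by
    rw [norm_smul, hpn]; exact h2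
  obtain ⟨f, hf⟩ := (hL.2 _ n1).2 (g.smul_mem _ hx0)
  have hfF : f ∈ F₁ := by
    rw [hF₁]
    intro z hz
    rw [hf]
    exact (czt_E_commute z _ (czt_smul _ z x0 (hz.2 x0 hx0))).symm
  have h4 := hχq f hfF
  rw [hf, hδj j h3, ← E_nsmul q _ n2] at h4
  have n3 : ‖q • ((p : ℚ_[p]) ^ j • y)‖ ≤ ((p : ℝ)⁻¹) ^ 2 := by
    rw [← Nat.cast_smul_eq_nsmul ℚ_[p], norm_smul]
    have h5 : ‖((q : ℕ) : ℚ_[p])‖ ≤ 1 := by
      have := Padic.norm_int_le_one (p := p) (q : ℤ)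
      exact_mod_cast this
    calc ‖((q : ℕ) : ℚ_[p])‖ * ‖(p : ℚ_[p]) ^ j • y‖ ≤ 1 * ‖(p : ℚ_[p]) ^ j • y‖ :=
          mul_le_mul_of_nonneg_right h5 (norm_nonneg _)
      _ ≤ _ := by rw [one_mul]; exact n2
  have h5 := E_isom (p := p) (q • ((p : ℚ_[p]) ^ j • y)) 0 n3 (by rw [norm_zero]; positivity)
  rw [h4, E_zero, sub_self, norm_zero, sub_zero] at h5
  have h6 : q • ((p : ℚ_[p]) ^ j • y) = 0 := norm_eq_zero.1 h5.symm
  rw [← Nat.cast_smul_eq_nsmul ℚ_[p], smul_smul] at h6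
  have h8 : ‖((q : ℕ) : ℚ_[p]) * (p : ℚ_[p]) ^ j‖ * ‖y‖ = 0 := by
    rw [← norm_smul, h6, norm_zero]
  rcases mul_eq_zero.1 h8 with h7 | h7
  · rw [norm_eq_zero] at h7
    have hq0 : ((q : ℕ) : ℚ_[p]) ≠ 0 := by exact_mod_cast (by omega : q ≠ 0)
    have hpp : (p : ℚ_[p]) ^ j ≠ 0 := pow_ne_zero _ (by exact_mod_cast (Fact.out : p.Prime).ne_zero)
    exact mul_ne_zero hq0 hpp h7
  · exact hy0 (norm_eq_zero.1 h7)

end

end Pool.Agent.Helper156.RWF.J13974
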