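import Pool.Agent.KS6_3.RW.Helper156.RWF.D0
import Pool.Agent.KS6_3.RW.Helper156.RWF.J12439
import Pool.Agent.KS6_3.RW.Helper156.RWF.J12441
import Pool.Agent.KS6_3.RW.Helper156.RWF.J12442
import Pool.Agent.KS6_3.RW.Helper156.RWF.J12831
import Pool.Agent.KS6_3.RW.Helper156.RWF.J13186
import Pool.Agent.KS6_3.RW.Helper156.RWF.J13187
import Pool.Agent.KS6_3.RW.Helper156.RWF.J13190

namespace Pool.Agent.Helper156.RWF.J14031

open Pool.Agent.Helper156.RWF Pool.Agent.Helper156.RWF.J12439 Pool.Agent.Helper156.RWF.J12441 Pool.Agent.Helper156.RWF.J12442 Pool.Agent.Helper156.RWF.J12831 Pool.Agent.Helper156.RWF.J13186 Pool.Agent.Helper156.RWF.J13187 Pool.Agent.Helper156.RWF.J13190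
open Filter Topology MeasureTheory


section
variable {p : ℕ} [Fact p.Prime]
variable {F : Type} [Group F] [TopologicalSpace F] [IsTopologicalGroup F] [CompactSpace F]
  [T2Space F] [TotallyDisconnectedSpace F]
variable {A : Type} [NormedRing A] [NormedAlgebra ℚ_[p] A] [IsUltrametricDist A] [NormOneClass A]
  [FiniteDimensional ℚ_[p] A]


theorem ai_mul_pow (x : A) (n : ℕ) (y : A) :
    ((ContinuousLinearMap.mul ℚ_[p] A x) ^ n) y = x ^ n * y := by
  induction n generalizing y with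
  | zero => simp
  | succ n ih =>
    rw [pow_succ, ContinuousLinearMap.mul_apply, ih, ContinuousLinearMap.mul_apply', pow_succ,
      mul_assoc]

theorem ai_flip_pow (x : A) (n : ℕ) (y : A) :
    (((ContinuousLinearMap.mul ℚ_[p] A).flip x) ^ n) y = y * x ^ n := by
  induction n generalizing y with
  | zero => simp
  | succ n ih =>
    rw [pow_succ, ContinuousLinearMap.mul_apply, ih, ContinuousLinearMap.flip_apply,
      ContinuousLinearMap.mul_apply', pow_succ', mul_assoc]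

theorem ai_E_mul (x : A) (hx : ‖x‖ ≤ ((p : ℝ)⁻¹) ^ 2) :
    E p (ContinuousLinearMap.mul ℚ_[p] A x) = ContinuousLinearMap.mul ℚ_[p] A (E p x) := by
  unfold E
  rw [(ContinuousLinearMap.mul ℚ_[p] A).map_tsum (E_summable x hx)]
  apply tsum_congr
  intro n
  rw [map_smul]
  congr 1
  ext y
  rw [ai_mul_pow, ContinuousLinearMap.mul_apply']

theorem ai_E_flip (x : A) (hx : ‖x‖ ≤ ((p : ℝ)⁻¹) ^ 2) :
    E p ((ContinuousLinearMap.mul ℚ_[p] A).flip x) = (ContinuousLinearMap.mul ℚ_[p] A).flip (E p x) := by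
  unfold E
  rw [((ContinuousLinearMap.mul ℚ_[p] A).flip).map_tsum (E_summable x hx)]
  apply tsum_congr
  intro n
  rw [map_smul]
  congr 1
  ext y
  rw [ai_flip_pow, ContinuousLinearMap.flip_apply, ContinuousLinearMap.mul_apply']

theorem ai_eval {Y : Type} [NormedAddCommGroup Y] [NormedSpace ℚ_[p] Y]
    [IsUltrametricDist Y] [FiniteDimensional ℚ_[p] Y] [Nontrivial Y]
    (M : Y →L[ℚ_[p]] Y) (hM : ‖M‖ ≤ ((p : ℝ)⁻¹) ^ 2) (y : Y) :
    HasSum (fun n : ℕ => ((n.factorial : ℚ_[p])⁻¹) • (M ^ n) y) (E p M y) := by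
  have hu : IsUltrametricDist (Y →L[ℚ_[p]] Y) := clm_ultrametric Y
  have hs : Summable (fun n : ℕ => ((n.factorial : ℚ_[p])⁻¹) • M ^ n) := E_summable M hM
  have h1 : HasSum (fun n : ℕ => ((n.factorial : ℚ_[p])⁻¹) • M ^ n) (E p M) := hs.hasSum
  have h2 := h1.mapL (ContinuousLinearMap.apply ℚ_[p] Y y)
  exact h2

/-- restriction of the exponential -/
theorem ai_restrict {X : Type} [NormedAddCommGroup X] [NormedSpace ℚ_[p] X]
    [IsUltrametricDist X] [FiniteDimensional ℚ_[p] X] [Nontrivial X]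
    {Y : Type} [NormedAddCommGroup Y] [NormedSpace ℚ_[p] Y]
    [IsUltrametricDist Y] [FiniteDimensional ℚ_[p] Y] [Nontrivial Y]
    (j : X →L[ℚ_[p]] Y) (D : X →L[ℚ_[p]] X) (M : Y →L[ℚ_[p]] Y)
    (hD : ‖D‖ ≤ ((p : ℝ)⁻¹) ^ 2) (hM : ‖M‖ ≤ ((p : ℝ)⁻¹) ^ 2)
    (h : ∀ x, M (j x) = j (D x)) (x : X) : E p M (j x) = j (E p D x) := by
  have hpow : ∀ (n : ℕ) (x : X), (M ^ n) (j x) = j ((D ^ n) x) := by
    intro n
    induction n with
    | zero => intro x; rfl
    | succ n ih =>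
      intro x
      have e1 : (M ^ (n + 1)) (j x) = (M ^ n) (M (j x)) := by rw [pow_succ]; rfl
      have e2 : (D ^ (n + 1)) x = (D ^ n) (D x) := by rw [pow_succ]; rfl
      rw [e1, e2, h, ih]
  have h1 := ai_eval M hM (j x)
  have h2 := (ai_eval D hD x).mapL j
  have h3 : (fun n : ℕ => ((n.factorial : ℚ_[p])⁻¹) • (M ^ n) (j x))
      = fun n : ℕ => j (((n.factorial : ℚ_[p])⁻¹) • (D ^ n) x) := by
    funext n
    rw [map_smul, hpow]
  rw [h3] at h1
  exact h1.unique h2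

/-- powers of an exponential recover the logarithm -/
theorem ai_limit (D : A) (hD : ‖D‖ ≤ ((p : ℝ)⁻¹) ^ 2) :
    Tendsto (fun i : ℕ => (((p : ℚ_[p]) ^ i)⁻¹) • ((E p D) ^ (p ^ i) - 1)) atTop (𝓝 D) := by
  have hp1 : (1 : ℝ) < p := by exact_mod_cast (Fact.out : p.Prime).one_lt
  have hp0 : (0 : ℝ) < p := by linarith
  rw [tendsto_iff_norm_sub_tendsto_zero]
  have hlim : Tendsto (fun i : ℕ => (p : ℝ) * ‖D‖ ^ 2 * ((p : ℝ)⁻¹) ^ i) atTop (𝓝 0) := by
    have := (tendsto_pow_atTop_nhds_zero_of_lt_one (r := (p : ℝ)⁻¹) (by positivity)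
      (inv_lt_one_of_one_lt₀ hp1)).const_mul ((p : ℝ) * ‖D‖ ^ 2)
    simpa using this
  refine squeeze_zero (fun _ => norm_nonneg _) (fun i => ?_) hlim
  have hpi : ((p : ℚ_[p]) ^ i) ≠ 0 := by
    apply pow_ne_zero
    exact_mod_cast (Fact.out : p.Prime).ne_zero
  set y : A := (p ^ i : ℕ) • D with hy
  have hyc : y = ((p : ℚ_[p]) ^ i) • D := by
    rw [hy, ← Nat.cast_smul_eq_nsmul ℚ_[p]]
    push_cast
    rfl
  have hnp : ‖((p : ℚ_[p]) ^ i)‖ = ((p : ℝ)⁻¹) ^ i := by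
    rw [norm_pow, Padic.norm_p]
  have hyn : ‖y‖ = ((p : ℝ)⁻¹) ^ i * ‖D‖ := by
    rw [hyc, norm_smul, hnp]
  have hpile : ((p : ℝ)⁻¹) ^ i ≤ 1 := pow_le_one₀ (by positivity) (inv_le_one_of_one_le₀ hp1.le)
  have hy2 : ‖y‖ ≤ ((p : ℝ)⁻¹) ^ 2 := by
    rw [hyn]
    have := norm_nonneg D
    nlinarith
  have hE : (E p D) ^ (p ^ i) = E p y := (E_nsmul (p ^ i) D hD).symm
  have hest := E_sub_est y 0 hy2 (by rw [norm_zero]; positivity)
  rw [E_zero, sub_zero, norm_zero, max_eq_left (norm_nonneg y)] at hest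
  have heq : (((p : ℚ_[p]) ^ i)⁻¹) • ((E p D) ^ (p ^ i) - 1) - D
      = (((p : ℚ_[p]) ^ i)⁻¹) • (E p y - 1 - y) := by
    rw [hE, smul_sub _ (E p y - 1) y, hyc, smul_smul, inv_mul_cancel₀ hpi, one_smul]
  rw [heq, norm_smul, norm_inv, hnp]
  have hq : 0 < ((p : ℝ)⁻¹) ^ i := by positivity
  calc (((p : ℝ)⁻¹) ^ i)⁻¹ * ‖E p y - 1 - y‖
      ≤ (((p : ℝ)⁻¹) ^ i)⁻¹ * ((p : ℝ) * ‖y‖ * ‖y‖) := by
        apply mul_le_mul_of_nonneg_left hest (by positivity)
    _ = (p : ℝ) * ‖D‖ ^ 2 * ((p : ℝ)⁻¹) ^ i := by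
        rw [hyn]
        field_simp

/-- an automorphism of `g` close to the identity is conjugation by an exponential -/
theorem aut_inner (g : Submodule ℚ_[p] A) (hbr : Brk g) (hW : WProp g) (k : ℕ) :
    ∃ J : ℕ, ∀ a b : A, a * b = 1 → b * a = 1 → (∀ x ∈ g, a * x * b ∈ g) →
      (∀ x ∈ g, ‖a * x * b - x‖ ≤ ((p : ℝ)⁻¹) ^ J * ‖x‖) →
      ∃ x₀ ∈ g, ‖x₀‖ ≤ ((p : ℝ)⁻¹) ^ k ∧ ∀ x ∈ g, a * x * b = E p x₀ * x * E p (-x₀) := by
  have hp1 : (1 : ℝ) < p := by exact_mod_cast (Fact.out : p.Prime).one_lt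
  have hp0 : (0 : ℝ) < p := by linarith
  rcases subsingleton_or_nontrivial ↥g with hs | hn
  · refine ⟨0, fun a b _ _ _ _ => ⟨0, g.zero_mem, by rw [norm_zero]; positivity, ?_⟩⟩
    intro x hx
    have h0 : x = 0 := by
      have := Subsingleton.elim (⟨x, hx⟩ : ↥g) 0
      exact congrArg Subtype.val this
    subst h0
    simp
  · haveI : Nontrivial A := by
      obtain ⟨x, hx⟩ := exists_ne (0 : ↥g)
      exact ⟨⟨x.1, 0, fun h => hx (Subtype.ext h)⟩⟩
    haveI : IsUltrametricDist (↥g →L[ℚ_[p]] ↥g) := clm_ultrametric ↥g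
    haveI : IsUltrametricDist (A →L[ℚ_[p]] A) := clm_ultrametric A
    -- the bracket
    let ad0 : ↥g →ₗ[ℚ_[p]] ↥g →ₗ[ℚ_[p]] ↥g := LinearMap.mk₂ ℚ_[p]
      (fun x y => (⟨(x : A) * y - y * x, hbr x x.2 y y.2⟩ : ↥g))
      (fun x x' y => Subtype.ext (by
        show ((x : A) + x') * y - y * (x + x') = (x * y - y * x) + (x' * y - y * x')
        noncomm_ring))
      (fun c x y => Subtype.ext (by
        show (c • (x : A)) * y - y * (c • (x : A)) = c • ((x : A) * y - y * x)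
        rw [smul_mul_assoc, mul_smul_comm, smul_sub]))
      (fun x y y' => Subtype.ext (by
        show (x : A) * (y + y') - (y + y') * x = (x * y - y * x) + (x * y' - y' * x)
        noncomm_ring))
      (fun c x y => Subtype.ext (by
        show (x : A) * (c • (y : A)) - (c • (y : A)) * x = c • ((x : A) * y - y * x)
        rw [smul_mul_assoc, mul_smul_comm, smul_sub]))
    have had : ∀ x y : ↥g, ((ad0 x y : ↥g) : A) = (x : A) * y - y * x := fun x y => rfl
    have hadc : Continuous (fun q : ↥g × ↥g => ad0 q.1 q.2) := by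
      apply Continuous.subtype_mk
      fun_prop
    let adL : ↥g →ₗ[ℚ_[p]] (↥g →L[ℚ_[p]] ↥g) :=
      (LinearMap.toContinuousLinearMap : (↥g →ₗ[ℚ_[p]] ↥g) ≃ₗ[ℚ_[p]] (↥g →L[ℚ_[p]] ↥g)).toLinearMap
        ∘ₗ ad0
    have hadL : ∀ x y : ↥g, adL x y = ad0 x y := fun x y => rfl
    have hker : LinearMap.ker adL = ⊥ := by
      rw [LinearMap.ker_eq_bot']
      intro x hx
      apply Subtype.ext
      apply center_zero_of_wprop g hbr hW x.1 x.2
      intro y hy
      have h1 : adL x ⟨y, hy⟩ = 0 := by rw [hx]; rfl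
      have h2 : ((adL x ⟨y, hy⟩ : ↥g) : A) = 0 := by rw [h1]; rfl
      have h3 : (x : A) * y - y * x = 0 := h2
      exact sub_eq_zero.1 h3
    obtain ⟨K, hKpos, hK⟩ := (@LinearMap.exists_antilipschitzWith ℚ_[p] _ ↥g _ _
      (↥g →L[ℚ_[p]] ↥g) _ _ _ _ adL) hker
    obtain ⟨n0, hn0⟩ : ∃ n : ℕ, ((p : ℝ)⁻¹) ^ n < ((p : ℝ)⁻¹) ^ (max k 2) / K :=
      exists_pow_lt_of_lt_one (by positivity) (inv_lt_one_of_one_lt₀ hp1)
    refine ⟨max n0 2, ?_⟩
    intro a b hab hba hpres hclose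
    have hpile : ∀ m n : ℕ, m ≤ n → ((p : ℝ)⁻¹) ^ n ≤ ((p : ℝ)⁻¹) ^ m := fun m n hmn =>
      pow_le_pow_of_le_one (by positivity) (inv_le_one_of_one_le₀ hp1.le) hmn
    let T0 : ↥g →ₗ[ℚ_[p]] ↥g :=
      { toFun := fun x => ⟨a * x * b, hpres x x.2⟩
        map_add' := fun x y => Subtype.ext (by
          show a * ((x : A) + y) * b = a * x * b + a * y * b
          noncomm_ring)
        map_smul' := fun c x => Subtype.ext (by
          show a * (c • (x : A)) * b = c • (a * x * b)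
          rw [mul_smul_comm, smul_mul_assoc]) }
    let T : ↥g →L[ℚ_[p]] ↥g := LinearMap.toContinuousLinearMap T0
    have hT : ∀ x : ↥g, ((T x : ↥g) : A) = a * x * b := fun x => rfl
    have hT1 : ‖T - 1‖ ≤ ((p : ℝ)⁻¹) ^ (max n0 2) := by
      apply ContinuousLinearMap.opNorm_le_bound _ (by positivity)
      intro x
      have h1 := hclose x x.2
      exact h1
    obtain ⟨D, hDn, hDE⟩ := E_surj (max n0 2) (le_max_right _ _) T hT1
    have hD2 : ‖D‖ ≤ ((p : ℝ)⁻¹) ^ 2 := hDn.trans (hpile _ _ (le_max_right _ _))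
    -- `T` is multiplicative
    have hTmul : ∀ x y : ↥g, T (ad0 x y) = ad0 (T x) (T y) := by
      intro x y
      apply Subtype.ext
      rw [hT, had, had, hT, hT]
      have e1 : ∀ u v : A, a * u * b * (a * v * b) = a * (u * v) * b := by
        intro u v
        calc a * u * b * (a * v * b) = a * u * (b * a) * v * b := by noncomm_ring
          _ = a * (u * v) * b := by rw [hba]; noncomm_ring
      rw [e1, e1]
      noncomm_ring
    have hTpow : ∀ (n : ℕ) (x y : ↥g), (T ^ n) (ad0 x y) = ad0 ((T ^ n) x) ((T ^ n) y) := by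
      intro n
      induction n with
      | zero => intro x y; simp
      | succ n ih =>
        intro x y
        rw [pow_succ, ContinuousLinearMap.mul_apply, ContinuousLinearMap.mul_apply,
          ContinuousLinearMap.mul_apply, hTmul, ih]
    have hlim := ai_limit D hD2
    rw [hDE] at hlim
    have hlimx : ∀ x : ↥g, Tendsto (fun i : ℕ => (((p : ℚ_[p]) ^ i)⁻¹) • ((T ^ (p ^ i)) x - x))
        atTop (𝓝 (D x)) := by
      intro x
      have h1 := ((ContinuousLinearMap.apply ℚ_[p] ↥g x).continuous.tendsto D).comp hlim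
      exact h1
    have hpilim : Tendsto (fun i : ℕ => ((p : ℚ_[p]) ^ i)) atTop (𝓝 0) := by
      apply tendsto_pow_atTop_nhds_zero_of_norm_lt_one
      rw [Padic.norm_p]
      exact inv_lt_one_of_one_lt₀ hp1
    have hpne : ∀ i : ℕ, ((p : ℚ_[p]) ^ i) ≠ 0 := fun i => by
      apply pow_ne_zero
      exact_mod_cast (Fact.out : p.Prime).ne_zero
    have hid : ∀ x : ↥g, Tendsto (fun i : ℕ => (T ^ (p ^ i)) x) atTop (𝓝 x) := by
      intro x
      have h1 := (hpilim.smul (hlimx x)).add_const x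
      rw [zero_smul, zero_add] at h1
      refine h1.congr (fun i => ?_)
      rw [smul_smul, mul_inv_cancel₀ (hpne i), one_smul, sub_add_cancel]
    have hder : ∀ x y : ↥g, D (ad0 x y) = ad0 (D x) y + ad0 x (D y) := by
      intro x y
      have h1 := hlimx (ad0 x y)
      have h2 : Tendsto (fun i : ℕ => ad0 ((((p : ℚ_[p]) ^ i)⁻¹) • ((T ^ (p ^ i)) x - x))
          ((T ^ (p ^ i)) y) + ad0 x ((((p : ℚ_[p]) ^ i)⁻¹) • ((T ^ (p ^ i)) y - y)))
          atTop (𝓝 (ad0 (D x) y + ad0 x (D y))) := by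
        apply Tendsto.add
        · exact (hadc.tendsto (D x, y)).comp ((hlimx x).prodMk_nhds (hid y))
        · exact (hadc.tendsto (x, D y)).comp (tendsto_const_nhds.prodMk_nhds (hlimx y))
      refine tendsto_nhds_unique h1 (h2.congr (fun i => ?_))
      rw [hTpow, map_smul, LinearMap.smul_apply, map_smul, ← smul_add, map_sub,
        LinearMap.sub_apply, map_sub]
      congr 1
      abel
    -- the cocycle
    obtain ⟨τ, hτ⟩ := LinearMap.exists_extend (p := g) (V' := Module.End ℚ_[p] ↥g) ad0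
    obtain ⟨D', hD'⟩ := LinearMap.exists_extend (p := g) (D : ↥g →ₗ[ℚ_[p]] ↥g)
    have hτx : ∀ x : ↥g, τ (x : A) = ad0 x := fun x => by
      have := LinearMap.congr_fun hτ x
      exact this
    have hD'x : ∀ x : ↥g, D' (x : A) = D x := fun x => by
      have := LinearMap.congr_fun hD' x
      exact this
    obtain ⟨v, hv⟩ := hW ↥g τ D'
      (fun x hx y hy => by
        have e1 : τ (x * y - y * x) = ad0 (ad0 ⟨x, hx⟩ ⟨y, hy⟩) := hτx (ad0 ⟨x, hx⟩ ⟨y, hy⟩)
        have e2 : τ x = ad0 ⟨x, hx⟩ := hτx ⟨x, hx⟩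
        have e3 : τ y = ad0 ⟨y, hy⟩ := hτx ⟨y, hy⟩
        rw [e1, e2, e3]
        ext z
        rw [LinearMap.sub_apply, Module.End.mul_apply, Module.End.mul_apply]
        simp only [had, AddSubgroupClass.coe_sub]
        noncomm_ring)
      (fun x hx y hy => by
        have e1 : D' (x * y - y * x) = D (ad0 ⟨x, hx⟩ ⟨y, hy⟩) := hD'x (ad0 ⟨x, hx⟩ ⟨y, hy⟩)
        have e2 : τ x = ad0 ⟨x, hx⟩ := hτx ⟨x, hx⟩
        have e3 : τ y = ad0 ⟨y, hy⟩ := hτx ⟨y, hy⟩
        have e4 : D' x = D ⟨x, hx⟩ := hD'x ⟨x, hx⟩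
        have e5 : D' y = D ⟨y, hy⟩ := hD'x ⟨y, hy⟩
        rw [e1, e2, e3, e4, e5, hder]
        apply Subtype.ext
        simp only [had, AddSubgroupClass.coe_sub, Submodule.coe_add]
        noncomm_ring)
    have hDad : D = adL (-v) := by
      ext x
      have h1 : D' (x : A) = τ (x : A) v := hv x x.2
      rw [hD'x, hτx] at h1
      rw [h1, hadL, had, had]
      push_cast
      noncomm_ring
    have hx0n : ‖(-v : ↥g)‖ ≤ ((p : ℝ)⁻¹) ^ (max k 2) := by
      have h2 := hK.le_mul_dist (-v) 0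
      have h3 : dist (-v : ↥g) 0 = ‖(-v : ↥g)‖ := dist_zero_right _
      have h4 : dist (adL (-v)) (adL 0) = ‖D‖ := by
        rw [map_zero, ← hDad]
        exact dist_zero_right D
      rw [h3, h4] at h2
      have h1 : ‖(-v : ↥g)‖ ≤ K * ‖D‖ := h2
      have hK0 : (0 : ℝ) < K := by exact_mod_cast hKpos
      calc ‖(-v : ↥g)‖ ≤ K * ‖D‖ := h1
        _ ≤ K * (((p : ℝ)⁻¹) ^ (max k 2) / K) := by
            apply mul_le_mul_of_nonneg_left _ hK0.le
            exact hDn.trans ((hpile _ _ (le_max_left _ _)).trans hn0.le)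
        _ = ((p : ℝ)⁻¹) ^ (max k 2) := by field_simp
    have hx0A : ‖((-v : ↥g) : A)‖ ≤ ((p : ℝ)⁻¹) ^ (max k 2) := hx0n
    have hx02 : ‖((-v : ↥g) : A)‖ ≤ ((p : ℝ)⁻¹) ^ 2 := hx0A.trans (hpile _ _ (le_max_right _ _))
    refine ⟨((-v : ↥g) : A), (-v : ↥g).2, hx0A.trans (hpile _ _ (le_max_left _ _)), ?_⟩
    intro x hx
    generalize hx0 : (-v : ↥g) = x0 at *
    set Lm : A →L[ℚ_[p]] A := ContinuousLinearMap.mul ℚ_[p] A (x0 : A) with hLm
    set Rm : A →L[ℚ_[p]] A := (ContinuousLinearMap.mul ℚ_[p] A).flip (-(x0 : A)) with hRm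
    have hLn : ‖Lm‖ ≤ ((p : ℝ)⁻¹) ^ 2 := by
      refine le_trans ?_ hx02
      apply ContinuousLinearMap.opNorm_le_bound _ (norm_nonneg _)
      intro y
      exact norm_mul_le _ _
    have hRn : ‖Rm‖ ≤ ((p : ℝ)⁻¹) ^ 2 := by
      refine le_trans ?_ hx02
      apply ContinuousLinearMap.opNorm_le_bound _ (norm_nonneg _)
      intro y
      have : Rm y = y * (-(x0 : A)) := rfl
      rw [this]
      refine (norm_mul_le _ _).trans ?_
      rw [norm_neg, mul_comm]
    have hcomm : Lm * Rm = Rm * Lm := by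
      ext y
      show (x0 : A) * (y * (-(x0 : A))) = (x0 : A) * y * (-(x0 : A))
      rw [mul_assoc]
    have hE : E p (Lm + Rm) = E p Lm * E p Rm := E_add_comm Lm Rm hLn hRn hcomm
    have hsum : ‖Lm + Rm‖ ≤ ((p : ℝ)⁻¹) ^ 2 :=
      (IsUltrametricDist.norm_add_le_max Lm Rm).trans (max_le hLn hRn)
    have hres := ai_restrict (p := p) g.subtypeL D (Lm + Rm) hD2 hsum (fun y => by
      show (x0 : A) * (y : A) + (y : A) * (-(x0 : A)) = ((D y : ↥g) : A)
      rw [hDad, hadL, had]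
      noncomm_ring) ⟨x, hx⟩
    have hl : E p (Lm + Rm) x = E p (x0 : A) * x * E p (-(x0 : A)) := by
      rw [hE, ContinuousLinearMap.mul_apply, hLm, hRm, ai_E_mul _ hx02,
        ai_E_flip _ (by rw [norm_neg]; exact hx02), ContinuousLinearMap.flip_apply,
        ContinuousLinearMap.mul_apply', ContinuousLinearMap.mul_apply', mul_assoc]
    have hr : g.subtypeL (E p D ⟨x, hx⟩) = a * x * b := by
      rw [hDE]
      rfl
    rw [hr] at hres
    rw [← hl]
    exact hres.symm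

end

end Pool.Agent.Helper156.RWF.J14031
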