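import Pool.Agent.KS6_3.RW.Helper156.RWF.D0
import Pool.Agent.KS6_3.RW.Helper156.RWF.J12439
import Pool.Agent.KS6_3.RW.Helper156.RWF.J12441
import Pool.Agent.KS6_3.RW.Helper156.RWF.J12442
import Pool.Agent.KS6_3.RW.Helper156.RWF.J13186
import Pool.Agent.KS6_3.RW.Helper156.RWF.J13190
import Pool.Agent.KS6_3.RW.Helper156.RWF.J13972
import Pool.Agent.KS6_3.RW.Helper156.RWF.J14027
import Pool.Agent.KS6_3.RW.Helper156.RWF.J14030
import Pool.Agent.KS6_3.RW.Helper156.RWF.J14031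
import Pool.Agent.KS6_3.RW.Helper156.RWF.J14032

namespace Pool.Agent.Helper156.RWF.J14033

open Pool.Agent.Helper156.RWF Pool.Agent.Helper156.RWF.J12439 Pool.Agent.Helper156.RWF.J12441 Pool.Agent.Helper156.RWF.J12442 Pool.Agent.Helper156.RWF.J13186 Pool.Agent.Helper156.RWF.J13190 Pool.Agent.Helper156.RWF.J13972 Pool.Agent.Helper156.RWF.J14027 Pool.Agent.Helper156.RWF.J14030 Pool.Agent.Helper156.RWF.J14031 Pool.Agent.Helper156.RWF.J14032
open Filter Topology MeasureTheory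


section
variable {p : ℕ} [Fact p.Prime]
variable {F : Type} [Group F] [TopologicalSpace F] [IsTopologicalGroup F] [CompactSpace F]
  [T2Space F] [TotallyDisconnectedSpace F]
variable {A : Type} [NormedRing A] [NormedAlgebra ℚ_[p] A] [IsUltrametricDist A] [NormOneClass A]
  [FiniteDimensional ℚ_[p] A]


/-- structure of the equivariant element -/
theorem structure_A (φ : F ≃ₜ* F) (ρ : F →* A) (hρ : Continuous ρ) (hρn : ∀ f, ‖ρ f‖ ≤ 1)
    (g : Submodule ℚ_[p] A) (k : ℕ) (hL : IsLieOf p (Set.range ρ) g k) (hbr : Brk g)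
    (hW : WProp g) (a b : A)
    (hab : a * b = 1) (hba : b * a = 1) (hφ : ∀ f, ρ (φ f) = a * ρ f * b) :
    ∃ (m : ℕ) (f₀ : F), 1 ≤ m ∧ (∀ f, (ρ f₀⁻¹ * a ^ m) * ρ f = ρ f * (ρ f₀⁻¹ * a ^ m)) ∧
      (ρ f₀⁻¹ * a ^ m) * a = a * (ρ f₀⁻¹ * a ^ m) := by
  obtain ⟨hag, hbg, hρg, hcommg⟩ := conj_lie φ ρ hρn g k hL a b hab hba hφ
  obtain ⟨c, hc⟩ := conj_bounded φ ρ hρ hρn g k hL a b hab hba hφ
  obtain ⟨J, hJ⟩ := aut_inner g hbr hW (k + c)
  obtain ⟨m, hm, hm'⟩ := conj_recurrent g a b hab hba hag hbg c hc J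
  have hcz := center_zero_of_wprop g hbr hW
  have hp1 : (1 : ℝ) < p := by exact_mod_cast (Fact.out : p.Prime).one_lt
  have hp0 : (0 : ℝ) < p := by linarith
  have hpi0 : (0 : ℝ) < (p : ℝ)⁻¹ := inv_pos.2 hp0
  have hpi1 : (p : ℝ)⁻¹ ≤ 1 := inv_le_one_of_one_le₀ hp1.le
  have hk2 : ((p : ℝ)⁻¹) ^ k ≤ ((p : ℝ)⁻¹) ^ 2 := pow_le_pow_of_le_one hpi0.le hpi1 hL.1
  have hkc : ((p : ℝ)⁻¹) ^ (k + c) ≤ ((p : ℝ)⁻¹) ^ k :=
    pow_le_pow_of_le_one hpi0.le hpi1 (Nat.le_add_right _ _)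
  have habn : ∀ n : ℕ, a ^ n * b ^ n = 1 := fun n => pow_mul_pow_eq_one n hab
  have hban : ∀ n : ℕ, b ^ n * a ^ n = 1 := fun n => pow_mul_pow_eq_one n hba
  have hstep : ∀ (n : ℕ) (x : A), a ^ (n + 1) * x * b ^ (n + 1) = a * (a ^ n * x * b ^ n) * b := by
    intro n x
    rw [pow_succ' a, pow_succ b]
    noncomm_ring
  have hagn : ∀ n : ℕ, ∀ x ∈ g, a ^ n * x * b ^ n ∈ g := by
    intro n x hx
    induction n with
    | zero => simpa using hx
    | succ n ih =>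
      rw [hstep]
      exact hag _ ih
  obtain ⟨x0, hx0g, hx0n, hx0⟩ := hJ (a ^ m) (b ^ m) (habn m) (hban m) (hagn m) hm'
  have hx0k : ‖x0‖ ≤ ((p : ℝ)⁻¹) ^ k := hx0n.trans hkc
  have hx02 : ‖x0‖ ≤ ((p : ℝ)⁻¹) ^ 2 := hx0k.trans hk2
  have hx0k' : ‖-x0‖ ≤ ((p : ℝ)⁻¹) ^ k := by rwa [norm_neg]
  have hx02' : ‖-x0‖ ≤ ((p : ℝ)⁻¹) ^ 2 := by rwa [norm_neg]
  obtain ⟨f1, hf1⟩ : ∃ f1, ρ f1 = E p x0 := (hL.2 x0 hx0k).2 hx0g
  have hE1 : E p x0 * E p (-x0) = 1 := E_neg x0 hx02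
  have hE2 : E p (-x0) * E p x0 = 1 := by
    have := E_neg (-x0) hx02'
    rwa [neg_neg] at this
  have hf1' : ρ f1⁻¹ = E p (-x0) := by
    have h1 : ρ f1⁻¹ * ρ f1 = 1 := by rw [← map_mul, inv_mul_cancel, map_one]
    calc ρ f1⁻¹ = ρ f1⁻¹ * (E p x0 * E p (-x0)) := by rw [hE1, mul_one]
      _ = (ρ f1⁻¹ * ρ f1) * E p (-x0) := by rw [hf1, mul_assoc]
      _ = E p (-x0) := by rw [h1, one_mul]
  -- the element `z`
  obtain ⟨z, hz⟩ : ∃ z, z = E p (-x0) * a ^ m := ⟨_, rfl⟩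
  obtain ⟨z', hz'⟩ : ∃ z', z' = b ^ m * E p x0 := ⟨_, rfl⟩
  have hzz' : z * z' = 1 := by
    calc z * z' = E p (-x0) * (a ^ m * b ^ m) * E p x0 := by rw [hz, hz']; noncomm_ring
      _ = 1 := by rw [habn, mul_one, hE2]
  have hz'z : z' * z = 1 := by
    calc z' * z = b ^ m * (E p x0 * E p (-x0)) * a ^ m := by rw [hz, hz']; noncomm_ring
      _ = 1 := by rw [hE1, mul_one, hban]
  have hzg : ∀ x ∈ g, z * x = x * z := by
    intro x hx
    calc z * x = E p (-x0) * (a ^ m * x * (b ^ m * a ^ m)) := by rw [hz, hban]; noncomm_ring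
      _ = E p (-x0) * (a ^ m * x * b ^ m) * a ^ m := by noncomm_ring
      _ = (E p (-x0) * E p x0) * x * (E p (-x0) * a ^ m) := by rw [hx0 x hx]; noncomm_ring
      _ = x * z := by rw [hE2, one_mul, hz]
  -- `x1`
  have hx1g : a * x0 * b ∈ g := hag _ hx0g
  have hx1k : ‖a * x0 * b‖ ≤ ((p : ℝ)⁻¹) ^ k := by
    have h1 := (hc 1 x0 hx0g).1
    rw [pow_one, pow_one] at h1
    refine h1.trans ?_
    calc (p : ℝ) ^ c * ‖x0‖ ≤ (p : ℝ) ^ c * ((p : ℝ)⁻¹) ^ (k + c) :=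
          mul_le_mul_of_nonneg_left hx0n (by positivity)
      _ = ((p : ℝ)⁻¹) ^ k := by
          rw [pow_add, mul_comm (((p : ℝ)⁻¹) ^ k), ← mul_assoc, ← mul_pow,
            mul_inv_cancel₀ hp0.ne', one_pow, one_mul]
  have hx12 := hx1k.trans hk2
  have hEx1 : E p (a * x0 * b) = a * E p x0 * b := E_conj a b x0 hab hba hx02
  have hEx1' : E p (-(a * x0 * b)) = a * E p (-x0) * b := by
    rw [← E_conj a b (-x0) hab hba hx02']
    congr 1
    noncomm_ring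
  have haam : ∀ n : ℕ, a * a ^ n = a ^ n * a := fun n => (pow_succ' a n).symm.trans (pow_succ a n)
  have hbbm : ∀ n : ℕ, b ^ n * b = b * b ^ n := fun n => (pow_succ b n).symm.trans (pow_succ' b n)
  have hconj1 : ∀ x ∈ g, E p (a * x0 * b) * x * E p (-(a * x0 * b)) =
      E p x0 * x * E p (-x0) := by
    intro x hx
    calc E p (a * x0 * b) * x * E p (-(a * x0 * b))
        = a * (E p x0 * (b * x * a) * E p (-x0)) * b := by rw [hEx1, hEx1']; noncomm_ring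
      _ = a * (a ^ m * (b * x * a) * b ^ m) * b := by rw [hx0 _ (hbg x hx)]
      _ = (a * a ^ m) * b * x * a * (b ^ m * b) := by noncomm_ring
      _ = a ^ m * (a * b) * x * (a * b) * b ^ m := by rw [haam, hbbm]; noncomm_ring
      _ = a ^ m * x * b ^ m := by rw [hab, mul_one, mul_one]
      _ = E p x0 * x * E p (-x0) := hx0 x hx
  have hE1' : E p (a * x0 * b) * E p (-(a * x0 * b)) = 1 := E_neg _ hx12
  have hE2' : E p (-(a * x0 * b)) * E p (a * x0 * b) = 1 := by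
    have := E_neg (-(a * x0 * b)) (by rwa [norm_neg])
    rwa [neg_neg] at this
  obtain ⟨y, hyk, hyE, -, -⟩ := E_mul_log k hL.1 (-x0) (a * x0 * b) hx0k' hx1k
  have hyg : y ∈ g := by
    rw [← hL.2 y hyk, hyE]
    obtain ⟨f2, hf2⟩ : ∃ f2, ρ f2 = E p (a * x0 * b) := (hL.2 _ hx1k).2 hx1g
    exact ⟨f1⁻¹ * f2, by rw [map_mul, hf1', hf2]⟩
  have hy0 : y = 0 := by
    refine hcz y hyg (fun x hx => ?_)
    refine commute_of_E_commute y x (hyk.trans hk2) ?_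
    rw [hyE]
    calc E p (-x0) * E p (a * x0 * b) * x
        = E p (-x0) * E p (a * x0 * b) * x *
          (E p (-(a * x0 * b)) * E p (a * x0 * b)) := by rw [hE2', mul_one]
      _ = E p (-x0) * (E p (a * x0 * b) * x * E p (-(a * x0 * b))) *
          E p (a * x0 * b) := by noncomm_ring
      _ = (E p (-x0) * E p x0) * x * (E p (-x0) * E p (a * x0 * b)) := by
          rw [hconj1 x hx]; noncomm_ring
      _ = x * (E p (-x0) * E p (a * x0 * b)) := by rw [hE2, one_mul]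
  have hEE : E p (a * x0 * b) = E p x0 := by
    rw [hy0, E_zero] at hyE
    calc E p (a * x0 * b) = (E p x0 * E p (-x0)) * E p (a * x0 * b) := by rw [hE1, one_mul]
      _ = E p x0 * (E p (-x0) * E p (a * x0 * b)) := mul_assoc _ _ _
      _ = E p x0 := by rw [← hyE, mul_one]
  have haE : a * E p x0 = E p x0 * a := by
    calc a * E p x0 = a * E p x0 * (b * a) := by rw [hba, mul_one]
      _ = (a * E p x0 * b) * a := by noncomm_ring
      _ = E p x0 * a := by rw [← hEx1, hEE]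
  have haE' : a * E p (-x0) = E p (-x0) * a := by
    calc a * E p (-x0) = (E p (-x0) * E p x0) * a * E p (-x0) := by rw [hE2, one_mul]
      _ = E p (-x0) * (E p x0 * a) * E p (-x0) := by noncomm_ring
      _ = E p (-x0) * a * (E p x0 * E p (-x0)) := by rw [← haE]; noncomm_ring
      _ = E p (-x0) * a := by rw [hE1, mul_one]
  have hza : z * a = a * z := by
    calc z * a = E p (-x0) * (a ^ m * a) := by rw [hz, mul_assoc]
      _ = (E p (-x0) * a) * a ^ m := by rw [← haam, mul_assoc]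
      _ = a * z := by rw [← haE', hz, mul_assoc]
  have hG : IsCptGrp (Set.range ρ) := by
    refine ⟨⟨1, map_one ρ⟩, ?_, ?_, isCompact_range hρ, ?_⟩
    · rintro _ ⟨u, rfl⟩ _ ⟨v, rfl⟩
      exact ⟨u * v, map_mul ρ u v⟩
    · rintro _ ⟨u, rfl⟩
      refine ⟨ρ u⁻¹, ⟨u⁻¹, rfl⟩, ?_, ?_⟩
      · rw [← map_mul, mul_inv_cancel, map_one]
      · rw [← map_mul, inv_mul_cancel, map_one]
    · rintro _ ⟨u, rfl⟩
      exact hρn u
  have hφn : ∀ (n : ℕ) (f : F), ∃ f', ρ f' = a ^ n * ρ f * b ^ n := by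
    intro n f
    induction n with
    | zero => exact ⟨f, by simp⟩
    | succ n ih =>
      obtain ⟨f', hf'⟩ := ih
      exact ⟨φ f', by rw [hφ, hf', hstep]⟩
  have hzG : ∀ u ∈ Set.range ρ, z * u * z' ∈ Set.range ρ := by
    rintro _ ⟨f, rfl⟩
    obtain ⟨f', hf'⟩ := hφn m f
    refine ⟨f1⁻¹ * f' * f1, ?_⟩
    rw [map_mul, map_mul, hf1', hf', hf1, hz, hz']
    noncomm_ring
  obtain ⟨i, hi, hi'⟩ := finite_power_commute (Set.range ρ) hG g k hL hcz z z' hzz' hz'z hzG hzg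
  have hzi : ρ (f1 ^ i)⁻¹ * a ^ (m * i) = z ^ i := by
    have hcm : Commute (E p (-x0)) (a ^ m) := by
      have h1 : Commute (E p (-x0)) a := haE'.symm
      exact h1.pow_right m
    rw [hz, hcm.mul_pow, ← inv_pow, map_pow, hf1', pow_mul]
  refine ⟨m * i, f1 ^ i, Nat.mul_pos hm hi, ?_, ?_⟩
  · intro f
    rw [hzi]
    exact hi' _ ⟨f, rfl⟩
  · rw [hzi]
    have h1 : Commute z a := hza
    exact h1.pow_left i

end

end Pool.Agent.Helper156.RWF.J14033
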