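import Pool.Agent.KS6_3.RW.Helper156.RWF.D0

namespace Pool.Agent.Helper156.RWF.J14314

open Pool.Agent.Helper156.RWF
open Filter Topology MeasureTheory


/-! ### auxiliary: the free pro-`p` group -/

/-- normal subgroups of the free group of `p`-power index -/
def FPI (p d : ℕ) : Type := {N : Subgroup (FreeGroup (Fin d)) // N.Normal ∧ ∃ k : ℕ, N.index = p ^ k}

instance fpi_normal (p d : ℕ) (N : FPI p d) : N.1.Normal := N.2.1

/-- the finite quotients -/
def FPQ (p d : ℕ) (N : FPI p d) : Type := FreeGroup (Fin d) ⧸ N.1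

noncomputable instance fpq_group (p d : ℕ) (N : FPI p d) : Group (FPQ p d N) :=
  inferInstanceAs (Group (FreeGroup (Fin d) ⧸ N.1))

instance fpq_top (p d : ℕ) (N : FPI p d) : TopologicalSpace (FPQ p d N) := ⊥

instance fpq_disc (p d : ℕ) (N : FPI p d) : DiscreteTopology (FPQ p d N) := ⟨rfl⟩

instance fpq_finite (p d : ℕ) [Fact p.Prime] (N : FPI p d) : Finite (FPQ p d N) := by
  obtain ⟨k, hk⟩ := N.2.2
  have h : N.1.index ≠ 0 := by
    rw [hk]
    exact pow_ne_zero _ (Fact.out : p.Prime).ne_zero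
  exact Nat.finite_of_card_ne_zero h

/-- the diagonal map -/
noncomputable def fpδ (p d : ℕ) : FreeGroup (Fin d) →* (∀ N : FPI p d, FPQ p d N) where
  toFun γ N := (QuotientGroup.mk' N.1 γ : FreeGroup (Fin d) ⧸ N.1)
  map_one' := by
    funext N
    exact map_one (QuotientGroup.mk' N.1)
  map_mul' x y := by
    funext N
    exact map_mul (QuotientGroup.mk' N.1) x y

/-- the closure of the image -/
noncomputable def FPF (p d : ℕ) : Subgroup (∀ N : FPI p d, FPQ p d N) :=
  (fpδ p d).range.topologicalClosure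

/-- the canonical map from the free group -/
noncomputable def fpι (p d : ℕ) : FreeGroup (Fin d) →* FPF p d where
  toFun γ := ⟨fpδ p d γ, Subgroup.le_topologicalClosure _ ⟨γ, rfl⟩⟩
  map_one' := by
    apply Subtype.ext
    exact map_one _
  map_mul' x y := by
    apply Subtype.ext
    exact map_mul _ _ _

theorem fp_dense (p d : ℕ) (z : FPF p d) (W : Set (FPF p d)) (hW : IsOpen W) (hz : z ∈ W) :
    ∃ γ, fpι p d γ ∈ W := by
  obtain ⟨V, hV, rfl⟩ := isOpen_induced_iff.1 hW
  have hz2 : (z : ∀ N : FPI p d, FPQ p d N) ∈ closure (Set.range (fpδ p d)) := z.2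
  obtain ⟨w, hwV, γ, rfl⟩ := mem_closure_iff.1 hz2 V hV hz
  exact ⟨γ, hwV⟩

theorem fp_dense' (p d : ℕ) (z : FPF p d) (K : Subgroup (FPF p d))
    (hK : IsOpen (K : Set (FPF p d))) : ∃ γ, z⁻¹ * fpι p d γ ∈ K := by
  have hc : Continuous (fun w : FPF p d => z⁻¹ * w) := continuous_const.mul continuous_id
  exact fp_dense p d z ((fun w : FPF p d => z⁻¹ * w) ⁻¹' (K : Set (FPF p d))) (hK.preimage hc)
    (by
      show z⁻¹ * z ∈ K
      rw [inv_mul_cancel]
      exact one_mem K)

theorem fp_pow (p d : ℕ) (U : Subgroup (FPF p d))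
    (hUo : IsOpen (U : Set (FPF p d))) (γ : FreeGroup (Fin d)) :
    ∃ k : ℕ, (fpι p d γ) ^ p ^ k ∈ U := by
  obtain ⟨V, hV, hVU⟩ := isOpen_induced_iff.1 hUo
  have h1 : (1 : ∀ N : FPI p d, FPQ p d N) ∈ V := by
    have : (1 : FPF p d) ∈ Subtype.val ⁻¹' V := by
      rw [hVU]
      exact one_mem U
    exact this
  obtain ⟨s, u, hu, hsV⟩ := isOpen_pi_iff.1 hV 1 h1
  choose k hk using fun N : FPI p d => N.2.2
  refine ⟨∑ N ∈ s, k N, ?_⟩
  rw [← map_pow]
  have h2 : fpι p d (γ ^ p ^ ∑ N ∈ s, k N) ∈ Subtype.val ⁻¹' V := by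
    apply hsV
    intro N hN
    have h3 : γ ^ p ^ (∑ N ∈ s, k N) ∈ N.1 := by
      have hdvd : p ^ k N ∣ p ^ ∑ N ∈ s, k N :=
        pow_dvd_pow p (Finset.single_le_sum (f := k) (fun _ _ => Nat.zero_le _) hN)
      obtain ⟨c, hc⟩ := hdvd
      rw [hc, pow_mul, ← hk N]
      exact N.1.pow_mem (Subgroup.pow_index_mem N.1 γ) c
    have h4 : fpδ p d (γ ^ p ^ ∑ N ∈ s, k N) N = 1 :=
      (QuotientGroup.eq_one_iff _).2 h3
    show fpδ p d (γ ^ p ^ ∑ N ∈ s, k N) N ∈ u N
    rw [h4]
    exact (hu N hN).2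
  rw [hVU] at h2
  exact h2

instance fpf_compact (p d : ℕ) [Fact p.Prime] : CompactSpace (FPF p d) :=
  isCompact_iff_compactSpace.1 (Subgroup.isClosed_topologicalClosure _).isCompact

theorem fp_index (p d : ℕ) [Fact p.Prime] (U : Subgroup (FPF p d)) (hU : U.Normal)
    (hUo : IsOpen (U : Set (FPF p d))) : ∃ k : ℕ, U.index = p ^ k := by
  have hfin : Finite (FPF p d ⧸ U) := Subgroup.quotient_finite_of_isOpen U hUo
  have hp : IsPGroup p (FPF p d ⧸ U) := by
    intro q
    obtain ⟨z, rfl⟩ := QuotientGroup.mk'_surjective U q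
    obtain ⟨γ, hγ⟩ := fp_dense' p d z U hUo
    obtain ⟨k, hk⟩ := fp_pow p d U hUo γ
    refine ⟨k, ?_⟩
    have e : QuotientGroup.mk' U z = QuotientGroup.mk' U (fpι p d γ) :=
      QuotientGroup.eq.2 hγ
    rw [e, ← map_pow]
    exact (QuotientGroup.eq_one_iff _).2 hk
  exact IsPGroup.iff_card.1 hp

/-- the subgroup attached to a homomorphism to a finite `p`-group -/
def fpN (p d : ℕ) [Fact p.Prime] (P : Type) [Group P] [Finite P] (hP : IsPGroup p P)
    (h : FreeGroup (Fin d) →* P) : FPI p d :=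
  ⟨h.ker, inferInstance, by
    rw [Subgroup.index_ker]
    exact IsPGroup.iff_card.1 (hP.to_subgroup h.range)⟩

/-- the lift -/
noncomputable def fpLift (p d : ℕ) [Fact p.Prime] (P : Type) [Group P] [Finite P]
    (hP : IsPGroup p P) (h : FreeGroup (Fin d) →* P) : FPF p d →* P :=
  (QuotientGroup.kerLift h).comp
    ((Pi.evalMonoidHom (fun N : FPI p d => FPQ p d N) (fpN p d P hP h)).comp (FPF p d).subtype)

theorem fpLift_ι (p d : ℕ) [Fact p.Prime] (P : Type) [Group P] [Finite P]
    (hP : IsPGroup p P) (h : FreeGroup (Fin d) →* P) (γ : FreeGroup (Fin d)) :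
    fpLift p d P hP h (fpι p d γ) = h γ := rfl

theorem fpLift_open (p d : ℕ) [Fact p.Prime] (P : Type) [Group P] [Finite P]
    (hP : IsPGroup p P) (h : FreeGroup (Fin d) →* P) :
    IsOpen ((fpLift p d P hP h).ker : Set (FPF p d)) := by
  have hc : Continuous (fun z : FPF p d =>
      (z : ∀ N : FPI p d, FPQ p d N) (fpN p d P hP h)) :=
    (continuous_apply _).comp continuous_subtype_val
  exact (isOpen_discrete {q : FPQ p d (fpN p d P hP h) | QuotientGroup.kerLift h q = 1}).preimage hc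

section
variable {p : ℕ} [Fact p.Prime]
variable {F : Type} [Group F] [TopologicalSpace F] [IsTopologicalGroup F] [CompactSpace F]
  [T2Space F] [TotallyDisconnectedSpace F]

theorem exists_freeProP (p d : ℕ) [Fact p.Prime] :
    ∃ (F : Type) (_ : Group F) (_ : TopologicalSpace F) (_ : IsTopologicalGroup F)
      (_ : CompactSpace F) (_ : T2Space F) (_ : TotallyDisconnectedSpace F) (x : Fin d → F),
      IsFreeProP p d F x := by
  refine ⟨FPF p d, inferInstance, inferInstance, inferInstance, inferInstance, inferInstance,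
    inferInstance, fun i => fpι p d (FreeGroup.of i), ?_, ?_⟩
  · intro U hU hUo
    exact fp_index p d U hU hUo
  · intro P _ _ hP y
    refine ⟨fpLift p d P hP (FreeGroup.lift y), ⟨fpLift_open p d P hP _, fun i => ?_⟩, ?_⟩
    · rw [fpLift_ι]
      exact FreeGroup.lift_apply_of
    · rintro f ⟨hfo, hf⟩
      have hfι : f.comp (fpι p d) = FreeGroup.lift y := by
        apply FreeGroup.ext_hom
        intro i
        rw [MonoidHom.comp_apply, hf i]
        exact FreeGroup.lift_apply_of.symm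
      ext z
      have hKo : IsOpen ((f.ker ⊓ (fpLift p d P hP (FreeGroup.lift y)).ker : Subgroup (FPF p d)) :
          Set (FPF p d)) := hfo.inter (fpLift_open p d P hP _)
      obtain ⟨γ, hγ⟩ := fp_dense' p d z _ hKo
      have h1 : f z = f (fpι p d γ) := by
        have h := (Subgroup.mem_inf.1 hγ).1
        rw [MonoidHom.mem_ker, map_mul, map_inv, inv_mul_eq_one] at h
        exact h
      have h2 : fpLift p d P hP (FreeGroup.lift y) z =
          fpLift p d P hP (FreeGroup.lift y) (fpι p d γ) := by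
        have h := (Subgroup.mem_inf.1 hγ).2
        rw [MonoidHom.mem_ker, map_mul, map_inv, inv_mul_eq_one] at h
        exact h
      rw [h1, h2, fpLift_ι, ← hfι]
      rfl

end

end Pool.Agent.Helper156.RWF.J14314
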