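import Pool.Agent.KS6_3.RW.Helper156.RWF.D0
import Pool.Agent.KS6_3.RW.Helper156.RWF.J12831
import Pool.Agent.KS6_3.RW.Helper156.RWF.J13853
import Pool.Agent.KS6_3.RW.Helper156.RWF.J14175

namespace Pool.Agent.Helper156.RWF.J14315

open Pool.Agent.Helper156.RWF Pool.Agent.Helper156.RWF.J12831 Pool.Agent.Helper156.RWF.J13853 Pool.Agent.Helper156.RWF.J14175
open Filter Topology MeasureTheory


section
variable {p : ℕ} [Fact p.Prime]
variable {F : Type} [Group F] [TopologicalSpace F] [IsTopologicalGroup F] [CompactSpace F]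
  [T2Space F] [TotallyDisconnectedSpace F]
variable {A : Type} [NormedRing A] [NormedAlgebra ℚ_[p] A] [IsUltrametricDist A] [NormOneClass A]
  [FiniteDimensional ℚ_[p] A]
variable {B : Type} [NormedRing B] [NormedAlgebra ℚ_[p] B] [IsUltrametricDist B] [NormOneClass B]
  [FiniteDimensional ℚ_[p] B]


section RW315

variable {L : Type} [NormedField L] [NormedAlgebra ℚ_[p] L] [FiniteDimensional ℚ_[p] L] {n N : ℕ}

theorem exists_Psi315 (T : (Fin N → ℚ_[p]) ≃L[ℚ_[p]] (Fin n → L)) :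
    ∃ Ψ : Matrix (Fin n) (Fin n) L →+* EN p N, ∀ M v, Ψ M v = T.symm (M.mulVec (T v)) := by
  let g : Matrix (Fin n) (Fin n) L → EN p N := fun M => LinearMap.toContinuousLinearMap
    { toFun := fun v => T.symm (M.mulVec (T v))
      map_add' := fun v w => by rw [map_add, Matrix.mulVec_add, map_add]
      map_smul' := fun c v => by
        rw [map_smul, Matrix.mulVec_smul, map_smul, RingHom.id_apply] }
  have hg : ∀ M v, g M v = T.symm (M.mulVec (T v)) := fun _ _ => rfl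
  refine ⟨⟨⟨⟨g, ?_⟩, ?_⟩, ?_, ?_⟩, hg⟩
  · refine ContinuousLinearMap.ext fun v => ?_
    rw [hg, Matrix.one_mulVec, ContinuousLinearEquiv.symm_apply_apply]
    rfl
  · intro M M'
    refine ContinuousLinearMap.ext fun v => ?_
    show g (M * M') v = g M (g M' v)
    rw [hg, hg, hg, ContinuousLinearEquiv.apply_symm_apply, Matrix.mulVec_mulVec]
  · refine ContinuousLinearMap.ext fun v => ?_
    show g 0 v = 0
    rw [hg, Matrix.zero_mulVec, map_zero]
  · intro M M'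
    refine ContinuousLinearMap.ext fun v => ?_
    show g (M + M') v = g M v + g M' v
    rw [hg, hg, hg, Matrix.add_mulVec, map_add]

theorem Psi_inj315 (T : (Fin N → ℚ_[p]) ≃L[ℚ_[p]] (Fin n → L))
    (Ψ : Matrix (Fin n) (Fin n) L →+* EN p N) (hΨ : ∀ M v, Ψ M v = T.symm (M.mulVec (T v))) :
    Function.Injective Ψ := by
  intro M M' h
  apply Matrix.toLin'.injective
  refine LinearMap.ext fun w => ?_
  rw [Matrix.toLin'_apply, Matrix.toLin'_apply]
  have h1 := hΨ M (T.symm w)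
  rw [h, hΨ, ContinuousLinearEquiv.apply_symm_apply] at h1
  exact (T.symm.injective h1).symm

theorem Psi_cont315 (T : (Fin N → ℚ_[p]) ≃L[ℚ_[p]] (Fin n → L))
    (Ψ : Matrix (Fin n) (Fin n) L →+* EN p N) (hΨ : ∀ M v, Ψ M v = T.symm (M.mulVec (T v))) :
    Continuous Ψ := by
  rw [continuous_clm_apply]
  intro v
  simp only [hΨ]
  exact T.symm.continuous.comp (Continuous.matrix_mulVec continuous_id continuous_const)

theorem Psi_smul315 (T : (Fin N → ℚ_[p]) ≃L[ℚ_[p]] (Fin n → L))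
    (Ψ : Matrix (Fin n) (Fin n) L →+* EN p N) (hΨ : ∀ M v, Ψ M v = T.symm (M.mulVec (T v)))
    (l : L) (u : Fin n → L) :
    Ψ (l • (1 : Matrix (Fin n) (Fin n) L)) (T.symm u) = T.symm (l • u) := by
  rw [hΨ, ContinuousLinearEquiv.apply_symm_apply, Matrix.smul_mulVec, Matrix.one_mulVec]

theorem Psi_surj315 (T : (Fin N → ℚ_[p]) ≃L[ℚ_[p]] (Fin n → L))
    (Ψ : Matrix (Fin n) (Fin n) L →+* EN p N) (hΨ : ∀ M v, Ψ M v = T.symm (M.mulVec (T v)))
    (e' : EN p N) (he' : ∀ l : L, e' * Ψ (l • (1 : Matrix (Fin n) (Fin n) L)) =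
      Ψ (l • (1 : Matrix (Fin n) (Fin n) L)) * e') : ∃ e, Ψ e = e' := by
  let g : (Fin n → L) →ₗ[L] (Fin n → L) :=
    { toFun := fun v => T (e' (T.symm v))
      map_add' := fun v w => by rw [map_add, map_add, map_add]
      map_smul' := fun l v => by
        have h1 := congrArg (fun A : EN p N => A (T.symm v)) (he' l)
        have h2 : e' (Ψ (l • (1 : Matrix (Fin n) (Fin n) L)) (T.symm v)) =
          Ψ (l • (1 : Matrix (Fin n) (Fin n) L)) (e' (T.symm v)) := h1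
        rw [Psi_smul315 T Ψ hΨ] at h2
        rw [RingHom.id_apply, h2, hΨ, ContinuousLinearEquiv.apply_symm_apply, Matrix.smul_mulVec,
          Matrix.one_mulVec] }
  refine ⟨LinearMap.toMatrix' g, ContinuousLinearMap.ext fun v => ?_⟩
  rw [hΨ, LinearMap.toMatrix'_mulVec]
  show T.symm (T (e' (T.symm (T v)))) = e' v
  rw [ContinuousLinearEquiv.symm_apply_apply, ContinuousLinearEquiv.symm_apply_apply]

theorem norm_le_one315 (A : EN p N) (h : ∀ v, ‖v‖ ≤ 1 → ‖A v‖ ≤ 1) : ‖A‖ ≤ 1 := by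
  refine ContinuousLinearMap.opNorm_le_bound _ zero_le_one fun v => ?_
  rw [one_mul]
  by_cases hv : v = 0
  · rw [hv, map_zero, norm_zero]
  · obtain ⟨i0, hi0⟩ : ∃ i, v i ≠ 0 := by
      by_contra hcon
      push Not at hcon
      exact hv (funext hcon)
    haveI : Nonempty (Fin N) := ⟨i0⟩
    obtain ⟨i, hi⟩ := Finite.exists_max fun i => ‖v i‖
    have h1 : ‖v‖ = ‖v i‖ := le_antisymm
      ((pi_norm_le_iff_of_nonneg (norm_nonneg _)).2 hi) (norm_le_pi_norm v i)
    have h2 : 0 < ‖v i‖ := by rw [← h1]; exact norm_pos_iff.2 hv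
    have h3 : ‖A ((v i)⁻¹ • v)‖ ≤ 1 := by
      apply h
      rw [norm_smul, norm_inv, h1, inv_mul_cancel₀ h2.ne']
    rw [map_smul, norm_smul, norm_inv] at h3
    rw [h1]
    rwa [inv_mul_le_iff₀ h2, mul_one] at h3

end RW315

theorem rigid_of_not_bad {d : ℕ} {x : Fin d → F}
    (hx : Dense ((Subgroup.closure (Set.range x) : Subgroup F) : Set F))
    (φ : F ≃ₜ* F) (hφ : ¬ Bad p φ) : Rigid p φ := by
  intro L _ _ _ n ρ hρ hirr0 c hc hcoc hfrob
  obtain ⟨hn, hirr⟩ := hirr0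
  haveI hul : IsUltrametricDist L := IsUltrametricDist.of_normedAlgebra ℚ_[p]
  haveI hprop : ProperSpace (Fin n → L) := FiniteDimensional.proper ℚ_[p] _
  haveI hne : Nonempty (Fin n) := ⟨⟨0, hn⟩⟩
  obtain ⟨R, hRd⟩ : ∃ R : WeilGroup φ → Matrix (Fin n) (Fin n) L,
    R = fun w => (ρ w : Matrix (Fin n) (Fin n) L) := ⟨_, rfl⟩
  have hR : ∀ w, (ρ w : Matrix (Fin n) (Fin n) L) = R w := fun w => by rw [hRd]
  have hR1 : R 1 = 1 := by rw [← hR, map_one]; rfl
  have hRmul : ∀ w w', R (w * w') = R w * R w' := fun w w' => by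
    rw [← hR, ← hR, ← hR, map_mul]; rfl
  have hRinv : ∀ w, (((ρ w)⁻¹ : GL (Fin n) L) : Matrix (Fin n) (Fin n) L) = R w⁻¹ := fun w => by
    rw [← hR, map_inv]
  have hinFmul : ∀ f h : F, inF φ (f * h) = inF φ f * inF φ h := fun f h => map_mul _ _ _
  have hinF1 : inF φ (1 : F) = 1 := map_one _
  have hinFinv : ∀ f : F, (inF φ f)⁻¹ = inF φ f⁻¹ := fun f => (map_inv _ _).symm
  have hinFc : Continuous (fun f : F => inF φ f) := by
    refine continuous_induced_rng.2 ?_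
    exact continuous_id.prodMk continuous_const
  have hRc : Continuous (fun f => R (inF φ f)) := by
    rw [hRd]
    exact Units.continuous_val.comp (hρ.comp hinFc)
  have hRvc : ∀ v, Continuous fun f => (R (inF φ f)).mulVec v := fun v =>
    Continuous.matrix_mulVec hRc continuous_const
  -- the lattice
  obtain ⟨Λ, hΛ⟩ : ∃ Λ : Set (Fin n → L), Λ = {v | ∀ f : F, ‖(R (inF φ f)).mulVec v‖ ≤ 1} :=
    ⟨_, rfl⟩
  have hΛm : ∀ v, v ∈ Λ ↔ ∀ f : F, ‖(R (inF φ f)).mulVec v‖ ≤ 1 := fun v => by rw [hΛ]; rfl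
  have hΛc : IsCompact Λ := by
    refine (isCompact_closedBall (0 : Fin n → L) 1).of_isClosed_subset ?_ ?_
    · rw [hΛ, Set.setOf_forall]
      refine isClosed_iInter fun f => ?_
      refine isClosed_le (Continuous.norm ?_) continuous_const
      exact Continuous.matrix_mulVec continuous_const continuous_id
    · intro v hv
      rw [mem_closedBall_zero_iff]
      have := (hΛm v).1 hv 1
      rwa [hinF1, hR1, Matrix.one_mulVec] at this
  have hΛadd : ∀ x ∈ Λ, ∀ y ∈ Λ, x + y ∈ Λ := by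
    intro x hx y hy
    rw [hΛm] at hx hy ⊢
    intro f
    rw [Matrix.mulVec_add]
    exact (IsUltrametricDist.norm_add_le_max _ _).trans (max_le (hx f) (hy f))
  have hΛneg : ∀ x ∈ Λ, -x ∈ Λ := by
    intro x hx
    rw [hΛm] at hx ⊢
    intro f
    rw [Matrix.mulVec_neg, norm_neg]
    exact hx f
  have hΛ0 : (0 : Fin n → L) ∈ Λ := by
    rw [hΛm]
    intro f
    rw [Matrix.mulVec_zero, norm_zero]
    exact zero_le_one
  have hΛspan : Submodule.span ℚ_[p] Λ = ⊤ := by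
    rw [eq_top_iff]
    intro v _
    obtain ⟨C, hC⟩ := isCompact_univ.exists_bound_of_continuousOn (hRvc v).continuousOn
    obtain ⟨t, ht0, ht⟩ := NormedField.exists_norm_lt ℚ_[p]
      (show (0:ℝ) < 1 / (|C| + 1) by positivity)
    have htv : t • v ∈ Λ := by
      rw [hΛm]
      intro f
      rw [Matrix.mulVec_smul, norm_smul]
      have h1 := hC f (Set.mem_univ f)
      have h2 : ‖(R (inF φ f)).mulVec v‖ ≤ |C| + 1 := by
        have := le_abs_self C
        linarith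
      calc ‖t‖ * ‖(R (inF φ f)).mulVec v‖ ≤ 1 / (|C| + 1) * (|C| + 1) :=
            mul_le_mul ht.le h2 (norm_nonneg _) (by positivity)
        _ = 1 := by field_simp
    have ht' : t ≠ 0 := norm_pos_iff.1 ht0
    have h3 : v = t⁻¹ • (t • v) := by rw [smul_smul, inv_mul_cancel₀ ht', one_smul]
    rw [h3]
    exact Submodule.smul_mem _ _ (Submodule.subset_span htv)
  obtain ⟨N, hN, T, hT⟩ : ∃ (N : ℕ) (_ : 1 ≤ N) (T : (Fin N → ℚ_[p]) ≃L[ℚ_[p]] (Fin n → L)),
      T '' {v | ‖v‖ ≤ 1} = Λ := by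
    obtain ⟨T, hT⟩ := lattice_basis Λ hΛc hΛadd hΛneg hΛ0 hΛspan
    exact ⟨_, Module.finrank_pos, T, hT⟩
  obtain ⟨Ψ, hΨ⟩ := exists_Psi315 T
  have hΨinj := Psi_inj315 T Ψ hΨ
  have hΨc := Psi_cont315 T Ψ hΨ
  have hcomm : ∀ (l : L) (M : Matrix (Fin n) (Fin n) L),
      Ψ (l • (1 : Matrix (Fin n) (Fin n) L)) * Ψ M =
        Ψ M * Ψ (l • (1 : Matrix (Fin n) (Fin n) L)) := by
    intro l M
    rw [← map_mul, ← map_mul, Matrix.smul_mul, Matrix.mul_smul, Matrix.one_mul, Matrix.mul_one]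
  obtain ⟨ρ', hρ'⟩ : ∃ ρ' : F →* EN p N, ∀ f, ρ' f = Ψ (R (inF φ f)) :=
    ⟨⟨⟨fun f => Ψ (R (inF φ f)), by rw [hinF1, hR1, map_one]⟩, fun f h => by
      show Ψ (R (inF φ (f * h))) = Ψ (R (inF φ f)) * Ψ (R (inF φ h))
      rw [hinFmul, hRmul, map_mul]⟩, fun _ => rfl⟩
  have hρ'c : Continuous ρ' := by
    have : (ρ' : F → EN p N) = fun f => Ψ (R (inF φ f)) := funext hρ'
    rw [this]
    exact hΨc.comp hRc
  have hball : ∀ v : Fin N → ℚ_[p], ‖v‖ ≤ 1 ↔ T v ∈ Λ := by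
    intro v
    rw [← hT]
    constructor
    · exact fun h => ⟨v, h, rfl⟩
    · rintro ⟨w, hw, hw2⟩
      rw [← T.injective hw2]
      exact hw
  have hρ'n : ∀ f, ‖ρ' f‖ ≤ 1 := by
    intro f
    refine norm_le_one315 _ fun v hv => ?_
    rw [hball] at hv ⊢
    rw [hρ', hΨ, ContinuousLinearEquiv.apply_symm_apply]
    rw [hΛm] at hv ⊢
    intro g
    rw [Matrix.mulVec_mulVec, ← hRmul, ← hinFmul]
    exact hv (g * f)
  have hfrob1 : R (frob φ) * R (frob φ)⁻¹ = 1 := by rw [← hRmul, mul_inv_cancel, hR1]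
  have hfrob2 : R (frob φ)⁻¹ * R (frob φ) = 1 := by rw [← hRmul, inv_mul_cancel, hR1]
  have hab : Ψ (R (frob φ)) * Ψ (R (frob φ)⁻¹) = 1 := by rw [← map_mul, hfrob1, map_one]
  have hba : Ψ (R (frob φ)⁻¹) * Ψ (R (frob φ)) = 1 := by rw [← map_mul, hfrob2, map_one]
  have hφa : ∀ f, ρ' (φ f) = Ψ (R (frob φ)) * ρ' f * Ψ (R (frob φ)⁻¹) := by
    intro f
    rw [hρ', hρ', ← map_mul, ← map_mul, ← hRmul, ← hRmul]
    congr 2
    have h1 := SemidirectProduct.inl_aut (φ := zpowersHom (MulAut F) φ.toMulEquiv)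
      (Multiplicative.ofAdd 1) f
    have h2 : ((zpowersHom (MulAut F) φ.toMulEquiv) (Multiplicative.ofAdd 1)) f = φ f := by
      rw [zpowersHom_apply, toAdd_ofAdd, zpow_one]
      rfl
    rw [h2, map_inv] at h1
    exact h1
  -- the commuting algebra
  obtain ⟨ℒ, hℒ⟩ : ∃ ℒ : Set (EN p N), ℒ =
    Set.range (fun l : L => Ψ (l • (1 : Matrix (Fin n) (Fin n) L))) := ⟨_, rfl⟩
  have hℒM : ∀ l ∈ ℒ, ∀ M, l * Ψ M = Ψ M * l := by
    intro l hl M
    rw [hℒ] at hl
    obtain ⟨l, rfl⟩ := hl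
    exact hcomm l M
  have hirr' : ∀ W : Submodule ℚ_[p] (Fin N → ℚ_[p]), (∀ l ∈ ℒ, ∀ w ∈ W, l w ∈ W) →
      (∀ f, ∀ w ∈ W, ρ' f w ∈ W) → (∀ w ∈ W, Ψ (R (frob φ)) w ∈ W) → W = ⊥ ∨ W = ⊤ := by
    intro W hW1 hW2 hW3
    let U : Submodule L (Fin n → L) :=
      { carrier := {u | T.symm u ∈ W}
        add_mem' := fun {u v} hu hv => by
          show T.symm (u + v) ∈ W
          rw [map_add]
          exact W.add_mem hu hv
        zero_mem' := by
          show T.symm 0 ∈ W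
          rw [map_zero]
          exact W.zero_mem
        smul_mem' := fun l u hu => by
          show T.symm (l • u) ∈ W
          rw [← Psi_smul315 T Ψ hΨ]
          exact hW1 _ (by rw [hℒ]; exact ⟨l, rfl⟩) _ hu }
    have hUm : ∀ u, u ∈ U ↔ T.symm u ∈ W := fun _ => Iff.rfl
    have hW4 : ∀ w ∈ W, Ψ (R (frob φ)⁻¹) w ∈ W := by
      let ga : (Fin N → ℚ_[p]) →ₗ[ℚ_[p]] (Fin N → ℚ_[p]) :=
        ((Ψ (R (frob φ)) : EN p N) : (Fin N → ℚ_[p]) →ₗ[ℚ_[p]] (Fin N → ℚ_[p]))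
      have hga : ∀ w, ga w = Ψ (R (frob φ)) w := fun _ => rfl
      let gW : W →ₗ[ℚ_[p]] W := ga.restrict (fun w hw => hW3 w hw)
      have hinj : Function.Injective gW := by
        intro w w' hww
        apply Subtype.ext
        have h1 : Ψ (R (frob φ)) w.1 = Ψ (R (frob φ)) w'.1 := congrArg Subtype.val hww
        have h2 := congrArg (Ψ (R (frob φ)⁻¹)) h1
        have h3 : ∀ v, Ψ (R (frob φ)⁻¹) (Ψ (R (frob φ)) v) = v := fun v => by
          show (Ψ (R (frob φ)⁻¹) * Ψ (R (frob φ))) v = v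
          rw [hba]; rfl
        rwa [h3, h3] at h2
      have hsurj : Function.Surjective gW := LinearMap.surjective_of_injective hinj
      intro w hw
      obtain ⟨w', hw'⟩ := hsurj ⟨w, hw⟩
      have h1 : Ψ (R (frob φ)) w'.1 = w := congrArg Subtype.val hw'
      rw [← h1]
      have h3 : Ψ (R (frob φ)⁻¹) (Ψ (R (frob φ)) w'.1) = w'.1 := by
        show (Ψ (R (frob φ)⁻¹) * Ψ (R (frob φ))) w'.1 = w'.1
        rw [hba]; rfl
      rw [h3]
      exact w'.2
    have hmulW : ∀ w w' : WeilGroup φ, (∀ y ∈ W, Ψ (R w) y ∈ W) → (∀ y ∈ W, Ψ (R w') y ∈ W) →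
        ∀ y ∈ W, Ψ (R (w * w')) y ∈ W := by
      intro w w' h1 h2 y hy
      rw [hRmul, map_mul]
      exact h1 _ (h2 _ hy)
    have hpow : ∀ (w : WeilGroup φ), (∀ y ∈ W, Ψ (R w) y ∈ W) → ∀ (m : ℕ),
        ∀ y ∈ W, Ψ (R (w ^ m)) y ∈ W := by
      intro w hw m
      induction m with
      | zero =>
        intro y hy
        rw [pow_zero, hR1, map_one]
        exact hy
      | succ m ih =>
        rw [pow_succ]
        exact hmulW _ _ ih hw
    have hzpow : ∀ k : ℤ, ∀ y ∈ W, Ψ (R (frob φ ^ k)) y ∈ W := by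
      intro k
      obtain ⟨m, rfl | rfl⟩ := k.eq_nat_or_neg
      · rw [zpow_natCast]
        exact hpow _ hW3 m
      · rw [zpow_neg, zpow_natCast, ← inv_pow]
        exact hpow _ hW4 m
    have hall : ∀ w : WeilGroup φ, ∀ y ∈ W, Ψ (R w) y ∈ W := by
      intro w
      have h1 : w = inF φ w.left * frob φ ^ (Multiplicative.toAdd w.right) := by
        conv_lhs => rw [← SemidirectProduct.inl_left_mul_inr_right w]
        congr 1
        unfold frob
        rw [← map_zpow]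
        congr 1
        rw [← ofAdd_zsmul, smul_eq_mul, mul_one, ofAdd_toAdd]
      rw [h1]
      refine hmulW _ _ ?_ (hzpow _)
      intro y hy
      rw [← hρ']
      exact hW2 _ y hy
    rcases hirr U (fun w v hv => by
      rw [hUm] at hv ⊢
      rw [hR]
      have h1 := hall w _ hv
      rwa [hΨ, ContinuousLinearEquiv.apply_symm_apply] at h1) with h | h
    · left
      rw [eq_bot_iff]
      intro y hy
      have h1 : T y ∈ U := by rw [hUm, ContinuousLinearEquiv.symm_apply_apply]; exact hy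
      rw [h, Submodule.mem_bot] at h1
      rw [Submodule.mem_bot]
      exact (map_eq_zero_iff T T.injective).1 h1
    · right
      rw [eq_top_iff]
      intro y _
      have h1 : T y ∈ U := by rw [h]; exact Submodule.mem_top
      rwa [hUm, ContinuousLinearEquiv.symm_apply_apply] at h1
  obtain ⟨e0, he0⟩ := hfrob
  have hρ'inv : ∀ f, Ψ (((ρ (inF φ f))⁻¹ : GL (Fin n) L) : Matrix (Fin n) (Fin n) L) = ρ' f⁻¹ := by
    intro f
    rw [hRinv, hinFinv, hρ']
  obtain ⟨e', he1, he2⟩ := core hx φ hφ N hN ρ' hρ'c hρ'n (Ψ (R (frob φ))) (Ψ (R (frob φ)⁻¹))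
    hab hba hφa ℒ (fun l hl f => by rw [hρ']; exact hℒM l hl _) (fun l hl => hℒM l hl _) hirr'
    (fun f => Ψ (c f)) (hΨc.comp hc) (fun f l hl => (hℒM l hl _).symm)
    (fun f h => by
      show Ψ (c (f * h)) = _
      rw [hcoc, map_add, map_mul, map_mul, hρ'inv, hR, ← hρ'])
    (Ψ e0) (fun l hl => (hℒM l hl _).symm)
    (fun f => by
      have h1 := congrArg Ψ (he0 f)
      simp only at h1
      rw [map_sub, map_sub, map_mul, map_mul, hρ'inv, hR, ← hρ'] at h1
      rw [← h1]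
      unfold frobAct
      rw [map_mul, map_mul, hR, hRinv])
  obtain ⟨e, he⟩ := Psi_surj315 T Ψ hΨ e' (fun l => by
    apply he1
    rw [hℒ]
    exact ⟨l, rfl⟩)
  refine ⟨e, fun f => hΨinj ?_⟩
  rw [map_sub, map_mul, map_mul, hρ'inv, hR, ← hρ', he]
  exact he2 f

end

end Pool.Agent.Helper156.RWF.J14315
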