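import Pool.Agent.KS6_3.RW.Helper156.RWF.D0

namespace Pool.Agent.Helper156.RWF.J14436

open Pool.Agent.Helper156.RWF
open Filter Topology MeasureTheory


section
variable {p : ℕ} [Fact p.Prime]
variable {F : Type} [Group F] [TopologicalSpace F] [IsTopologicalGroup F] [CompactSpace F]
  [T2Space F] [TotallyDisconnectedSpace F]

/-- the pair map -/
def wpair (φ : F ≃ₜ* F) (w : WeilGroup φ) : F × Multiplicative ℤ := (w.left, w.right)

omit [IsTopologicalGroup F] [CompactSpace F] [T2Space F] [TotallyDisconnectedSpace F] in
theorem wpair_inducing (φ : F ≃ₜ* F) : Topology.IsInducing (wpair φ) := ⟨rfl⟩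

omit [IsTopologicalGroup F] [CompactSpace F] [T2Space F] [TotallyDisconnectedSpace F] in
theorem act_cont_int (φ : F ≃ₜ* F) (k : ℤ) :
    Continuous (fun x : F => (φ.toMulEquiv ^ k : MulAut F) x) := by
  induction k using Int.induction_on with
  | zero =>
    have : (fun x : F => (φ.toMulEquiv ^ (0 : ℤ) : MulAut F) x) = id := by
      funext x
      rw [zpow_zero]
      rfl
    rw [this]
    exact continuous_id
  | succ i ih =>
    have : (fun x : F => (φ.toMulEquiv ^ ((i : ℤ) + 1) : MulAut F) x) =
        φ ∘ (fun x : F => (φ.toMulEquiv ^ (i : ℤ) : MulAut F) x) := by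
      funext x
      rw [add_comm, zpow_add, zpow_one]
      rfl
    rw [this]
    exact φ.continuous_toFun.comp ih
  | pred i ih =>
    have : (fun x : F => (φ.toMulEquiv ^ (-(i : ℤ) - 1) : MulAut F) x) =
        φ.symm ∘ (fun x : F => (φ.toMulEquiv ^ (-(i : ℤ)) : MulAut F) x) := by
      funext x
      rw [show -(i : ℤ) - 1 = -1 + -(i : ℤ) by ring, zpow_add, zpow_neg_one]
      rfl
    rw [this]
    exact φ.continuous_invFun.comp ih

omit [IsTopologicalGroup F] [CompactSpace F] [T2Space F] [TotallyDisconnectedSpace F] in
theorem act_cont (φ : F ≃ₜ* F) :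
    Continuous (fun q : Multiplicative ℤ × F =>
      (zpowersHom (MulAut F) φ.toMulEquiv q.1) q.2) := by
  rw [continuous_prod_of_discrete_left]
  intro n
  exact act_cont_int φ (Multiplicative.toAdd n)

omit [IsTopologicalGroup F] [CompactSpace F] [T2Space F] [TotallyDisconnectedSpace F] in
theorem left_cont (φ : F ≃ₜ* F) : Continuous (fun w : WeilGroup φ => w.left) :=
  continuous_fst.comp (wpair_inducing φ).continuous

omit [IsTopologicalGroup F] [CompactSpace F] [T2Space F] [TotallyDisconnectedSpace F] in
theorem right_cont (φ : F ≃ₜ* F) : Continuous (fun w : WeilGroup φ => w.right) :=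
  continuous_snd.comp (wpair_inducing φ).continuous

theorem weil_isTopologicalGroup (φ : F ≃ₜ* F) : IsTopologicalGroup (WeilGroup φ) := by
  refine { continuous_mul := ?_, continuous_inv := ?_ }
  · rw [(wpair_inducing φ).continuous_iff]
    have hl1 : Continuous (fun q : WeilGroup φ × WeilGroup φ => q.1.left) :=
      (left_cont φ).comp continuous_fst
    have hl2 : Continuous (fun q : WeilGroup φ × WeilGroup φ => q.2.left) :=
      (left_cont φ).comp continuous_snd
    have hr1 : Continuous (fun q : WeilGroup φ × WeilGroup φ => q.1.right) :=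
      (right_cont φ).comp continuous_fst
    have hr2 : Continuous (fun q : WeilGroup φ × WeilGroup φ => q.2.right) :=
      (right_cont φ).comp continuous_snd
    have h1 : Continuous (fun q : WeilGroup φ × WeilGroup φ =>
        q.1.left * (zpowersHom (MulAut F) φ.toMulEquiv q.1.right) q.2.left) :=
      hl1.mul ((act_cont φ).comp (hr1.prodMk hl2))
    exact h1.prodMk (hr1.mul hr2)
  · rw [(wpair_inducing φ).continuous_iff]
    have h1 : Continuous (fun w : WeilGroup φ =>
        (zpowersHom (MulAut F) φ.toMulEquiv w.right⁻¹) w.left⁻¹) :=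
      (act_cont φ).comp ((right_cont φ).inv.prodMk (left_cont φ).inv)
    exact h1.prodMk (right_cont φ).inv

theorem weil_open_F (φ : F ≃ₜ* F) : Topology.IsOpenEmbedding (inF φ) := by
  refine ⟨⟨?_, ?_⟩, ?_⟩
  · rw [← (wpair_inducing φ).of_comp_iff]
    have : wpair φ ∘ inF φ = fun x : F => (x, (1 : Multiplicative ℤ)) := by
      funext x
      rfl
    rw [this]
    exact Topology.IsInducing.of_comp (continuous_id.prodMk continuous_const) continuous_fst
      Topology.IsInducing.id
  · intro x y h
    exact SemidirectProduct.inl_injective h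
  · have : Set.range (inF φ) = (fun w : WeilGroup φ => w.right) ⁻¹' {1} := by
      ext w
      simp only [Set.mem_range, Set.mem_preimage, Set.mem_singleton_iff]
      constructor
      · rintro ⟨x, rfl⟩
        rfl
      · intro h
        exact ⟨w.left, SemidirectProduct.ext rfl h.symm⟩
    rw [this]
    exact (isOpen_discrete _).preimage (right_cont φ)

theorem weil_frob_conj (φ : F ≃ₜ* F) (x : F) : frob φ * inF φ x * (frob φ)⁻¹ = inF φ (φ x) := by
  unfold frob inF
  rw [← map_inv, ← SemidirectProduct.inl_aut]
  congr 1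

end

end Pool.Agent.Helper156.RWF.J14436
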